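import Pool.Agent.Run7.h47.Eig3

/-! Eigenvectors on the torus: most of them are spread out. -/

set_option autoImplicit false
set_option linter.unusedSectionVars false

open scoped BigOperators Matrix Topology
open MeasureTheory ProbabilityTheory

namespace Pool.Agent.Run7.h47

open Pool.Agent.W788.MFP.Four Pool.Agent.W788.BK
open Pool.Agent.W788.MFP.Gm (Γ)

theorem mS_cont {d : ℕ} (hd : 3 ≤ d) : Continuous fun E : ℝ => (mS d E).re := by
  rw [continuous_iff_continuousAt]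
  intro E
  have h1 : ∀ E' : ℝ, |(mS d E').re - (mS d E).re| ≤ 3 * 72 * C54 * |E' - E| ^ (1 / 4 : ℝ) := by
    intro E'
    have h2 := cmp2 (k1_cont (E' : ℂ)) (k1_cont E) (HS_cont d)
      (fun s hs => k1_le2 (ζ := (E' : ℂ)) (by simp) hs) (fun s hs => k1_le2 (ζ := (E : ℂ)) (by simp) hs)
      (abs_nonneg (E' - E)) (HS_bd hd)
      (fun s hs => by
        have h3 := k1_diff (ζ := (E' : ℂ)) (by simp) E hs
        have h4 : ‖(E' : ℂ) - E‖ = |E' - E| := by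
          rw [← Complex.ofReal_sub, Complex.norm_real, Real.norm_eq_abs]
        rw [h4] at h3
        have : 0 ≤ (s * |E' - E|) ^ (1 / 4 : ℝ) := by positivity
        linarith)
    refine le_trans ?_ h2
    unfold mS
    rw [← Complex.sub_re]
    exact Complex.abs_re_le_norm _
  rw [ContinuousAt, tendsto_iff_norm_sub_tendsto_zero]
  refine squeeze_zero (fun _ => norm_nonneg _) (fun E' => h1 E') ?_
  have h3 : Continuous fun E' : ℝ => 3 * 72 * C54 * |E' - E| ^ (1 / 4 : ℝ) := by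
    refine continuous_const.mul ?_
    exact (Real.continuous_rpow_const (by norm_num)).comp (by fun_prop)
  have h4 := h3.tendsto E
  simpa using h4

theorem mS_unif {d : ℕ} (hd : 3 ≤ d) (a : ℝ) (ha : a < 2 * d) :
    ∃ c0 : ℝ, 0 < c0 ∧ ∀ E : ℝ, |E| ≤ a → c0 ≤ (mS d E).re := by
  rcases lt_or_ge a 0 with h | h
  · exact ⟨1, one_pos, fun E hE => absurd (abs_nonneg E) (by linarith)⟩
  · have hne : (Set.Icc (-a) a).Nonempty := ⟨0, by simp [h]⟩
    obtain ⟨E0, hE0, hmin⟩ := isCompact_Icc.exists_isMinOn hne ((mS_cont hd).continuousOn)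
    refine ⟨(mS d E0).re, mS_pos hd E0 ?_, fun E hE => hmin (abs_le.1 hE)⟩
    exact (abs_le.2 hE0).trans_lt ha

/-- the windows -/
noncomputable def Ew (a t : ℝ) (w : ℕ) : ℝ := -a + (2 * w + 1) * t

theorem Ew_abs {a t : ℝ} (ha : 0 ≤ a) (ht : 0 < t) {w : ℕ} (hw : w < ⌊a / t⌋₊ + 1) :
    |Ew a t w| ≤ a + t := by
  have h1 : (w : ℝ) ≤ a / t := by
    have h2 : w ≤ ⌊a / t⌋₊ := by omega
    exact (by exact_mod_cast h2 : (w : ℝ) ≤ ⌊a / t⌋₊).trans (Nat.floor_le (by positivity))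
  rw [le_div_iff₀ ht] at h1
  have h3 : (0 : ℝ) ≤ w := Nat.cast_nonneg w
  unfold Ew
  rw [abs_le]
  constructor <;> nlinarith

theorem Ew_cover {a t lam : ℝ} (ht : 0 < t) (h : |lam| ≤ a) :
    ∃ w : ℕ, w < ⌊a / t⌋₊ + 1 ∧ |lam - Ew a t w| ≤ t := by
  have h1 := abs_le.1 h
  have h2 : 0 ≤ (lam + a) / (2 * t) := div_nonneg (by linarith) (by positivity)
  refine ⟨⌊(lam + a) / (2 * t)⌋₊, ?_, ?_⟩
  · have h3 : (lam + a) / (2 * t) ≤ a / t := by
      rw [div_le_div_iff₀ (by positivity) ht]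
      nlinarith
    have := Nat.floor_le_floor h3
    omega
  · have h3 := Nat.floor_le h2
    have h4 := Nat.lt_floor_add_one ((lam + a) / (2 * t))
    rw [le_div_iff₀ (by positivity)] at h3
    rw [div_lt_iff₀ (by positivity)] at h4
    unfold Ew
    rw [abs_le]
    constructor <;> nlinarith

section

variable {d L : ℕ} [NeZero L]

/-- the total -/
noncomputable def Xt (σ a t : ℝ) (n : ℕ) (J : ℤ) (V : T d L → ℝ) : ℝ :=
  ∑ w ∈ Finset.range (⌊a / t⌋₊ + 1), ∑ i : Fin d, 4 * t ^ 2 *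
    Sw n (mom d L (Pi.single i J)) fun x y => ‖R σ (Ew a t w) t V x y‖ ^ 2

/-- the deterministic bound -/
theorem Xt_ge {σ a t : ℝ} (ht : 0 < t) (n : ℕ) (J : ℤ) (V : T d L → ℝ) {ι : Type} [Fintype ι]
    {u : ι → EuclideanSpace ℂ (T d L)} (hu : Orthonormal ℂ u) {lam : ι → ℝ}
    (h : ∀ j, IsEig σ (lam j) V (u j)) (hl : ∀ j, |lam j| ≤ a) :
    ∑ j, ∑ i : Fin d, Sw n (mom d L (Pi.single i J)) (fun x y => ‖u j x‖ ^ 2 * ‖u j y‖ ^ 2) ≤
      Xt σ a t n J V := by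
  have h1 : ∀ (j : ι) (i : Fin d),
      Sw n (mom d L (Pi.single i J)) (fun x y => ‖u j x‖ ^ 2 * ‖u j y‖ ^ 2) ≤
      ∑ w ∈ Finset.range (⌊a / t⌋₊ + 1), 4 * t ^ 2 * (fw (Ew a t w) t (lam j) ^ 2 *
        Sw n (mom d L (Pi.single i J)) (fun x y => ‖u j x‖ ^ 2 * ‖u j y‖ ^ 2)) := by
    intro j i
    obtain ⟨w, hw, hlw⟩ := Ew_cover ht (hl j)
    have h2 := fw_ge ht hlw
    have hS0 : 0 ≤ Sw n (mom d L (Pi.single i J)) (fun x y => ‖u j x‖ ^ 2 * ‖u j y‖ ^ 2) :=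
      Sw_nonneg _ _ fun x y => by positivity
    have h3 : 1 ≤ 4 * t ^ 2 * fw (Ew a t w) t (lam j) ^ 2 := by
      have h4 : (1 / (2 * t)) ^ 2 ≤ fw (Ew a t w) t (lam j) ^ 2 :=
        pow_le_pow_left₀ (by positivity) h2 2
      have h5 : 4 * t ^ 2 * (1 / (2 * t)) ^ 2 = 1 := by
        field_simp
        norm_num
      rw [← h5]
      gcongr
    have h4 : Sw n (mom d L (Pi.single i J)) (fun x y => ‖u j x‖ ^ 2 * ‖u j y‖ ^ 2) ≤
        4 * t ^ 2 * (fw (Ew a t w) t (lam j) ^ 2 *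
        Sw n (mom d L (Pi.single i J)) (fun x y => ‖u j x‖ ^ 2 * ‖u j y‖ ^ 2)) := by
      rw [← mul_assoc]
      exact le_mul_of_one_le_left hS0 h3
    refine h4.trans ?_
    exact Finset.single_le_sum (f := fun w => 4 * t ^ 2 * (fw (Ew a t w) t (lam j) ^ 2 *
      Sw n (mom d L (Pi.single i J)) (fun x y => ‖u j x‖ ^ 2 * ‖u j y‖ ^ 2)))
      (fun w _ => by positivity) (Finset.mem_range.2 hw)
  calc ∑ j, ∑ i : Fin d, Sw n (mom d L (Pi.single i J)) (fun x y => ‖u j x‖ ^ 2 * ‖u j y‖ ^ 2) ≤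
      ∑ j, ∑ i : Fin d, ∑ w ∈ Finset.range (⌊a / t⌋₊ + 1),
        4 * t ^ 2 * (fw (Ew a t w) t (lam j) ^ 2 *
        Sw n (mom d L (Pi.single i J)) (fun x y => ‖u j x‖ ^ 2 * ‖u j y‖ ^ 2)) :=
        Finset.sum_le_sum fun j _ => Finset.sum_le_sum fun i _ => h1 j i
    _ = ∑ w ∈ Finset.range (⌊a / t⌋₊ + 1), ∑ i : Fin d, 4 * t ^ 2 * ∑ j,
        (fw (Ew a t w) t (lam j) ^ 2 *
        Sw n (mom d L (Pi.single i J)) (fun x y => ‖u j x‖ ^ 2 * ‖u j y‖ ^ 2)) := by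
        rw [Finset.sum_congr rfl fun j _ => Finset.sum_comm, Finset.sum_comm]
        refine Finset.sum_congr rfl fun w _ => ?_
        rw [Finset.sum_comm]
        exact Finset.sum_congr rfl fun i _ => by rw [Finset.mul_sum]
    _ ≤ Xt σ a t n J V := by
        unfold Xt
        refine Finset.sum_le_sum fun w _ => Finset.sum_le_sum fun i _ => ?_
        exact mul_le_mul_of_nonneg_left (eig_Sw ht V n _ hu h) (by positivity)

theorem Xt_meas {σ a t : ℝ} (ht : 0 < t) (n : ℕ) (J : ℤ) :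
    Measurable fun V : T d L → ℝ => Xt σ a t n J V := by
  unfold Xt
  exact Finset.measurable_sum _ fun w _ => Finset.measurable_sum _ fun i _ =>
    ((Sw_cont ht n _).measurable).const_mul _

theorem Sw_int {σ E t : ℝ} (ht : 0 < t) (n : ℕ) (q : T d L) :
    Integrable (fun V : T d L → ℝ => Sw n q fun x y => ‖R σ E t V x y‖ ^ 2) (Γ (T d L)) := by
  refine Integrable.of_bound (C := ∑ _x : T d L, ∑ _y : T d L, 1 * (t⁻¹) ^ 2)
    (Sw_cont ht n q).aestronglyMeasurable (Filter.Eventually.of_forall fun V => ?_)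
  rw [Real.norm_of_nonneg (Sw_nonneg _ _ fun x y => by positivity)]
  unfold Sw
  refine Finset.sum_le_sum fun x _ => Finset.sum_le_sum fun y _ => ?_
  refine mul_le_mul ?_ ?_ (by positivity) zero_le_one
  · exact pow_le_one₀ (norm_nonneg _) (ch_le _ _ _)
  · exact pow_le_pow_left₀ (norm_nonneg _) (R_bd ht V x y) 2

theorem Xt_nonneg {σ a t : ℝ} (n : ℕ) (J : ℤ) (V : T d L → ℝ) : 0 ≤ Xt σ a t n J V := by
  unfold Xt
  exact Finset.sum_nonneg fun w _ => Finset.sum_nonneg fun i _ =>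
    mul_nonneg (by positivity) (Sw_nonneg _ _ fun x y => by positivity)

theorem Xt_int {σ a t : ℝ} (ht : 0 < t) (n : ℕ) (J : ℤ) :
    Integrable (fun V : T d L → ℝ => Xt σ a t n J V) (Γ (T d L)) := by
  unfold Xt
  exact integrable_finsetSum _ fun w _ => integrable_finsetSum _ fun i _ =>
    (Sw_int ht n _).const_mul _

/-- the mean of the total -/
theorem Xt_mean {σ a t K0 δ : ℝ} (ha : 0 ≤ a) (ht : 0 < t) (ht1 : t ≤ 1) {n : ℕ} (hn : 0 < n)
    (J : ℤ) (hK0 : 0 ≤ K0) (hδ : 0 ≤ δ)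
    (h0 : ∀ E : ℝ, |E| ≤ a + t → t * ‖ff σ E t (0 : T d L)‖ ≤ K0)
    (h1 : ∀ E : ℝ, |E| ≤ a + t → ∀ i : Fin d, ∀ k < n, ∀ l < n, k ≠ l →
      t * ‖ff σ E t (k • mom d L (Pi.single i J) - l • mom d L (Pi.single i J))‖ ≤ δ) :
    ∫ V, Xt σ a t n J V ∂(Γ (T d L)) ≤ 4 * d * (a + 1) * (K0 / n + δ) * NN d L := by
  have hn0 : (0 : ℝ) < n := by exact_mod_cast hn
  have hN := NN_pos (d := d) (L := L)
  have h2 : ∫ V, Xt σ a t n J V ∂(Γ (T d L)) =
      ∑ w ∈ Finset.range (⌊a / t⌋₊ + 1), ∑ i : Fin d, 4 * t ^ 2 *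
        ∫ V, Sw n (mom d L (Pi.single i J)) (fun x y => ‖R σ (Ew a t w) t V x y‖ ^ 2)
          ∂(Γ (T d L)) := by
    unfold Xt
    rw [integral_finsetSum _ fun w _ => integrable_finsetSum _ fun i _ =>
      (Sw_int ht n _).const_mul _]
    refine Finset.sum_congr rfl fun w _ => ?_
    rw [integral_finsetSum _ fun i _ => (Sw_int ht n _).const_mul _]
    exact Finset.sum_congr rfl fun i _ => integral_const_mul _ _
  rw [h2]
  have h3 : ∀ w ∈ Finset.range (⌊a / t⌋₊ + 1), ∑ i : Fin d, 4 * t ^ 2 *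
        ∫ V, Sw n (mom d L (Pi.single i J)) (fun x y => ‖R σ (Ew a t w) t V x y‖ ^ 2)
          ∂(Γ (T d L)) ≤ d * (4 * t * (NN d L * (K0 / n + δ))) := by
    intro w hw
    have hE := Ew_abs ha ht (Finset.mem_range.1 hw)
    calc ∑ i : Fin d, 4 * t ^ 2 *
        ∫ V, Sw n (mom d L (Pi.single i J)) (fun x y => ‖R σ (Ew a t w) t V x y‖ ^ 2)
          ∂(Γ (T d L)) ≤ ∑ _i : Fin d, 4 * t * (NN d L * (K0 / n + δ)) := by
          refine Finset.sum_le_sum fun i _ => ?_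
          have h4 := Sw_mean (σ := σ) (E := Ew a t w) ht hn (mom d L (Pi.single i J)) (h0 _ hE)
            (h1 _ hE i) hδ
          calc 4 * t ^ 2 * ∫ V, Sw n (mom d L (Pi.single i J))
                (fun x y => ‖R σ (Ew a t w) t V x y‖ ^ 2) ∂(Γ (T d L)) =
              4 * t * (t * ∫ V, Sw n (mom d L (Pi.single i J))
                (fun x y => ‖R σ (Ew a t w) t V x y‖ ^ 2) ∂(Γ (T d L))) := by ring
            _ ≤ _ := by gcongr
      _ = _ := by
          rw [Finset.sum_const, Finset.card_univ, Fintype.card_fin, nsmul_eq_mul]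
  refine (Finset.sum_le_sum h3).trans ?_
  rw [Finset.sum_const, Finset.card_range, nsmul_eq_mul]
  have h4 : ((⌊a / t⌋₊ + 1 : ℕ) : ℝ) * t ≤ a + 1 := by
    push_cast
    have h5 := Nat.floor_le (by positivity : 0 ≤ a / t)
    rw [le_div_iff₀ ht] at h5
    linarith
  calc ((⌊a / t⌋₊ + 1 : ℕ) : ℝ) * (d * (4 * t * (NN d L * (K0 / n + δ)))) =
      (((⌊a / t⌋₊ + 1 : ℕ) : ℝ) * t) * (4 * d * (NN d L * (K0 / n + δ))) := by ring
    _ ≤ (a + 1) * (4 * d * (NN d L * (K0 / n + δ))) := by gcongr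
    _ = _ := by ring

end

end Pool.Agent.Run7.h47
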