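import Pool.Agent.Run7.h47.Zf

/-! Existence of the Green function and measurability. -/

set_option autoImplicit false
set_option linter.unusedSectionVars false

open scoped BigOperators Matrix Topology
open MeasureTheory Filter

namespace Pool.Agent.Run7.h47

open Pool.Agent.W788.MFP.Four Pool.Agent.W788.BK Pool.Agent.W788.MFP.Cut
open Pool.Agent.H4R2.LO (Zd)
open Pool.Agent.H695R3.AN (lf lf_inj lf_add lf_sub)
open Pool.Agent.W788.MFP.Site (z lf_z)

variable {d : ℕ}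

theorem z_add (L : ℕ) (x : Zd d) (i : Fin d) :
    z L (x + Pi.single i 1) = z L x + Pi.single i 1 := by
  funext j
  unfold z
  rw [Pi.add_apply, Pi.add_apply]
  by_cases h : j = i
  · subst h
    rw [Pi.single_eq_same, Pi.single_eq_same]
    push_cast
    rfl
  · rw [Pi.single_eq_of_ne h, Pi.single_eq_of_ne h]
    simp

theorem z_sub (L : ℕ) (x : Zd d) (i : Fin d) :
    z L (x - Pi.single i 1) = z L x - Pi.single i 1 := by
  funext j
  unfold z
  rw [Pi.sub_apply, Pi.sub_apply]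
  by_cases h : j = i
  · subst h
    rw [Pi.single_eq_same, Pi.single_eq_same]
    push_cast
    rfl
  · rw [Pi.single_eq_of_ne h, Pi.single_eq_of_ne h]
    simp

/-- the torus approximations -/
noncomputable def un (σ E t : ℝ) (ω : Zd d → ℝ) (n : ℕ) (x : Zd d) : ℂ :=
  R σ E t (fun y : T d (n + 1) => ω (lf y)) 0 (z (n + 1) x)

theorem un_eq {σ E t : ℝ} (ht : 0 < t) (ω : Zd d → ℝ) (n : ℕ) (x : Zd d) (hx : 2 * ‖x‖ < n + 1) :
    ∑ i, (un σ E t ω n (x + Pi.single i 1) + un σ E t ω n (x - Pi.single i 1)) +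
      σ * ω x * un σ E t ω n x - ((E : ℂ) + (t : ℂ) * Complex.I) * un σ E t ω n x =
      if x = 0 then 1 else 0 := by
  have hlz : lf (z (n + 1) x) = x := lf_z x (by push_cast; exact hx)
  obtain ⟨V, hV⟩ : ∃ V : T d (n + 1) → ℝ, V = fun y => ω (lf y) := ⟨_, rfl⟩
  have h1 : (HZ σ E t V *ᵥ fun y => R σ E t V 0 y) (z (n + 1) x) =
      (1 : Matrix (T d (n + 1)) (T d (n + 1)) ℂ) (z (n + 1) x) 0 := by
    have h2 := congrFun (congrFun (HZ_mul (σ := σ) (E := E) ht V) (z (n + 1) x)) 0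
    rw [← h2, Matrix.mul_apply]
    unfold Matrix.mulVec dotProduct
    refine Finset.sum_congr rfl fun y _ => ?_
    simp only
    rw [R_symm σ E t V 0 y]
  rw [HZ_mulVec] at h1
  unfold un
  simp only [z_add, z_sub]
  rw [← hV]
  have hVx : V (z (n + 1) x) = ω x := by
    rw [hV]
    simp only
    rw [hlz]
  rw [hVx] at h1
  rw [h1]
  by_cases h0 : x = 0
  · subst h0
    have : z (n + 1) (0 : Zd d) = 0 := by
      funext i
      simp [z]
    rw [this, if_pos rfl, Matrix.one_apply_eq]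
  · rw [if_neg h0, Matrix.one_apply_ne]
    intro hcon
    apply h0
    rw [← hlz, hcon]
    funext i
    simp [lf]

theorem un_sum {σ E t : ℝ} (ht : 0 < t) (ω : Zd d → ℝ) (n : ℕ) (F : Finset (Zd d))
    (hF : ∀ x ∈ F, 2 * ‖x‖ < n + 1) : ∑ x ∈ F, ‖un σ E t ω n x‖ ^ 2 ≤ (t ^ 2)⁻¹ := by
  classical
  have hinj : Set.InjOn (z (n + 1) : Zd d → T d (n + 1)) F := by
    intro x hx y hy h
    rw [← lf_z (L := n + 1) x (by push_cast; exact hF x hx),
      ← lf_z (L := n + 1) y (by push_cast; exact hF y hy), h]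
  unfold un
  rw [← Finset.sum_image (f := fun y => ‖R σ E t (fun y : T d (n + 1) => ω (lf y)) 0 y‖ ^ 2) hinj]
  refine le_trans (Finset.sum_le_sum_of_subset_of_nonneg (Finset.subset_univ _)
    fun y _ _ => by positivity) ?_
  exact R_sum_le ht _ 0

/-- **existence** -/
theorem green_exists {σ E t : ℝ} (ht : 0 < t) (ω : Zd d → ℝ) :
    ∃ u, IsGreen d σ ((E : ℂ) + (t : ℂ) * Complex.I) ω u := by
  have hlim : ∀ x, ∃ l : ℂ, Tendsto (fun n => un σ E t ω n x) (hyperfilter ℕ) (𝓝 l) := by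
    intro x
    have hc := (isCompact_closedBall (0 : ℂ) t⁻¹).ultrafilter_le_nhds'
      ((hyperfilter ℕ).map fun n => un σ E t ω n x) (by
        rw [Ultrafilter.mem_map]
        refine Filter.univ_mem' fun n => ?_
        rw [Set.mem_preimage, mem_closedBall_zero_iff]
        exact R_bd ht _ _ _)
    obtain ⟨l, _, hl⟩ := hc
    exact ⟨l, hl⟩
  choose u hu using hlim
  have hev : ∀ x : Zd d, ∀ᶠ n : ℕ in (hyperfilter ℕ : Filter ℕ), 2 * ‖x‖ < n + 1 := by
    intro x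
    refine Nat.hyperfilter_le_atTop ?_
    filter_upwards [eventually_ge_atTop ⌈2 * ‖x‖⌉₊] with n hn
    have h1 := Nat.le_ceil (2 * ‖x‖)
    have h2 : ((⌈2 * ‖x‖⌉₊ : ℕ) : ℝ) ≤ n := by exact_mod_cast hn
    linarith
  refine ⟨u, ?_, ?_⟩
  · refine summable_of_sum_le (c := (t ^ 2)⁻¹) (fun x => by positivity) fun F => ?_
    have h1 : Tendsto (fun n => ∑ x ∈ F, ‖un σ E t ω n x‖ ^ 2) (hyperfilter ℕ)
        (𝓝 (∑ x ∈ F, ‖u x‖ ^ 2)) := tendsto_finsetSum _ fun x _ => ((hu x).norm).pow 2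
    refine le_of_tendsto h1 ?_
    have h2 : ∀ᶠ n : ℕ in (hyperfilter ℕ : Filter ℕ), ∀ x ∈ F, 2 * ‖x‖ < n + 1 :=
      (Filter.eventually_all_finset F).2 fun x _ => hev x
    filter_upwards [h2] with n hn
    exact un_sum ht ω n F hn
  · intro x
    have h1 : Tendsto (fun n => ∑ i, (un σ E t ω n (x + Pi.single i 1) +
        un σ E t ω n (x - Pi.single i 1)) +
        σ * ω x * un σ E t ω n x - ((E : ℂ) + (t : ℂ) * Complex.I) * un σ E t ω n x)
        (hyperfilter ℕ) (𝓝 (∑ i, (u (x + Pi.single i 1) + u (x - Pi.single i 1)) +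
        σ * ω x * u x - ((E : ℂ) + (t : ℂ) * Complex.I) * u x)) := by
      refine Tendsto.sub (Tendsto.add (tendsto_finsetSum _ fun i _ => (hu _).add (hu _)) ?_) ?_
      · exact (hu x).const_mul _
      · exact (hu x).const_mul _
    have h2 : (fun n => ∑ i, (un σ E t ω n (x + Pi.single i 1) +
        un σ E t ω n (x - Pi.single i 1)) +
        σ * ω x * un σ E t ω n x - ((E : ℂ) + (t : ℂ) * Complex.I) * un σ E t ω n x) =ᶠ[
          (hyperfilter ℕ : Filter ℕ)] fun _ => if x = 0 then (1 : ℂ) else 0 := by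
      filter_upwards [hev x] with n hn
      exact un_eq ht ω n x hn
    exact tendsto_nhds_unique h1 (tendsto_const_nhds.congr' h2.symm)

/-- existence and uniqueness -/
theorem green_eu {σ E t : ℝ} (ht : 0 < t) (ω : Zd d → ℝ) :
    ∃! u, IsGreen d σ ((E : ℂ) + (t : ℂ) * Complex.I) ω u := by
  obtain ⟨u, hu⟩ := green_exists (σ := σ) (E := E) ht ω
  exact ⟨u, hu, fun v hv => green_unique ht hv hu⟩

/-- rounding a momentum -/
theorem round_mom (L : ℕ) [NeZero L] (θ : Fin d → ℝ) :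
    ∃ j : Fin d → ℤ, ∀ i, |θ i - ang L j i| ≤ Real.pi / L := by
  have hLR : (0 : ℝ) < L := by exact_mod_cast Nat.pos_of_ne_zero (NeZero.ne L)
  have hpi := Real.pi_pos
  refine ⟨fun i => round (θ i * L / (2 * Real.pi)), fun i => ?_⟩
  have h1 := abs_sub_round (θ i * L / (2 * Real.pi))
  have h2 : θ i - ang L (fun i => round (θ i * L / (2 * Real.pi))) i =
      2 * Real.pi / L * (θ i * L / (2 * Real.pi) - round (θ i * L / (2 * Real.pi))) := by
    unfold ang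
    field_simp
  rw [h2, abs_mul, abs_of_pos (by positivity)]
  calc 2 * Real.pi / L * |θ i * L / (2 * Real.pi) - round (θ i * L / (2 * Real.pi))| ≤
      2 * Real.pi / L * (1 / 2) := by gcongr
    _ = _ := by ring

theorem Fm_meas {L : ℕ} [NeZero L] {σ E t : ℝ} (ht : 0 < t) (p : T d L) :
    Measurable fun ω : Zd d → ℝ => Fm σ E t p (fun y => ω (lf y)) 0 0 := by
  have h1 : Continuous fun V : T d L → ℝ => Fm σ E t p V 0 0 := (F_BC ht p 0 0).1
  exact h1.measurable.comp (measurable_pi_iff.2 fun y => measurable_pi_apply _)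

theorem Qz_tend {σ E t : ℝ} (hd : 1 ≤ d) (ht : 0 < t) (θ : Fin d → ℝ)
    (Lf : ℕ → ℕ) [hNZ : ∀ n, NeZero (Lf n)] (hLR : ∀ n, (Lf n : ℝ) = 8 * ((n : ℝ) + 1) ^ 2 + 1)
    (j : ℕ → Fin d → ℤ) (hj : ∀ n i, |θ i - ang (Lf n) (j n) i| ≤ Real.pi / (Lf n : ℝ))
    (ω : Zd d → ℝ) (u : Zd d → ℂ)
    (hG : IsGreen d σ ((E : ℂ) + (t : ℂ) * Complex.I) ω u) :
    Tendsto (fun n => Fm σ E t (mom d (Lf n) (j n)) (fun y => ω (lf y)) 0 0) atTop
      (𝓝 (Qz θ u)) := by
  rw [tendsto_iff_norm_sub_tendsto_zero]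
  have hb : ∀ n : ℕ, ‖Fm σ E t (mom d (Lf n) (j n)) (fun y => ω (lf y)) 0 0 -
      Qz θ u‖ ≤ (10 * d / t ^ 3 + 2 * d * Real.pi / t ^ 2) * (1 / ((n : ℝ) + 1)) := by
    intro n
    rw [norm_sub_rev]
    have h1 := trans (L := Lf n) hd ht (ℓ := (n : ℝ) + 1) (by positivity) (by
      rw [hLR]
      nlinarith) hG θ (j n) _ (hj n)
    refine h1.trans ?_
    have h2 : Real.pi / (Lf n : ℝ) ≤ Real.pi / ((n : ℝ) + 1) ^ 2 := by
      apply div_le_div_of_nonneg_left Real.pi_pos.le (by positivity)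
      rw [hLR]
      nlinarith
    calc 10 * d / (((n : ℝ) + 1) * t ^ 3) + 2 * d * (Real.pi / (Lf n : ℝ)) *
          ((n : ℝ) + 1) / t ^ 2 ≤
        10 * d / (((n : ℝ) + 1) * t ^ 3) + 2 * d * (Real.pi / ((n : ℝ) + 1) ^ 2) *
          ((n : ℝ) + 1) / t ^ 2 := by gcongr
      _ = _ := by
          field_simp
  refine squeeze_zero (fun n => norm_nonneg _) hb ?_
  have h3 := tendsto_one_div_add_atTop_nhds_zero_nat (𝕜 := ℝ)
  have h4 := h3.const_mul (10 * d / t ^ 3 + 2 * d * Real.pi / t ^ 2)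
  rwa [mul_zero] at h4

/-- measurability of the Fourier transform -/
theorem Qz_meas {σ E t : ℝ} (hd : 1 ≤ d) (ht : 0 < t) (θ : Fin d → ℝ)
    {G : (Zd d → ℝ) → Zd d → ℂ}
    (hG : ∀ ω, IsGreen d σ ((E : ℂ) + (t : ℂ) * Complex.I) ω (G ω)) :
    Measurable fun ω => Qz θ (G ω) := by
  obtain ⟨Lf, hNZ, hLR⟩ : ∃ Lf : ℕ → ℕ, (∀ n, NeZero (Lf n)) ∧
      ∀ n, (Lf n : ℝ) = 8 * ((n : ℝ) + 1) ^ 2 + 1 := by
    refine ⟨fun n => 8 * (n + 1) ^ 2 + 1, fun n => ⟨Nat.succ_ne_zero _⟩, fun n => ?_⟩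
    push_cast
    ring
  have hch : ∀ n : ℕ, ∃ j : Fin d → ℤ, ∀ i, |θ i - ang (Lf n) j i| ≤
      Real.pi / (Lf n : ℝ) := fun n => round_mom _ θ
  choose j hj using hch
  have h1 : ∀ n, Measurable fun ω : Zd d → ℝ =>
    Fm σ E t (mom d (Lf n) (j n)) (fun y => ω (lf y)) 0 0 := fun n => Fm_meas ht _
  have h2 : Tendsto (fun (n : ℕ) (ω : Zd d → ℝ) =>
      Fm σ E t (mom d (Lf n) (j n)) (fun y => ω (lf y)) 0 0) atTop
      (𝓝 fun ω => Qz θ (G ω)) := by
    rw [tendsto_pi_nhds]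
    intro ω
    exact Qz_tend hd ht θ Lf hLR j hj ω (G ω) (hG ω)
  exact measurable_of_tendsto_metrizable h1 h2

end Pool.Agent.Run7.h47
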