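import Pool.Agent.Run7.h47.Free

/-! The ladder kernel at small momenta. -/

set_option autoImplicit false
set_option linter.unusedSectionVars false

open scoped BigOperators Matrix
open MeasureTheory Set

namespace Pool.Agent.Run7.h47

open Pool.Agent.W788.MFP.Four Pool.Agent.W788.MFP.Dos

variable {d L : ℕ} [NeZero L]

/-- the momentum with integer components -/
def mom (d L : ℕ) (j : Fin d → ℤ) : T d L := fun i => (j i : ZMod L)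

/-- the angles -/
noncomputable def ang (L : ℕ) (j : Fin d → ℤ) (i : Fin d) : ℝ := 2 * Real.pi * j i / L

/-- the size of the momentum -/
noncomputable def sz (L : ℕ) (j : Fin d → ℤ) : ℝ := ∑ i, |ang L j i|

theorem sz_nonneg (j : Fin d → ℤ) : 0 ≤ sz L j := Finset.sum_nonneg fun _ _ => abs_nonneg _

theorem ang_le (j : Fin d → ℤ) (i : Fin d) : |ang L j i| ≤ sz L j :=
  Finset.single_le_sum (f := fun i => |ang L j i|) (fun _ _ => abs_nonneg _) (Finset.mem_univ i)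

theorem ang_sq (j : Fin d → ℤ) : ∑ i, ang L j i ^ 2 ≤ sz L j ^ 2 := by
  calc ∑ i, ang L j i ^ 2 ≤ ∑ i, |ang L j i| * sz L j := Finset.sum_le_sum fun i _ => by
        rw [← sq_abs, sq]
        exact mul_le_mul_of_nonneg_left (ang_le j i) (abs_nonneg _)
    _ = sz L j ^ 2 := by rw [← Finset.sum_mul, sq]; rfl

theorem char_int (j : ℤ) : (ZMod.stdAddChar (j : ZMod L) : ℂ) =
    Complex.exp (Complex.I * ((2 * Real.pi * j / L : ℝ) : ℂ)) := by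
  rw [ZMod.stdAddChar_coe]
  congr 1
  push_cast
  ring

theorem char_norm (q : ZMod L) : ‖(ZMod.stdAddChar q : ℂ)‖ = 1 := by
  rw [ZMod.stdAddChar_apply]
  exact Circle.norm_coe _

/-- the change of the one dimensional symbol -/
theorem a_shift (q : ZMod L) (j : ℤ) (h : |2 * Real.pi * j / L| ≤ 1) :
    |a (q + (j : ZMod L)) - a q + (2 * Real.pi * j / L) * (2 * (ZMod.stdAddChar q : ℂ).im)| ≤
      2 * (2 * Real.pi * j / L) ^ 2 := by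
  set θ : ℝ := 2 * Real.pi * j / L with hθ
  set χ : ℂ := (ZMod.stdAddChar q : ℂ) with hχ
  have h1 : a (q + (j : ZMod L)) - a q + θ * (2 * χ.im) =
      2 * (χ * (Complex.exp (Complex.I * (θ : ℂ)) - 1 - Complex.I * (θ : ℂ))).re := by
    unfold a
    rw [AddChar.map_add_eq_mul, char_int, ← hθ, ← hχ]
    have h2 : χ * (Complex.exp (Complex.I * (θ : ℂ)) - 1 - Complex.I * (θ : ℂ)) =
        χ * Complex.exp (Complex.I * (θ : ℂ)) - χ - χ * (Complex.I * (θ : ℂ)) := by ring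
    rw [h2, Complex.sub_re, Complex.sub_re]
    have h3 : (χ * (Complex.I * (θ : ℂ))).re = -(χ.im * θ) := by
      simp
    rw [h3]
    ring
  rw [h1, abs_mul, abs_two]
  have h2 : ‖Complex.exp (Complex.I * (θ : ℂ)) - 1 - Complex.I * (θ : ℂ)‖ ≤
      ‖Complex.I * (θ : ℂ)‖ ^ 2 := Complex.norm_exp_sub_one_sub_id_le (by
    rw [norm_mul, Complex.norm_I, one_mul, Complex.norm_real]
    exact h)
  rw [norm_mul, Complex.norm_I, one_mul, Complex.norm_real, Real.norm_eq_abs, sq_abs] at h2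
  have h3 := Complex.abs_re_le_norm
    (χ * (Complex.exp (Complex.I * (θ : ℂ)) - 1 - Complex.I * (θ : ℂ)))
  rw [norm_mul, char_norm, one_mul] at h3
  linarith

/-- the linear part -/
noncomputable def D0 (j : Fin d → ℤ) (k : T d L) : ℝ :=
  -∑ i, ang L j i * (2 * (ZMod.stdAddChar (k i) : ℂ).im)

theorem im_le (q : ZMod L) : |2 * (ZMod.stdAddChar q : ℂ).im| ≤ 2 := by
  rw [abs_mul, abs_two]
  have := Complex.abs_im_le_norm (ZMod.stdAddChar q : ℂ)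
  rw [char_norm] at this
  linarith

theorem D0_le (j : Fin d → ℤ) (k : T d L) : |D0 j k| ≤ 2 * sz L j := by
  unfold D0
  rw [abs_neg]
  refine (Finset.abs_sum_le_sum_abs _ _).trans ?_
  unfold sz
  rw [Finset.mul_sum]
  refine Finset.sum_le_sum fun i _ => ?_
  rw [abs_mul, mul_comm]
  exact mul_le_mul_of_nonneg_right (im_le _) (abs_nonneg _)

theorem adj_shift (j : Fin d → ℤ) (hj : sz L j ≤ 1) (k : T d L) :
    |adj (k + mom d L j) - adj k - D0 j k| ≤ 2 * sz L j ^ 2 := by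
  have h1 : adj (k + mom d L j) - adj k - D0 j k =
      ∑ i, (a (k i + ((j i : ℤ) : ZMod L)) - a (k i) +
        (2 * Real.pi * j i / L) * (2 * (ZMod.stdAddChar (k i) : ℂ).im)) := by
    rw [adj_eq, adj_eq]
    unfold D0 ang mom
    rw [sub_neg_eq_add, ← Finset.sum_sub_distrib, ← Finset.sum_add_distrib]
    rfl
  rw [h1]
  refine (Finset.abs_sum_le_sum_abs _ _).trans ?_
  have h2 : ∑ i, |a (k i + ((j i : ℤ) : ZMod L)) - a (k i) +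
        (2 * Real.pi * j i / L) * (2 * (ZMod.stdAddChar (k i) : ℂ).im)| ≤
      ∑ i, 2 * ang L j i ^ 2 := Finset.sum_le_sum fun i _ =>
    a_shift (k i) (j i) ((ang_le j i).trans hj)
  refine h2.trans ?_
  rw [← Finset.mul_sum]
  have := ang_sq (L := L) j
  linarith

/-- the pointwise expansion -/
theorem gs_shift {ζ : ℂ} (hζ : 0 < ζ.im) (hζ1 : ζ.im ≤ 1) (j : Fin d → ℤ)
    (hj : 4 * sz L j ≤ ζ.im) (k : T d L) :
    |‖gs ζ k - gs ζ (k + mom d L j)‖ ^ 2 - D0 j k ^ 2 * ‖gs ζ k‖ ^ 4| ≤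
      240 * sz L j ^ 3 / ζ.im * ‖gs ζ k‖ ^ 4 := by
  set η := ζ.im with hη
  set Θ := sz L j with hΘ
  have hΘ0 : 0 ≤ Θ := sz_nonneg j
  have hΘ1 : Θ ≤ 1 := by linarith
  set D := adj (k + mom d L j) - adj k with hD
  set x := gs ζ k with hx
  set y := gs ζ (k + mom d L j) with hy
  have a1 := adj_shift j hΘ1 k
  rw [← hD] at a1
  have a2 := D0_le (L := L) j k
  have a3 : |D| ≤ 4 * Θ := by
    have h1 : |D| ≤ |D - D0 j k| + |D0 j k| := by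
      have := abs_add_le (D - D0 j k) (D0 j k)
      rwa [sub_add_cancel] at this
    have h2 : Θ ^ 2 ≤ Θ := by nlinarith
    linarith
  have e1 : x - y = D * x * y := by
    rw [hx, hy]
    unfold gs
    have n1 := sub_ne hζ (adj k)
    have n2 := sub_ne hζ (adj (k + mom d L j))
    rw [hD]
    push_cast
    field_simp
    ring
  have hy1 : ‖y‖ ≤ η⁻¹ := gs_le hζ _
  have hr : ‖x - y‖ ≤ 4 * Θ / η * ‖x‖ := by
    rw [e1, norm_mul, norm_mul, Complex.norm_real, Real.norm_eq_abs]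
    calc |D| * ‖x‖ * ‖y‖ ≤ (4 * Θ) * ‖x‖ * η⁻¹ := by gcongr
      _ = _ := by rw [div_eq_mul_inv]; ring
  set r : ℝ := 4 * Θ / η with hrd
  have hr0 : 0 ≤ r := by positivity
  have hr1 : r ≤ 1 := by
    rw [hrd, div_le_one hζ]
    exact hj
  have hΘr : Θ ≤ r := by
    rw [hrd, le_div_iff₀ hζ]
    nlinarith
  have b1 : |‖y‖ ^ 2 - ‖x‖ ^ 2| ≤ 3 * r * ‖x‖ ^ 2 := by
    have h1 : |‖y‖ - ‖x‖| ≤ r * ‖x‖ := by
      rw [abs_sub_comm]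
      exact (abs_norm_sub_norm_le x y).trans hr
    have h2 : ‖y‖ + ‖x‖ ≤ 3 * ‖x‖ := by
      have h3 := (abs_le.1 h1).2
      nlinarith [norm_nonneg x]
    have h4 : ‖y‖ ^ 2 - ‖x‖ ^ 2 = (‖y‖ - ‖x‖) * (‖y‖ + ‖x‖) := by ring
    rw [h4, abs_mul, abs_of_nonneg (by positivity : 0 ≤ ‖y‖ + ‖x‖)]
    calc |‖y‖ - ‖x‖| * (‖y‖ + ‖x‖) ≤ (r * ‖x‖) * (3 * ‖x‖) := by gcongr
      _ = _ := by ring
  have b2 : |D ^ 2 - D0 j k ^ 2| ≤ 12 * Θ ^ 3 := by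
    have h4 : D ^ 2 - D0 j k ^ 2 = (D - D0 j k) * (D + D0 j k) := by ring
    rw [h4, abs_mul]
    have h5 : |D + D0 j k| ≤ 6 * Θ := (abs_add_le _ _).trans (by linarith)
    calc |D - D0 j k| * |D + D0 j k| ≤ (2 * Θ ^ 2) * (6 * Θ) := by gcongr
      _ = _ := by ring
  have b3 : D ^ 2 ≤ 16 * Θ ^ 2 := by
    rw [← sq_abs]
    calc |D| ^ 2 ≤ (4 * Θ) ^ 2 := pow_le_pow_left₀ (abs_nonneg _) a3 2
      _ = _ := by ring
  have e2 : ‖x - y‖ ^ 2 - D0 j k ^ 2 * ‖x‖ ^ 4 =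
      D ^ 2 * ‖x‖ ^ 2 * (‖y‖ ^ 2 - ‖x‖ ^ 2) + (D ^ 2 - D0 j k ^ 2) * ‖x‖ ^ 4 := by
    rw [e1, norm_mul, norm_mul, Complex.norm_real, Real.norm_eq_abs, mul_pow, mul_pow, sq_abs]
    ring
  rw [e2]
  refine (abs_add_le _ _).trans ?_
  rw [abs_mul (D ^ 2 * ‖x‖ ^ 2), abs_mul (D ^ 2 - D0 j k ^ 2),
    abs_of_nonneg (by positivity : 0 ≤ D ^ 2 * ‖x‖ ^ 2),
    abs_of_nonneg (by positivity : 0 ≤ ‖x‖ ^ 4)]
  calc D ^ 2 * ‖x‖ ^ 2 * |‖y‖ ^ 2 - ‖x‖ ^ 2| + |D ^ 2 - D0 j k ^ 2| * ‖x‖ ^ 4 ≤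
      16 * Θ ^ 2 * ‖x‖ ^ 2 * (3 * r * ‖x‖ ^ 2) + 12 * Θ ^ 3 * ‖x‖ ^ 4 := by gcongr
    _ = (48 * Θ ^ 2 * r + 12 * Θ ^ 2 * Θ) * ‖x‖ ^ 4 := by ring
    _ ≤ (48 * Θ ^ 2 * r + 12 * Θ ^ 2 * r) * ‖x‖ ^ 4 := by gcongr
    _ = 240 * Θ ^ 3 / η * ‖x‖ ^ 4 := by rw [hrd]; ring

theorem sum_four {ζ : ℂ} (hζ : 0 < ζ.im) :
    (NN d L)⁻¹ * ∑ k : T d L, ‖gs ζ k‖ ^ 4 ≤ (GG ζ (0 : T d L) 0).im / ζ.im ^ 3 := by
  have hN := NN_pos (d := d) (L := L)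
  have h1 : (GG ζ (0 : T d L) 0).im = (NN d L)⁻¹ * ∑ k : T d L, ζ.im * ‖gs ζ k‖ ^ 2 := by
    rw [GG_00, ← Complex.ofReal_inv, Complex.im_ofReal_mul, Complex.im_sum]
    congr 1
    exact Finset.sum_congr rfl fun k _ => gs_im ζ hζ k
  rw [h1, mul_div_assoc, Finset.sum_div]
  refine mul_le_mul_of_nonneg_left (Finset.sum_le_sum fun k _ => ?_) (inv_nonneg.2 hN.le)
  have h2 := gs_le hζ k
  have h3 : ‖gs ζ k‖ ^ 2 ≤ (ζ.im)⁻¹ ^ 2 := pow_le_pow_left₀ (norm_nonneg _) h2 2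
  calc ‖gs ζ k‖ ^ 4 = ‖gs ζ k‖ ^ 2 * ‖gs ζ k‖ ^ 2 := by ring
    _ ≤ (ζ.im)⁻¹ ^ 2 * ‖gs ζ k‖ ^ 2 := by gcongr
    _ = _ := by
        field_simp

/-- the quadratic form -/
theorem D0_sum {ζ : ℂ} (hζ : 0 < ζ.im) (j : Fin d → ℤ) :
    ∑ k : T d L, D0 j k ^ 2 * ‖gs ζ k‖ ^ 4 =
      ∑ i, ang L j i ^ 2 * ∑ k : T d L, (2 * (ZMod.stdAddChar (k i) : ℂ).im) ^ 2 *
        ‖gs ζ k‖ ^ 4 := by
  have h1 : ∀ k : T d L, D0 j k ^ 2 * ‖gs ζ k‖ ^ 4 = ∑ i, ∑ l, ang L j i * ang L j l *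
      ((2 * (ZMod.stdAddChar (k i) : ℂ).im) * (2 * (ZMod.stdAddChar (k l) : ℂ).im) *
        ‖gs ζ k‖ ^ 4) := by
    intro k
    unfold D0
    rw [neg_sq, sq, Finset.sum_mul_sum, Finset.sum_mul]
    refine Finset.sum_congr rfl fun i _ => ?_
    rw [Finset.sum_mul]
    refine Finset.sum_congr rfl fun l _ => ?_
    ring
  simp only [h1]
  rw [Finset.sum_comm]
  refine Finset.sum_congr rfl fun i _ => ?_
  rw [Finset.sum_comm, Finset.sum_eq_single i]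
  · rw [← Finset.mul_sum]
    rw [sq]
    congr 1
    exact Finset.sum_congr rfl fun k _ => by ring
  · intro l _ hl
    rw [← Finset.mul_sum, free3 L hζ i l hl.symm, mul_zero]
  · intro h
    exact absurd (Finset.mem_univ i) h

/-- the ladder kernel at small momenta -/
theorem lad (hd : 3 ≤ d) {ζ : ℂ} (hζ : 0 < ζ.im) (hζ1 : ζ.im ≤ 1) (j : Fin d → ℤ)
    (hj : 4 * sz L j ≤ ζ.im) (E0 : ℝ) :
    |(GG ζ (0 : T d L) 0).im / ζ.im - (Kp ζ (mom d L j)).re -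
      1 / 4 * (∑ i, ang L j i ^ 2) / ζ.im ^ 3 * (mS d E0).re| ≤
      120 * sz L j ^ 3 / ζ.im ^ 4 * (GG ζ (0 : T d L) 0).im +
        1 / 2 * (∑ i, ang L j i ^ 2) / ζ.im ^ 3 *
          (er d L ζ.im + 3 * 72 * C54 * ‖ζ - E0‖ ^ (1 / 4 : ℝ)) := by
  have hN := NN_pos (d := d) (L := L)
  set err := er d L ζ.im + 3 * 72 * C54 * ‖ζ - E0‖ ^ (1 / 4 : ℝ) with herr
  rw [Kp_re hζ]
  have h1 : |∑ k : T d L, ‖gs ζ k - gs ζ (k + mom d L j)‖ ^ 2 -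
      ∑ k : T d L, D0 j k ^ 2 * ‖gs ζ k‖ ^ 4| ≤
      240 * sz L j ^ 3 / ζ.im * ∑ k : T d L, ‖gs ζ k‖ ^ 4 := by
    rw [← Finset.sum_sub_distrib, Finset.mul_sum]
    refine (Finset.abs_sum_le_sum_abs _ _).trans (Finset.sum_le_sum fun k _ => ?_)
    exact gs_shift hζ hζ1 j hj k
  have h2 : |(NN d L)⁻¹ * ∑ k : T d L, D0 j k ^ 2 * ‖gs ζ k‖ ^ 4 -
      1 / 2 * (∑ i, ang L j i ^ 2) / ζ.im ^ 3 * (mS d E0).re| ≤
      (∑ i, ang L j i ^ 2) / ζ.im ^ 3 * err := by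
    rw [D0_sum hζ, Finset.mul_sum]
    have e1 : ∑ i, (NN d L)⁻¹ * (ang L j i ^ 2 * ∑ k : T d L,
        (2 * (ZMod.stdAddChar (k i) : ℂ).im) ^ 2 * ‖gs ζ k‖ ^ 4) -
        1 / 2 * (∑ i, ang L j i ^ 2) / ζ.im ^ 3 * (mS d E0).re =
        ∑ i, ang L j i ^ 2 / ζ.im ^ 3 * ((NN d L)⁻¹ * ∑ k : T d L,
          (2 * (ZMod.stdAddChar (k i) : ℂ).im) ^ 2 * (ζ.im ^ 3 * ‖gs ζ k‖ ^ 4) -
            1 / 2 * (mS d E0).re) := by
      have e2 : 1 / 2 * (∑ i, ang L j i ^ 2) / ζ.im ^ 3 * (mS d E0).re =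
          ∑ i, ang L j i ^ 2 / ζ.im ^ 3 * (1 / 2 * (mS d E0).re) := by
        rw [← Finset.sum_mul, ← Finset.sum_div]
        ring
      rw [e2, ← Finset.sum_sub_distrib]
      refine Finset.sum_congr rfl fun i _ => ?_
      have e3 : ∑ k : T d L, (2 * (ZMod.stdAddChar (k i) : ℂ).im) ^ 2 *
          (ζ.im ^ 3 * ‖gs ζ k‖ ^ 4) = ζ.im ^ 3 * ∑ k : T d L,
          (2 * (ZMod.stdAddChar (k i) : ℂ).im) ^ 2 * ‖gs ζ k‖ ^ 4 := by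
        rw [Finset.mul_sum]
        exact Finset.sum_congr rfl fun k _ => by ring
      rw [e3]
      field_simp
    rw [e1]
    refine (Finset.abs_sum_le_sum_abs _ _).trans ?_
    rw [Finset.sum_div, Finset.sum_mul]
    refine Finset.sum_le_sum fun i _ => ?_
    rw [abs_mul, abs_of_nonneg (by positivity : 0 ≤ ang L j i ^ 2 / ζ.im ^ 3)]
    exact mul_le_mul_of_nonneg_left (free2 hd L hζ hζ1 E0 i) (by positivity)
  have h3 := sum_four (d := d) (L := L) hζ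
  have h4 : |(NN d L)⁻¹ * ∑ k : T d L, ‖gs ζ k - gs ζ (k + mom d L j)‖ ^ 2 -
      (NN d L)⁻¹ * ∑ k : T d L, D0 j k ^ 2 * ‖gs ζ k‖ ^ 4| ≤
      240 * sz L j ^ 3 / ζ.im * ((GG ζ (0 : T d L) 0).im / ζ.im ^ 3) := by
    rw [← mul_sub, abs_mul, abs_of_nonneg (inv_nonneg.2 hN.le)]
    calc (NN d L)⁻¹ * |∑ k : T d L, ‖gs ζ k - gs ζ (k + mom d L j)‖ ^ 2 -
        ∑ k : T d L, D0 j k ^ 2 * ‖gs ζ k‖ ^ 4| ≤
        (NN d L)⁻¹ * (240 * sz L j ^ 3 / ζ.im * ∑ k : T d L, ‖gs ζ k‖ ^ 4) := by gcongr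
      _ = 240 * sz L j ^ 3 / ζ.im * ((NN d L)⁻¹ * ∑ k : T d L, ‖gs ζ k‖ ^ 4) := by ring
      _ ≤ _ := by
          refine mul_le_mul_of_nonneg_left h3 ?_
          have := sz_nonneg (L := L) j
          positivity
  have h5 := abs_add_le ((NN d L)⁻¹ * ∑ k : T d L, ‖gs ζ k - gs ζ (k + mom d L j)‖ ^ 2 -
      (NN d L)⁻¹ * ∑ k : T d L, D0 j k ^ 2 * ‖gs ζ k‖ ^ 4)
      ((NN d L)⁻¹ * ∑ k : T d L, D0 j k ^ 2 * ‖gs ζ k‖ ^ 4 -
      1 / 2 * (∑ i, ang L j i ^ 2) / ζ.im ^ 3 * (mS d E0).re)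
  have h6 : 1 / 2 * ((NN d L)⁻¹ * ∑ k : T d L, ‖gs ζ k - gs ζ (k + mom d L j)‖ ^ 2) -
      1 / 4 * (∑ i, ang L j i ^ 2) / ζ.im ^ 3 * (mS d E0).re =
      1 / 2 * (((NN d L)⁻¹ * ∑ k : T d L, ‖gs ζ k - gs ζ (k + mom d L j)‖ ^ 2 -
      (NN d L)⁻¹ * ∑ k : T d L, D0 j k ^ 2 * ‖gs ζ k‖ ^ 4) +
      ((NN d L)⁻¹ * ∑ k : T d L, D0 j k ^ 2 * ‖gs ζ k‖ ^ 4 -
      1 / 2 * (∑ i, ang L j i ^ 2) / ζ.im ^ 3 * (mS d E0).re)) := by ring
  rw [h6, abs_mul, abs_of_pos (by norm_num : (0 : ℝ) < 1 / 2)]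
  have h7 : 120 * sz L j ^ 3 / ζ.im ^ 4 * (GG ζ (0 : T d L) 0).im =
      1 / 2 * (240 * sz L j ^ 3 / ζ.im * ((GG ζ (0 : T d L) 0).im / ζ.im ^ 3)) := by
    field_simp
    ring
  rw [h7]
  have h8 : 1 / 2 * (∑ i, ang L j i ^ 2) / ζ.im ^ 3 * err =
      1 / 2 * ((∑ i, ang L j i ^ 2) / ζ.im ^ 3 * err) := by ring
  rw [h8]
  linarith

/-- the ladder kernel is real -/
theorem Kp_im (ζ : ℂ) (p : T d L) : (Kp ζ p).im = 0 := by
  have h1 : (starRingEnd ℂ) (Kp ζ p) = Kp ζ p := by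
    unfold Kp
    rw [map_sum, ← Equiv.sum_comp (Equiv.neg (T d L))
      (fun x => ((‖GG ζ 0 x‖ ^ 2 : ℝ) : ℂ) * e p x)]
    refine Finset.sum_congr rfl fun x _ => ?_
    rw [map_mul, Complex.conj_ofReal, Equiv.neg_apply, e_neg, GG_row, GG_row,
      Kc_neg _ (gs_neg ζ)]
  exact Complex.conj_eq_iff_im.1 h1

end Pool.Agent.Run7.h47
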