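import Pool.Agent.Run7.h47.Apr2

/-! A priori bounds on smaller tori: the lower bound for the density. -/

set_option autoImplicit false
set_option linter.unusedSectionVars false

open scoped BigOperators Matrix
open MeasureTheory

namespace Pool.Agent.Run7.h47.Q

open Pool.Agent.W788.MFP.Four Pool.Agent.W788.BK
open Pool.Agent.W788.MFP.Form Pool.Agent.W788.MFP.Dos
open Pool.Agent.W788.MFP.Gm (Γ)

theorem exp_small {x β K u : ℝ} {n : ℕ} (hx : 0 < x) (hx1 : x ≤ 1) (hK : 0 < K)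
    (hn : 4 ≤ n * β) (hu : K⁻¹ * x ^ (-β) ≤ u) :
    Real.exp (-u) ≤ n.factorial * K ^ n * x ^ (4 : ℝ) := by
  have h0 : 0 < K⁻¹ * x ^ (-β) := by positivity
  have hu0 : 0 < u := h0.trans_le hu
  have h1 := Real.pow_div_factorial_le_exp u hu0.le n
  have hf : (0 : ℝ) < n.factorial := by exact_mod_cast n.factorial_pos
  have h2 : (K⁻¹ * x ^ (-β)) ^ n ≤ n.factorial * Real.exp u := by
    calc (K⁻¹ * x ^ (-β)) ^ n ≤ u ^ n := pow_le_pow_left₀ h0.le hu n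
      _ = n.factorial * (u ^ n / n.factorial) := by field_simp
      _ ≤ _ := by gcongr
  have h3 : (K⁻¹ * x ^ (-β)) ^ n * (K ^ n * x ^ (n * β)) = 1 := by
    rw [mul_pow, inv_pow, ← Real.rpow_natCast (x ^ (-β)), ← Real.rpow_mul hx.le]
    have h4 : x ^ (-β * (n : ℝ)) * x ^ ((n : ℝ) * β) = 1 := by
      rw [← Real.rpow_add hx]
      have : -β * (n : ℝ) + n * β = 0 := by ring
      rw [this, Real.rpow_zero]
    have h5 : (K ^ n)⁻¹ * K ^ n = 1 := inv_mul_cancel₀ (by positivity)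
    calc (K ^ n)⁻¹ * x ^ (-β * (n : ℝ)) * (K ^ n * x ^ ((n : ℝ) * β)) =
        ((K ^ n)⁻¹ * K ^ n) * (x ^ (-β * (n : ℝ)) * x ^ ((n : ℝ) * β)) := by ring
      _ = 1 := by rw [h4, h5, one_mul]
  have h6 : x ^ ((n : ℝ) * β) ≤ x ^ (4 : ℝ) := Real.rpow_le_rpow_of_exponent_ge hx hx1 hn
  rw [Real.exp_neg, inv_le_iff_one_le_mul₀ (Real.exp_pos u)]
  calc (1 : ℝ) = (K⁻¹ * x ^ (-β)) ^ n * (K ^ n * x ^ (n * β)) := h3.symm
    _ ≤ (n.factorial * Real.exp u) * (K ^ n * x ^ (4 : ℝ)) := by gcongr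
    _ = _ := by ring

theorem er2_small (d : ℕ) (c b1 ε : ℝ) (hc : 0 < c) (hb1 : 2 < b1) (hε : 0 < ε) :
    ∃ s : ℝ, 0 < s ∧ s ≤ 1 ∧ ∀ x : ℝ, 0 < x → x ≤ s → ∀ L : ℕ, x ^ (-b1) ≤ (L : ℝ) →
      ∀ η : ℝ, c * x ^ 2 ≤ η → er2 d L η ≤ ε := by
  obtain ⟨β, hβ⟩ : ∃ β, β = b1 - 2 := ⟨_, rfl⟩
  have hβ0 : 0 < β := by rw [hβ]; linarith
  obtain ⟨n, hn⟩ := exists_nat_ge (4 / β)
  have hn4 : 4 ≤ n * β := by
    rwa [div_le_iff₀ hβ0] at hn
  obtain ⟨K1, hK1⟩ : ∃ K1, K1 = 256 * d / c * (n.factorial * 2 ^ n) +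
    64 / c * (n.factorial * (128 / c) ^ n) := ⟨_, rfl⟩
  obtain ⟨s, hs, H⟩ := small_pow K1 2 ε (by norm_num) hε
  refine ⟨min s 1, by positivity, min_le_right _ _, ?_⟩
  intro x hx hxs L hL η hη
  have hx1 : x ≤ 1 := hxs.trans (min_le_right _ _)
  have hH := H x hx (hxs.trans (min_le_left _ _))
  have hη0 : 0 < η := (by positivity : 0 < c * x ^ 2).trans_le hη
  refine (er2_anti (by positivity : 0 < c * x ^ 2) hη).trans (le_trans ?_ hH)
  have e1 : (1 / 2 : ℝ) ^ L ≤ n.factorial * 2 ^ n * x ^ (4 : ℝ) := by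
    have h1 : (1 / 2 : ℝ) ^ L ≤ Real.exp (-((L : ℝ) / 2)) := by
      have h2 : (1 / 2 : ℝ) ≤ Real.exp (-(1 / 2)) := by
        have := Real.add_one_le_exp (-(1 / 2 : ℝ))
        linarith
      calc (1 / 2 : ℝ) ^ L ≤ Real.exp (-(1 / 2)) ^ L := pow_le_pow_left₀ (by norm_num) h2 L
        _ = Real.exp (-((L : ℝ) / 2)) := by
            rw [← Real.exp_nat_mul]
            congr 1
            ring
    refine h1.trans (exp_small hx hx1 (by norm_num) hn4 ?_)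
    have h2 : x ^ (-β) ≤ x ^ (-b1) := Real.rpow_le_rpow_of_exponent_ge hx hx1 (by linarith)
    have h3 : x ^ (-β) ≤ L := h2.trans hL
    linarith
  have e2 : Real.exp (-(c * x ^ 2 * L / 128)) ≤ n.factorial * (128 / c) ^ n * x ^ (4 : ℝ) := by
    refine exp_small hx hx1 (by positivity) hn4 ?_
    have h2 : x ^ (-β) = x ^ 2 * x ^ (-b1) := by
      rw [← Real.rpow_natCast, ← Real.rpow_add hx]
      congr 1
      rw [hβ]
      push_cast
      ring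
    rw [h2, inv_div]
    calc c / 128 * (x ^ 2 * x ^ (-b1)) ≤ c / 128 * (x ^ 2 * L) := by gcongr
      _ = _ := by ring
  have h4 : x ^ (4 : ℝ) = x ^ 4 := by
    rw [← Real.rpow_natCast]
    norm_num
  have h2' : x ^ (2 : ℝ) = x ^ 2 := by
    rw [← Real.rpow_natCast]
    norm_num
  rw [h4] at e1 e2
  rw [h2']
  unfold er2
  calc 2 * (d * (64 * (1 / 2) ^ L)) / (c * x ^ 2 / 2) +
        32 * Real.exp (-(c * x ^ 2 * L / 128)) / (c * x ^ 2 / 2) ≤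
      2 * (d * (64 * (n.factorial * 2 ^ n * x ^ 4))) / (c * x ^ 2 / 2) +
        32 * (n.factorial * (128 / c) ^ n * x ^ 4) / (c * x ^ 2 / 2) := by gcongr
    _ = K1 * x ^ 2 := by
        rw [hK1]
        field_simp
        ring

/-- **a priori bounds on smaller tori** -/
theorem aprB (d : ℕ) (hd : 3 ≤ d) (κ : ℝ) (hκ0 : 0 < κ) (hκ1 : κ < 4 / 35) (a c0 : ℝ)
    (hc0 : 0 < c0) (hJ : ∀ E : ℝ, |E| ≤ a → c0 ≤ (mJ d E).re) (b1 : ℝ) (hb1 : 2 < b1)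
    (ε : ℝ) (hε : 0 < ε) (hε1 : ε ≤ 1) (s0 : ℝ) (hs0 : 0 < s0) (hs0' : s0 ≤ 1) :
    ∃ s : ℝ, 0 < s ∧ s ≤ 1 / 5 ∧ ∀ (σ E t : ℝ) (L : ℕ) [NeZero L], 0 < |σ| → |σ| ≤ s →
      |E| ≤ a → |σ| ^ (2 + κ) ≤ t → t ≤ s0 * σ ^ 2 → |σ| ^ (-b1) ≤ (L : ℝ) →
      (L : ℝ) ≤ 2 * (|σ| ^ 12)⁻¹ →
      er2 d L (ze d L σ E t).im ≤ ε ∧
      (mm d L σ E t).im ≤ CX ∧
      (ze d L σ E t).im ≤ 1 ∧
      ‖mm d L σ E t - mf d L σ E t‖ ≤ ε * (t / σ ^ 2) ∧
      V1 d L σ E t ≤ ε * (t / σ ^ 2) ^ 3 ∧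
      (∀ p : T d L, t ^ 2 * V2 σ E t p ≤ ε * (t / σ ^ 2) ^ 3) ∧
      ‖mf d L σ E t‖ ≤ C0 ∧
      ‖ze d L σ E t - E‖ ≤ (C0 + 2) * σ ^ 2 := by
  have hC0 := C0_ge
  obtain ⟨e0, he0⟩ : ∃ e0, e0 = min ε (c0 / 8) := ⟨_, rfl⟩
  have he00 : 0 < e0 := by rw [he0]; positivity
  have he0ε : e0 ≤ ε := by rw [he0]; exact min_le_left _ _
  have he0c : e0 ≤ c0 / 8 := by rw [he0]; exact min_le_right _ _
  obtain ⟨s1, hs1, hs1', H1⟩ := aprC d hd κ hκ0 hκ1 e0 he00 (he0ε.trans hε1)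
  obtain ⟨c1, hc1⟩ : ∃ c1, c1 = min (s0 / 2) (c0 / 10) := ⟨_, rfl⟩
  have hc10 : 0 < c1 := by rw [hc1]; positivity
  obtain ⟨s2, hs2, hs2', H2⟩ := er2_small d c1 b1 e0 hc10 hb1 he00
  obtain ⟨s3, hs3, H3⟩ := small_pow (3 * 72 * C54 * (C0 + 2) ^ (1 / 4 : ℝ)) (1 / 2) (c0 / 8)
    (by norm_num) (by positivity)
  refine ⟨min s1 (min s2 s3), by positivity, (min_le_left _ _).trans hs1', ?_⟩
  intro σ E t L _ hσ hσs hE htl htu hL1 hL2
  obtain ⟨x, hx⟩ : ∃ x, x = |σ| := ⟨_, rfl⟩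
  have hσx : σ ^ 2 = x ^ 2 := by rw [hx, sq_abs]
  rw [← hx] at hσ hσs htl hL1 hL2
  have hxs1 : x ≤ s1 := hσs.trans (min_le_left _ _)
  have hxs2 : x ≤ s2 := hσs.trans ((min_le_right _ _).trans (min_le_left _ _))
  have hxs3 : x ≤ s3 := hσs.trans ((min_le_right _ _).trans (min_le_right _ _))
  have hx15 : x ≤ 1 / 5 := hxs1.trans hs1'
  have hx1 : x ≤ 1 := by linarith
  have hσ2 : 0 < σ ^ 2 := by rw [hσx]; positivity
  have hL0 : (x ^ 2)⁻¹ ≤ (L : ℝ) := by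
    refine le_trans ?_ hL1
    rw [← Real.rpow_natCast, ← Real.rpow_neg hσ.le]
    exact Real.rpow_le_rpow_of_exponent_ge hσ hx1 (by push_cast; linarith)
  -- one step
  have step : ∀ t' : ℝ, x ^ (2 + κ) ≤ t' → t' ≤ s0 * σ ^ 2 →
      er2 d L (ze d L σ E t').im ≤ e0 → c0 / 2 ≤ (mm d L σ E t').im := by
    intro t' h1 h2 h3
    have ht' : 0 < t' := (Real.rpow_pos_of_pos hσ _).trans_le h1
    have h2' : t' ≤ σ ^ 2 := h2.trans (by
      calc s0 * σ ^ 2 ≤ 1 * σ ^ 2 := by gcongr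
        _ = σ ^ 2 := one_mul _)
    obtain ⟨_, _, k3, _, _, _, k7⟩ := H1 σ E t' L (by rw [← hx]; exact hσ)
      (by rw [← hx]; exact hxs1) (by rw [← hx]; exact h1) h2' (by rw [← hx]; exact hL0)
      (by rw [← hx]; exact hL2) h3
    have h4 := free1_im hd L (ze_pos (d := d) (L := L) (σ := σ) (E := E) ht') E
    have h5 : 3 * 72 * C54 * ‖ze d L σ E t' - E‖ ^ (1 / 4 : ℝ) ≤ c0 / 8 := by
      refine le_trans ?_ (H3 x hσ hxs3)
      have h6 : ‖ze d L σ E t' - E‖ ^ (1 / 4 : ℝ) ≤ ((C0 + 2) * σ ^ 2) ^ (1 / 4 : ℝ) :=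
        Real.rpow_le_rpow (norm_nonneg _) k7 (by norm_num)
      have h7 : ((C0 + 2) * σ ^ 2) ^ (1 / 4 : ℝ) = (C0 + 2) ^ (1 / 4 : ℝ) * x ^ (1 / 2 : ℝ) := by
        rw [Real.mul_rpow (by linarith) hσ2.le, hσx, ← Real.rpow_natCast, ← Real.rpow_mul hσ.le]
        congr 2
        norm_num
      rw [h7] at h6
      have := C54_nonneg
      calc 3 * 72 * C54 * ‖ze d L σ E t' - E‖ ^ (1 / 4 : ℝ) ≤
          3 * 72 * C54 * ((C0 + 2) ^ (1 / 4 : ℝ) * x ^ (1 / 2 : ℝ)) := by gcongr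
        _ = _ := by ring
    have h6 : |(mf d L σ E t').im - (mJ d E).re| ≤ c0 / 8 + c0 / 8 :=
      h4.trans (add_le_add (h3.trans he0c) h5)
    have h7 : |(mm d L σ E t').im - (mf d L σ E t').im| ≤ c0 / 8 := by
      rw [← Complex.sub_im]
      refine (Complex.abs_im_le_norm _).trans (k3.trans ?_)
      have h8 : t' / σ ^ 2 ≤ 1 := by
        rw [div_le_one hσ2]
        exact h2'
      calc e0 * (t' / σ ^ 2) ≤ e0 * 1 := by gcongr
        _ ≤ c0 / 8 := by linarith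
    have h8 := hJ E hE
    have h9 := (abs_le.1 h6).1
    have h10 := (abs_le.1 h7).1
    linarith
  have good : ∀ n : ℕ, ∀ t' : ℝ, x ^ (2 + κ) ≤ t' → t' ≤ s0 * σ ^ 2 →
      s0 * σ ^ 2 / 2 ^ (n + 1) ≤ t' → er2 d L (ze d L σ E t').im ≤ e0 := by
    intro n
    induction n with
    | zero =>
      intro t' h1 h2 h3
      have ht' : 0 < t' := (Real.rpow_pos_of_pos hσ _).trans_le h1
      refine H2 x hσ hxs2 L hL1 _ ?_
      refine le_trans ?_ (h3.trans (ze_im_ge ht'))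
      rw [hσx]
      have h4 : c1 ≤ s0 / 2 := by rw [hc1]; exact min_le_left _ _
      have h5 : 0 < x ^ 2 := by positivity
      calc c1 * x ^ 2 ≤ s0 / 2 * x ^ 2 := by gcongr
        _ = s0 * x ^ 2 / 2 ^ (0 + 1) := by ring
    | succ n ih =>
      intro t' h1 h2 h3
      have ht' : 0 < t' := (Real.rpow_pos_of_pos hσ _).trans_le h1
      by_cases h4 : 2 * t' ≤ s0 * σ ^ 2
      · have h5 : s0 * σ ^ 2 / 2 ^ (n + 1) ≤ 2 * t' := by
          have h6 : s0 * σ ^ 2 / 2 ^ (n + 1) = 2 * (s0 * σ ^ 2 / 2 ^ (n + 1 + 1)) := by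
            rw [pow_succ 2 (n + 1)]
            field_simp
          rw [h6]
          linarith
        have h6 := ih (2 * t') (by linarith) h4 h5
        have h7 := step (2 * t') (by linarith) h4 h6
        have h8 := mm_dbl (d := d) (L := L) (σ := σ) (E := E) ht'
        refine H2 x hσ hxs2 L hL1 _ ?_
        rw [ze_im, hσx]
        have h9 : c1 ≤ c0 / 10 := by rw [hc1]; exact min_le_right _ _
        have h10 : c0 / 10 ≤ (mm d L σ E t').im := by linarith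
        have h11 : 0 < x ^ 2 := by positivity
        have h12 : c1 * x ^ 2 ≤ x ^ 2 * (mm d L σ E t').im := by
          calc c1 * x ^ 2 ≤ (mm d L σ E t').im * x ^ 2 := by
                gcongr
                linarith
            _ = _ := mul_comm _ _
        linarith
      · push Not at h4
        refine H2 x hσ hxs2 L hL1 _ ?_
        refine le_trans ?_ (ze_im_ge ht')
        rw [hσx] at h4
        have h5 : c1 ≤ s0 / 2 := by rw [hc1]; exact min_le_left _ _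
        have h6 : 0 < x ^ 2 := by positivity
        calc c1 * x ^ 2 ≤ s0 / 2 * x ^ 2 := by gcongr
          _ = s0 * x ^ 2 / 2 := by ring
          _ ≤ t' := by linarith
  have ht : 0 < t := (Real.rpow_pos_of_pos hσ _).trans_le htl
  obtain ⟨n, hn⟩ := exists_nat_gt (s0 * σ ^ 2 / t)
  have hn1 : s0 * σ ^ 2 / 2 ^ (n + 1) ≤ t := by
    rw [div_le_iff₀ (by positivity)]
    rw [div_lt_iff₀ ht] at hn
    have h1 : (n : ℝ) ≤ 2 ^ (n + 1) := by
      have h2 : n < 2 ^ (n + 1) := (Nat.lt_two_pow_self (n := n)).trans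
        (Nat.pow_lt_pow_right (by norm_num) (by omega))
      exact_mod_cast h2.le
    have h3 : (n : ℝ) * t ≤ 2 ^ (n + 1) * t := by gcongr
    linarith
  have hgood := good n t htl htu hn1
  have htu' : t ≤ σ ^ 2 := htu.trans (by
    calc s0 * σ ^ 2 ≤ 1 * σ ^ 2 := by gcongr
      _ = σ ^ 2 := one_mul _)
  obtain ⟨k1, k2, k3, k4, k5, k6, k7⟩ := H1 σ E t L (by rw [← hx]; exact hσ)
    (by rw [← hx]; exact hxs1) (by rw [← hx]; exact htl) htu' (by rw [← hx]; exact hL0)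
    (by rw [← hx]; exact hL2) hgood
  have hr0 : 0 ≤ t / σ ^ 2 := by positivity
  refine ⟨hgood.trans he0ε, k1, k2, k3.trans ?_, k4.trans ?_, fun p => (k5 p).trans ?_, k6, k7⟩
  · gcongr
  · gcongr
  · gcongr

end Pool.Agent.Run7.h47.Q
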