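import Pool.Agent.Run7.h47.Fou

/-! The `T`-equation for the Gaussian Anderson model on the torus. -/

set_option autoImplicit false
set_option linter.unusedSectionVars false

open scoped BigOperators Matrix
open MeasureTheory

namespace Pool.Agent.Run7.h47

open Pool.Agent.W788.MFP.Four Pool.Agent.W788.BK
open Pool.Agent.W788.MFP.Gm (Γ)

variable {d L : ℕ} [NeZero L]

/-- the mean of the diagonal of the resolvent -/
noncomputable def mm (d L : ℕ) [NeZero L] (σ E t : ℝ) : ℂ :=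
  ∫ V, R σ E t V (0 : T d L) 0 ∂(Γ (T d L))

/-- the renormalized energy -/
noncomputable def ze (d L : ℕ) [NeZero L] (σ E t : ℝ) : ℂ :=
  (E : ℂ) + (t : ℂ) * Complex.I + (σ : ℂ) ^ 2 * mm d L σ E t

/-- the matrix `R A R*` where `A` is multiplication by a character -/
noncomputable def Fm (σ E t : ℝ) (p : T d L) (V : T d L → ℝ) (a b : T d L) : ℂ :=
  ∑ w, R σ E t V a w * e p w * (starRingEnd ℂ) (R σ E t V b w)

variable {σ E t : ℝ}

theorem R_BC (ht : 0 < t) (a b : T d L) : BC fun V : T d L → ℝ => R σ E t V a b :=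
  ⟨R_cont ht a b, t⁻¹, fun V => R_bd ht V a b⟩

theorem R_regE (ht : 0 < t) (a b : T d L) : RegE (fun V : T d L → ℝ => R σ E t V a b)
    (fun y V => -(σ * (R σ E t V a y * R σ E t V y b))) :=
  ⟨R_diff ht a b, R_BC ht a b,
    fun y => ((BC.const (σ : ℂ)).mul ((R_BC ht a y).mul (R_BC ht y b))).neg,
    fun y V => R_der ht V y a b⟩

theorem F_BC (ht : 0 < t) (p a b : T d L) : BC fun V : T d L → ℝ => Fm σ E t p V a b :=
  BC.sum _ fun w _ => ((R_BC ht a w).mul (BC.const (e p w))).mul (R_BC ht b w).conj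

theorem F_regE (ht : 0 < t) (p a b : T d L) : RegE (fun V : T d L → ℝ => Fm σ E t p V a b)
    (fun y V => -(σ * (R σ E t V a y * Fm σ E t p V y b +
      Fm σ E t p V a y * (starRingEnd ℂ) (R σ E t V b y)))) := by
  have h := RegE.sum (Finset.univ : Finset (T d L)) fun w _ =>
    ((R_regE (σ := σ) (E := E) ht a w).mul (R_regE (σ := σ) (E := E) ht b w).conj).const_mul (e p w)
  refine h.congr (fun V => ?_) (fun y V => ?_)
  · unfold Fm
    exact Finset.sum_congr rfl fun w _ => by ring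
  · unfold Fm
    rw [Finset.mul_sum, Finset.sum_mul, ← Finset.sum_add_distrib, Finset.mul_sum,
      ← Finset.sum_neg_distrib]
    refine Finset.sum_congr rfl fun w _ => ?_
    rw [map_neg, map_mul, map_mul, Complex.conj_ofReal, R_symm σ E t V b y]
    ring

theorem int_shift {f : (T d L → ℝ) → ℂ} (hf : Continuous f) (a : T d L) :
    ∫ V, f (fun z => V (z + a)) ∂(Γ (T d L)) = ∫ V, f V ∂(Γ (T d L)) := by
  conv_rhs => rw [← (mp_shift a).map_eq]
  rw [integral_map (mp_shift a).measurable.aemeasurable hf.aestronglyMeasurable]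

theorem int_shiftR {f : (T d L → ℝ) → ℝ} (hf : Continuous f) (a : T d L) :
    ∫ V, f (fun z => V (z + a)) ∂(Γ (T d L)) = ∫ V, f V ∂(Γ (T d L)) := by
  conv_rhs => rw [← (mp_shift a).map_eq]
  rw [integral_map (mp_shift a).measurable.aemeasurable hf.aestronglyMeasurable]

theorem F_shift (σ E t : ℝ) (p : T d L) (V : T d L → ℝ) (a x y : T d L) :
    Fm σ E t p V (x + a) (y + a) = e p a * Fm σ E t p (fun z => V (z + a)) x y := by
  unfold Fm
  rw [← Equiv.sum_comp (Equiv.addRight a) (fun w => R σ E t V (x + a) w * e p w *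
    (starRingEnd ℂ) (R σ E t V (y + a) w)), Finset.mul_sum]
  refine Finset.sum_congr rfl fun w _ => ?_
  rw [Equiv.coe_addRight, R_shift, R_shift, e_add]
  ring

/-- the column bound -/
theorem F_col (ht : 0 < t) (p : T d L) (V : T d L → ℝ) (b : T d L) :
    ∑ x, ‖Fm σ E t p V x b‖ ^ 2 ≤ (t ^ 2)⁻¹ * ((R σ E t V b b).im / t) := by
  set h : T d L → ℂ := fun w => e p w * (starRingEnd ℂ) (R σ E t V b w) with hh
  have h1 : ∑ x, ‖Fm σ E t p V x b‖ ^ 2 = nsq (RR (X0 E) (AS σ) t V *ᵥ h) := by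
    unfold nsq Fm
    refine Finset.sum_congr rfl fun x _ => ?_
    congr 2
    refine Finset.sum_congr rfl fun w _ => ?_
    rw [mul_assoc]
    rfl
  have h2 : nsq h = (R σ E t V b b).im / t := by
    rw [← R_ward ht]
    unfold nsq
    refine Finset.sum_congr rfl fun w _ => ?_
    rw [hh]
    simp only [norm_mul, norm_e, one_mul, RCLike.norm_conj]
  rw [h1, ← h2]
  exact RR_bd (X0_herm E) (AS_herm σ) ht V h

theorem F_swap (p : T d L) (V : T d L → ℝ) (a b : T d L) :
    Fm σ E t p V a b = (starRingEnd ℂ) (Fm σ E t (-p) V b a) := by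
  unfold Fm
  rw [map_sum]
  refine Finset.sum_congr rfl fun w _ => ?_
  rw [map_mul, map_mul, Complex.conj_conj, e_neg_left, Complex.conj_conj]
  ring

theorem F_row (ht : 0 < t) (p : T d L) (V : T d L → ℝ) (a : T d L) :
    ∑ x, ‖Fm σ E t p V a x‖ ^ 2 ≤ (t ^ 2)⁻¹ * ((R σ E t V a a).im / t) := by
  refine le_trans (le_of_eq ?_) (F_col ht (-p) V a)
  refine Finset.sum_congr rfl fun x _ => ?_
  rw [F_swap, RCLike.norm_conj]

theorem mm_im_nonneg (ht : 0 < t) : 0 ≤ (mm d L σ E t).im := by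
  unfold mm
  have e2 := integral_im (R_BC (σ := σ) (E := E) ht (0 : T d L) 0).int
  simp only [RCLike.im_to_complex] at e2
  rw [← e2]
  exact integral_nonneg fun V => R_im_nonneg ht V 0

theorem mm_im (ht : 0 < t) :
    ∫ V, (R σ E t V (0 : T d L) 0).im ∂(Γ (T d L)) = (mm d L σ E t).im := by
  unfold mm
  have e2 := integral_im (R_BC (σ := σ) (E := E) ht (0 : T d L) 0).int
  simp only [RCLike.im_to_complex] at e2
  exact e2

theorem ze_im (σ E t : ℝ) : (ze d L σ E t).im = t + σ ^ 2 * (mm d L σ E t).im := by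
  unfold ze
  have h1 : (σ : ℂ) ^ 2 = ((σ ^ 2 : ℝ) : ℂ) := by push_cast; rfl
  rw [h1, Complex.add_im, Complex.add_im, Complex.ofReal_im,
    Complex.im_ofReal_mul, Complex.im_ofReal_mul, Complex.I_im]
  ring

theorem ze_re (σ E t : ℝ) : (ze d L σ E t).re = E + σ ^ 2 * (mm d L σ E t).re := by
  unfold ze
  have h1 : (σ : ℂ) ^ 2 = ((σ ^ 2 : ℝ) : ℂ) := by push_cast; rfl
  rw [h1, Complex.add_re, Complex.add_re, Complex.ofReal_re, Complex.re_ofReal_mul,
    Complex.re_ofReal_mul, Complex.I_re]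
  ring

theorem ze_im_ge (ht : 0 < t) : t ≤ (ze d L σ E t).im := by
  rw [ze_im]
  have := mm_im_nonneg (d := d) (L := L) (σ := σ) (E := E) ht
  nlinarith [mul_nonneg (sq_nonneg σ) this]

theorem ze_pos (ht : 0 < t) : 0 < (ze d L σ E t).im := ht.trans_le (ze_im_ge ht)

/-- the pathwise identity -/
theorem path (ht : 0 < t) (V : T d L → ℝ) (a y : T d L) :
    R σ E t V a y = GG (ze d L σ E t) a y -
      ∑ x, GG (ze d L σ E t) a x * ((σ * V x + σ ^ 2 * mm d L σ E t) * R σ E t V x y) := by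
  set ζ := ze d L σ E t with hζ
  set m := mm d L σ E t with hm
  have h1 := GG_X0 (d := d) (L := L) (ζ := ζ) E (ze_pos ht)
  have h2 : X0 E - (ζ - E) • (1 : Matrix (T d L) (T d L) ℂ) =
      HZ σ E t V - Matrix.diagonal fun x => (σ : ℂ) * V x + (σ : ℂ) ^ 2 * m := by
    have h3 : (Matrix.diagonal fun x : T d L => (σ : ℂ) * V x + (σ : ℂ) ^ 2 * m) =
        Matrix.diagonal (fun x => (σ : ℂ) * V x) + ((σ : ℂ) ^ 2 * m) • 1 := by
      rw [Matrix.smul_one_eq_diagonal, Matrix.diagonal_add]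
    have h4 : ζ - E = (t : ℂ) * Complex.I + (σ : ℂ) ^ 2 * m := by
      rw [hζ]
      unfold ze
      ring
    rw [h3, h4, add_smul]
    unfold HZ
    abel
  have h5 : R σ E t V = GG ζ - GG ζ *
      ((Matrix.diagonal fun x => (σ : ℂ) * V x + (σ : ℂ) ^ 2 * m) * R σ E t V) := by
    calc R σ E t V = (GG ζ * (X0 E - (ζ - E) • (1 : Matrix (T d L) (T d L) ℂ))) *
          R σ E t V := by rw [h1, one_mul]
      _ = GG ζ * (HZ σ E t V * R σ E t V) - GG ζ *
          ((Matrix.diagonal fun x => (σ : ℂ) * V x + (σ : ℂ) ^ 2 * m) * R σ E t V) := by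
          rw [h2, mul_sub, sub_mul, mul_assoc, mul_assoc]
      _ = _ := by rw [HZ_mul ht, mul_one]
  have h6 := congrFun (congrFun h5 a) y
  rw [Matrix.sub_apply, Matrix.mul_apply] at h6
  simp only [Matrix.diagonal_mul] at h6
  exact h6

/-- the variance of the diagonal -/
noncomputable def V1 (d L : ℕ) [NeZero L] (σ E t : ℝ) : ℝ :=
  ∫ V, ‖R σ E t V (0 : T d L) 0 - mm d L σ E t‖ ^ 2 ∂(Γ (T d L))

theorem V1_shift (ht : 0 < t) (x : T d L) :
    ∫ V, ‖R σ E t V x x - mm d L σ E t‖ ^ 2 ∂(Γ (T d L)) = V1 d L σ E t := by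
  unfold V1
  have h := int_shiftR (f := fun V : T d L → ℝ => ‖R σ E t V 0 0 - mm d L σ E t‖ ^ 2)
    (((R_cont ht 0 0).sub continuous_const).norm.pow 2) x
  rw [← h]
  simp only [R_shift, zero_add]

theorem V1_nonneg : 0 ≤ V1 d L σ E t := integral_nonneg fun _ => by positivity

theorem int_ward (ht : 0 < t) :
    ∫ V, ∑ x : T d L, ‖R σ E t V 0 x‖ ^ 2 ∂(Γ (T d L)) = (mm d L σ E t).im / t := by
  simp only [R_ward ht]
  rw [integral_div, mm_im ht]

/-- the error in the equation for the mean -/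
theorem mean_eq (ht : 0 < t) (a y : T d L) :
    ∫ V, R σ E t V a y ∂(Γ (T d L)) = GG (ze d L σ E t) a y + σ ^ 2 *
      ∫ V, ∑ x, GG (ze d L σ E t) a x * (R σ E t V x x - mm d L σ E t) * R σ E t V x y
        ∂(Γ (T d L)) := by
  set ζ := ze d L σ E t with hζ
  set m := mm d L σ E t with hm
  have hib : ∀ x : T d L, ∫ V, (V x : ℂ) * R σ E t V x y ∂(Γ (T d L)) =
      ∫ V, -(σ * (R σ E t V x x * R σ E t V x y)) ∂(Γ (T d L)) := fun x =>
    (R_regE ht x y).ibp x
  have hVint : ∀ x : T d L, Integrable (fun V : T d L → ℝ => (V x : ℂ) * R σ E t V x y)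
      (Γ (T d L)) := by
    intro x
    have h2 : Integrable (fun V : T d L → ℝ => V x) (Γ (T d L)) := by
      have h3 := Pool.Agent.W788.MFP.Gm.int_poly (κ := T d L) (MvPolynomial.X x)
      simpa using h3
    exact h2.ofReal.mul_bdd (c := t⁻¹) (R_cont ht x y).aestronglyMeasurable
      (Filter.Eventually.of_forall fun V => R_bd ht V x y)
  have hRint : ∀ x : T d L, Integrable (fun V : T d L → ℝ => R σ E t V x y) (Γ (T d L)) :=
    fun x => (R_BC ht x y).int
  have h1 : ∫ V, R σ E t V a y ∂(Γ (T d L)) = GG ζ a y -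
      ∑ x, GG ζ a x * (σ * ∫ V, (V x : ℂ) * R σ E t V x y ∂(Γ (T d L)) +
        σ ^ 2 * m * ∫ V, R σ E t V x y ∂(Γ (T d L))) := by
    have e1 : ∀ V : T d L → ℝ, R σ E t V a y = GG ζ a y - ∑ x, GG ζ a x *
        (σ * ((V x : ℂ) * R σ E t V x y) + σ ^ 2 * m * R σ E t V x y) := by
      intro V
      conv_lhs => rw [path ht V a y]
      congr 1
      exact Finset.sum_congr rfl fun x _ => by rw [← hζ, ← hm]; ring
    have i1 : ∀ x : T d L, Integrable (fun V : T d L → ℝ => GG ζ a x *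
        (σ * ((V x : ℂ) * R σ E t V x y) + σ ^ 2 * m * R σ E t V x y)) (Γ (T d L)) := fun x =>
      (((hVint x).const_mul _).add ((hRint x).const_mul _)).const_mul _
    simp only [e1]
    rw [integral_sub (integrable_const _) (integrable_finsetSum _ fun x _ => i1 x),
      integral_finsetSum _ fun x _ => i1 x]
    simp only [integral_const, probReal_univ, one_smul]
    congr 1
    refine Finset.sum_congr rfl fun x _ => ?_
    rw [integral_const_mul, integral_add ((hVint x).const_mul _) ((hRint x).const_mul _),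
      integral_const_mul, integral_const_mul]
  rw [h1, sub_eq_add_neg]
  congr 1
  have i2 : ∀ x : T d L, BC fun V : T d L → ℝ => GG ζ a x * (R σ E t V x x - m) *
      R σ E t V x y := fun x =>
    ((BC.const _).mul ((R_BC ht x x).sub (BC.const _))).mul (R_BC ht x y)
  rw [integral_finsetSum _ fun x _ => (i2 x).int, Finset.mul_sum, ← Finset.sum_neg_distrib]
  refine Finset.sum_congr rfl fun x _ => ?_
  rw [hib x]
  have e3 : ∀ V : T d L → ℝ, GG ζ a x * (R σ E t V x x - m) * R σ E t V x y =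
      GG ζ a x * (R σ E t V x x * R σ E t V x y) - GG ζ a x * m * R σ E t V x y := fun V => by ring
  simp only [e3]
  rw [integral_sub (((R_BC ht x x).mul (R_BC ht x y)).int.const_mul _)
    ((hRint x).const_mul _), integral_const_mul, integral_const_mul]
  have e4 : ∀ V : T d L → ℝ, -((σ : ℂ) * (R σ E t V x x * R σ E t V x y)) =
      (-σ : ℂ) * (R σ E t V x x * R σ E t V x y) := fun V => by ring
  simp only [e4]
  rw [integral_const_mul]
  ring

/-- the free diagonal at the renormalized energy -/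
noncomputable def mf (d L : ℕ) [NeZero L] (σ E t : ℝ) : ℂ := GG (ze d L σ E t) (0 : T d L) 0

/-- the free square sum -/
noncomputable def g2 (d L : ℕ) [NeZero L] (σ E t : ℝ) : ℝ :=
  (mf d L σ E t).im / (ze d L σ E t).im

theorem g2_sum (ht : 0 < t) :
    ∑ x : T d L, ‖GG (ze d L σ E t) 0 x‖ ^ 2 = g2 d L σ E t := g2_eq (ze_pos ht)

theorem g2_nonneg (ht : 0 < t) : 0 ≤ g2 d L σ E t := by
  rw [← g2_sum ht]
  exact Finset.sum_nonneg fun _ _ => by positivity

theorem int_gV (ht : 0 < t) :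
    ∫ V, ∑ x : T d L, ‖GG (ze d L σ E t) 0 x * (R σ E t V x x - mm d L σ E t)‖ ^ 2
      ∂(Γ (T d L)) = g2 d L σ E t * V1 d L σ E t := by
  rw [integral_finsetSum]
  · have h : ∀ x : T d L, ∫ V, ‖GG (ze d L σ E t) 0 x * (R σ E t V x x - mm d L σ E t)‖ ^ 2
        ∂(Γ (T d L)) = ‖GG (ze d L σ E t) 0 x‖ ^ 2 * V1 d L σ E t := by
      intro x
      rw [← V1_shift ht x, ← integral_const_mul]
      refine integral_congr_ae (Filter.Eventually.of_forall fun V => ?_)
      simp only
      rw [norm_mul, mul_pow]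
    simp only [h]
    rw [← Finset.sum_mul, g2_sum ht]
  · intro x _
    exact (((BC.const _).mul ((R_BC ht x x).sub (BC.const _))).nsq).intR

/-- the difference of the means -/
theorem m_sub (ht : 0 < t) :
    ‖mm d L σ E t - mf d L σ E t‖ ^ 2 ≤
      σ ^ 4 * (g2 d L σ E t * V1 d L σ E t) * ((mm d L σ E t).im / t) := by
  have h1 := mean_eq (σ := σ) (E := E) ht (0 : T d L) 0
  have h2 : mm d L σ E t - mf d L σ E t = σ ^ 2 *
      ∫ V, ∑ x : T d L, (GG (ze d L σ E t) 0 x * (R σ E t V x x - mm d L σ E t)) * R σ E t V x 0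
        ∂(Γ (T d L)) := by
    have : mm d L σ E t = ∫ V, R σ E t V (0 : T d L) 0 ∂(Γ (T d L)) := rfl
    unfold mf
    conv_lhs => rw [this, h1]
    ring
  have h3 := csI (κ := T d L) (ι := T d L)
    (fun x V => GG (ze d L σ E t) 0 x * (R σ E t V x x - mm d L σ E t))
    (fun x V => R σ E t V x 0)
    (fun x => (BC.const _).mul ((R_BC ht x x).sub (BC.const _))) (fun x => R_BC ht x 0)
  rw [int_gV ht] at h3
  have h4 : ∫ V, ∑ x : T d L, ‖R σ E t V x 0‖ ^ 2 ∂(Γ (T d L)) = (mm d L σ E t).im / t := by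
    rw [← int_ward ht]
    refine integral_congr_ae (Filter.Eventually.of_forall fun V => ?_)
    simp only
    exact Finset.sum_congr rfl fun x _ => by rw [R_symm]
  rw [h4] at h3
  rw [h2, norm_mul, mul_pow]
  have h5 : ‖(σ : ℂ) ^ 2‖ ^ 2 = σ ^ 4 := by
    rw [norm_pow, Complex.norm_real, Real.norm_eq_abs, sq_abs]
    ring
  rw [h5, mul_assoc]
  exact mul_le_mul_of_nonneg_left h3 (by positivity)

/-! ### The mean square of the resolvent on functions with bounded Fourier transform -/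

/-- the mean kernel -/
noncomputable def mu (d L : ℕ) [NeZero L] (σ E t : ℝ) (x : T d L) : ℂ :=
  ∫ V, R σ E t V x 0 ∂(Γ (T d L))

theorem mu_eq (ht : 0 < t) (x y : T d L) :
    ∫ V, R σ E t V x y ∂(Γ (T d L)) = mu d L σ E t (x - y) := by
  unfold mu
  rw [← int_shift (R_cont ht (x - y) 0) y]
  refine integral_congr_ae (Filter.Eventually.of_forall fun V => ?_)
  simp only
  rw [R_shift, sub_add_cancel, zero_add]

theorem mu_form (ht : 0 < t) (h : T d L → ℂ) :
    ∫ V, nsq (R σ E t V *ᵥ h) ∂(Γ (T d L)) =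
      t⁻¹ * ((NN d L)⁻¹ * ∑ k, (fc (mu d L σ E t) k).im * ‖fc h k‖ ^ 2) := by
  have h1 : ∀ V : T d L → ℝ, nsq (R σ E t V *ᵥ h) =
      t⁻¹ * (star h ⬝ᵥ (R σ E t V *ᵥ h)).im := by
    intro V
    have := (ward (X0_herm E) (AS_herm σ) ht V h).1
    change (star h ⬝ᵥ (R σ E t V *ᵥ h)).im = t * nsq (R σ E t V *ᵥ h) at this
    rw [this]
    field_simp
  have h2 : ∀ V : T d L → ℝ, star h ⬝ᵥ (R σ E t V *ᵥ h) =
      ∑ x, ∑ y, ((starRingEnd ℂ) (h x) * h y) * R σ E t V x y := by
    intro V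
    unfold dotProduct Matrix.mulVec dotProduct
    refine Finset.sum_congr rfl fun x _ => ?_
    rw [Finset.mul_sum]
    refine Finset.sum_congr rfl fun y _ => ?_
    rw [Pi.star_apply, RCLike.star_def]
    ring
  have b1 : ∀ x y : T d L, BC fun V : T d L → ℝ =>
      ((starRingEnd ℂ) (h x) * h y) * R σ E t V x y := fun x y =>
    (BC.const _).mul (R_BC ht x y)
  have b2 : BC fun V : T d L → ℝ => ∑ x, ∑ y, ((starRingEnd ℂ) (h x) * h y) * R σ E t V x y :=
    BC.sum _ fun x _ => BC.sum _ fun y _ => b1 x y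
  have h3 : ∫ V, (∑ x, ∑ y, ((starRingEnd ℂ) (h x) * h y) * R σ E t V x y) ∂(Γ (T d L)) =
      (NN d L : ℂ)⁻¹ * ∑ k, fc (mu d L σ E t) k * (‖fc h k‖ ^ 2 : ℝ) := by
    rw [integral_finsetSum _ fun x _ => (BC.sum _ fun y _ => b1 x y).int]
    have e1 : ∀ x, ∫ V, (∑ y, ((starRingEnd ℂ) (h x) * h y) * R σ E t V x y) ∂(Γ (T d L)) =
        (∑ y, mu d L σ E t (x - y) * h y) * (starRingEnd ℂ) (h x) := by
      intro x
      rw [integral_finsetSum _ fun y _ => (b1 x y).int, Finset.sum_mul]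
      refine Finset.sum_congr rfl fun y _ => ?_
      rw [integral_const_mul, mu_eq ht]
      ring
    simp only [e1]
    rw [parseval (fun x => ∑ y, mu d L σ E t (x - y) * h y) h]
    congr 1
    refine Finset.sum_congr rfl fun k _ => ?_
    rw [fc_conv, mul_assoc, Complex.mul_conj, Complex.normSq_eq_norm_sq]
  simp only [h1, h2]
  rw [integral_const_mul]
  congr 1
  have e2 := integral_im b2.int
  simp only [RCLike.im_to_complex] at e2
  rw [e2, h3, ← Complex.ofReal_inv, Complex.im_ofReal_mul, Complex.im_sum]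
  congr 1
  refine Finset.sum_congr rfl fun k _ => ?_
  rw [Complex.im_mul_ofReal]

theorem mu_pos (ht : 0 < t) (k : T d L) : 0 ≤ (fc (mu d L σ E t) k).im := by
  set h : T d L → ℂ := fun x => (starRingEnd ℂ) (e k x) with hh
  have h1 : ∀ l, fc h l = if l = k then (NN d L : ℂ) else 0 := by
    intro l
    have : fc h l = ∑ x, e (l - k) x := by
      unfold fc
      refine Finset.sum_congr rfl fun x _ => ?_
      rw [hh]
      simp only
      rw [sub_eq_add_neg, e_add_left, e_neg_left]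
      ring
    rw [this, sum_e']
    simp only [sub_eq_zero]
  have h2 := mu_form (σ := σ) (E := E) ht h
  have h3 : ∑ l, (fc (mu d L σ E t) l).im * ‖fc h l‖ ^ 2 =
      (fc (mu d L σ E t) k).im * NN d L ^ 2 := by
    rw [Finset.sum_eq_single k]
    · rw [h1, if_pos rfl, Complex.norm_real, Real.norm_of_nonneg NN_pos.le]
    · intro l _ hl
      rw [h1, if_neg hl]
      simp
    · intro hcon
      exact absurd (Finset.mem_univ _) hcon
  rw [h3] at h2
  have h4 : 0 ≤ ∫ V, nsq (R σ E t V *ᵥ h) ∂(Γ (T d L)) := integral_nonneg fun V => nsq_nonneg _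
  rw [h2] at h4
  have hN := NN_pos (d := d) (L := L)
  by_contra hcon
  push Not at hcon
  have : t⁻¹ * ((NN d L)⁻¹ * ((fc (mu d L σ E t) k).im * NN d L ^ 2)) < 0 := by
    have h5 : (fc (mu d L σ E t) k).im * NN d L ^ 2 < 0 := mul_neg_of_neg_of_pos hcon (by positivity)
    have h6 : (NN d L)⁻¹ * ((fc (mu d L σ E t) k).im * NN d L ^ 2) < 0 :=
      mul_neg_of_pos_of_neg (by positivity) h5
    exact mul_neg_of_pos_of_neg (by positivity) h6
  linarith

theorem mu_zero : mu d L σ E t 0 = mm d L σ E t := rfl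

theorem mu_sum : (NN d L)⁻¹ * ∑ k : T d L, (fc (mu d L σ E t) k).im = (mm d L σ E t).im := by
  have h1 : ∑ k : T d L, fc (mu d L σ E t) k = NN d L * mm d L σ E t := by
    unfold fc
    rw [Finset.sum_comm]
    have : ∀ x : T d L, ∑ k : T d L, mu d L σ E t x * e k x =
        mu d L σ E t x * (if x = 0 then (NN d L : ℂ) else 0) := fun x => by
      rw [← Finset.mul_sum, sum_e]
    simp only [this]
    rw [Finset.sum_eq_single 0]
    · rw [if_pos rfl, mu_zero]
      ring
    · intro x _ hx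
      rw [if_neg hx, mul_zero]
    · intro hcon
      exact absurd (Finset.mem_univ _) hcon
  rw [← Complex.im_sum, h1, Complex.im_ofReal_mul, ← mul_assoc, inv_mul_cancel₀ NN_pos.ne',
    one_mul]

theorem mu_bound (ht : 0 < t) (h : T d L → ℂ) (s : ℝ) (hs : ∀ k, ‖fc h k‖ ≤ s) :
    ∫ V, nsq (R σ E t V *ᵥ h) ∂(Γ (T d L)) ≤ t⁻¹ * s ^ 2 * (mm d L σ E t).im := by
  rw [mu_form ht, ← mu_sum, mul_assoc]
  refine mul_le_mul_of_nonneg_left ?_ (by positivity)
  rw [mul_left_comm]
  refine mul_le_mul_of_nonneg_left ?_ (inv_nonneg.2 (NN_pos (d := d) (L := L)).le)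
  rw [Finset.mul_sum]
  refine Finset.sum_le_sum fun k _ => ?_
  rw [mul_comm]
  exact mul_le_mul_of_nonneg_right (pow_le_pow_left₀ (norm_nonneg _) (hs k) 2) (mu_pos ht k)

/-! ### The ladder equation -/

/-- the mean of `F` -/
noncomputable def ff (σ E t : ℝ) (p : T d L) : ℂ := ∫ V, Fm σ E t p V 0 0 ∂(Γ (T d L))

/-- the first term of the ladder -/
noncomputable def kap (σ E t : ℝ) (p : T d L) : ℂ :=
  ∑ w, GG (ze d L σ E t) 0 w * e p w *
    (starRingEnd ℂ) (∫ V, R σ E t V 0 w ∂(Γ (T d L)))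

/-- the variance of `F` -/
noncomputable def V2 (σ E t : ℝ) (p : T d L) : ℝ :=
  ∫ V, ‖Fm σ E t p V 0 0 - ff σ E t p‖ ^ 2 ∂(Γ (T d L))

theorem F_mean (ht : 0 < t) (p x : T d L) :
    ∫ V, Fm σ E t p V x x ∂(Γ (T d L)) = e p x * ff σ E t p := by
  unfold ff
  rw [← int_shift (F_BC ht p 0 0).1 x, ← integral_const_mul]
  refine integral_congr_ae (Filter.Eventually.of_forall fun V => ?_)
  simp only
  rw [← F_shift, zero_add]

theorem F_var (ht : 0 < t) (p x : T d L) :
    ∫ V, ‖Fm σ E t p V x x - e p x * ff σ E t p‖ ^ 2 ∂(Γ (T d L)) = V2 σ E t p := by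
  unfold V2
  rw [← int_shiftR (f := fun V : T d L → ℝ => ‖Fm σ E t p V 0 0 - ff σ E t p‖ ^ 2)
    (((F_BC ht p 0 0).1.sub continuous_const).norm.pow 2) x]
  refine integral_congr_ae (Filter.Eventually.of_forall fun V => ?_)
  simp only
  have h := F_shift σ E t p V x 0 0
  rw [zero_add] at h
  rw [h, ← mul_sub, norm_mul, norm_e, one_mul]

/-- the first error -/
noncomputable def eA (σ E t : ℝ) (p : T d L) : ℂ :=
  ∫ V, ∑ x, (GG (ze d L σ E t) 0 x * (R σ E t V x x - mm d L σ E t)) * Fm σ E t p V x 0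
    ∂(Γ (T d L))

/-- the second error -/
noncomputable def eB (σ E t : ℝ) (p : T d L) : ℂ :=
  ∫ V, ∑ x, (GG (ze d L σ E t) 0 x * (Fm σ E t p V x x - e p x * ff σ E t p)) *
    (starRingEnd ℂ) (R σ E t V 0 x) ∂(Γ (T d L))

theorem teq (ht : 0 < t) (p : T d L) :
    ff σ E t p = kap σ E t p * (1 + σ ^ 2 * ff σ E t p) +
      σ ^ 2 * (eA σ E t p + eB σ E t p) := by
  set ζ := ze d L σ E t with hζ
  set m := mm d L σ E t with hm
  set f := ff σ E t p with hf
  have hVF : ∀ x : T d L, Integrable (fun V : T d L → ℝ => (V x : ℂ) * Fm σ E t p V x 0)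
      (Γ (T d L)) := by
    intro x
    have h2 : Integrable (fun V : T d L → ℝ => V x) (Γ (T d L)) := by
      have h3 := Pool.Agent.W788.MFP.Gm.int_poly (κ := T d L) (MvPolynomial.X x)
      simpa using h3
    obtain ⟨c1, C, hC⟩ := F_BC (σ := σ) (E := E) ht p x 0
    exact h2.ofReal.mul_bdd (c := C) c1.aestronglyMeasurable (Filter.Eventually.of_forall hC)
  have hib : ∀ x : T d L, ∫ V, (V x : ℂ) * Fm σ E t p V x 0 ∂(Γ (T d L)) =
      ∫ V, -(σ * (R σ E t V x x * Fm σ E t p V x 0 +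
        Fm σ E t p V x x * (starRingEnd ℂ) (R σ E t V 0 x))) ∂(Γ (T d L)) := fun x =>
    (F_regE ht p x 0).ibp x
  -- the pathwise identity
  have h1 : ∀ V : T d L → ℝ, Fm σ E t p V 0 0 =
      ∑ w, GG ζ 0 w * e p w * (starRingEnd ℂ) (R σ E t V 0 w) -
        ∑ x, (GG ζ 0 x * σ * ((V x : ℂ) * Fm σ E t p V x 0) +
          GG ζ 0 x * σ ^ 2 * m * Fm σ E t p V x 0) := by
    intro V
    have e1 : Fm σ E t p V 0 0 = ∑ w, (GG ζ 0 w -
        ∑ x, GG ζ 0 x * ((σ * V x + σ ^ 2 * m) * R σ E t V x w)) * e p w *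
          (starRingEnd ℂ) (R σ E t V 0 w) := by
      unfold Fm
      refine Finset.sum_congr rfl fun w _ => ?_
      congr 2
      exact path ht V 0 w
    rw [e1]
    simp only [sub_mul]
    rw [Finset.sum_sub_distrib]
    congr 1
    simp only [Finset.sum_mul]
    rw [Finset.sum_comm]
    refine Finset.sum_congr rfl fun x _ => ?_
    unfold Fm
    simp only [Finset.mul_sum]
    rw [← Finset.sum_add_distrib]
    exact Finset.sum_congr rfl fun w _ => by ring
  have bF := fun x : T d L => F_BC (σ := σ) (E := E) ht p x 0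
  have h2 : f = kap σ E t p -
      ∑ x, (GG ζ 0 x * σ * ∫ V, (V x : ℂ) * Fm σ E t p V x 0 ∂(Γ (T d L)) +
          GG ζ 0 x * σ ^ 2 * m * ∫ V, Fm σ E t p V x 0 ∂(Γ (T d L))) := by
    have i1 : ∀ w : T d L, Integrable (fun V : T d L → ℝ =>
        GG ζ 0 w * e p w * (starRingEnd ℂ) (R σ E t V 0 w)) (Γ (T d L)) := fun w =>
      ((BC.const _).mul (R_BC ht 0 w).conj).int
    have i2 : ∀ x : T d L, Integrable (fun V : T d L → ℝ =>
        GG ζ 0 x * σ * ((V x : ℂ) * Fm σ E t p V x 0) +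
          GG ζ 0 x * σ ^ 2 * m * Fm σ E t p V x 0) (Γ (T d L)) := fun x =>
      ((hVF x).const_mul _).add ((bF x).int.const_mul _)
    have e1 : f = ∫ V, (∑ w, GG ζ 0 w * e p w * (starRingEnd ℂ) (R σ E t V 0 w) -
        ∑ x, (GG ζ 0 x * σ * ((V x : ℂ) * Fm σ E t p V x 0) +
          GG ζ 0 x * σ ^ 2 * m * Fm σ E t p V x 0)) ∂(Γ (T d L)) := by
      rw [hf]
      exact integral_congr_ae (Filter.Eventually.of_forall h1)
    rw [e1, integral_sub (integrable_finsetSum _ fun w _ => i1 w)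
      (integrable_finsetSum _ fun x _ => i2 x), integral_finsetSum _ fun w _ => i1 w,
      integral_finsetSum _ fun x _ => i2 x]
    congr 1
    · unfold kap
      refine Finset.sum_congr rfl fun w _ => ?_
      rw [integral_const_mul, integral_conj]
    · refine Finset.sum_congr rfl fun x _ => ?_
      rw [integral_add ((hVF x).const_mul _) ((bF x).int.const_mul _), integral_const_mul,
        integral_const_mul]
  -- the errors
  have bA : ∀ x : T d L, BC fun V : T d L → ℝ =>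
      (GG ζ 0 x * (R σ E t V x x - m)) * Fm σ E t p V x 0 := fun x =>
    ((BC.const _).mul ((R_BC ht x x).sub (BC.const _))).mul (bF x)
  have bB : ∀ x : T d L, BC fun V : T d L → ℝ =>
      (GG ζ 0 x * (Fm σ E t p V x x - e p x * f)) * (starRingEnd ℂ) (R σ E t V 0 x) := fun x =>
    ((BC.const _).mul ((F_BC ht p x x).sub (BC.const _))).mul (R_BC ht 0 x).conj
  have h3 : eA σ E t p = ∑ x, (GG ζ 0 x * ∫ V, R σ E t V x x * Fm σ E t p V x 0 ∂(Γ (T d L)) -
      GG ζ 0 x * m * ∫ V, Fm σ E t p V x 0 ∂(Γ (T d L))) := by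
    unfold eA
    rw [← hζ, ← hm, integral_finsetSum _ fun x _ => (bA x).int]
    refine Finset.sum_congr rfl fun x _ => ?_
    have e3 : ∀ V : T d L → ℝ, (GG ζ 0 x * (R σ E t V x x - m)) * Fm σ E t p V x 0 =
        GG ζ 0 x * (R σ E t V x x * Fm σ E t p V x 0) - GG ζ 0 x * m * Fm σ E t p V x 0 :=
      fun V => by ring
    simp only [e3]
    rw [integral_sub (((R_BC ht x x).mul (bF x)).int.const_mul _) ((bF x).int.const_mul _),
      integral_const_mul, integral_const_mul]
  have h4 : eB σ E t p = ∑ x, (GG ζ 0 x *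
      ∫ V, Fm σ E t p V x x * (starRingEnd ℂ) (R σ E t V 0 x) ∂(Γ (T d L)) -
      GG ζ 0 x * e p x * f * (starRingEnd ℂ) (∫ V, R σ E t V 0 x ∂(Γ (T d L)))) := by
    unfold eB
    rw [← hζ, ← hf, integral_finsetSum _ fun x _ => (bB x).int]
    refine Finset.sum_congr rfl fun x _ => ?_
    have e3 : ∀ V : T d L → ℝ, (GG ζ 0 x * (Fm σ E t p V x x - e p x * f)) *
        (starRingEnd ℂ) (R σ E t V 0 x) =
        GG ζ 0 x * (Fm σ E t p V x x * (starRingEnd ℂ) (R σ E t V 0 x)) -
          GG ζ 0 x * e p x * f * (starRingEnd ℂ) (R σ E t V 0 x) := fun V => by ring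
    simp only [e3]
    rw [integral_sub (((F_BC ht p x x).mul (R_BC ht 0 x).conj).int.const_mul _)
      ((R_BC ht 0 x).conj.int.const_mul _), integral_const_mul, integral_const_mul,
      integral_conj]
  have h5 : ∀ x : T d L, ∫ V, (V x : ℂ) * Fm σ E t p V x 0 ∂(Γ (T d L)) =
      -σ * (∫ V, R σ E t V x x * Fm σ E t p V x 0 ∂(Γ (T d L)) +
        ∫ V, Fm σ E t p V x x * (starRingEnd ℂ) (R σ E t V 0 x) ∂(Γ (T d L))) := by
    intro x
    rw [hib x, ← integral_add ((R_BC ht x x).mul (bF x)).int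
      ((F_BC ht p x x).mul (R_BC ht 0 x).conj).int, ← integral_const_mul]
    refine integral_congr_ae (Filter.Eventually.of_forall fun V => ?_)
    simp only
    ring
  have h6 : kap σ E t p * (σ ^ 2 * f) = σ ^ 2 * ∑ x, GG ζ 0 x * e p x * f *
      (starRingEnd ℂ) (∫ V, R σ E t V 0 x ∂(Γ (T d L))) := by
    unfold kap
    rw [Finset.sum_mul, Finset.mul_sum]
    exact Finset.sum_congr rfl fun x _ => by rw [← hζ]; ring
  rw [mul_add, mul_one, h6, h3, h4]
  conv_lhs => rw [h2]
  simp only [h5]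
  rw [sub_eq_add_neg, add_assoc]
  congr 1
  rw [← Finset.sum_add_distrib, Finset.mul_sum, Finset.mul_sum, ← Finset.sum_add_distrib,
    ← Finset.sum_neg_distrib]
  refine Finset.sum_congr rfl fun x _ => ?_
  ring

/-- the bound for the first error -/
theorem eA_le (ht : 0 < t) (p : T d L) :
    ‖eA σ E t p‖ ^ 2 ≤ (g2 d L σ E t * V1 d L σ E t) *
      ((t ^ 2)⁻¹ * ((mm d L σ E t).im / t)) := by
  unfold eA
  have h3 := csI (κ := T d L) (ι := T d L)
    (fun x V => GG (ze d L σ E t) 0 x * (R σ E t V x x - mm d L σ E t))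
    (fun x V => Fm σ E t p V x 0)
    (fun x => (BC.const _).mul ((R_BC ht x x).sub (BC.const _))) (fun x => F_BC ht p x 0)
  rw [int_gV ht] at h3
  refine h3.trans ?_
  apply mul_le_mul_of_nonneg_left _ (mul_nonneg (g2_nonneg ht) V1_nonneg)
  rw [← mm_im ht, ← integral_div, ← integral_const_mul]
  refine integral_mono ?_ ?_ fun V => F_col ht p V 0
  · exact (BC.sum _ fun x _ => (F_BC ht p x 0).nsq).intR
  · exact (((R_BC ht 0 0).im.intR).div_const _).const_mul _

theorem V2_nonneg (p : T d L) : 0 ≤ V2 σ E t p := integral_nonneg fun _ => by positivity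

/-- the bound for the second error -/
theorem eB_le (ht : 0 < t) (p : T d L) :
    ‖eB σ E t p‖ ^ 2 ≤ (g2 d L σ E t * V2 σ E t p) * ((mm d L σ E t).im / t) := by
  unfold eB
  have h3 := csI (κ := T d L) (ι := T d L)
    (fun x V => GG (ze d L σ E t) 0 x * (Fm σ E t p V x x - e p x * ff σ E t p))
    (fun x V => (starRingEnd ℂ) (R σ E t V 0 x))
    (fun x => (BC.const _).mul ((F_BC ht p x x).sub (BC.const _)))
    (fun x => (R_BC ht 0 x).conj)
  have h4 : ∫ V, ∑ x : T d L, ‖GG (ze d L σ E t) 0 x *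
      (Fm σ E t p V x x - e p x * ff σ E t p)‖ ^ 2 ∂(Γ (T d L)) = g2 d L σ E t * V2 σ E t p := by
    rw [integral_finsetSum]
    · have h : ∀ x : T d L, ∫ V, ‖GG (ze d L σ E t) 0 x *
          (Fm σ E t p V x x - e p x * ff σ E t p)‖ ^ 2
          ∂(Γ (T d L)) = ‖GG (ze d L σ E t) 0 x‖ ^ 2 * V2 σ E t p := by
        intro x
        rw [← F_var ht p x, ← integral_const_mul]
        refine integral_congr_ae (Filter.Eventually.of_forall fun V => ?_)
        simp only
        rw [norm_mul, mul_pow]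
      simp only [h]
      rw [← Finset.sum_mul, g2_sum ht]
    · intro x _
      exact (((BC.const _).mul ((F_BC ht p x x).sub (BC.const _))).nsq).intR
  rw [h4] at h3
  simp only [RCLike.norm_conj] at h3
  rw [int_ward ht] at h3
  exact h3

/-- the difference of the ladder kernels -/
theorem kap_sub (ht : 0 < t) (p : T d L) :
    ‖kap σ E t p - Kp (ze d L σ E t) p‖ ^ 2 ≤ σ ^ 4 * (g2 d L σ E t * V1 d L σ E t) *
      (t⁻¹ * ((ze d L σ E t).im)⁻¹ ^ 2 * (mm d L σ E t).im) := by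
  set ζ := ze d L σ E t with hζ
  set m := mm d L σ E t with hm
  have h1 : kap σ E t p - Kp ζ p = σ ^ 2 * ∫ V, ∑ x : T d L,
      (starRingEnd ℂ) (GG ζ 0 x * (R σ E t V x x - m)) *
        (∑ w, GG ζ 0 w * e p w * (starRingEnd ℂ) (R σ E t V x w)) ∂(Γ (T d L)) := by
    have b1 : ∀ x w : T d L, BC fun V : T d L → ℝ =>
        GG ζ 0 x * (R σ E t V x x - m) * R σ E t V x w := fun x w =>
      ((BC.const _).mul ((R_BC ht x x).sub (BC.const _))).mul (R_BC ht x w)
    have e1 : kap σ E t p - Kp ζ p = ∑ w, GG ζ 0 w * e p w * (starRingEnd ℂ) (σ ^ 2 *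
        ∫ V, ∑ x, GG ζ 0 x * (R σ E t V x x - m) * R σ E t V x w ∂(Γ (T d L))) := by
      unfold kap Kp
      rw [← Finset.sum_sub_distrib]
      refine Finset.sum_congr rfl fun w _ => ?_
      rw [mean_eq ht 0 w, ← hζ, ← hm, map_add, mul_add]
      have e2 : ((‖GG ζ 0 w‖ ^ 2 : ℝ) : ℂ) * e p w =
          GG ζ 0 w * e p w * (starRingEnd ℂ) (GG ζ 0 w) := by
        have : GG ζ 0 w * e p w * (starRingEnd ℂ) (GG ζ 0 w) =
            (GG ζ 0 w * (starRingEnd ℂ) (GG ζ 0 w)) * e p w := by ring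
        rw [this, Complex.mul_conj, Complex.normSq_eq_norm_sq]
      rw [e2]
      ring
    rw [e1]
    have e3 : ∀ w : T d L, GG ζ 0 w * e p w * (starRingEnd ℂ) (σ ^ 2 *
        ∫ V, ∑ x, GG ζ 0 x * (R σ E t V x x - m) * R σ E t V x w ∂(Γ (T d L))) =
        ∫ V, (∑ x, (σ : ℂ) ^ 2 * ((starRingEnd ℂ) (GG ζ 0 x * (R σ E t V x x - m)) *
          (GG ζ 0 w * e p w * (starRingEnd ℂ) (R σ E t V x w)))) ∂(Γ (T d L)) := by
      intro w
      rw [map_mul, ← integral_conj, ← mul_assoc, ← integral_const_mul]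
      refine integral_congr_ae (Filter.Eventually.of_forall fun V => ?_)
      simp only
      rw [map_sum, Finset.mul_sum]
      refine Finset.sum_congr rfl fun x _ => ?_
      rw [map_mul, map_pow, Complex.conj_ofReal]
      ring
    simp only [e3]
    rw [← integral_finsetSum, ← integral_const_mul]
    · refine integral_congr_ae (Filter.Eventually.of_forall fun V => ?_)
      simp only
      rw [Finset.sum_comm, Finset.mul_sum]
      refine Finset.sum_congr rfl fun x _ => ?_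
      rw [Finset.mul_sum, Finset.mul_sum]
    · intro w _
      exact (BC.sum _ fun x _ => (BC.const _).mul
        ((((BC.const _).mul ((R_BC ht x x).sub (BC.const _))).conj).mul
          ((BC.const _).mul (R_BC ht x w).conj))).int
  have h3 := csI (κ := T d L) (ι := T d L)
    (fun x V => (starRingEnd ℂ) (GG ζ 0 x * (R σ E t V x x - m)))
    (fun x V => ∑ w, GG ζ 0 w * e p w * (starRingEnd ℂ) (R σ E t V x w))
    (fun x => ((BC.const _).mul ((R_BC ht x x).sub (BC.const _))).conj)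
    (fun x => BC.sum _ fun w _ => (BC.const _).mul (R_BC ht x w).conj)
  simp only [RCLike.norm_conj] at h3
  rw [int_gV ht] at h3
  set h : T d L → ℂ := fun w => (starRingEnd ℂ) (GG ζ 0 w * e p w) with hh
  have h4 : ∀ V : T d L → ℝ, ∑ x : T d L, ‖∑ w, GG ζ 0 w * e p w *
      (starRingEnd ℂ) (R σ E t V x w)‖ ^ 2 = nsq (R σ E t V *ᵥ h) := by
    intro V
    unfold nsq Matrix.mulVec dotProduct
    refine Finset.sum_congr rfl fun x _ => ?_
    rw [← RCLike.norm_conj, map_sum]
    congr 2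
    refine Finset.sum_congr rfl fun w _ => ?_
    rw [map_mul, Complex.conj_conj, hh]
    ring
  simp only [h4] at h3
  have h5 : ∀ k, ‖fc h k‖ ≤ (ζ.im)⁻¹ := by
    intro k
    rw [hh, fc_conj, RCLike.norm_conj, fc_mul_e, fc_GG]
    exact gs_le (ze_pos ht) _
  have h6 := mu_bound (σ := σ) (E := E) ht h _ h5
  have h7 := h3.trans (mul_le_mul_of_nonneg_left h6
    (mul_nonneg (g2_nonneg (σ := σ) (E := E) ht) V1_nonneg))
  rw [h1, norm_mul, mul_pow]
  have h8 : ‖(σ : ℂ) ^ 2‖ ^ 2 = σ ^ 4 := by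
    rw [norm_pow, Complex.norm_real, Real.norm_eq_abs, sq_abs]
    ring
  rw [h8, mul_assoc]
  exact mul_le_mul_of_nonneg_left h7 (by positivity)

end Pool.Agent.Run7.h47
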