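import Pool.Agent.Run7.h47.Eig

/-! Eigenvectors on the torus: averaging over momenta. -/

set_option autoImplicit false
set_option linter.unusedSectionVars false

open scoped BigOperators Matrix Topology
open MeasureTheory ProbabilityTheory

namespace Pool.Agent.Run7.h47

open Pool.Agent.W788.MFP.Four Pool.Agent.W788.BK
open Pool.Agent.W788.MFP.Gm (Γ)

variable {d L : ℕ} [NeZero L]

/-- the averaging kernel -/
noncomputable def ch (n : ℕ) (q x : T d L) : ℂ :=
  ((n : ℝ) : ℂ)⁻¹ * ∑ k ∈ Finset.range n, e (k • q) x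

/-- the averaged sum -/
noncomputable def Sw (n : ℕ) (q : T d L) (w : T d L → T d L → ℝ) : ℝ :=
  ∑ x, ∑ y, ‖ch n q (x - y)‖ ^ 2 * w x y

/-- the sum at one momentum -/
noncomputable def Hp (p : T d L) (w : T d L → T d L → ℝ) : ℂ :=
  ∑ x, ∑ y, e p (x - y) * ((w x y : ℝ) : ℂ)

theorem e_sub_left (p q x : T d L) : e (p - q) x = e p x * (starRingEnd ℂ) (e q x) := by
  rw [sub_eq_add_neg, e_add_left, e_neg_left]

theorem ch_sq (n : ℕ) (q x : T d L) : ((‖ch n q x‖ ^ 2 : ℝ) : ℂ) =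
    ((((n : ℝ) ^ 2)⁻¹ : ℝ) : ℂ) * ∑ k ∈ Finset.range n, ∑ l ∈ Finset.range n,
      e (k • q - l • q) x := by
  have h0 : ((‖ch n q x‖ ^ 2 : ℝ) : ℂ) = ch n q x * (starRingEnd ℂ) (ch n q x) := by
    rw [Complex.mul_conj, Complex.normSq_eq_norm_sq]
  rw [h0]
  unfold ch
  rw [map_mul, map_inv₀, Complex.conj_ofReal, map_sum]
  have h1 : ∀ k l : ℕ, e (k • q - l • q) x = e (k • q) x * (starRingEnd ℂ) (e (l • q) x) :=
    fun k l => e_sub_left _ _ _
  simp only [h1]
  rw [← Finset.sum_mul_sum]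
  push_cast
  ring

theorem Sw_eq (n : ℕ) (q : T d L) (w : T d L → T d L → ℝ) : Sw n q w =
    ((n : ℝ) ^ 2)⁻¹ * ∑ k ∈ Finset.range n, ∑ l ∈ Finset.range n,
      (Hp (k • q - l • q) w).re := by
  have h1 : ((Sw n q w : ℝ) : ℂ) = ((((n : ℝ) ^ 2)⁻¹ : ℝ) : ℂ) *
      ∑ k ∈ Finset.range n, ∑ l ∈ Finset.range n, Hp (k • q - l • q) w := by
    unfold Sw Hp
    rw [Complex.ofReal_sum]
    have h2 : ∀ x, ((∑ y, ‖ch n q (x - y)‖ ^ 2 * w x y : ℝ) : ℂ) = ∑ y,
        ((((n : ℝ) ^ 2)⁻¹ : ℝ) : ℂ) * ∑ k ∈ Finset.range n, ∑ l ∈ Finset.range n,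
          e (k • q - l • q) (x - y) * ((w x y : ℝ) : ℂ) := by
      intro x
      rw [Complex.ofReal_sum]
      refine Finset.sum_congr rfl fun y _ => ?_
      rw [Complex.ofReal_mul, ch_sq, mul_assoc, Finset.sum_mul]
      congr 1
      exact Finset.sum_congr rfl fun k _ => by rw [Finset.sum_mul]
    rw [Finset.sum_congr rfl fun x _ => h2 x]
    simp only [Finset.mul_sum]
    rw [Finset.sum_congr rfl fun x _ => Finset.sum_comm, Finset.sum_comm]
    refine Finset.sum_congr rfl fun k _ => ?_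
    rw [Finset.sum_congr rfl fun x _ => Finset.sum_comm, Finset.sum_comm]
  have h2 := congrArg Complex.re h1
  rw [Complex.ofReal_re, Complex.re_ofReal_mul, Complex.re_sum] at h2
  rw [h2]
  congr 1
  exact Finset.sum_congr rfl fun k _ => Complex.re_sum _ _

theorem Sw_mono (n : ℕ) (q : T d L) {w w' : T d L → T d L → ℝ} (h : ∀ x y, w x y ≤ w' x y) :
    Sw n q w ≤ Sw n q w' := by
  unfold Sw
  exact Finset.sum_le_sum fun x _ => Finset.sum_le_sum fun y _ =>
    mul_le_mul_of_nonneg_left (h x y) (sq_nonneg _)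

theorem Hp_prod (p : T d L) (a : T d L → ℝ) :
    (Hp p fun x y => a x * a y).re = ‖∑ w, e p w * ((a w : ℝ) : ℂ)‖ ^ 2 := by
  have h1 : Hp p (fun x y => a x * a y) = (∑ w, e p w * ((a w : ℝ) : ℂ)) *
      (starRingEnd ℂ) (∑ w, e p w * ((a w : ℝ) : ℂ)) := by
    unfold Hp
    rw [map_sum, Finset.sum_mul_sum]
    refine Finset.sum_congr rfl fun x _ => Finset.sum_congr rfl fun y _ => ?_
    rw [sub_eq_add_neg, e_add, e_neg, map_mul, Complex.conj_ofReal]
    push_cast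
    ring
  rw [h1, Complex.mul_conj, Complex.normSq_eq_norm_sq, Complex.ofReal_re]

/-- **the averaged inequality for eigenvectors** -/
theorem eig_Sw {σ E t : ℝ} (ht : 0 < t) (V : T d L → ℝ) (n : ℕ) (q : T d L) {ι : Type}
    [Fintype ι] {u : ι → EuclideanSpace ℂ (T d L)} (hu : Orthonormal ℂ u) {lam : ι → ℝ}
    (h : ∀ j, IsEig σ (lam j) V (u j)) :
    ∑ j, fw E t (lam j) ^ 2 * Sw n q (fun x y => ‖u j x‖ ^ 2 * ‖u j y‖ ^ 2) ≤
      Sw n q fun x y => ‖R σ E t V x y‖ ^ 2 := by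
  have h1 : ∀ j, fw E t (lam j) ^ 2 * Sw n q (fun x y => ‖u j x‖ ^ 2 * ‖u j y‖ ^ 2) =
      ((n : ℝ) ^ 2)⁻¹ * ∑ k ∈ Finset.range n, ∑ l ∈ Finset.range n,
        fw E t (lam j) ^ 2 * ‖∑ w, e (k • q - l • q) w * ((‖u j w‖ ^ 2 : ℝ) : ℂ)‖ ^ 2 := by
    intro j
    rw [Sw_eq, ← mul_assoc, mul_comm (fw E t (lam j) ^ 2), mul_assoc, Finset.mul_sum]
    congr 1
    refine Finset.sum_congr rfl fun k _ => ?_
    rw [Finset.mul_sum]
    refine Finset.sum_congr rfl fun l _ => ?_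
    rw [Hp_prod _ fun x => ‖u j x‖ ^ 2]
  simp only [h1]
  rw [← Finset.mul_sum, Finset.sum_comm]
  have h2 : ∀ k ∈ Finset.range n, ∑ j, ∑ l ∈ Finset.range n,
      fw E t (lam j) ^ 2 * ‖∑ w, e (k • q - l • q) w * ((‖u j w‖ ^ 2 : ℝ) : ℂ)‖ ^ 2 ≤
      ∑ l ∈ Finset.range n, (Hp (k • q - l • q) fun x y => (R σ E t V x y).im ^ 2).re := by
    intro k _
    rw [Finset.sum_comm]
    refine Finset.sum_le_sum fun l _ => ?_
    refine (eig_sum ht V (k • q - l • q) hu h).trans (le_of_eq ?_)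
    have h3 := congrArg Complex.re (hs_F (σ := σ) (E := E) ht V (k • q - l • q))
    rw [Complex.ofReal_re] at h3
    exact h3
  calc ((n : ℝ) ^ 2)⁻¹ * ∑ k ∈ Finset.range n, ∑ j, ∑ l ∈ Finset.range n,
        fw E t (lam j) ^ 2 * ‖∑ w, e (k • q - l • q) w * ((‖u j w‖ ^ 2 : ℝ) : ℂ)‖ ^ 2 ≤
      ((n : ℝ) ^ 2)⁻¹ * ∑ k ∈ Finset.range n, ∑ l ∈ Finset.range n,
        (Hp (k • q - l • q) fun x y => (R σ E t V x y).im ^ 2).re :=
        mul_le_mul_of_nonneg_left (Finset.sum_le_sum h2) (by positivity)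
    _ = Sw n q fun x y => (R σ E t V x y).im ^ 2 := (Sw_eq _ _ _).symm
    _ ≤ _ := Sw_mono n q fun x y => by
        rw [← sq_abs]
        exact pow_le_pow_left₀ (abs_nonneg _) (Complex.abs_im_le_norm _) 2

/-- the mean of the sum at one momentum -/
theorem Hp_mean {σ E t : ℝ} (ht : 0 < t) (p : T d L) :
    ∫ V, Hp p (fun x y => ‖R σ E t V x y‖ ^ 2) ∂(Γ (T d L)) = (NN d L : ℂ) * ff σ E t p := by
  have h1 : ∀ V : T d L → ℝ, Hp p (fun x y => ‖R σ E t V x y‖ ^ 2) =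
      ∑ y, (starRingEnd ℂ) (e p y) * Fm σ E t p V y y := by
    intro V
    unfold Hp Fm
    rw [Finset.sum_comm]
    refine Finset.sum_congr rfl fun y _ => ?_
    rw [Finset.mul_sum]
    refine Finset.sum_congr rfl fun x _ => ?_
    have h2 := Complex.mul_conj (R σ E t V y x)
    rw [Complex.normSq_eq_norm_sq] at h2
    rw [sub_eq_add_neg, e_add, e_neg]
    simp only
    rw [R_symm σ E t V x y, ← h2]
    ring
  simp only [h1]
  have hi : ∀ y : T d L, Integrable (fun V : T d L → ℝ =>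
      (starRingEnd ℂ) (e p y) * Fm σ E t p V y y) (Γ (T d L)) := by
    intro y
    obtain ⟨c1, C, hC⟩ := F_BC (σ := σ) (E := E) ht p y y
    exact (Integrable.of_bound c1.aestronglyMeasurable C (Filter.Eventually.of_forall hC)).const_mul _
  rw [integral_finsetSum _ fun y _ => hi y]
  have h2 : ∀ y : T d L, ∫ V, (starRingEnd ℂ) (e p y) * Fm σ E t p V y y ∂(Γ (T d L)) =
      ff σ E t p := by
    intro y
    rw [integral_const_mul, F_mean ht, ← mul_assoc, mul_comm ((starRingEnd ℂ) (e p y)), e_normSq,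
      one_mul]
  rw [Finset.sum_congr rfl fun y _ => h2 y, Finset.sum_const, Finset.card_univ, nsmul_eq_mul]
  congr 1
  unfold NN
  rw [Fintype.card_pi]
  simp [ZMod.card]

theorem R2_cont {σ E t : ℝ} (ht : 0 < t) (x y : T d L) :
    Continuous fun V : T d L → ℝ => ‖R σ E t V x y‖ ^ 2 := ((R_cont ht x y).norm).pow 2

theorem Sw_cont {σ E t : ℝ} (ht : 0 < t) (n : ℕ) (q : T d L) :
    Continuous fun V : T d L → ℝ => Sw n q fun x y => ‖R σ E t V x y‖ ^ 2 := by
  unfold Sw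
  exact continuous_finsetSum _ fun x _ => continuous_finsetSum _ fun y _ =>
    continuous_const.mul (R2_cont ht x y)

theorem Sw_nonneg (n : ℕ) (q : T d L) {w : T d L → T d L → ℝ} (h : ∀ x y, 0 ≤ w x y) :
    0 ≤ Sw n q w := by
  unfold Sw
  exact Finset.sum_nonneg fun x _ => Finset.sum_nonneg fun y _ => mul_nonneg (sq_nonneg _) (h x y)

theorem ch_le (n : ℕ) (q x : T d L) : ‖ch n q x‖ ≤ 1 := by
  unfold ch
  rw [norm_mul, norm_inv, Complex.norm_real, Real.norm_of_nonneg (Nat.cast_nonneg n)]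
  have h1 : ‖∑ k ∈ Finset.range n, e (k • q) x‖ ≤ n := by
    refine (norm_sum_le _ _).trans ?_
    simp only [norm_e]
    rw [Finset.sum_const, Finset.card_range, nsmul_eq_mul, mul_one]
  rcases Nat.eq_zero_or_pos n with h | h
  · subst h
    simp
  · have hn : (0 : ℝ) < n := by exact_mod_cast h
    rw [inv_mul_le_iff₀ hn, mul_one]
    exact h1

/-- the mean of the averaged sum -/
theorem Sw_mean {σ E t K0 δ : ℝ} (ht : 0 < t) {n : ℕ} (hn : 0 < n) (q : T d L)
    (h0 : t * ‖ff σ E t (0 : T d L)‖ ≤ K0)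
    (h1 : ∀ k < n, ∀ l < n, k ≠ l → t * ‖ff σ E t (k • q - l • q)‖ ≤ δ) (hδ : 0 ≤ δ) :
    t * ∫ V, Sw n q (fun x y => ‖R σ E t V x y‖ ^ 2) ∂(Γ (T d L)) ≤ NN d L * (K0 / n + δ) := by
  have hn0 : (0 : ℝ) < n := by exact_mod_cast hn
  have hN := NN_pos (d := d) (L := L)
  have hHc : ∀ p : T d L, Continuous fun V : T d L → ℝ =>
      Hp p (fun x y => ‖R σ E t V x y‖ ^ 2) := by
    intro p
    unfold Hp
    refine continuous_finsetSum _ fun x _ => continuous_finsetSum _ fun y _ => ?_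
    exact continuous_const.mul (Complex.continuous_ofReal.comp (R2_cont ht x y))
  have hHi : ∀ p : T d L, Integrable (fun V : T d L → ℝ =>
      Hp p (fun x y => ‖R σ E t V x y‖ ^ 2)) (Γ (T d L)) := by
    intro p
    refine Integrable.of_bound (C := ∑ _x : T d L, ∑ _y : T d L, (t⁻¹) ^ 2)
      (hHc p).aestronglyMeasurable (Filter.Eventually.of_forall fun V => ?_)
    unfold Hp
    refine (norm_sum_le _ _).trans (Finset.sum_le_sum fun x _ => ?_)
    refine (norm_sum_le _ _).trans (Finset.sum_le_sum fun y _ => ?_)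
    rw [norm_mul, norm_e, one_mul, Complex.norm_real, Real.norm_of_nonneg (sq_nonneg _)]
    exact pow_le_pow_left₀ (norm_nonneg _) (R_bd ht V x y) 2
  have hre : ∀ p : T d L, ∫ V, (Hp p (fun x y => ‖R σ E t V x y‖ ^ 2)).re ∂(Γ (T d L)) ≤
      NN d L * ‖ff σ E t p‖ := by
    intro p
    have h2 := Complex.reCLM.integral_comp_comm (hHi p)
    simp only [Complex.reCLM_apply] at h2
    rw [h2, Hp_mean ht, Complex.re_ofReal_mul]
    exact mul_le_mul_of_nonneg_left ((le_abs_self _).trans (Complex.abs_re_le_norm _)) hN.le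
  have hS : ∫ V, Sw n q (fun x y => ‖R σ E t V x y‖ ^ 2) ∂(Γ (T d L)) =
      ((n : ℝ) ^ 2)⁻¹ * ∑ k ∈ Finset.range n, ∑ l ∈ Finset.range n,
        ∫ V, (Hp (k • q - l • q) (fun x y => ‖R σ E t V x y‖ ^ 2)).re ∂(Γ (T d L)) := by
    simp only [Sw_eq]
    rw [integral_const_mul, integral_finsetSum]
    · congr 1
      refine Finset.sum_congr rfl fun k _ => ?_
      rw [integral_finsetSum]
      exact fun l _ => (hHi _).re
    · exact fun k _ => integrable_finsetSum _ fun l _ => (hHi _).re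
  rw [hS]
  have h2 : ∀ k ∈ Finset.range n, ∑ l ∈ Finset.range n,
      t * ∫ V, (Hp (k • q - l • q) (fun x y => ‖R σ E t V x y‖ ^ 2)).re ∂(Γ (T d L)) ≤
      NN d L * (K0 + n * δ) := by
    intro k hk
    have h3 : ∀ l ∈ Finset.range n,
        t * ∫ V, (Hp (k • q - l • q) (fun x y => ‖R σ E t V x y‖ ^ 2)).re ∂(Γ (T d L)) ≤
        NN d L * ((if l = k then K0 else 0) + δ) := by
      intro l hl
      have h4 : t * ∫ V, (Hp (k • q - l • q) (fun x y => ‖R σ E t V x y‖ ^ 2)).re ∂(Γ (T d L)) ≤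
          NN d L * (t * ‖ff σ E t (k • q - l • q)‖) := by
        calc t * ∫ V, (Hp (k • q - l • q) (fun x y => ‖R σ E t V x y‖ ^ 2)).re ∂(Γ (T d L)) ≤
            t * (NN d L * ‖ff σ E t (k • q - l • q)‖) := by
              gcongr
              exact hre _
          _ = _ := by ring
      refine h4.trans (mul_le_mul_of_nonneg_left ?_ hN.le)
      by_cases hkl : l = k
      · subst hkl
        rw [if_pos rfl, sub_self]
        linarith
      · rw [if_neg hkl, zero_add]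
        exact h1 k (Finset.mem_range.1 hk) l (Finset.mem_range.1 hl) fun h => hkl h.symm
    refine (Finset.sum_le_sum h3).trans (le_of_eq ?_)
    rw [← Finset.mul_sum, Finset.sum_add_distrib, Finset.sum_ite_eq' (Finset.range n) k,
      if_pos hk, Finset.sum_const, Finset.card_range, nsmul_eq_mul]
  calc t * (((n : ℝ) ^ 2)⁻¹ * ∑ k ∈ Finset.range n, ∑ l ∈ Finset.range n,
        ∫ V, (Hp (k • q - l • q) (fun x y => ‖R σ E t V x y‖ ^ 2)).re ∂(Γ (T d L))) =
      ((n : ℝ) ^ 2)⁻¹ * ∑ k ∈ Finset.range n, ∑ l ∈ Finset.range n,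
        t * ∫ V, (Hp (k • q - l • q) (fun x y => ‖R σ E t V x y‖ ^ 2)).re ∂(Γ (T d L)) := by
        rw [← mul_assoc, mul_comm t, mul_assoc, Finset.mul_sum]
        congr 1
        exact Finset.sum_congr rfl fun k _ => by rw [Finset.mul_sum]
    _ ≤ ((n : ℝ) ^ 2)⁻¹ * ∑ _k ∈ Finset.range n, NN d L * (K0 + n * δ) :=
        mul_le_mul_of_nonneg_left (Finset.sum_le_sum h2) (by positivity)
    _ = _ := by
        rw [Finset.sum_const, Finset.card_range, nsmul_eq_mul]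
        field_simp

end Pool.Agent.Run7.h47
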