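import Pool.Agent.Run7.h47.Eig2

/-! Eigenvectors on the torus: the slabs and the limit in large volumes. -/

set_option autoImplicit false
set_option linter.unusedSectionVars false

open scoped BigOperators Matrix Topology
open MeasureTheory ProbabilityTheory

namespace Pool.Agent.Run7.h47

open Pool.Agent.W788.MFP.Four Pool.Agent.W788.BK
open Pool.Agent.H4R2.LO (Zd)
open Pool.Agent.H695R3.AN (lf lf_inj lf_add lf_sub)
open Pool.Agent.W788.MFP.Gm (Γ)

section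

variable {d L : ℕ} [NeZero L]

theorem mom_smul (j : Fin d → ℤ) (k l : ℕ) :
    k • mom d L j - l • mom d L j = mom d L fun i => ((k : ℤ) - l) * j i := by
  funext i
  unfold mom
  rw [Pi.sub_apply, Pi.smul_apply, Pi.smul_apply, nsmul_eq_mul, nsmul_eq_mul]
  push_cast
  ring

theorem ang_smul (j : Fin d → ℤ) (m : ℤ) (i : Fin d) :
    ang L (fun i => m * j i) i = m * ang L j i := by
  unfold ang
  push_cast
  ring

/-- slabs on the torus -/
def InSlab (r : ℝ) (i : Fin d) (c : ZMod L) (x : T d L) : Prop :=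
  ∃ m : ℤ, |(m : ℝ)| ≤ r ∧ x i = c + (m : ZMod L)

theorem e_slab {r : ℝ} (i : Fin d) (c : ZMod L) (J : ℤ) (k : ℕ) {x y : T d L}
    (hx : InSlab r i c x) (hy : InSlab r i c y) :
    ‖e (k • mom d L (Pi.single i J)) (x - y) - 1‖ ≤ k * |2 * Real.pi * J / L| * (2 * r) := by
  obtain ⟨m, hm, hxm⟩ := hx
  obtain ⟨m', hm', hym⟩ := hy
  have h1 : ∑ i', (k • mom d L (Pi.single i J)) i' * (x - y) i' =
      ((k * J * (m - m') : ℤ) : ZMod L) := by
    rw [Finset.sum_eq_single i]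
    · rw [Pi.smul_apply, Pi.sub_apply, hxm, hym]
      unfold mom
      rw [Pi.single_eq_same, nsmul_eq_mul]
      push_cast
      ring
    · intro i' _ hi
      rw [Pi.smul_apply]
      unfold mom
      rw [Pi.single_eq_of_ne hi]
      simp
    · intro h
      exact absurd (Finset.mem_univ _) h
  unfold e
  rw [h1, char_int]
  refine Real.norm_exp_I_mul_ofReal_sub_one_le.trans ?_
  rw [Real.norm_eq_abs]
  have h2 : 2 * Real.pi * ((k * J * (m - m') : ℤ) : ℝ) / L =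
      k * (2 * Real.pi * J / L) * (m - m') := by
    push_cast
    ring
  rw [h2, abs_mul, abs_mul, Nat.abs_cast]
  have h3 : |(m : ℝ) - m'| ≤ 2 * r := by
    refine (abs_sub _ _).trans ?_
    linarith
  gcongr

theorem ch_slab {r : ℝ} {n : ℕ} (hn : 0 < n) (i : Fin d) (c : ZMod L) (J : ℤ)
    (hJ : n * |2 * Real.pi * J / L| * (2 * r) ≤ 1 / 2) (hr : 0 ≤ r) {x y : T d L}
    (hx : InSlab r i c x) (hy : InSlab r i c y) :
    1 / 4 ≤ ‖ch n (mom d L (Pi.single i J)) (x - y)‖ ^ 2 := by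
  have hn0 : (0 : ℝ) < n := by exact_mod_cast hn
  have hnc : ((n : ℝ) : ℂ) ≠ 0 := by exact_mod_cast hn0.ne'
  obtain ⟨z, hz⟩ : ∃ z, z = ch n (mom d L (Pi.single i J)) (x - y) := ⟨_, rfl⟩
  have h1 : ‖z - 1‖ ≤ 1 / 2 := by
    have h2 : z - 1 = ((n : ℝ) : ℂ)⁻¹ * ∑ k ∈ Finset.range n,
        (e (k • mom d L (Pi.single i J)) (x - y) - 1) := by
      rw [hz, Finset.sum_sub_distrib, Finset.sum_const, Finset.card_range, nsmul_eq_mul, mul_one]
      unfold ch
      rw [mul_sub]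
      congr 1
      have : ((n : ℕ) : ℂ) = ((n : ℝ) : ℂ) := by norm_cast
      rw [this, inv_mul_cancel₀ hnc]
    rw [h2, norm_mul, norm_inv, Complex.norm_real, Real.norm_of_nonneg hn0.le,
      inv_mul_le_iff₀ hn0]
    refine (norm_sum_le _ _).trans ?_
    calc ∑ k ∈ Finset.range n, ‖e (k • mom d L (Pi.single i J)) (x - y) - 1‖ ≤
        ∑ _k ∈ Finset.range n, (1 / 2 : ℝ) := by
          refine Finset.sum_le_sum fun k hk => ?_
          refine (e_slab i c J k hx hy).trans (le_trans ?_ hJ)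
          have : (k : ℝ) ≤ n := by exact_mod_cast (Finset.mem_range.1 hk).le
          gcongr
      _ = _ := by rw [Finset.sum_const, Finset.card_range, nsmul_eq_mul]
  rw [← hz]
  have h3 : 1 / 2 ≤ ‖z‖ := by
    have h4 := norm_sub_norm_le (1 : ℂ) (1 - z)
    rw [norm_one, sub_sub_cancel, norm_sub_rev] at h4
    linarith
  nlinarith

open Classical in
/-- mass in a slab -/
theorem Sw_slab {r : ℝ} {n : ℕ} (hn : 0 < n) (i : Fin d) (c : ZMod L) (J : ℤ)
    (hJ : n * |2 * Real.pi * J / L| * (2 * r) ≤ 1 / 2) (hr : 0 ≤ r) (a : T d L → ℝ)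
    (ha : ∀ x, 0 ≤ a x) :
    1 / 4 * (∑ x ∈ Finset.univ.filter fun x => InSlab r i c x, a x) ^ 2 ≤
      Sw n (mom d L (Pi.single i J)) fun x y => a x * a y := by
  have h1 : ∀ x y : T d L, (1 / 4 : ℝ) * ((if InSlab r i c x then a x else 0) *
      (if InSlab r i c y then a y else 0)) ≤
      ‖ch n (mom d L (Pi.single i J)) (x - y)‖ ^ 2 * (a x * a y) := by
    intro x y
    have h2 : 0 ≤ ‖ch n (mom d L (Pi.single i J)) (x - y)‖ ^ 2 * (a x * a y) :=
      mul_nonneg (sq_nonneg _) (mul_nonneg (ha x) (ha y))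
    by_cases hx : InSlab r i c x
    · by_cases hy : InSlab r i c y
      · rw [if_pos hx, if_pos hy]
        exact mul_le_mul_of_nonneg_right (ch_slab hn i c J hJ hr hx hy)
          (mul_nonneg (ha x) (ha y))
      · rw [if_neg hy]
        simpa using h2
    · rw [if_neg hx]
      simpa using h2
  unfold Sw
  rw [Finset.sum_filter, sq, Finset.sum_mul_sum, Finset.mul_sum]
  refine Finset.sum_le_sum fun x _ => ?_
  rw [Finset.mul_sum]
  exact Finset.sum_le_sum fun y _ => h1 x y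

end

/-- the limit of the ladder in all large volumes -/
theorem tor_all (d : ℕ) (hd : 3 ≤ d) (κ : ℝ) (hκ0 : 0 < κ) (hκ1 : κ < 4 / 35) (a c0 : ℝ)
    (hc0 : 0 < c0) (hJ : ∀ E : ℝ, |E| ≤ a → c0 ≤ (mJ d E).re)
    (hS : ∀ E : ℝ, |E| ≤ a → 0 ≤ (mS d E).re) (M : ℝ) (hM : 0 ≤ M) (ε : ℝ) (hε : 0 < ε) :
    ∃ s : ℝ, 0 < s ∧ s ≤ 1 / 5 ∧ ∀ (σ E t : ℝ) (L : ℕ) [NeZero L], 0 < |σ| → |σ| ≤ s → |E| ≤ a →
      |σ| ^ (2 + κ) ≤ t → t ≤ s * σ ^ 2 → (|σ| ^ 12)⁻¹ ≤ (L : ℝ) →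
      ∀ j : Fin d → ℤ, (∀ i, |ang L j i| ≤ M * (|σ| * Real.sqrt t)) →
      ‖(t : ℂ) * ff σ E t (mom d L j) - ((Dl (mJ d E).re (mS d E).re
        ((∑ i, ang L j i ^ 2) / (σ ^ 2 * t)) : ℝ) : ℂ)‖ ≤ ε := by
  have hd1 : 1 ≤ d := by omega
  obtain ⟨e', he'⟩ : ∃ e', e' = ε / 2 := ⟨_, rfl⟩
  have he0 : 0 < e' := by rw [he']; positivity
  obtain ⟨s1, hs1, hs1', H⟩ := z_lim d hd κ hκ0 hκ1 a c0 hc0 hJ hS M hM (e' ^ 2) (by positivity)
  obtain ⟨s2, hs2, hs2'⟩ : ∃ s2 : ℝ, 0 < s2 ∧ s2 * (17 * d + 13 * d * (M + 1) + 17 * d / e') ≤ 1 := by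
    have h0 : 0 < 17 * d + 13 * d * (M + 1) + 17 * d / e' := by positivity
    exact ⟨(17 * d + 13 * d * (M + 1) + 17 * d / e')⁻¹, by positivity, by
      rw [inv_mul_cancel₀ h0.ne']⟩
  refine ⟨min s1 s2, by positivity, (min_le_left _ _).trans hs1', ?_⟩
  intro σ E t L _ hσ hσs hE htl htu hL j hj
  obtain ⟨x, hx⟩ : ∃ x, x = |σ| := ⟨_, rfl⟩
  have hσx : σ ^ 2 = x ^ 2 := by rw [hx, sq_abs]
  rw [← hx] at hσ hσs htl hL hj
  have hx1 : x ≤ s1 := hσs.trans (min_le_left _ _)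
  have hx2 : x ≤ s2 := hσs.trans (min_le_right _ _)
  have hx15 : x ≤ 1 / 5 := hx1.trans hs1'
  have ht : 0 < t := (Real.rpow_pos_of_pos hσ _).trans_le htl
  have hσ0 : 0 < σ ^ 2 := by rw [hσx]; positivity
  have htu1 : t ≤ s1 * σ ^ 2 :=
    htu.trans (mul_le_mul_of_nonneg_right (min_le_left _ _) hσ0.le)
  have ht1 : t ≤ 1 := by
    refine htu1.trans ?_
    have h1 : σ ^ 2 ≤ 1 := by
      rw [hσx]
      exact pow_le_one₀ hσ.le (by linarith)
    have h2 : s1 ≤ 1 := hs1'.trans (by norm_num)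
    nlinarith
  have hxK : x * (17 * d + 13 * d * (M + 1) + 17 * d / e') ≤ 1 :=
    (mul_le_mul_of_nonneg_right hx2 (by positivity)).trans hs2'
  have hA : x * (17 * d + 13 * d * (M + 1)) ≤ 1 := by
    refine le_trans (mul_le_mul_of_nonneg_left ?_ hσ.le) hxK
    have : 0 ≤ 17 * d / e' := by positivity
    linarith
  have hB : 17 * d * x ≤ e' := by
    have h1 : x * (17 * d / e') ≤ 1 := by
      refine le_trans (mul_le_mul_of_nonneg_left ?_ hσ.le) hxK
      have : 0 ≤ 17 * d + 13 * d * (M + 1) := by positivity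
      linarith
    have h2 : x * (17 * d / e') = 17 * d * x / e' := by ring
    rw [h2, div_le_one he0] at h1
    exact h1
  obtain ⟨_, _, _, c4, _, _⟩ := scales (d := d) (κ := κ) (M := M) hκ1 hσ hx15 hA hM htl ht1
  -- the Green functions
  have hex : ∀ ω : Zd d → ℝ, ∃ u, IsGreen d σ ((E : ℂ) + (t : ℂ) * Complex.I) ω u := fun ω =>
    green_exists ht ω
  choose G hG using hex
  have hst : 0 < x * Real.sqrt t := by
    have := Real.sqrt_pos.2 ht
    positivity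
  obtain ⟨P, hP⟩ : ∃ P : Fin d → ℝ, P = fun i => ang L j i / (x * Real.sqrt t) := ⟨_, rfl⟩
  have hPM : ∀ i, |P i| ≤ M := by
    intro i
    rw [hP]
    simp only
    rw [abs_div, abs_of_pos hst, div_le_iff₀ hst]
    exact hj i
  obtain ⟨_, hint, hle⟩ := H σ E t (by rw [← hx]; exact hσ) (by rw [← hx]; exact hx1) hE
    (by rw [← hx]; exact htl) htu1 P hPM G hG
  have hθ : (fun i => |σ| * Real.sqrt t * P i) = ang L j := by
    funext i
    rw [hP, ← hx]
    simp only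
    field_simp
  rw [hθ] at hint hle
  have hq : ∑ i, P i ^ 2 = (∑ i, ang L j i ^ 2) / (σ ^ 2 * t) := by
    rw [Finset.sum_div]
    refine Finset.sum_congr rfl fun i _ => ?_
    rw [hP]
    simp only
    rw [div_pow, mul_pow, Real.sq_sqrt ht.le, hσx]
  rw [hq] at hint hle
  obtain ⟨D, hD⟩ : ∃ D, D = Dl (mJ d E).re (mS d E).re ((∑ i, ang L j i ^ 2) / (σ ^ 2 * t)) :=
    ⟨_, rfl⟩
  rw [← hD] at hint hle
  rw [← hD]
  have hpt : ∀ ω : Zd d → ℝ, ‖(t : ℂ) * Fm σ E t (mom d L j) (fun y => ω (lf y)) 0 0 - (D : ℂ)‖ ≤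
      3 * e' / 2 + 1 / (2 * e') * ‖(t : ℂ) * Qz (ang L j) (G ω) - (D : ℂ)‖ ^ 2 := by
    intro ω
    have h6 : x ^ 6 ≤ 1 / 10 := by
      calc x ^ 6 ≤ (1 / 5) ^ 6 := pow_le_pow_left₀ hσ.le hx15 6
        _ ≤ 1 / 10 := by norm_num
    have h7 : 10 ≤ (x ^ 6)⁻¹ := by
      rw [le_inv_comm₀ (by norm_num) (by positivity)]
      linarith
    have h8 : (x ^ 12)⁻¹ = (x ^ 6)⁻¹ ^ 2 := by
      rw [← inv_pow, ← inv_pow, ← pow_mul]
    have h1 := trans (L := L) hd1 ht (ℓ := (x ^ 6)⁻¹) (by positivity) (by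
      refine lt_of_lt_of_le ?_ hL
      rw [h8]
      nlinarith) (hG ω) (ang L j) j 0 (fun i => by rw [sub_self, abs_zero])
    have h2 : ‖(t : ℂ) * (Qz (ang L j) (G ω) -
        Fm σ E t (mom d L j) (fun y => ω (lf y)) 0 0)‖ ≤ e' := by
      rw [norm_mul, Complex.norm_real, Real.norm_of_nonneg ht.le]
      refine (mul_le_mul_of_nonneg_left h1 ht.le).trans (le_trans ?_ (c4.trans hB))
      apply mul_le_mul_of_nonneg_left _ ht.le
      have : 0 ≤ 2 * d * (Real.pi * x ^ 12) * (x ^ 6)⁻¹ / t ^ 2 := by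
        have := Real.pi_pos
        positivity
      rw [mul_zero, zero_mul, zero_div]
      linarith
    obtain ⟨X, hX⟩ : ∃ X, X = ‖(t : ℂ) * Qz (ang L j) (G ω) - (D : ℂ)‖ := ⟨_, rfl⟩
    have h3 : ‖(t : ℂ) * Fm σ E t (mom d L j) (fun y => ω (lf y)) 0 0 - (D : ℂ)‖ ≤ e' + X := by
      have e1 : (t : ℂ) * Fm σ E t (mom d L j) (fun y => ω (lf y)) 0 0 - (D : ℂ) =
          -((t : ℂ) * (Qz (ang L j) (G ω) - Fm σ E t (mom d L j) (fun y => ω (lf y)) 0 0)) +
          ((t : ℂ) * Qz (ang L j) (G ω) - (D : ℂ)) := by ring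
      rw [e1, hX]
      refine (norm_add_le _ _).trans ?_
      rw [norm_neg]
      linarith
    rw [← hX]
    have h4 : X ≤ e' / 2 + 1 / (2 * e') * X ^ 2 := by
      have e1 : e' / 2 + 1 / (2 * e') * X ^ 2 - X = 1 / (2 * e') * (X - e') ^ 2 := by
        field_simp
        ring
      have e2 : 0 ≤ 1 / (2 * e') * (X - e') ^ 2 := by positivity
      linarith
    linarith
  have hff : (t : ℂ) * ff σ E t (mom d L j) - (D : ℂ) =
      ∫ V, ((t : ℂ) * Fm σ E t (mom d L j) V 0 0 - (D : ℂ)) ∂(Γ (T d L)) := by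
    obtain ⟨c1, C, hC⟩ := F_BC (σ := σ) (E := E) ht (mom d L j) 0 0
    rw [integral_sub ((Integrable.of_bound c1.aestronglyMeasurable C
      (Filter.Eventually.of_forall hC)).const_mul _) (integrable_const _), integral_const_mul,
      integral_const, probReal_univ, one_smul]
    rfl
  rw [hff]
  refine (norm_integral_le_integral_norm _).trans ?_
  have hcont : Continuous fun V : T d L → ℝ =>
      ‖(t : ℂ) * Fm σ E t (mom d L j) V 0 0 - (D : ℂ)‖ :=
    ((continuous_const.mul (F_BC ht _ 0 0).1).sub continuous_const).norm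
  rw [← law_tor hcont.measurable]
  have hRi : Integrable (fun ω => 3 * e' / 2 + 1 / (2 * e') *
      ‖(t : ℂ) * Qz (ang L j) (G ω) - (D : ℂ)‖ ^ 2)
      (Measure.infinitePi fun _ : Zd d => gaussianReal 0 1) :=
    (integrable_const _).add (hint.const_mul _)
  have hLi : Integrable (fun ω : Zd d → ℝ =>
      ‖(t : ℂ) * Fm σ E t (mom d L j) (fun y => ω (lf y)) 0 0 - (D : ℂ)‖)
      (Measure.infinitePi fun _ : Zd d => gaussianReal 0 1) := by
    refine Integrable.mono' hRi ?_ (Filter.Eventually.of_forall fun ω => ?_)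
    · exact (hcont.measurable.comp (g := fun V : T d L → ℝ =>
        ‖(t : ℂ) * Fm σ E t (mom d L j) V 0 0 - (D : ℂ)‖)
        (f := fun (ω : Zd d → ℝ) (y : T d L) => ω (lf y))
        (measurable_pi_iff.2 fun y => measurable_pi_apply _)).aestronglyMeasurable
    · rw [norm_norm]
      exact hpt ω
  refine (integral_mono hLi hRi hpt).trans ?_
  rw [integral_add (integrable_const _) (hint.const_mul _), integral_const,
    integral_const_mul, probReal_univ, one_smul]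
  have h9 : 1 / (2 * e') * ∫ ω, ‖(t : ℂ) * Qz (ang L j) (G ω) - (D : ℂ)‖ ^ 2
      ∂(Measure.infinitePi fun _ : Zd d => gaussianReal 0 1) ≤ 1 / (2 * e') * e' ^ 2 := by
    gcongr
  have h10 : 1 / (2 * e') * e' ^ 2 = e' / 2 := by
    field_simp
  rw [h10] at h9
  rw [he'] at h9 ⊢
  linarith

end Pool.Agent.Run7.h47
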