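import Pool.Agent.Run7.h47.Den

/-! Positivity of the density of states. -/

set_option autoImplicit false
set_option linter.unusedSectionVars false

open scoped BigOperators Topology
open MeasureTheory Set Filter

namespace Pool.Agent.Run7.h47

variable {d : ℕ}

theorem pois_cont {η : ℝ} (hη : 0 < η) {α : Type*} [TopologicalSpace α] {f : α → ℝ}
    (hf : Continuous f) : Continuous fun x => η / (f x ^ 2 + η ^ 2) := by
  refine continuous_const.div (by fun_prop) fun x => ?_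
  positivity

theorem pois_le {η : ℝ} (hη : 0 < η) (a : ℝ) : η / (a ^ 2 + η ^ 2) ≤ 1 / η := by
  rw [div_le_div_iff₀ (by positivity) hη]
  nlinarith [sq_nonneg a]

/-- the one dimensional bound -/
theorem one_dim {η y : ℝ} (hη : 0 < η) (hη1 : η ≤ 1) (hy : |y| ≤ 2) :
    1 / 4 ≤ ∫ x, η / ((2 * Real.cos x - y) ^ 2 + η ^ 2) ∂ν0 := by
  obtain ⟨θ, hθ⟩ : ∃ θ, θ = Real.arccos (y / 2) := ⟨_, rfl⟩
  have hy' := abs_le.1 hy
  have hcos : 2 * Real.cos θ = y := by
    rw [hθ, Real.cos_arccos (by linarith) (by linarith)]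
    ring
  have hθ0 : 0 ≤ θ := by rw [hθ]; exact Real.arccos_nonneg _
  have hθ1 : θ ≤ Real.pi := by rw [hθ]; exact Real.arccos_le_pi _
  have hpi := Real.pi_gt_three
  have hsub : Icc θ (θ + η / 2) ⊆ Icc 0 (2 * Real.pi) := Icc_subset_Icc hθ0 (by linarith)
  have hc : Continuous fun x : ℝ => η / ((2 * Real.cos x - y) ^ 2 + η ^ 2) :=
    pois_cont hη (by fun_prop)
  have hi : IntegrableOn (fun x : ℝ => η / ((2 * Real.cos x - y) ^ 2 + η ^ 2))
      (Icc 0 (2 * Real.pi)) := hc.integrableOn_Icc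
  have h1 : ∫ x in Icc θ (θ + η / 2), η / ((2 * Real.cos x - y) ^ 2 + η ^ 2) ≤
      ∫ x in Icc 0 (2 * Real.pi), η / ((2 * Real.cos x - y) ^ 2 + η ^ 2) :=
    setIntegral_mono_set hi (Filter.Eventually.of_forall fun x => by positivity)
      hsub.eventuallyLE
  have h2 : ∫ x in Icc θ (θ + η / 2), (1 / (2 * η)) ≤
      ∫ x in Icc θ (θ + η / 2), η / ((2 * Real.cos x - y) ^ 2 + η ^ 2) := by
    refine setIntegral_mono_on (continuous_const.integrableOn_Icc) (hi.mono_set hsub)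
      measurableSet_Icc fun x hx => ?_
    have h3 : |2 * Real.cos x - y| ≤ η := by
      have h4 := Real.abs_cos_sub_cos_le x θ
      have h5 : |x - θ| ≤ η / 2 := by
        rw [abs_le]
        constructor <;> linarith [hx.1, hx.2]
      have h6 : 2 * Real.cos x - y = 2 * (Real.cos x - Real.cos θ) := by
        rw [← hcos]
        ring
      rw [h6, abs_mul, abs_two]
      linarith
    have h4 : (2 * Real.cos x - y) ^ 2 ≤ η ^ 2 := by
      rw [← sq_abs]
      exact pow_le_pow_left₀ (abs_nonneg _) h3 2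
    rw [div_le_div_iff₀ (by positivity) (by positivity)]
    nlinarith
  have h3 : ∫ x in Icc θ (θ + η / 2), (1 / (2 * η)) = 1 / 4 := by
    rw [setIntegral_const, smul_eq_mul, measureReal_def, Real.volume_Icc]
    rw [ENNReal.toReal_ofReal (by linarith)]
    field_simp
    ring
  rw [h3] at h2
  exact h2.trans h1

/-- the lower bound -/
theorem lower {n : ℕ} {E r θ0 c B : ℝ} {W : (Fin n → ℝ) → ℝ} (hW : Continuous W)
    (hW0 : ∀ k, 0 ≤ W k) (hB : ∀ k, W k ≤ B) (hr : 0 < r) (h0 : 0 ≤ θ0)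
    (h1 : θ0 + r ≤ 2 * Real.pi) (hc : 0 ≤ c)
    (hbox : ∀ k : Fin n → ℝ, (∀ i, k i ∈ Icc θ0 (θ0 + r)) → c ≤ W k ∧ |E - ep k| ≤ 2)
    {η : ℝ} (hη : 0 < η) (hη1 : η ≤ 1) :
    c / 4 * r ^ n ≤ ∫ k, W (fun i => k i.succ) * (η / ((ep k - E) ^ 2 + η ^ 2)) ∂(νd (n + 1)) := by
  have e1 : ∫ k, W (fun i => k i.succ) * (η / ((ep k - E) ^ 2 + η ^ 2)) ∂(νd (n + 1)) =
      ∫ p : ℝ × (Fin n → ℝ), W p.2 * (η / ((2 * Real.cos p.1 - (E - ep p.2)) ^ 2 + η ^ 2))
        ∂(ν0.prod (νd n)) := by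
    unfold νd
    rw [← ((measurePreserving_piFinSuccAbove (fun _ : Fin (n + 1) => ν0) 0).symm).integral_comp']
    simp_rw [MeasurableEquiv.piFinSuccAbove_symm_apply, Fin.insertNthEquiv, Fin.insertNth_zero,
      Equiv.coe_fn_mk]
    refine integral_congr_ae (Filter.Eventually.of_forall fun p => ?_)
    simp only
    have h2 : ep (Fin.cons p.1 p.2 : Fin (n + 1) → ℝ) = 2 * Real.cos p.1 + ep p.2 := by
      unfold ep
      rw [Fin.sum_univ_succ]
      simp
    have h3 : (fun i : Fin n => (Fin.cons p.1 p.2 : Fin (n + 1) → ℝ) i.succ) = p.2 := by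
      funext i
      simp
    have h4 : 2 * Real.cos p.1 - (E - ep p.2) = 2 * Real.cos p.1 + ep p.2 - E := by ring
    rw [h4, ← h2]
    simp only [cast_eq, Fin.cons_succ]
  have hcont : Continuous fun p : ℝ × (Fin n → ℝ) =>
      W p.2 * (η / ((2 * Real.cos p.1 - (E - ep p.2)) ^ 2 + η ^ 2)) := by
    have := ep_cont (d := n)
    exact (hW.comp continuous_snd).mul (pois_cont hη (by fun_prop))
  have hB0 : 0 ≤ B := (hW0 0).trans (hB 0)
  have hi : Integrable (fun p : ℝ × (Fin n → ℝ) =>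
      W p.2 * (η / ((2 * Real.cos p.1 - (E - ep p.2)) ^ 2 + η ^ 2))) (ν0.prod (νd n)) := by
    refine Integrable.of_bound (C := B * (1 / η)) hcont.aestronglyMeasurable
      (Filter.Eventually.of_forall fun p => ?_)
    rw [Real.norm_of_nonneg (mul_nonneg (hW0 _) (by positivity))]
    exact mul_le_mul (hB _) (pois_le hη _) (by positivity) hB0
  rw [e1, integral_prod_symm _ hi]
  have hin : ∀ k : Fin n → ℝ, ∫ x, W k * (η / ((2 * Real.cos x - (E - ep k)) ^ 2 + η ^ 2)) ∂ν0 =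
      W k * ∫ x, (η / ((2 * Real.cos x - (E - ep k)) ^ 2 + η ^ 2)) ∂ν0 := fun k =>
    integral_const_mul _ _
  simp only [hin]
  have hi2 : Integrable (fun k : Fin n → ℝ =>
      W k * ∫ x, (η / ((2 * Real.cos x - (E - ep k)) ^ 2 + η ^ 2)) ∂ν0) (νd n) := by
    have := hi.integral_prod_right
    simpa only [hin] using this
  have hbm : MeasurableSet (Set.pi univ fun _ : Fin n => Icc θ0 (θ0 + r)) :=
    MeasurableSet.univ_pi fun _ => measurableSet_Icc
  have h2 : ∫ k in (Set.pi univ fun _ : Fin n => Icc θ0 (θ0 + r)), (c * (1 / 4)) ∂(νd n) ≤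
      ∫ k in (Set.pi univ fun _ : Fin n => Icc θ0 (θ0 + r)),
        W k * (∫ x, (η / ((2 * Real.cos x - (E - ep k)) ^ 2 + η ^ 2)) ∂ν0) ∂(νd n) := by
    refine setIntegral_mono_on ((integrable_const _).integrableOn) hi2.integrableOn hbm
      fun k hk => ?_
    obtain ⟨b1, b2⟩ := hbox k fun i => hk i (mem_univ i)
    exact mul_le_mul b1 (one_dim hη hη1 b2) (by norm_num) (hc.trans b1)
  have h3 : ∫ k in (Set.pi univ fun _ : Fin n => Icc θ0 (θ0 + r)),
        W k * (∫ x, (η / ((2 * Real.cos x - (E - ep k)) ^ 2 + η ^ 2)) ∂ν0) ∂(νd n) ≤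
      ∫ k, W k * (∫ x, (η / ((2 * Real.cos x - (E - ep k)) ^ 2 + η ^ 2)) ∂ν0) ∂(νd n) :=
    setIntegral_le_integral hi2 (Filter.Eventually.of_forall fun k =>
      mul_nonneg (hW0 k) (integral_nonneg fun x => by positivity))
  have h4 : ∫ k in (Set.pi univ fun _ : Fin n => Icc θ0 (θ0 + r)), (c * (1 / 4)) ∂(νd n) =
      c / 4 * r ^ n := by
    rw [setIntegral_const, smul_eq_mul, measureReal_def]
    unfold νd
    rw [Measure.pi_pi]
    have h5 : ν0 (Icc θ0 (θ0 + r)) = ENNReal.ofReal r := by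
      unfold ν0
      rw [Measure.restrict_apply measurableSet_Icc,
        inter_eq_left.2 (Icc_subset_Icc h0 h1), Real.volume_Icc]
      congr 1
      ring
    rw [h5, Finset.prod_const, Finset.card_univ, Fintype.card_fin, ENNReal.toReal_pow,
      ENNReal.toReal_ofReal hr.le]
    ring
  rw [h4] at h2
  exact h2.trans h3

/-- a good box -/
theorem box_ex (n : ℕ) (hn : 1 ≤ n) (E : ℝ) (hE : |E| < 2 * (n + 1)) :
    ∃ θ0 r c : ℝ, 0 < r ∧ 0 < c ∧ 0 ≤ θ0 ∧ θ0 + r ≤ 2 * Real.pi ∧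
      ∀ k : Fin n → ℝ, (∀ i, k i ∈ Icc θ0 (θ0 + r)) →
        |E - ep k| ≤ 2 ∧ ∀ i, c ≤ (2 * Real.sin (k i)) ^ 2 := by
  have hn1 : (0 : ℝ) < n + 1 := by positivity
  have hn0 : (0 : ℝ) < n := by exact_mod_cast hn
  have hE' := abs_lt.1 hE
  obtain ⟨y, hy⟩ : ∃ y, y = E / (2 * (n + 1)) := ⟨_, rfl⟩
  have hy1 : y < 1 := by
    rw [hy, div_lt_one (by positivity)]
    exact hE'.2
  have hy2 : -1 < y := by
    rw [hy, lt_div_iff₀ (by positivity)]
    linarith
  obtain ⟨θ, hθ⟩ : ∃ θ, θ = Real.arccos y := ⟨_, rfl⟩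
  have hcos : Real.cos θ = y := by rw [hθ, Real.cos_arccos hy2.le hy1.le]
  have hθ0 : 0 < θ := by rw [hθ]; exact Real.arccos_pos.2 hy1
  have hθ1 : θ ≤ Real.pi := by rw [hθ]; exact Real.arccos_le_pi _
  have hsin : 0 < Real.sin θ := by
    rw [hθ, Real.sin_arccos]
    apply Real.sqrt_pos.2
    nlinarith
  have hgap : 0 < 2 - |E| / (n + 1) := by
    rw [sub_pos, div_lt_iff₀ hn1]
    linarith
  obtain ⟨r, hr⟩ : ∃ r, r = min (min 1 (Real.sin θ / 2)) ((2 - |E| / (n + 1)) / (2 * n)) :=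
    ⟨_, rfl⟩
  have hr0 : 0 < r := by rw [hr]; positivity
  have hr1 : r ≤ 1 := by rw [hr]; exact (min_le_left _ _).trans (min_le_left _ _)
  have hr2 : r ≤ Real.sin θ / 2 := by rw [hr]; exact (min_le_left _ _).trans (min_le_right _ _)
  have hr3 : r ≤ (2 - |E| / (n + 1)) / (2 * n) := by rw [hr]; exact min_le_right _ _
  have hpi := Real.pi_gt_three
  refine ⟨θ, r, Real.sin θ ^ 2, hr0, by positivity, hθ0.le, by linarith, fun k hk => ?_⟩
  have hkr : ∀ i, |k i - θ| ≤ r := fun i => by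
    rw [abs_of_nonneg (by linarith [(hk i).1])]
    linarith [(hk i).2]
  constructor
  · have h1 : E - ep k = E / (n + 1) - ∑ i, (2 * Real.cos (k i) - 2 * Real.cos θ) := by
      rw [Finset.sum_sub_distrib, Finset.sum_const, Finset.card_univ, Fintype.card_fin,
        nsmul_eq_mul, hcos, hy]
      unfold ep
      field_simp
      ring
    have h2 : |∑ i, (2 * Real.cos (k i) - 2 * Real.cos θ)| ≤ n * (2 * r) := by
      refine (Finset.abs_sum_le_sum_abs _ _).trans ?_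
      calc ∑ i, |2 * Real.cos (k i) - 2 * Real.cos θ| ≤ ∑ _i : Fin n, 2 * r := by
            refine Finset.sum_le_sum fun i _ => ?_
            rw [← mul_sub, abs_mul, abs_two]
            have := Real.abs_cos_sub_cos_le (k i) θ
            linarith [hkr i]
        _ = _ := by
            rw [Finset.sum_const, Finset.card_univ, Fintype.card_fin, nsmul_eq_mul]
    have h3 : n * (2 * r) ≤ 2 - |E| / (n + 1) := by
      rw [le_div_iff₀ (by positivity)] at hr3
      linarith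
    rw [h1]
    refine (abs_sub _ _).trans ?_
    rw [abs_div, abs_of_pos hn1]
    linarith
  · intro i
    have h1 := Real.abs_sin_sub_sin_le (k i) θ
    have h2 : Real.sin θ / 2 ≤ Real.sin (k i) := by
      have := (abs_le.1 (h1.trans (hkr i))).1
      linarith
    have h3 : Real.sin θ ≤ 2 * Real.sin (k i) := by linarith
    exact pow_le_pow_left₀ hsin.le h3 2

theorem mJ_pos (hd : 3 ≤ d) (E : ℝ) (hE : |E| < 2 * d) : 0 < (mJ d E).re := by
  obtain ⟨n, rfl⟩ : ∃ n, d = n + 1 := ⟨d - 1, by omega⟩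
  obtain ⟨θ, r, c, hr, hc, h0, h1, hb⟩ := box_ex n (by omega) E (by push_cast at hE; exact hE)
  have hpi := Real.pi_pos
  have h2 := dos_lim hd E
  have h3 : (1 : ℝ) / 4 * r ^ n ≤ (2 * Real.pi) ^ (n + 1) * (mJ (n + 1) E).re := by
    refine ge_of_tendsto h2 ?_
    have h4 : ∀ᶠ η : ℝ in 𝓝[>] 0, η < 1 := nhdsWithin_le_nhds (gt_mem_nhds one_pos)
    filter_upwards [self_mem_nhdsWithin, h4] with η hη hη1
    have h5 := lower (n := n) (E := E) (r := r) (θ0 := θ) (c := 1) (B := 1) (W := fun _ => 1)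
      continuous_const (fun _ => zero_le_one) (fun _ => le_rfl) hr h0 h1 zero_le_one
      (fun k hk => ⟨le_rfl, (hb k hk).1⟩) hη hη1.le
    simpa only [one_mul] using h5
  have h4 : 0 < (1 : ℝ) / 4 * r ^ n := by positivity
  by_contra hcon
  push Not at hcon
  have := mul_nonpos_of_nonneg_of_nonpos (by positivity : 0 ≤ (2 * Real.pi) ^ (n + 1)) hcon
  linarith

theorem mS_pos (hd : 3 ≤ d) (E : ℝ) (hE : |E| < 2 * d) : 0 < (mS d E).re := by
  obtain ⟨n, rfl⟩ : ∃ n, d = n + 1 := ⟨d - 1, by omega⟩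
  obtain ⟨θ, r, c, hr, hc, h0, h1, hb⟩ := box_ex n (by omega) E (by push_cast at hE; exact hE)
  have hpi := Real.pi_pos
  obtain ⟨j, _⟩ : ∃ j : Fin n, True := ⟨⟨0, by omega⟩, trivial⟩
  have h2 := vel_lim hd j.succ E
  have h3 : c / 4 * r ^ n ≤ (2 * Real.pi) ^ (n + 1) * (mS (n + 1) E).re := by
    refine ge_of_tendsto h2 ?_
    have h4 : ∀ᶠ η : ℝ in 𝓝[>] 0, η < 1 := nhdsWithin_le_nhds (gt_mem_nhds one_pos)
    filter_upwards [self_mem_nhdsWithin, h4] with η hη hη1
    exact lower (n := n) (E := E) (r := r) (θ0 := θ) (c := c) (B := 4)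
      (W := fun k => (2 * Real.sin (k j)) ^ 2)
      (by fun_prop) (fun _ => sq_nonneg _) (fun k => by
        nlinarith [Real.sin_sq_add_cos_sq (k j), sq_nonneg (Real.cos (k j))]) hr h0 h1 hc.le
      (fun k hk => ⟨(hb k hk).2 j, (hb k hk).1⟩) hη hη1.le
  have h4 : 0 < c / 4 * r ^ n := by positivity
  by_contra hcon
  push Not at hcon
  have := mul_nonpos_of_nonneg_of_nonpos (by positivity : 0 ≤ (2 * Real.pi) ^ (n + 1)) hcon
  linarith

/-- continuity of the density of states -/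
theorem mJ_cont (hd : 3 ≤ d) : Continuous fun E : ℝ => (mJ d E).re := by
  rw [continuous_iff_continuousAt]
  intro E
  have h1 : ∀ E' : ℝ, |(mJ d E').re - (mJ d E).re| ≤ 3 * 72 * C54 * |E' - E| ^ (1 / 4 : ℝ) := by
    intro E'
    have h2 := cmp2 (k1_cont (E' : ℂ)) (k1_cont E) (HJ_cont d)
      (fun s hs => k1_le2 (ζ := (E' : ℂ)) (by simp) hs) (fun s hs => k1_le2 (ζ := (E : ℂ)) (by simp) hs)
      (abs_nonneg (E' - E)) (HJ_bd hd)
      (fun s hs => by
        have h3 := k1_diff (ζ := (E' : ℂ)) (by simp) E hs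
        have h4 : ‖(E' : ℂ) - E‖ = |E' - E| := by
          rw [← Complex.ofReal_sub, Complex.norm_real, Real.norm_eq_abs]
        rw [h4] at h3
        have : 0 ≤ (s * |E' - E|) ^ (1 / 4 : ℝ) := by positivity
        linarith)
    refine le_trans ?_ h2
    unfold mJ
    rw [← Complex.sub_re]
    exact Complex.abs_re_le_norm _
  rw [ContinuousAt, tendsto_iff_norm_sub_tendsto_zero]
  refine squeeze_zero (fun _ => norm_nonneg _) (fun E' => h1 E') ?_
  have h3 : Continuous fun E' : ℝ => 3 * 72 * C54 * |E' - E| ^ (1 / 4 : ℝ) := by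
    refine continuous_const.mul ?_
    exact (Real.continuous_rpow_const (by norm_num)).comp (by fun_prop)
  have h4 := h3.tendsto E
  simpa using h4

theorem mJ_unif (hd : 3 ≤ d) (a : ℝ) (ha : a < 2 * d) :
    ∃ c0 : ℝ, 0 < c0 ∧ ∀ E : ℝ, |E| ≤ a → c0 ≤ (mJ d E).re := by
  rcases lt_or_ge a 0 with h | h
  · exact ⟨1, one_pos, fun E hE => absurd (abs_nonneg E) (by linarith)⟩
  · have hne : (Icc (-a) a).Nonempty := ⟨0, by simp [h]⟩
    obtain ⟨E0, hE0, hmin⟩ := isCompact_Icc.exists_isMinOn hne ((mJ_cont hd).continuousOn)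
    refine ⟨(mJ d E0).re, mJ_pos hd E0 ?_, fun E hE => hmin (abs_le.1 hE)⟩
    exact (abs_le.2 hE0).trans_lt ha

end Pool.Agent.Run7.h47
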