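import Pool.Agent.Run7.h47.Apr

/-! The limit of the ladder on the torus. -/

set_option autoImplicit false
set_option linter.unusedSectionVars false

open scoped BigOperators Matrix
open MeasureTheory

namespace Pool.Agent.Run7.h47

open Pool.Agent.W788.MFP.Four Pool.Agent.W788.BK
open Pool.Agent.W788.MFP.Form Pool.Agent.W788.MFP.Dos
open Pool.Agent.W788.MFP.Gm (Γ)

theorem fin_alg (A e B : ℂ) (b b0 μ : ℝ) (hb0 : 0 < b0) (hb : b0 ≤ b) (hμ : μ ≤ b0 / 2)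
    (hA : ‖A - 1‖ ≤ μ) (he : ‖e‖ ≤ μ) (hB : ‖B - b‖ ≤ μ) :
    B ≠ 0 ∧ ‖(A + e) / B - ((1 / b : ℝ) : ℂ)‖ ≤ (4 / b0 + 2 / b0 ^ 2) * μ := by
  have hμ0 : 0 ≤ μ := (norm_nonneg _).trans hA
  have hbp : 0 < b := hb0.trans_le hb
  have hBn : b0 / 2 ≤ ‖B‖ := by
    have h1 := norm_sub_norm_le (b : ℂ) ((b : ℂ) - B)
    rw [sub_sub_cancel, Complex.norm_real, Real.norm_of_nonneg hbp.le, norm_sub_rev] at h1
    linarith
  have hB0 : B ≠ 0 := by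
    intro h
    rw [h, norm_zero] at hBn
    linarith
  have hb' : (b : ℂ) ≠ 0 := by exact_mod_cast hbp.ne'
  refine ⟨hB0, ?_⟩
  have e1 : (A + e) / B - ((1 / b : ℝ) : ℂ) = (A - 1 + e) / B + ((b : ℂ) - B) / (B * b) := by
    push_cast
    field_simp
    ring
  rw [e1]
  refine (norm_add_le _ _).trans ?_
  rw [norm_div, norm_div, norm_mul, Complex.norm_real, Real.norm_of_nonneg hbp.le, norm_sub_rev]
  have h1 : ‖A - 1 + e‖ ≤ 2 * μ := (norm_add_le _ _).trans (by linarith)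
  calc ‖A - 1 + e‖ / ‖B‖ + ‖B - ↑b‖ / (‖B‖ * b) ≤ 2 * μ / (b0 / 2) + μ / (b0 / 2 * b0) := by
        gcongr
    _ = _ := by
        field_simp
        ring

theorem mS_bd {d : ℕ} (hd : 3 ≤ d) (E0 : ℝ) : ‖mS d E0‖ ≤ 2 * (72 * C32) :=
  gbd (fun s hs => k1_le2 (ζ := (E0 : ℂ)) (by simp) hs) (HS_bd hd)

variable {d L : ℕ} [NeZero L] {σ E t : ℝ}

/-- the numerical part of the limit -/
theorem num_lim {c0 M w X X' r J0 S q B0 : ℝ} (hc0 : 0 < c0) (hM : 0 ≤ M) (hw0 : 0 ≤ w)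
    (hr0 : 0 ≤ r) (hJ : c0 ≤ J0) (hS0 : 0 ≤ S) (hS1 : S ≤ C0) (hq0 : 0 ≤ q)
    (hq1 : q ≤ M ^ 2) (hX : |X + r - J0| ≤ 3 * w) (hw1 : 3 * w ≤ c0 / 2)
    (hXX : |X - X'| ≤ w * r)
    (hB : |B0 - 1 / 4 * q * S / (X + r) ^ 3| ≤ 1920 * M ^ 3 * C0 / c0 ^ 4 * w + 4 * M ^ 2 / c0 ^ 3 * w) :
    |(1 + (X - X') / r) / (X + r) + B0 - (1 / J0 + q * S / (4 * J0 ^ 3))| ≤
      ((1 + M ^ 2 * C0 * (2 / c0) ^ 2) * (6 / c0 ^ 2) + 2 / c0 + 1920 * M ^ 3 * C0 / c0 ^ 4 +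
        4 * M ^ 2 / c0 ^ 3) * w := by
  have hC0 := C0_ge
  have hJp : 0 < J0 := hc0.trans_le hJ
  have hXr : c0 / 2 ≤ X + r := by
    have := (abs_le.1 hX).1
    linarith
  have hXp : 0 < X + r := by linarith
  set y := 1 / (X + r) with hy
  set z := 1 / J0 with hz
  have hy1 : y ≤ 2 / c0 := by
    rw [hy, div_le_div_iff₀ hXp hc0]
    linarith
  have hz1 : z ≤ 2 / c0 := by
    rw [hz, div_le_div_iff₀ hJp hc0]
    linarith
  have hy0 : 0 < y := by positivity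
  have hz0 : 0 < z := by positivity
  have hyz : |y - z| ≤ 6 / c0 ^ 2 * w := by
    have e1 : y - z = -(X + r - J0) * (y * z) := by
      rw [hy, hz]
      field_simp
      ring
    rw [e1, abs_mul, abs_neg, abs_of_pos (by positivity : 0 < y * z)]
    have h1 : z ≤ 1 / c0 := by
      rw [hz]
      gcongr
    calc |X + r - J0| * (y * z) ≤ 3 * w * (2 / c0 * (1 / c0)) := by gcongr
      _ = _ := by field_simp; ring
  have hy3 : |y ^ 3 - z ^ 3| ≤ 3 * (2 / c0) ^ 2 * |y - z| := by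
    have e1 : y ^ 3 - z ^ 3 = (y ^ 2 + y * z + z ^ 2) * (y - z) := by ring
    rw [e1, abs_mul, abs_of_pos (by positivity)]
    refine mul_le_mul_of_nonneg_right ?_ (abs_nonneg _)
    calc y ^ 2 + y * z + z ^ 2 ≤ (2 / c0) ^ 2 + 2 / c0 * (2 / c0) + (2 / c0) ^ 2 := by gcongr
      _ = _ := by ring
  have hδ : |(X - X') / r * y| ≤ 2 / c0 * w := by
    rw [abs_mul, abs_of_pos hy0, abs_div, abs_of_nonneg hr0]
    have h1 : |X - X'| / r ≤ w := div_le_of_le_mul₀ hr0 hw0 hXX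
    calc |X - X'| / r * y ≤ w * (2 / c0) := mul_le_mul h1 hy1 hy0.le hw0
      _ = _ := by ring
  have e2 : (1 + (X - X') / r) / (X + r) + B0 - (1 / J0 + q * S / (4 * J0 ^ 3)) =
      (y - z) + (X - X') / r * y + (B0 - 1 / 4 * q * S / (X + r) ^ 3) +
        1 / 4 * q * S * (y ^ 3 - z ^ 3) := by
    rw [hy, hz]
    field_simp
    ring
  rw [e2]
  have h4 : |1 / 4 * q * S * (y ^ 3 - z ^ 3)| ≤
      M ^ 2 * C0 * (2 / c0) ^ 2 * (6 / c0 ^ 2 * w) := by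
    rw [abs_mul, abs_of_nonneg (by positivity : 0 ≤ 1 / 4 * q * S)]
    have h5 : 0 ≤ 6 / c0 ^ 2 * w := by positivity
    calc 1 / 4 * q * S * |y ^ 3 - z ^ 3| ≤ 1 / 4 * M ^ 2 * C0 * (3 * (2 / c0) ^ 2 * (6 / c0 ^ 2 * w)) := by
          gcongr
          exact hy3.trans (by gcongr)
      _ = 3 / 4 * (M ^ 2 * C0 * (2 / c0) ^ 2 * (6 / c0 ^ 2 * w)) := by ring
      _ ≤ _ := by
          have : 0 ≤ M ^ 2 * C0 * (2 / c0) ^ 2 * (6 / c0 ^ 2 * w) := by positivity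
          linarith
  have t1 := abs_add_le ((y - z) + (X - X') / r * y + (B0 - 1 / 4 * q * S / (X + r) ^ 3))
    (1 / 4 * q * S * (y ^ 3 - z ^ 3))
  have t2 := abs_add_le ((y - z) + (X - X') / r * y) (B0 - 1 / 4 * q * S / (X + r) ^ 3)
  have t3 := abs_add_le (y - z) ((X - X') / r * y)
  refine t1.trans ?_
  have : ((1 + M ^ 2 * C0 * (2 / c0) ^ 2) * (6 / c0 ^ 2) + 2 / c0 + 1920 * M ^ 3 * C0 / c0 ^ 4 +
        4 * M ^ 2 / c0 ^ 3) * w = 6 / c0 ^ 2 * w + 2 / c0 * w + (1920 * M ^ 3 * C0 / c0 ^ 4 * w +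
          4 * M ^ 2 / c0 ^ 3 * w) + M ^ 2 * C0 * (2 / c0) ^ 2 * (6 / c0 ^ 2 * w) := by ring
  rw [this]
  linarith

/-- the ladder identity in normalized form -/
theorem tf_eq (ht : 0 < t) (hσ : 0 < σ ^ 2) (p : T d L)
    (hB : (1 - σ ^ 2 * kap σ E t p) / ((t / σ ^ 2 : ℝ) : ℂ) ≠ 0) :
    t * ff σ E t p = (σ ^ 2 * kap σ E t p + σ ^ 4 * (eA σ E t p + eB σ E t p)) /
      ((1 - σ ^ 2 * kap σ E t p) / ((t / σ ^ 2 : ℝ) : ℂ)) := by
  have h := teq (σ := σ) (E := E) ht p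
  have hσ' : (σ : ℂ) ^ 2 ≠ 0 := by exact_mod_cast hσ.ne'
  have ht' : (t : ℂ) ≠ 0 := by exact_mod_cast ht.ne'
  rw [eq_div_iff hB]
  push_cast
  field_simp
  linear_combination ((σ : ℂ) ^ 2) * h

/-- the error terms -/
theorem err_le (ht : 0 < t) (hσ : 0 < σ ^ 2) (p : T d L) {ε' : ℝ} (hε' : 0 ≤ ε')
    (hmf : (mf d L σ E t).im ≤ C0) (hX0 : 0 ≤ (mm d L σ E t).im)
    (hV1 : V1 d L σ E t ≤ ε' * (t / σ ^ 2) ^ 3)
    (hV2 : t ^ 2 * V2 σ E t p ≤ ε' * (t / σ ^ 2) ^ 3) :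
    ‖(σ : ℂ) ^ 4 * (eA σ E t p + eB σ E t p)‖ ≤ 2 * Real.sqrt (C0 * ε') := by
  have hC0 := C0_ge
  have hζ0 := ze_pos (d := d) (L := L) (σ := σ) (E := E) ht
  have hmf0 : 0 ≤ (mf d L σ E t).im := GG_im_nonneg hζ0
  have h1 : g2 d L σ E t * (mm d L σ E t).im ≤ C0 / σ ^ 2 := by
    unfold g2
    have h2 : σ ^ 2 * (mm d L σ E t).im ≤ (ze d L σ E t).im := by
      rw [ze_im]
      linarith
    rw [div_mul_eq_mul_div, div_le_div_iff₀ hζ0 hσ]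
    calc (mf d L σ E t).im * (mm d L σ E t).im * σ ^ 2 =
        (mf d L σ E t).im * (σ ^ 2 * (mm d L σ E t).im) := by ring
      _ ≤ C0 * (ze d L σ E t).im := mul_le_mul hmf h2 (by positivity) (by linarith)
  have h5 : 0 ≤ g2 d L σ E t * (mm d L σ E t).im := mul_nonneg (g2_nonneg ht) hX0
  have hσ0 : σ ≠ 0 := fun h => by rw [h] at hσ; norm_num at hσ
  have hA : (σ ^ 4 * ‖eA σ E t p‖) ^ 2 ≤ C0 * ε' := by
    have h2 := eA_le (σ := σ) (E := E) ht p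
    calc (σ ^ 4 * ‖eA σ E t p‖) ^ 2 = σ ^ 8 * ‖eA σ E t p‖ ^ 2 := by ring
      _ ≤ σ ^ 8 * ((g2 d L σ E t * V1 d L σ E t) * ((t ^ 2)⁻¹ * ((mm d L σ E t).im / t))) := by
          gcongr
      _ = σ ^ 8 / t ^ 3 * V1 d L σ E t * (g2 d L σ E t * (mm d L σ E t).im) := by
          field_simp
      _ ≤ σ ^ 8 / t ^ 3 * (ε' * (t / σ ^ 2) ^ 3) * (C0 / σ ^ 2) := by gcongr
      _ = C0 * ε' := by field_simp
  have hB : (σ ^ 4 * ‖eB σ E t p‖) ^ 2 ≤ C0 * ε' := by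
    have h2 := eB_le (σ := σ) (E := E) ht p
    have hV0 := V2_nonneg (σ := σ) (E := E) (t := t) p
    calc (σ ^ 4 * ‖eB σ E t p‖) ^ 2 = σ ^ 8 * ‖eB σ E t p‖ ^ 2 := by ring
      _ ≤ σ ^ 8 * ((g2 d L σ E t * V2 σ E t p) * ((mm d L σ E t).im / t)) := by
          gcongr
      _ = σ ^ 8 / t ^ 3 * (t ^ 2 * V2 σ E t p) * (g2 d L σ E t * (mm d L σ E t).im) := by
          field_simp
      _ ≤ σ ^ 8 / t ^ 3 * (ε' * (t / σ ^ 2) ^ 3) * (C0 / σ ^ 2) := by gcongr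
      _ = C0 * ε' := by field_simp
  have hA' := Real.le_sqrt_of_sq_le hA
  have hB' := Real.le_sqrt_of_sq_le hB
  rw [norm_mul, norm_pow, Complex.norm_real, Real.norm_eq_abs, ← abs_pow,
    abs_of_nonneg (by positivity)]
  calc σ ^ 4 * ‖eA σ E t p + eB σ E t p‖ ≤ σ ^ 4 * (‖eA σ E t p‖ + ‖eB σ E t p‖) := by
        gcongr
        exact norm_add_le _ _
    _ ≤ _ := by linarith

/-- the error of the ladder kernel -/
theorem kap_le (ht : 0 < t) (hσ : 0 < σ ^ 2) (p : T d L) {ε' c0 : ℝ} (hε' : 0 ≤ ε') (hc0 : 0 < c0)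
    (hmf : (mf d L σ E t).im ≤ C0) (hX0 : 0 ≤ (mm d L σ E t).im)
    (hη : c0 / 2 * σ ^ 2 ≤ (ze d L σ E t).im)
    (hV1 : V1 d L σ E t ≤ ε' * (t / σ ^ 2) ^ 3) :
    ‖(σ : ℂ) ^ 2 * (kap σ E t p - Kp (ze d L σ E t) p)‖ ≤
      2 * Real.sqrt (C0 * ε') / c0 * (t / σ ^ 2) := by
  have hC0 := C0_ge
  have hζ0 := ze_pos (d := d) (L := L) (σ := σ) (E := E) ht
  have hmf0 : 0 ≤ (mf d L σ E t).im := GG_im_nonneg hζ0
  have h1 : g2 d L σ E t * (mm d L σ E t).im ≤ C0 / σ ^ 2 := by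
    unfold g2
    have h2 : σ ^ 2 * (mm d L σ E t).im ≤ (ze d L σ E t).im := by
      rw [ze_im]
      linarith
    rw [div_mul_eq_mul_div, div_le_div_iff₀ hζ0 hσ]
    calc (mf d L σ E t).im * (mm d L σ E t).im * σ ^ 2 =
        (mf d L σ E t).im * (σ ^ 2 * (mm d L σ E t).im) := by ring
      _ ≤ C0 * (ze d L σ E t).im := mul_le_mul hmf h2 (by positivity) (by linarith)
  have h5 : 0 ≤ g2 d L σ E t * (mm d L σ E t).im := mul_nonneg (g2_nonneg ht) hX0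
  have hσ0 : σ ≠ 0 := fun h => by rw [h] at hσ; norm_num at hσ
  have hη' : ((ze d L σ E t).im)⁻¹ ≤ 2 / (c0 * σ ^ 2) := by
    rw [inv_eq_one_div, div_le_div_iff₀ hζ0 (by positivity)]
    linarith
  have h2 := kap_sub (σ := σ) (E := E) ht p
  have hs : (σ ^ 2 * ‖kap σ E t p - Kp (ze d L σ E t) p‖) ^ 2 ≤
      (2 * Real.sqrt (C0 * ε') / c0 * (t / σ ^ 2)) ^ 2 := by
    have h0 : 0 ≤ ((ze d L σ E t).im)⁻¹ := by positivity
    calc (σ ^ 2 * ‖kap σ E t p - Kp (ze d L σ E t) p‖) ^ 2 =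
        σ ^ 4 * ‖kap σ E t p - Kp (ze d L σ E t) p‖ ^ 2 := by ring
      _ ≤ σ ^ 4 * (σ ^ 4 * (g2 d L σ E t * V1 d L σ E t) *
          (t⁻¹ * ((ze d L σ E t).im)⁻¹ ^ 2 * (mm d L σ E t).im)) := by gcongr
      _ = σ ^ 8 / t * V1 d L σ E t * (g2 d L σ E t * (mm d L σ E t).im) *
          ((ze d L σ E t).im)⁻¹ ^ 2 := by
          rw [div_eq_mul_inv]
          ring
      _ ≤ σ ^ 8 / t * (ε' * (t / σ ^ 2) ^ 3) * (C0 / σ ^ 2) * (2 / (c0 * σ ^ 2)) ^ 2 := by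
          gcongr
      _ = 4 * (C0 * ε') / c0 ^ 2 * (t / σ ^ 2) ^ 2 := by
          field_simp
          norm_num
      _ = 4 * Real.sqrt (C0 * ε') ^ 2 / c0 ^ 2 * (t / σ ^ 2) ^ 2 := by
          rw [Real.sq_sqrt (by positivity)]
      _ = _ := by ring
  rw [norm_mul, norm_pow, Complex.norm_real, Real.norm_eq_abs, sq_abs]
  exact (abs_le_of_sq_le_sq' hs (by positivity)).2

end Pool.Agent.Run7.h47
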