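import Pool.Agent.Run7.h47.Var

/-! Choice of the parameters. -/

set_option autoImplicit false
set_option linter.unusedSectionVars false

open scoped BigOperators Matrix
open MeasureTheory

namespace Pool.Agent.Run7.h47

open Pool.Agent.W788.MFP.Four Pool.Agent.W788.BK
open Pool.Agent.W788.MFP.Form Pool.Agent.W788.MFP.Dos
open Pool.Agent.W788.MFP.Gm (Γ)

/-- powers of small numbers -/
theorem small_pow (K v ε : ℝ) (hv : 0 < v) (hε : 0 < ε) :
    ∃ s : ℝ, 0 < s ∧ ∀ x : ℝ, 0 < x → x ≤ s → K * x ^ v ≤ ε := by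
  obtain ⟨K', hK', hK0⟩ : ∃ K' : ℝ, K ≤ K' ∧ 0 < K' := ⟨|K| + 1, by
    linarith [le_abs_self K], by positivity⟩
  refine ⟨(ε / K') ^ (1 / v), by positivity, fun x hx hxs => ?_⟩
  have h1 : x ^ v ≤ ε / K' := by
    calc x ^ v ≤ ((ε / K') ^ (1 / v)) ^ v := Real.rpow_le_rpow hx.le hxs hv.le
      _ = ε / K' := by
          rw [← Real.rpow_mul (by positivity), one_div, inv_mul_cancel₀ hv.ne', Real.rpow_one]
  calc K * x ^ v ≤ K' * x ^ v := by gcongr
    _ ≤ K' * (ε / K') := by gcongr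
    _ = ε := by field_simp

theorem pow_cmp {x u v : ℝ} (hx : 0 < x) (hx1 : x ≤ 1) (h : v ≤ u) : x ^ u ≤ x ^ v :=
  Real.rpow_le_rpow_of_exponent_ge hx hx1 h

/-- comparison of two powers -/
theorem cmp_pow (K u v ε : ℝ) (huv : v < u) (hε : 0 < ε) :
    ∃ s : ℝ, 0 < s ∧ ∀ x : ℝ, 0 < x → x ≤ s → K * x ^ u ≤ ε * x ^ v := by
  obtain ⟨s, hs, h⟩ := small_pow K (u - v) ε (by linarith) hε
  refine ⟨s, hs, fun x hx hxs => ?_⟩
  have h1 : x ^ u = x ^ (u - v) * x ^ v := by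
    rw [← Real.rpow_add hx]
    congr 1
    ring
  rw [h1, ← mul_assoc]
  exact mul_le_mul_of_nonneg_right (h x hx hxs) (by positivity)

theorem log_bd {δ a : ℝ} (hδ : 0 < δ) (ha : 0 < a) : Real.log (1 / δ) ≤ δ ^ (-a) / a := by
  have h := Real.log_le_rpow_div (x := 1 / δ) (by positivity) ha
  rwa [one_div, Real.inv_rpow hδ.le, ← Real.rpow_neg hδ.le, ← one_div] at h

theorem C3_pos : 0 < C3 := by
  unfold C3
  norm_num

/-- the variance bounds for all small couplings -/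
theorem par (d : ℕ) (hd : 3 ≤ d) (κ : ℝ) (hκ0 : 0 < κ) (hκ1 : κ < 4 / 35) (ε : ℝ) (hε : 0 < ε)
    (hε1 : ε ≤ 1) :
    ∃ s : ℝ, 0 < s ∧ s ≤ 1 / 5 ∧ ∀ (σ E t : ℝ) (L : ℕ) [NeZero L], 0 < |σ| → |σ| ≤ s →
      |σ| ^ (2 + κ) ≤ t → t ≤ σ ^ 2 → (|σ| ^ 12)⁻¹ ≤ (L : ℝ) → (L : ℝ) ≤ 2 * (|σ| ^ 12)⁻¹ →
      V1 d L σ E t ≤ ε * (t / σ ^ 2) ^ 3 * (1 + (mm d L σ E t).im ^ 2) ∧
      ∀ p : T d L, t ^ 2 * V2 σ E t p ≤ ε * (t / σ ^ 2) ^ 3 * (1 + (mm d L σ E t).im ^ 2) := by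
  obtain ⟨CQ, hCQ, hqb⟩ := s_qb
  set e : ℝ := (4 - 35 * κ) / 18 with he
  have he0 : 0 < e := by rw [he]; linarith
  have he1 : e < 1 := by rw [he]; linarith
  have hκe : κ = 4 / 35 - 18 * e / 35 := by rw [he]; ring
  set a : ℝ := e / 7 with ha
  have ha0 : 0 < a := by positivity
  have hea : 0 < e * a := by positivity
  set KQ : ℝ := 2 * CQ / a ^ 2 with hKQ
  have hKQ0 : 0 < KQ := by positivity
  have hC3 := C3_pos
  set Kγ : ℝ := (2 + 8 * C3) / a with hKγ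
  have hKγ0 : 0 < Kγ := by positivity
  set P : ℕ := ⌈(12 * (d : ℝ) + 8) * 7 / (5 * e)⌉₊ with hP
  have hP1 : (12 * (d : ℝ) + 8) * 7 / (5 * e) ≤ P := Nat.le_ceil _
  have hP2 : 12 * (d : ℝ) + 8 ≤ 5 * e / 7 * P := by
    rw [div_le_iff₀ (by positivity)] at hP1
    linarith
  have hP0 : P ≠ 0 := by
    intro h
    rw [h] at hP2
    have : (0 : ℝ) ≤ d := Nat.cast_nonneg d
    norm_num at hP2
    linarith
  set K3 : ℝ := 120 * ((8 * P * Kγ) ^ P * 2 ^ d) with hK3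
  obtain ⟨s1, hs1, H1⟩ := cmp_pow (2 * (120 * (48 * KQ + 2)))
    (8 + (2 - e) * (9 / 7) - 4 * a) (5 * (2 + κ)) ε (by
      rw [hκe, ha]
      linarith) hε
  obtain ⟨s2, hs2, H2⟩ := cmp_pow (3840 * KQ * Kγ ^ 2)
    (2 - 8 * a - (2 - e) * (5 / 7)) (3 * κ) (ε / 2) (by
      rw [hκe, ha]
      linarith) (by positivity)
  obtain ⟨s3, hs3, H3⟩ := cmp_pow K3
    (2 - 4 * (2 + κ) + (5 * e / 7 * P - 12 * d)) (3 * κ) (ε / 2) (by linarith) (by positivity)
  refine ⟨min (min s1 s2) (min s3 (1 / 5)), by positivity,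
    (min_le_right _ _).trans (min_le_right _ _), ?_⟩
  intro σ E t L _ hσ hσs htl htu hL1 hL2
  set x : ℝ := |σ| with hx
  have hxs1 : x ≤ s1 := hσs.trans ((min_le_left _ _).trans (min_le_left _ _))
  have hxs2 : x ≤ s2 := hσs.trans ((min_le_left _ _).trans (min_le_right _ _))
  have hxs3 : x ≤ s3 := hσs.trans ((min_le_right _ _).trans (min_le_left _ _))
  have hx5 : x ≤ 1 / 5 := hσs.trans ((min_le_right _ _).trans (min_le_right _ _))
  have hx1 : x ≤ 1 := by linarith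
  have hσx : σ ^ 2 = x ^ 2 := (sq_abs σ).symm
  have ht : 0 < t := (Real.rpow_pos_of_pos hσ _).trans_le htl
  have hd3 : (3 : ℝ) ≤ d := by exact_mod_cast hd
  -- the parameters
  set δ : ℝ := x ^ (2 - e) with hδ
  have hδ0 : 0 < δ := Real.rpow_pos_of_pos hσ _
  have hδx : x ^ 2 ≤ δ := by
    rw [← Real.rpow_natCast, hδ]
    exact pow_cmp hσ hx1 (by push_cast; linarith)
  have hδx1 : δ ≤ x := by
    calc δ ≤ x ^ (1 : ℝ) := pow_cmp hσ hx1 (by linarith)
      _ = x := Real.rpow_one x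
  have hδ1 : δ ≤ 1 := hδx1.trans hx1
  have hδ2 : δ ≤ 1 / 2 := hδx1.trans (by linarith)
  set b : ℝ := 9 / (7 * d) with hb
  have hb0 : 0 < b := by positivity
  have hb1 : b ≤ 3 / 7 := by
    rw [hb, div_le_div_iff₀ (by positivity) (by norm_num)]
    linarith
  set θ : ℝ := 1 / 2 * δ ^ b with hθ
  have hθ0 : 0 < θ := by positivity
  have hδb : δ ^ b ≤ 1 := Real.rpow_le_one hδ0.le hδ1 hb0.le
  have hθ1 : θ ≤ 1 := by
    rw [hθ]
    linarith
  have hθx : 1 / 2 * x ≤ θ := by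
    rw [hθ]
    refine mul_le_mul_of_nonneg_left ?_ (by norm_num)
    rw [hδ, ← Real.rpow_mul hσ.le]
    calc x = x ^ (1 : ℝ) := (Real.rpow_one x).symm
      _ ≤ x ^ ((2 - e) * b) := pow_cmp hσ hx1 (by
          have : 0 < e * b := by positivity
          linarith)
  set τ : ℝ := 1 / (2 * x) with hτ
  have hτ0 : 0 < τ := by positivity
  have hxL : x ^ 12 * (L : ℝ) ≥ 1 := by
    have := mul_le_mul_of_nonneg_left hL1 (by positivity : 0 ≤ x ^ 12)
    rwa [mul_inv_cancel₀ (by positivity)] at this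
  have hL0 : (0 : ℝ) < L := lt_of_lt_of_le (by positivity) hL1
  -- logarithms
  have hlog0 : 0 ≤ Real.log (1 / δ) := Real.log_nonneg (by
    rw [le_div_iff₀ hδ0]
    linarith)
  have hlog : Real.log (1 / δ) ≤ x ^ (-(2 * a)) / a := by
    refine (log_bd hδ0 ha0).trans ?_
    refine div_le_div_of_nonneg_right ?_ ha0.le
    rw [hδ, ← Real.rpow_mul hσ.le]
    exact pow_cmp hσ hx1 (by linarith)
  have hgg : gg δ ≤ Kγ * x ^ (-(2 * a)) := by
    unfold gg
    calc (2 + 8 * C3) * Real.log (1 / δ) ≤ (2 + 8 * C3) * (x ^ (-(2 * a)) / a) := by gcongr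
      _ = _ := by rw [hKγ]; ring
  have hsq : 1 / 2 * x ^ ((2 - e) * (5 / 7)) ≤ Real.sqrt (δ * θ) := by
    apply Real.le_sqrt_of_sq_le
    rw [mul_pow, ← Real.rpow_natCast (x ^ ((2 - e) * (5 / 7))), ← Real.rpow_mul hσ.le]
    have e1 : δ * θ = 1 / 2 * x ^ ((2 - e) * (1 + b)) := by
      rw [hθ, hδ, ← Real.rpow_mul hσ.le, mul_left_comm, ← Real.rpow_add hσ]
      congr 2
      ring
    rw [e1]
    have h2 : x ^ ((2 - e) * (5 / 7) * ((2 : ℕ) : ℝ)) ≤ x ^ ((2 - e) * (1 + b)) :=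
      pow_cmp hσ hx1 (by
        have : 0 ≤ (2 - e) * (3 / 7 - b) := mul_nonneg (by linarith) (by linarith)
        push_cast
        linarith)
    have h3 : 0 ≤ x ^ ((2 - e) * (5 / 7) * ((2 : ℕ) : ℝ)) := by positivity
    linarith
  set Q : ℝ := KQ * x ^ (-(4 * a) - (2 - e) * (5 / 7)) with hQ
  have hQ0 : 0 < Q := by positivity
  have hQb : CQ * Real.log (1 / δ) ^ 2 / Real.sqrt (δ * θ) ≤ Q := by
    have h1 : Real.log (1 / δ) ^ 2 ≤ (x ^ (-(2 * a)) / a) ^ 2 := pow_le_pow_left₀ hlog0 hlog 2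
    have h2 : 0 < 1 / 2 * x ^ ((2 - e) * (5 / 7)) := by positivity
    calc CQ * Real.log (1 / δ) ^ 2 / Real.sqrt (δ * θ) ≤
        CQ * (x ^ (-(2 * a)) / a) ^ 2 / (1 / 2 * x ^ ((2 - e) * (5 / 7))) := by gcongr
      _ = Q := by
          rw [hQ, hKQ, Real.rpow_sub hσ, div_pow, ← Real.rpow_natCast (x ^ (-(2 * a))),
            ← Real.rpow_mul hσ.le]
          have : -(2 * a) * ((2 : ℕ) : ℝ) = -(4 * a) := by push_cast; ring
          rw [this]
          have h3 : x ^ ((2 - e) * (5 / 7)) ≠ 0 := by positivity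
          field_simp
  -- the good event
  have hLδ : 1 / (L : ℝ) ≤ δ := by
    rw [div_le_iff₀ hL0]
    calc (1 : ℝ) ≤ x ^ 12 * L := hxL
      _ ≤ δ * L := by
          refine mul_le_mul_of_nonneg_right ?_ hL0.le
          refine le_trans ?_ hδx
          exact pow_le_pow_of_le_one hσ.le hx1 (by norm_num)
  obtain ⟨G, hG, hGP, hGf⟩ := form1 (d := d) (L := L) hd E δ hLδ hδ2 τ hτ0 P hP0
  set pb : ℝ := (8 * P * Kγ) ^ P * 2 ^ d * x ^ (5 * e / 7 * P - 12 * d) with hpb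
  have hPb : (Γ (T d L)).real Gᶜ ≤ pb := by
    refine hGP.trans ?_
    have h1 : 2 * P * gg δ * δ⁻¹ / τ ^ 2 ≤ 8 * P * Kγ * x ^ (5 * e / 7) := by
      have h2 : (τ ^ 2)⁻¹ = 4 * x ^ 2 := by
        rw [hτ]
        field_simp
        norm_num
      have h3 : δ⁻¹ * x ^ 2 = x ^ e := by
        rw [hδ, ← Real.rpow_neg hσ.le, ← Real.rpow_natCast, ← Real.rpow_add hσ]
        congr 1
        push_cast
        ring
      have h4 : x ^ (-(2 * a)) * x ^ e = x ^ (5 * e / 7) := by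
        rw [← Real.rpow_add hσ]
        congr 1
        rw [ha]
        ring
      calc 2 * P * gg δ * δ⁻¹ / τ ^ 2 = 8 * P * gg δ * (δ⁻¹ * x ^ 2) := by
            rw [div_eq_mul_inv, h2]
            ring
        _ ≤ 8 * P * (Kγ * x ^ (-(2 * a))) * (δ⁻¹ * x ^ 2) := by gcongr
        _ = 8 * P * Kγ * (x ^ (-(2 * a)) * x ^ e) := by rw [h3]; ring
        _ = _ := by rw [h4]
    have h0 : 0 ≤ 2 * P * gg δ * δ⁻¹ / τ ^ 2 := by
      have := (gg_pos δ hδ0 hδ2).le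
      positivity
    have h5 : NN d L ≤ 2 ^ d * x ^ (-(12 * d) : ℝ) := by
      unfold NN
      calc (L : ℝ) ^ d ≤ (2 * (x ^ 12)⁻¹) ^ d := pow_le_pow_left₀ hL0.le hL2 d
        _ = _ := by
            rw [mul_pow, inv_pow, ← pow_mul]
            congr 1
            rw [Real.rpow_neg hσ.le]
            congr 1
            rw [← Real.rpow_natCast]
            push_cast
            rfl
    calc (2 * P * gg δ * δ⁻¹ / τ ^ 2) ^ P * NN d L ≤
        (8 * P * Kγ * x ^ (5 * e / 7)) ^ P * (2 ^ d * x ^ (-(12 * d) : ℝ)) :=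
          mul_le_mul (pow_le_pow_left₀ h0 h1 P) h5 NN_pos.le (by positivity)
      _ = (8 * P * Kγ) ^ P * 2 ^ d * (x ^ (5 * e / 7 * P) * x ^ (-(12 * d) : ℝ)) := by
          rw [mul_pow (8 * P * Kγ), ← Real.rpow_natCast (x ^ (5 * e / 7)), ← Real.rpow_mul hσ.le]
          ring
      _ = pb := by
          rw [← Real.rpow_add hσ, hpb, sub_eq_add_neg]
  have H : Hyp d L σ E t δ θ τ Q (Kγ * x ^ (-(2 * a))) pb G := by
    refine ⟨ht, ?_, hτ0.le, ?_, hQ0.le, by positivity, ?_, ?_, hG, hPb, hGf⟩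
    · rw [hσx] at htu
      exact htu.trans hδx
    · rw [← hx, hτ]
      apply le_of_eq
      field_simp
    · intro p hp
      have h1 := hqb d L hd θ δ E hθ0 hθ1 hδ0 hδ2 ?_ p hp
      · refine h1.trans ?_
        exact mul_le_mul_of_nonneg_right hQb NN_pos.le
      · have h2 : 1 + 4 / δ ≤ 5 / δ := by
          rw [← sub_nonneg]
          have : 5 / δ - (1 + 4 / δ) = (1 - δ) / δ := by
            field_simp
            ring
          rw [this]
          exact div_nonneg (by linarith) hδ0.le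
        have h3 : 5 / δ ≤ 5 / x ^ 2 := by gcongr
        calc (1 + 4 / δ) ^ 3 ≤ (5 / x ^ 2) ^ 3 :=
              pow_le_pow_left₀ (by positivity) (h2.trans h3) 3
          _ = 125 * x ^ 18 * ((x ^ 12)⁻¹) ^ 2 := by
              field_simp
              norm_num
          _ ≤ 1 * ((x ^ 12)⁻¹) ^ 2 := by
              refine mul_le_mul_of_nonneg_right ?_ (by positivity)
              have : x ^ 18 ≤ (1 / 5) ^ 18 := pow_le_pow_left₀ hσ.le hx5 18
              calc 125 * x ^ 18 ≤ 125 * (1 / 5) ^ 18 := by gcongr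
                _ ≤ 1 := by norm_num
          _ ≤ (L : ℝ) ^ 2 := by
              rw [one_mul]
              exact pow_le_pow_left₀ (by positivity) hL1 2
    · have h1 := Pool.Agent.W788.MFP.Dos.green (L := L) d hd E δ hLδ hδ2
      exact h1.trans hgg
  -- the density of low momenta
  have hlow : lw d L θ ≤ 2 * x ^ ((2 - e) * (9 / 7)) := by
    have h1 := s_low d L θ hθ0.le hθ1 ?_
    · unfold lw
      rw [inv_mul_le_iff₀ NN_pos]
      refine h1.trans (le_of_eq ?_)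
      have h2 : (2 * θ) ^ d = x ^ ((2 - e) * (9 / 7)) := by
        have h3 : 2 * θ = δ ^ b := by rw [hθ]; ring
        rw [h3, hδ, ← Real.rpow_natCast, ← Real.rpow_mul hσ.le, ← Real.rpow_mul hσ.le]
        congr 1
        rw [hb]
        field_simp
      rw [h2]
      ring
    · have h2 : x ^ 12 ≤ 1 / 2 * x := by
        have h3 : x ^ 12 = x ^ 11 * x := by ring
        rw [h3]
        refine mul_le_mul_of_nonneg_right ?_ hσ.le
        calc x ^ 11 ≤ x ^ 1 := pow_le_pow_of_le_one hσ.le hx1 (by norm_num)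
          _ ≤ 1 / 2 := by rw [pow_one]; linarith
      calc (1 : ℝ) ≤ x ^ 12 * L := hxL
        _ ≤ θ * L := mul_le_mul_of_nonneg_right (h2.trans hθx) hL0.le
  have hlw0 := lw_nonneg (d := d) (L := L) θ
  -- the ratio
  set r : ℝ := t / σ ^ 2 with hr
  have hσ2 : 0 < σ ^ 2 := by rw [hσx]; positivity
  have hr0 : 0 < r := by positivity
  have hr1 : r ≤ 1 := by
    rw [hr, div_le_one hσ2]
    exact htu
  have hrx : x ^ κ ≤ r := by
    rw [hr, le_div_iff₀ hσ2, hσx, ← Real.rpow_natCast, ← Real.rpow_add hσ]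
    refine le_trans (le_of_eq ?_) htl
    congr 1
    push_cast
    ring
  have hr3 : x ^ (3 * κ) ≤ r ^ 3 := by
    calc x ^ (3 * κ) = (x ^ κ) ^ 3 := by
          rw [← Real.rpow_natCast, ← Real.rpow_mul hσ.le]
          congr 1
          push_cast
          ring
      _ ≤ r ^ 3 := pow_le_pow_left₀ (by positivity) hrx 3
  have ht4 : x ^ (4 * (2 + κ)) ≤ t ^ 4 := by
    calc x ^ (4 * (2 + κ)) = (x ^ (2 + κ)) ^ 4 := by
          rw [← Real.rpow_natCast, ← Real.rpow_mul hσ.le]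
          congr 1
          push_cast
          ring
      _ ≤ t ^ 4 := pow_le_pow_left₀ (by positivity) htl 4
  have ht5 : x ^ (5 * (2 + κ)) ≤ t ^ 5 := by
    calc x ^ (5 * (2 + κ)) = (x ^ (2 + κ)) ^ 5 := by
          rw [← Real.rpow_natCast, ← Real.rpow_mul hσ.le]
          congr 1
          push_cast
          ring
      _ ≤ t ^ 5 := pow_le_pow_left₀ (by positivity) htl 5
  -- the first coefficient
  have hα2 : 2 * (120 * σ ^ 2 * (48 * Q * δ ^ 2 + lw d L θ) * (t ^ 2)⁻¹) ≤ ε * r ^ 3 := by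
    have h1 : Q * δ ^ 2 = KQ * x ^ ((2 - e) * (9 / 7) - 4 * a) := by
      rw [hQ, hδ, ← Real.rpow_natCast (x ^ (2 - e)), ← Real.rpow_mul hσ.le, mul_assoc,
        ← Real.rpow_add hσ]
      congr 2
      push_cast
      ring
    have h2 : x ^ ((2 - e) * (9 / 7)) ≤ x ^ ((2 - e) * (9 / 7) - 4 * a) :=
      pow_cmp hσ hx1 (by linarith)
    have h3 : 48 * Q * δ ^ 2 + lw d L θ ≤ (48 * KQ + 2) * x ^ ((2 - e) * (9 / 7) - 4 * a) := by
      calc 48 * Q * δ ^ 2 + lw d L θ = 48 * (Q * δ ^ 2) + lw d L θ := by ring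
        _ ≤ 48 * (KQ * x ^ ((2 - e) * (9 / 7) - 4 * a)) +
            2 * x ^ ((2 - e) * (9 / 7) - 4 * a) := by
            rw [h1]
            linarith
        _ = _ := by ring
    have h4 := H1 x hσ hxs1
    have h5 : x ^ (8 + (2 - e) * (9 / 7) - 4 * a) =
        x ^ 8 * x ^ ((2 - e) * (9 / 7) - 4 * a) := by
      rw [← Real.rpow_natCast, ← Real.rpow_add hσ]
      congr 1
      push_cast
      ring
    have h6 : ε * r ^ 3 = ε * t ^ 5 / (x ^ 6 * t ^ 2) := by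
      rw [hr, hσx]
      field_simp
    rw [h6, le_div_iff₀ (by positivity)]
    calc 2 * (120 * σ ^ 2 * (48 * Q * δ ^ 2 + lw d L θ) * (t ^ 2)⁻¹) * (x ^ 6 * t ^ 2) =
        2 * (120 * x ^ 8 * (48 * Q * δ ^ 2 + lw d L θ)) := by
          rw [hσx]
          field_simp
      _ ≤ 2 * (120 * x ^ 8 * ((48 * KQ + 2) * x ^ ((2 - e) * (9 / 7) - 4 * a))) := by gcongr
      _ = 2 * (120 * (48 * KQ + 2)) * x ^ (8 + (2 - e) * (9 / 7) - 4 * a) := by
          rw [h5]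
          ring
      _ ≤ ε * x ^ (5 * (2 + κ)) := h4
      _ ≤ ε * t ^ 5 := by gcongr
  -- the second coefficient
  have hβ2 : 2 * (60 * σ ^ 2 * (32 * Q * (Kγ * x ^ (-(2 * a))) ^ 2 + (t ^ 4)⁻¹ * pb)) ≤
      ε * r ^ 3 := by
    have h1 : x ^ 2 * (Q * (Kγ * x ^ (-(2 * a))) ^ 2) =
        KQ * Kγ ^ 2 * x ^ (2 - 8 * a - (2 - e) * (5 / 7)) := by
      rw [hQ, mul_pow, ← Real.rpow_natCast (x ^ (-(2 * a))), ← Real.rpow_mul hσ.le,
        ← Real.rpow_natCast x]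
      have h2 : x ^ (2 - 8 * a - (2 - e) * (5 / 7)) = x ^ ((2 : ℕ) : ℝ) *
          (x ^ (-(4 * a) - (2 - e) * (5 / 7)) * x ^ (-(2 * a) * ((2 : ℕ) : ℝ))) := by
        rw [← Real.rpow_add hσ, ← Real.rpow_add hσ]
        congr 1
        push_cast
        ring
      rw [h2]
      ring
    have h2 := H2 x hσ hxs2
    have h3 := H3 x hσ hxs3
    have h4 : 120 * (x ^ 2 * ((t ^ 4)⁻¹ * pb)) ≤
        K3 * x ^ (2 - 4 * (2 + κ) + (5 * e / 7 * P - 12 * d)) := by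
      have h5 : (t ^ 4)⁻¹ ≤ x ^ (-(4 * (2 + κ))) := by
        rw [Real.rpow_neg hσ.le]
        exact inv_anti₀ (by positivity) ht4
      have h6 : x ^ (2 - 4 * (2 + κ) + (5 * e / 7 * P - 12 * d)) = x ^ ((2 : ℕ) : ℝ) *
          (x ^ (-(4 * (2 + κ))) * x ^ (5 * e / 7 * P - 12 * d)) := by
        rw [← Real.rpow_add hσ, ← Real.rpow_add hσ]
        congr 1
        push_cast
        ring
      have hpb0 : 0 ≤ pb := by positivity
      calc 120 * (x ^ 2 * ((t ^ 4)⁻¹ * pb)) ≤ 120 * (x ^ 2 * (x ^ (-(4 * (2 + κ))) * pb)) := by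
            gcongr
        _ = _ := by
            rw [h6, hpb, hK3, Real.rpow_natCast]
            ring
    calc 2 * (60 * σ ^ 2 * (32 * Q * (Kγ * x ^ (-(2 * a))) ^ 2 + (t ^ 4)⁻¹ * pb)) =
        3840 * (x ^ 2 * (Q * (Kγ * x ^ (-(2 * a))) ^ 2)) + 120 * (x ^ 2 * ((t ^ 4)⁻¹ * pb)) := by
          rw [hσx]
          ring
      _ ≤ ε / 2 * x ^ (3 * κ) + ε / 2 * x ^ (3 * κ) := by
          refine add_le_add ?_ (h4.trans h3)
          rw [h1]
          refine le_trans (le_of_eq ?_) h2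
          ring
      _ = ε * x ^ (3 * κ) := by ring
      _ ≤ ε * r ^ 3 := by gcongr
  have hα1 : 120 * σ ^ 2 * (48 * Q * δ ^ 2 + lw d L θ) * (t ^ 2)⁻¹ ≤ 1 / 2 := by
    have h1 : ε * r ^ 3 ≤ 1 := by
      have := pow_le_one₀ (n := 3) hr0.le hr1
      calc ε * r ^ 3 ≤ 1 * 1 := mul_le_mul hε1 this (by positivity) (by norm_num)
        _ = 1 := one_mul 1
    linarith
  obtain ⟨Λ, hΛ0, hΛ1, hΛ2, hΛ3⟩ := variances H hα1
  have hfin : Λ ≤ ε * r ^ 3 * (1 + (mm d L σ E t).im ^ 2) := by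
    have h1 := mul_le_mul_of_nonneg_right hα2 (sq_nonneg (mm d L σ E t).im)
    calc Λ ≤ _ := hΛ3
      _ ≤ ε * r ^ 3 * (mm d L σ E t).im ^ 2 + ε * r ^ 3 := add_le_add h1 hβ2
      _ = _ := by ring
  refine ⟨hΛ1.trans hfin, fun p => ?_⟩
  calc t ^ 2 * V2 σ E t p ≤ t ^ 2 * ((t ^ 2)⁻¹ * Λ) := by
        refine mul_le_mul_of_nonneg_left (hΛ2 p) (by positivity)
    _ = Λ := by field_simp
    _ ≤ _ := hfin

end Pool.Agent.Run7.h47
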