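import Pool.Agent.Run7.h47.Off
import Pool.Agent.W788.BK.Stm
import Pool.Agent.W465.BK.QB
import Pool.Agent.W240.BK.Two
import Pool.Agent.W918.BK.Osc
import Pool.Agent.W475.BK.Low

/-! The bilinear estimate. -/

set_option autoImplicit false
set_option linter.unusedSectionVars false

open scoped BigOperators Matrix
open MeasureTheory

namespace Pool.Agent.Run7.h47

open Pool.Agent.W788.MFP.Four Pool.Agent.W788.BK
open Pool.Agent.W788.MFP.Form

theorem s_qb : S_QB := Pool.Agent.W465.BK.qb (Pool.Agent.W240.BK.two Pool.Agent.W918.BK.Osc.osc)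

theorem s_low : S_LOW := Pool.Agent.W475.BK.low

variable {d L : ℕ} [NeZero L]

theorem cr_neg (q : ZMod L) : cr (-q) = cr q := by
  unfold cr
  rw [ZMod.stdAddChar_apply, ZMod.stdAddChar_apply, AddChar.map_neg_eq_inv]
  simp

theorem Low_neg (θ : ℝ) (P : T d L) : Low θ (-P) ↔ Low θ P := by
  unfold Low
  simp only [Pi.neg_apply, cr_neg]

/-- the Fourier coefficients of a product -/
theorem ft_mul (a c : T d L → ℝ) (P : T d L) :
    ft (fun x => a x * c x) P = (NN d L : ℂ)⁻¹ * ∑ k, ft a k * ft c (P - k) := by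
  have h1 : ∀ k, ft a k * ft c (P - k) = ∑ x, ∑ y, (a x : ℂ) * c y * e P y * e k (x - y) := by
    intro k
    unfold ft
    rw [Finset.sum_mul_sum]
    refine Finset.sum_congr rfl fun x _ => Finset.sum_congr rfl fun y _ => ?_
    rw [sub_eq_add_neg, e_add_left, e_neg_left, sub_eq_add_neg x, e_add, e_neg]
    ring
  simp only [h1]
  rw [Finset.sum_comm]
  have h2 : ∀ x, ∑ k, ∑ y, (a x : ℂ) * c y * e P y * e k (x - y) =
      (NN d L : ℂ) * ((a x : ℂ) * c x * e P x) := by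
    intro x
    rw [Finset.sum_comm]
    have h3 : ∀ y, ∑ k, (a x : ℂ) * c y * e P y * e k (x - y) =
        (a x : ℂ) * c y * e P y * (if x - y = 0 then (NN d L : ℂ) else 0) := by
      intro y
      rw [← Finset.mul_sum, sum_e]
    simp only [h3]
    rw [Finset.sum_eq_single x]
    · simp
      ring
    · intro y _ hy
      rw [if_neg (sub_ne_zero.2 hy.symm), mul_zero]
    · intro h
      exact absurd (Finset.mem_univ x) h
  simp only [h2]
  rw [← Finset.mul_sum, ← mul_assoc, inv_mul_cancel₀ NNc_ne, one_mul]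
  unfold ft
  exact Finset.sum_congr rfl fun x _ => by push_cast; ring

/-- the density of low momenta -/
noncomputable def lw (d L : ℕ) [NeZero L] (θ : ℝ) : ℝ := (NN d L)⁻¹ * ∑ P : T d L, (1 - hi θ P)

theorem hi_cases (θ : ℝ) (P : T d L) : (Low θ P ∧ hi θ P = 0) ∨ (¬ Low θ P ∧ hi θ P = 1) := by
  unfold hi
  by_cases h : Low θ P
  · left; exact ⟨h, if_pos h⟩
  · right; exact ⟨h, if_neg h⟩

theorem lw_nonneg (θ : ℝ) : 0 ≤ lw d L θ := by
  unfold lw
  refine mul_nonneg (inv_nonneg.2 NN_pos.le) (Finset.sum_nonneg fun P _ => ?_)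
  rcases hi_cases θ P with h | h <;> rw [h.2] <;> norm_num

theorem bilR (E δ θ Q : ℝ) (hδ : 0 < δ) (hQ0 : 0 ≤ Q)
    (hQ : ∀ P : T d L, ¬ Low θ P → ∑ k : T d L, (J E δ k * J E δ (k + P))⁻¹ ≤ Q * NN d L)
    (a c : T d L → ℝ) :
    ∑ x, a x ^ 2 * c x ^ 2 ≤ Q * (q (J E δ) a * q (J E δ) c) +
      lw d L θ * ((∑ x, a x ^ 2) * ∑ x, c x ^ 2) := by
  have hN := NN_pos (d := d) (L := L)
  have hJ := J_pos (d := d) (L := L) E δ hδ
  set A : ℝ := ∑ k, J E δ k * ‖ft a k‖ ^ 2 with hA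
  set C : ℝ := ∑ k, J E δ k * ‖ft c k‖ ^ 2 with hC
  have h1 : ∑ x, a x ^ 2 * c x ^ 2 = (NN d L)⁻¹ * ∑ P, ‖ft (fun x => a x * c x) P‖ ^ 2 := by
    have h2 := sum_sq (fun x => a x * c x)
    unfold q at h2
    simp only [one_mul] at h2
    rw [← h2]
    exact Finset.sum_congr rfl fun x _ => by ring
  have h3 : ∀ P : T d L, ‖ft (fun x => a x * c x) P‖ ^ 2 ≤
      (NN d L)⁻¹ * Q * ∑ k, (J E δ k * ‖ft a k‖ ^ 2) * (J E δ (P - k) * ‖ft c (P - k)‖ ^ 2) +
        (1 - hi θ P) * ((∑ x, a x ^ 2) * ∑ x, c x ^ 2) := by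
    intro P
    have hs0 : 0 ≤ ∑ k, (J E δ k * ‖ft a k‖ ^ 2) * (J E δ (P - k) * ‖ft c (P - k)‖ ^ 2) :=
      Finset.sum_nonneg fun k _ => by
        have := hJ k
        have := hJ (P - k)
        positivity
    rcases hi_cases θ P with hP | hP
    · rw [hP.2, sub_zero, one_mul]
      have h4 : ‖ft (fun x => a x * c x) P‖ ≤ ∑ x, |a x| * |c x| := by
        unfold ft
        refine (norm_sum_le _ _).trans (Finset.sum_le_sum fun x _ => ?_)
        rw [norm_mul, norm_e, mul_one, Complex.norm_real, Real.norm_eq_abs, abs_mul]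
      have h5 : ‖ft (fun x => a x * c x) P‖ ^ 2 ≤ (∑ x, a x ^ 2) * ∑ x, c x ^ 2 := by
        refine (pow_le_pow_left₀ (norm_nonneg _) h4 2).trans ?_
        refine (Finset.sum_mul_sq_le_sq_mul_sq _ _ _).trans (le_of_eq ?_)
        simp only [sq_abs]
      have h6 : 0 ≤ (NN d L)⁻¹ * Q := mul_nonneg (inv_nonneg.2 hN.le) hQ0
      have := mul_nonneg h6 hs0
      linarith
    · rw [hP.2, sub_self, zero_mul, add_zero]
      have h4 : ‖ft (fun x => a x * c x) P‖ ≤
          (NN d L)⁻¹ * ∑ k, ‖ft a k‖ * ‖ft c (P - k)‖ := by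
        rw [ft_mul, norm_mul, norm_inv, Complex.norm_real, Real.norm_of_nonneg hN.le]
        refine mul_le_mul_of_nonneg_left ?_ (inv_nonneg.2 hN.le)
        refine (norm_sum_le _ _).trans (Finset.sum_le_sum fun x _ => ?_)
        rw [norm_mul]
      have h5 : (∑ k, ‖ft a k‖ * ‖ft c (P - k)‖) ^ 2 ≤
          (∑ k, (J E δ k * ‖ft a k‖ ^ 2) * (J E δ (P - k) * ‖ft c (P - k)‖ ^ 2)) *
            ∑ k, (J E δ k * J E δ (P - k))⁻¹ := by
        have h6 := Finset.sum_mul_sq_le_sq_mul_sq Finset.univ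
          (fun k => Real.sqrt ((J E δ k * ‖ft a k‖ ^ 2) * (J E δ (P - k) * ‖ft c (P - k)‖ ^ 2)))
          (fun k => Real.sqrt ((J E δ k * J E δ (P - k))⁻¹))
        refine le_trans (le_of_eq ?_) (h6.trans (le_of_eq ?_))
        · congr 1
          refine Finset.sum_congr rfl fun k _ => ?_
          have j1 := hJ k
          have j2 := hJ (P - k)
          rw [← Real.sqrt_mul (by positivity)]
          have e1 : (J E δ k * ‖ft a k‖ ^ 2) * (J E δ (P - k) * ‖ft c (P - k)‖ ^ 2) *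
              (J E δ k * J E δ (P - k))⁻¹ = (‖ft a k‖ * ‖ft c (P - k)‖) ^ 2 := by
            field_simp
          rw [e1, Real.sqrt_sq (by positivity)]
        · congr 1
          · refine Finset.sum_congr rfl fun k _ => ?_
            have j1 := hJ k
            have j2 := hJ (P - k)
            exact Real.sq_sqrt (by positivity)
          · refine Finset.sum_congr rfl fun k _ => ?_
            have j1 := hJ k
            have j2 := hJ (P - k)
            exact Real.sq_sqrt (by positivity)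
      have h7 : ∑ k, (J E δ k * J E δ (P - k))⁻¹ ≤ Q * NN d L := by
        have h8 := hQ (-P) (fun h => hP.1 ((Low_neg θ P).1 h))
        refine le_trans (le_of_eq ?_) h8
        refine Finset.sum_congr rfl fun k _ => ?_
        rw [← J_neg E δ (P - k)]
        congr 3
        abel
      calc ‖ft (fun x => a x * c x) P‖ ^ 2 ≤
          ((NN d L)⁻¹ * ∑ k, ‖ft a k‖ * ‖ft c (P - k)‖) ^ 2 :=
            pow_le_pow_left₀ (norm_nonneg _) h4 2
        _ = (NN d L)⁻¹ ^ 2 * (∑ k, ‖ft a k‖ * ‖ft c (P - k)‖) ^ 2 := by ring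
        _ ≤ (NN d L)⁻¹ ^ 2 *
            ((∑ k, (J E δ k * ‖ft a k‖ ^ 2) * (J E δ (P - k) * ‖ft c (P - k)‖ ^ 2)) *
              (Q * NN d L)) := by
            refine mul_le_mul_of_nonneg_left ?_ (by positivity)
            exact h5.trans (mul_le_mul_of_nonneg_left h7 hs0)
        _ = _ := by
            field_simp
  rw [h1]
  have h9 : ∑ P, ‖ft (fun x => a x * c x) P‖ ^ 2 ≤ (NN d L)⁻¹ * Q * (A * C) +
      (∑ P : T d L, (1 - hi θ P)) * ((∑ x, a x ^ 2) * ∑ x, c x ^ 2) := by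
    refine (Finset.sum_le_sum fun P _ => h3 P).trans (le_of_eq ?_)
    rw [Finset.sum_add_distrib, ← Finset.mul_sum, ← Finset.sum_mul]
    congr 2
    rw [Finset.sum_comm, hA, Finset.sum_mul]
    refine Finset.sum_congr rfl fun k _ => ?_
    rw [← Finset.mul_sum]
    congr 1
    exact Equiv.sum_comp (Equiv.subRight k) (fun P => J E δ P * ‖ft c P‖ ^ 2)
  have hqa : q (J E δ) a = (NN d L)⁻¹ * A := rfl
  have hqc : q (J E δ) c = (NN d L)⁻¹ * C := rfl
  have h10 := mul_le_mul_of_nonneg_left h9 (inv_nonneg.2 hN.le)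
  refine h10.trans (le_of_eq ?_)
  rw [hqa, hqc]
  unfold lw
  ring

/-- the bilinear estimate for complex functions -/
theorem bil (E δ θ Q : ℝ) (hδ : 0 < δ) (hQ0 : 0 ≤ Q)
    (hQ : ∀ P : T d L, ¬ Low θ P → ∑ k : T d L, (J E δ k * J E δ (k + P))⁻¹ ≤ Q * NN d L)
    (u w : T d L → ℂ) :
    ∑ x, ‖u x‖ ^ 2 * ‖w x‖ ^ 2 ≤ Q * (qc (J E δ) u * qc (J E δ) w) +
      lw d L θ * (nsq u * nsq w) := by
  have hn : ∀ z : ℂ, ‖z‖ ^ 2 = z.re ^ 2 + z.im ^ 2 := fun z => by
    rw [← Complex.normSq_eq_norm_sq, Complex.normSq_apply]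
    ring
  have h1 := bilR E δ θ Q hδ hQ0 hQ (fun x => (u x).re) (fun x => (w x).re)
  have h2 := bilR E δ θ Q hδ hQ0 hQ (fun x => (u x).re) (fun x => (w x).im)
  have h3 := bilR E δ θ Q hδ hQ0 hQ (fun x => (u x).im) (fun x => (w x).re)
  have h4 := bilR E δ θ Q hδ hQ0 hQ (fun x => (u x).im) (fun x => (w x).im)
  have h5 : ∑ x, ‖u x‖ ^ 2 * ‖w x‖ ^ 2 = ∑ x, (u x).re ^ 2 * (w x).re ^ 2 +
      ∑ x, (u x).re ^ 2 * (w x).im ^ 2 + ∑ x, (u x).im ^ 2 * (w x).re ^ 2 +
      ∑ x, (u x).im ^ 2 * (w x).im ^ 2 := by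
    rw [← Finset.sum_add_distrib, ← Finset.sum_add_distrib, ← Finset.sum_add_distrib]
    refine Finset.sum_congr rfl fun x _ => ?_
    rw [hn, hn]
    ring
  rw [h5, nsq_split, nsq_split]
  unfold qc
  nlinarith

end Pool.Agent.Run7.h47
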