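import Pool.Agent.Run7.h47.QE3

/-! Quantum ergodicity: continuous test functions. -/

set_option autoImplicit false
set_option linter.unusedSectionVars false

open scoped BigOperators Matrix Topology
open MeasureTheory ProbabilityTheory

namespace Pool.Agent.Run7.h47.Q

open Pool.Agent.W788.MFP.Four Pool.Agent.W788.BK
open Pool.Agent.W788.MFP.Gm (Γ)

/-- the exponential -/
noncomputable def ex {d : ℕ} (n : Fin d → ℤ) (y : Fin d → ℝ) : ℂ :=
  ∏ i, Complex.exp (2 * Real.pi * Complex.I * n i * y i)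

theorem ex_norm {d : ℕ} (n : Fin d → ℤ) (y : Fin d → ℝ) : ‖ex n y‖ = 1 := by
  unfold ex
  rw [norm_prod]
  refine Finset.prod_eq_one fun i _ => ?_
  have : (2 * Real.pi * Complex.I * n i * y i : ℂ) = ((2 * Real.pi * n i * y i : ℝ) : ℂ) *
      Complex.I := by
    push_cast
    ring
  rw [this, Complex.norm_exp_ofReal_mul_I]

theorem ex_cont {d : ℕ} (n : Fin d → ℤ) : Continuous (ex n) := by
  unfold ex
  fun_prop

theorem ex_zero {d : ℕ} (y : Fin d → ℝ) : ex (0 : Fin d → ℤ) y = 1 := by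
  unfold ex
  simp

theorem ex_int {d : ℕ} (n : Fin d → ℤ) :
    ∫ y in Set.Icc (0 : Fin d → ℝ) 1, ex n y = if n = 0 then 1 else 0 := by
  have h1 : (volume : Measure (Fin d → ℝ)).restrict (Set.Icc (0 : Fin d → ℝ) 1) =
      Measure.pi fun _ => (volume : Measure ℝ).restrict (Set.Icc 0 1) := by
    rw [← Set.pi_univ_Icc]
    exact Measure.restrict_pi_pi (fun _ => volume) (fun _ => Set.Icc 0 1)
  rw [h1]
  unfold ex
  rw [integral_fintype_prod_eq_prod (fun i (y : ℝ) =>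
    Complex.exp (2 * Real.pi * Complex.I * n i * y))]
  have h2 : ∀ m : ℤ, ∫ y in Set.Icc (0 : ℝ) 1, Complex.exp (2 * Real.pi * Complex.I * m * y) =
      if m = 0 then 1 else 0 := by
    intro m
    rw [integral_Icc_eq_integral_Ioc, ← intervalIntegral.integral_of_le zero_le_one]
    split_ifs with hm
    · subst hm
      simp
    · have hc : (2 * Real.pi * Complex.I * m : ℂ) ≠ 0 := by
        have := Complex.two_pi_I_ne_zero
        have hm' : (m : ℂ) ≠ 0 := by exact_mod_cast hm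
        exact mul_ne_zero this hm'
      rw [integral_exp_mul_complex hc]
      have h3 : Complex.exp (2 * Real.pi * Complex.I * m * (1 : ℝ)) = 1 := by
        rw [Complex.exp_eq_one_iff]
        exact ⟨m, by push_cast; ring⟩
      rw [h3]
      simp
  simp_rw [h2]
  split_ifs with hn
  · subst hn
    simp
  · obtain ⟨i, hi⟩ : ∃ i, n i ≠ 0 := by
      by_contra h
      push Not at h
      exact hn (funext h)
    exact Finset.prod_eq_zero (Finset.mem_univ i) (by rw [if_neg hi])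

/-- trigonometric approximation -/
theorem trig_ap {d : ℕ} (φ : (Fin d → ℝ) → ℝ) (hφ : Continuous φ)
    (hper : ∀ (y : Fin d → ℝ) (n : Fin d → ℤ), φ (fun i => y i + n i) = φ y) {ε : ℝ}
    (hε : 0 < ε) : ∃ (s : Finset (Fin d → ℤ)) (c : (Fin d → ℤ) → ℂ),
      ∀ y, ‖(φ y : ℂ) - ∑ n ∈ s, c n * ex n y‖ < ε := by
  obtain ⟨π, hπ⟩ : ∃ π : (Fin d → ℝ) → UnitAddTorus (Fin d),
    π = Pi.map fun _ => ((↑) : ℝ → UnitAddCircle) := ⟨_, rfl⟩
  have hq : IsOpenQuotientMap π := by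
    rw [hπ]
    exact IsOpenQuotientMap.piMap fun _ => QuotientAddGroup.isOpenQuotientMap_mk
  have hfac : Function.FactorsThrough (fun y => (φ y : ℂ)) π := by
    intro y y' h
    have h1 : ∀ i, ∃ m : ℤ, y' i = y i + m := by
      intro i
      have h2 : ((y i : ℝ) : UnitAddCircle) = (y' i : ℝ) := by
        have := congrFun h i
        rw [hπ] at this
        exact this
      have h3 : ((y' i - y i : ℝ) : UnitAddCircle) = 0 := by
        rw [AddCircle.coe_sub, h2, sub_self]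
      obtain ⟨m, hm⟩ := (AddCircle.coe_eq_zero_iff 1).1 h3
      refine ⟨m, ?_⟩
      rw [zsmul_eq_mul, mul_one] at hm
      rw [hm]
      ring
    choose m hm using h1
    have : y' = fun i => y i + m i := funext hm
    simp only [this, hper]
  obtain ⟨Φ, hΦ⟩ : ∃ Φ : C(UnitAddTorus (Fin d), ℂ), ∀ y, Φ (π y) = (φ y : ℂ) := by
    obtain ⟨g0, hg0⟩ : ∃ g0 : C(Fin d → ℝ, ℂ), ∀ y, g0 y = (φ y : ℂ) :=
      ⟨⟨fun y => (φ y : ℂ), by fun_prop⟩, fun _ => rfl⟩
    obtain ⟨π', hπ'⟩ : ∃ π' : C(Fin d → ℝ, UnitAddTorus (Fin d)), ⇑π' = π :=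
      ⟨⟨π, hq.continuous⟩, rfl⟩
    have hq' : Topology.IsQuotientMap π' := by
      rw [hπ']
      exact hq.isQuotientMap
    have hf : Function.FactorsThrough g0 π' := by
      intro y y' h
      rw [hg0, hg0]
      rw [hπ'] at h
      exact hfac h
    refine ⟨hq'.lift g0 hf, fun y => ?_⟩
    rw [← hg0, ← hπ']
    exact DFunLike.congr_fun (hq'.lift_comp g0 hf) y
  have hcl := UnitAddTorus.span_mFourier_closure_eq_top (d := Fin d)
  have hmem : Φ ∈ (Submodule.span ℂ (Set.range <| UnitAddTorus.mFourier (d := Fin d))).topologicalClosure := by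
    rw [hcl]
    trivial
  rw [← SetLike.mem_coe, Submodule.topologicalClosure_coe, Metric.mem_closure_iff] at hmem
  obtain ⟨g, hg, hd⟩ := hmem ε hε
  rw [SetLike.mem_coe, Finsupp.mem_span_range_iff_exists_finsupp] at hg
  obtain ⟨c, hc⟩ := hg
  refine ⟨c.support, c, fun y => ?_⟩
  rw [← hΦ]
  have h1 : ∑ n ∈ c.support, c n * ex n y = g (π y) := by
    rw [← hc, Finsupp.sum, ContinuousMap.sum_apply]
    refine Finset.sum_congr rfl fun n _ => ?_
    rw [ContinuousMap.smul_apply, smul_eq_mul]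
    congr 1
    unfold ex UnitAddTorus.mFourier
    rw [ContinuousMap.coe_mk, hπ]
    refine Finset.prod_congr rfl fun i _ => ?_
    rw [Pi.map_apply, fourier_coe_apply]
    simp
  rw [h1, ← dist_eq_norm]
  exact (ContinuousMap.dist_apply_le_dist _).trans_lt hd

/-- position of a site in the unit cube -/
noncomputable def ps {d L : ℕ} (x : T d L) : Fin d → ℝ := fun i => ((x i).val : ℝ) / L

theorem std_sum {L : ℕ} [NeZero L] {ι : Type*} (s : Finset ι) (f : ι → ZMod L) :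
    (ZMod.stdAddChar (∑ i ∈ s, f i) : ℂ) = ∏ i ∈ s, ZMod.stdAddChar (f i) := by
  classical
  induction s using Finset.induction_on with
  | empty => simp
  | insert a s ha ih => rw [Finset.sum_insert ha, Finset.prod_insert ha, AddChar.map_add_eq_mul, ih]

theorem e_ex {d L : ℕ} [NeZero L] (n : Fin d → ℤ) (x : T d L) :
    e (mom d L n) x = ex n (ps x) := by
  unfold e mom ex ps
  rw [std_sum]
  refine Finset.prod_congr rfl fun i _ => ?_
  have h1 : (n i : ZMod L) * x i = ((n i * (x i).val : ℤ) : ZMod L) := by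
    push_cast
    rw [ZMod.natCast_zmod_val]
  rw [h1, ZMod.stdAddChar_coe]
  congr 1
  push_cast
  ring

/-- deviation of one eigenvector -/
theorem dev_le {d L : ℕ} [NeZero L] (φ : (Fin d → ℝ) → ℝ) (hφ : Continuous φ) {η : ℝ}
    (s : Finset (Fin d → ℤ)) (c : (Fin d → ℤ) → ℂ)
    (hs : ∀ y, ‖(φ y : ℂ) - ∑ n ∈ s, c n * ex n y‖ < η) (w : T d L → ℝ) (hw : ∀ x, 0 ≤ w x)
    (hw1 : ∑ x, w x = 1) :
    |∑ x, φ (ps x) * w x - ∫ y in Set.Icc (0 : Fin d → ℝ) 1, φ y| ≤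
      2 * η + ∑ n ∈ s.erase 0, ‖c n‖ * ‖∑ x, e (mom d L n) x * (w x : ℂ)‖ := by
  obtain ⟨g, hg⟩ : ∃ g : (Fin d → ℝ) → ℂ, g = fun y => ∑ n ∈ s, c n * ex n y := ⟨_, rfl⟩
  have hgc : Continuous g := by
    rw [hg]
    exact continuous_finsetSum _ fun n _ => continuous_const.mul (ex_cont n)
  have hs' : ∀ y, ‖(φ y : ℂ) - g y‖ ≤ η := fun y => by rw [hg]; exact (hs y).le
  have hη : 0 ≤ η := (norm_nonneg _).trans (hs' 0)
  have hcomp : IsCompact (Set.Icc (0 : Fin d → ℝ) 1) := isCompact_Icc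
  have hφi : IntegrableOn (fun y => (φ y : ℂ)) (Set.Icc (0 : Fin d → ℝ) 1) :=
    (Complex.continuous_ofReal.comp hφ).continuousOn.integrableOn_compact hcomp
  have hgi : IntegrableOn g (Set.Icc (0 : Fin d → ℝ) 1) := hgc.continuousOn.integrableOn_compact hcomp
  have hvol : (volume : Measure (Fin d → ℝ)).real (Set.Icc (0 : Fin d → ℝ) 1) = 1 := by
    rw [Measure.real, Real.volume_Icc_pi]
    simp
  have hI : ‖∫ y in Set.Icc (0 : Fin d → ℝ) 1, (g y - (φ y : ℂ))‖ ≤ η := by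
    have h1 := norm_setIntegral_le_of_norm_le_const (μ := (volume : Measure (Fin d → ℝ)))
      (s := Set.Icc (0 : Fin d → ℝ) 1) (f := fun y => g y - (φ y : ℂ)) (C := η)
      hcomp.measure_lt_top (fun y _ => by rw [norm_sub_rev]; exact hs' y)
    rw [hvol, mul_one] at h1
    exact h1
  have hgint : ∫ y in Set.Icc (0 : Fin d → ℝ) 1, g y = ∑ n ∈ s, c n * (if n = 0 then 1 else 0) := by
    rw [hg, integral_finsetSum]
    · refine Finset.sum_congr rfl fun n _ => ?_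
      rw [integral_const_mul, ex_int]
    · intro n _
      exact ((ex_cont n).const_smul (c n)).continuousOn.integrableOn_compact hcomp
  have hgs : ∑ x, g (ps x) * (w x : ℂ) = ∑ n ∈ s, c n * ∑ x, e (mom d L n) x * (w x : ℂ) := by
    rw [hg]
    simp only [Finset.sum_mul, Finset.mul_sum]
    rw [Finset.sum_comm]
    refine Finset.sum_congr rfl fun n _ => Finset.sum_congr rfl fun x _ => ?_
    rw [e_ex, mul_assoc]
  have hmid : ∑ x, g (ps x) * (w x : ℂ) - ∫ y in Set.Icc (0 : Fin d → ℝ) 1, g y =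
      ∑ n ∈ s.erase 0, c n * ∑ x, e (mom d L n) x * (w x : ℂ) := by
    rw [hgs, hgint, ← Finset.sum_sub_distrib]
    have h0 : ∀ n ∈ s.erase 0, c n * ∑ x, e (mom d L n) x * (w x : ℂ) - c n *
        (if n = 0 then 1 else 0) = c n * ∑ x, e (mom d L n) x * (w x : ℂ) := by
      intro n hn
      rw [if_neg (Finset.ne_of_mem_erase hn), mul_zero, sub_zero]
    by_cases hs0 : (0 : Fin d → ℤ) ∈ s
    · rw [← Finset.add_sum_erase s _ hs0, Finset.sum_congr rfl h0]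
      have h1 : ∑ x, e (mom d L (0 : Fin d → ℤ)) x * (w x : ℂ) = 1 := by
        simp only [e_ex, ex_zero, one_mul]
        exact_mod_cast hw1
      rw [h1, if_pos rfl, sub_self, zero_add]
    · rw [Finset.erase_eq_of_notMem hs0] at h0 ⊢
      exact Finset.sum_congr rfl h0
  have hA : ‖∑ x, ((φ (ps x) : ℂ) - g (ps x)) * (w x : ℂ)‖ ≤ η := by
    refine (norm_sum_le _ _).trans ?_
    have h1 : ∀ x, ‖((φ (ps x) : ℂ) - g (ps x)) * (w x : ℂ)‖ ≤ η * w x := by
      intro x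
      rw [norm_mul, Complex.norm_real, Real.norm_of_nonneg (hw x)]
      exact mul_le_mul_of_nonneg_right (hs' _) (hw x)
    refine (Finset.sum_le_sum fun x _ => h1 x).trans (le_of_eq ?_)
    rw [← Finset.mul_sum, hw1, mul_one]
  have hdec : ((∑ x, φ (ps x) * w x - ∫ y in Set.Icc (0 : Fin d → ℝ) 1, φ y : ℝ) : ℂ) =
      ∑ x, ((φ (ps x) : ℂ) - g (ps x)) * (w x : ℂ) +
      (∑ x, g (ps x) * (w x : ℂ) - ∫ y in Set.Icc (0 : Fin d → ℝ) 1, g y) +
      ∫ y in Set.Icc (0 : Fin d → ℝ) 1, (g y - (φ y : ℂ)) := by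
    rw [integral_sub hgi hφi, integral_complex_ofReal]
    push_cast
    simp only [sub_mul, Finset.sum_sub_distrib]
    ring
  rw [← Real.norm_eq_abs, ← Complex.norm_real, hdec, hmid]
  have h1 : ‖∑ n ∈ s.erase 0, c n * ∑ x, e (mom d L n) x * (w x : ℂ)‖ ≤
      ∑ n ∈ s.erase 0, ‖c n‖ * ‖∑ x, e (mom d L n) x * (w x : ℂ)‖ :=
    (norm_sum_le _ _).trans (Finset.sum_le_sum fun n _ => (norm_mul _ _).le)
  calc _ ≤ ‖∑ x, ((φ (ps x) : ℂ) - g (ps x)) * (w x : ℂ)‖ +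
      ‖∑ n ∈ s.erase 0, c n * ∑ x, e (mom d L n) x * (w x : ℂ)‖ +
      ‖∫ y in Set.Icc (0 : Fin d → ℝ) 1, (g y - (φ y : ℂ))‖ := norm_add₃_le
    _ ≤ _ := by linarith

/-- **quantum ergodicity on tori of side between `|σ|^(-b1)` and `|σ|^(-b2)`** -/
theorem qerg (d : ℕ) (hd : 3 ≤ d) (a : ℝ) (ha0 : 0 ≤ a) (ha : a < 2 * d) (b1 b2 : ℝ)
    (hb1 : 2 < b1) (hb2 : b2 < 72 / 35) (φ : (Fin d → ℝ) → ℝ) (hφ : Continuous φ)
    (hper : ∀ (y : Fin d → ℝ) (n : Fin d → ℤ), φ (fun i => y i + n i) = φ y)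
    (ε : ℝ) (hε : 0 < ε) :
    ∃ s : ℝ, 0 < s ∧ ∀ σ : ℝ, 0 < |σ| → |σ| ≤ s → ∀ (L : ℕ) [NeZero L],
      |σ| ^ (-b1) ≤ (L : ℝ) → (L : ℝ) ≤ |σ| ^ (-b2) →
      ∃ S : Set (T d L → ℝ), MeasurableSet S ∧ 1 - ε ≤ (Γ (T d L)).real S ∧
        ∀ V ∈ S, ∀ (ι : Type) [Fintype ι]
          (u : OrthonormalBasis ι ℂ (EuclideanSpace ℂ (T d L))) (lam : ι → ℝ),
          (∀ k, IsEig σ (lam k) V (u k)) →
          (Nat.card {k // |lam k| ≤ a ∧
            ε ≤ |∑ x, φ (ps x) * ‖u k x‖ ^ 2 - ∫ y in Set.Icc (0 : Fin d → ℝ) 1, φ y|} : ℝ) ≤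
            ε * (L : ℝ) ^ d := by
  classical
  obtain ⟨s, c, hs⟩ := trig_ap φ hφ hper (ε := ε / 4) (by positivity)
  obtain ⟨C, hC⟩ : ∃ C : ℝ, C = ∑ n ∈ s, ‖c n‖ + 1 := ⟨_, rfl⟩
  have hC0 : 0 < C := by
    have : 0 ≤ ∑ n ∈ s, ‖c n‖ := Finset.sum_nonneg fun _ _ => norm_nonneg _
    linarith
  obtain ⟨q, hq⟩ : ∃ q : ℝ, q = (ε / (2 * C)) ^ 2 := ⟨_, rfl⟩
  have hq0 : 0 < q := by rw [hq]; positivity
  obtain ⟨m, hm⟩ : ∃ m : ℝ, m = ((s.erase 0).card : ℝ) + 1 := ⟨_, rfl⟩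
  have hm0 : 0 < m := by rw [hm]; positivity
  obtain ⟨ε', hε'⟩ : ∃ ε', ε' = min ε (ε * q) / m := ⟨_, rfl⟩
  have hε'0 : 0 < ε' := by rw [hε']; positivity
  have hA : m * ε' ≤ ε := by
    rw [hε', mul_div_cancel₀ _ hm0.ne']
    exact min_le_left _ _
  have hB : m * ε' ≤ ε * q := by
    rw [hε', mul_div_cancel₀ _ hm0.ne']
    exact min_le_right _ _
  have hchoose : ∀ n : Fin d → ℤ, ∃ s1 : ℝ, 0 < s1 ∧ (n ≠ 0 → ∀ σ : ℝ, 0 < |σ| → |σ| ≤ s1 →
      ∀ (L : ℕ) [NeZero L], |σ| ^ (-b1) ≤ (L : ℝ) → (L : ℝ) ≤ |σ| ^ (-b2) →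
      ∃ S : Set (T d L → ℝ), MeasurableSet S ∧ 1 - ε' ≤ (Γ (T d L)).real S ∧
        ∀ V ∈ S, ∀ (ι : Type) [Fintype ι]
          (u : OrthonormalBasis ι ℂ (EuclideanSpace ℂ (T d L))) (lam : ι → ℝ),
          (∀ k, IsEig σ (lam k) V (u k)) →
          ∑ k, (if |lam k| ≤ a then ‖∑ x, e (mom d L n) x * ((‖u k x‖ ^ 2 : ℝ) : ℂ)‖ ^ 2 else 0) ≤
            ε' * (L : ℝ) ^ d) := by
    intro n
    by_cases hn : n = 0
    · exact ⟨1, one_pos, fun h => absurd hn h⟩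
    · obtain ⟨s1, hs1, H⟩ := one_mom d hd a ha0 ha b1 b2 hb1 hb2 ε' hε'0 n hn
      exact ⟨s1, hs1, fun _ => H⟩
  choose s1 hs1 H using hchoose
  obtain ⟨s2, hs2, hs2'⟩ : ∃ s2 : ℝ, 0 < s2 ∧ ∀ n ∈ s.erase 0, s2 ≤ s1 n := by
    by_cases he : (s.erase 0).Nonempty
    · refine ⟨(s.erase 0).inf' he s1, ?_, fun n hn => Finset.inf'_le _ hn⟩
      rw [Finset.lt_inf'_iff]
      exact fun n _ => hs1 n
    · rw [Finset.not_nonempty_iff_eq_empty] at he
      rw [he]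
      exact ⟨1, one_pos, fun n hn => absurd hn (Finset.notMem_empty _)⟩
  refine ⟨s2, hs2, fun σ hσ hσs L _ hL1 hL2 => ?_⟩
  have hLR : (0 : ℝ) < L := by exact_mod_cast Nat.pos_of_ne_zero (NeZero.ne L)
  have hex : ∀ n : Fin d → ℤ, ∃ S : Set (T d L → ℝ), n ∈ s.erase 0 →
      (MeasurableSet S ∧ 1 - ε' ≤ (Γ (T d L)).real S ∧
        ∀ V ∈ S, ∀ (ι : Type) [Fintype ι]
          (u : OrthonormalBasis ι ℂ (EuclideanSpace ℂ (T d L))) (lam : ι → ℝ),
          (∀ k, IsEig σ (lam k) V (u k)) →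
          ∑ k, (if |lam k| ≤ a then ‖∑ x, e (mom d L n) x * ((‖u k x‖ ^ 2 : ℝ) : ℂ)‖ ^ 2 else 0) ≤
            ε' * (L : ℝ) ^ d) := by
    intro n
    by_cases hn : n ∈ s.erase 0
    · obtain ⟨S, h1⟩ := H n (Finset.ne_of_mem_erase hn) σ hσ (hσs.trans (hs2' n hn)) L hL1 hL2
      exact ⟨S, fun _ => h1⟩
    · exact ⟨∅, fun h => absurd h hn⟩
  choose S hS using hex
  refine ⟨⋂ n ∈ s.erase 0, S n, Finset.measurableSet_biInter _ fun n hn => (hS n hn).1, ?_, ?_⟩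
  · have h1 : (Γ (T d L)).real (⋂ n ∈ s.erase 0, S n)ᶜ ≤ ∑ n ∈ s.erase 0, ε' := by
      rw [Set.compl_iInter₂]
      refine (measureReal_biUnion_finset_le _ _).trans (Finset.sum_le_sum fun n hn => ?_)
      have h2 := probReal_add_probReal_compl (μ := Γ (T d L)) (hS n hn).1
      have h3 := (hS n hn).2.1
      linarith
    have h2 := probReal_add_probReal_compl (μ := Γ (T d L))
      (Finset.measurableSet_biInter (s.erase 0) fun n hn => (hS n hn).1)
    rw [Finset.sum_const, nsmul_eq_mul] at h1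
    have h3 : ((s.erase 0).card : ℝ) * ε' ≤ m * ε' := by
      rw [hm]
      gcongr
      linarith
    linarith
  · intro V hV ι _ u lam hE
    have hV' : ∀ n ∈ s.erase 0, V ∈ S n := by
      intro n hn
      exact Set.mem_iInter₂.1 hV n hn
    obtain ⟨B, hB'⟩ : ∃ B : Finset ι, B = Finset.univ.filter fun k => |lam k| ≤ a ∧
      ε ≤ |∑ x, φ (ps x) * ‖u k x‖ ^ 2 - ∫ y in Set.Icc (0 : Fin d → ℝ) 1, φ y| := ⟨_, rfl⟩
    have hcard : (Nat.card {k // |lam k| ≤ a ∧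
        ε ≤ |∑ x, φ (ps x) * ‖u k x‖ ^ 2 - ∫ y in Set.Icc (0 : Fin d → ℝ) 1, φ y|} : ℝ) =
        B.card := by
      rw [hB', Nat.card_eq_fintype_card, Fintype.card_subtype]
    rw [hcard]
    obtain ⟨A, hAd⟩ : ∃ A : (Fin d → ℤ) → ι → ℝ, A = fun n k =>
      ‖∑ x, e (mom d L n) x * ((‖u k x‖ ^ 2 : ℝ) : ℂ)‖ := ⟨_, rfl⟩
    have hAs : ∀ n ∈ s.erase 0, ∑ k, (if |lam k| ≤ a then A n k ^ 2 else 0) ≤
        ε' * (L : ℝ) ^ d := by
      intro n hn
      rw [hAd]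
      exact (hS n hn).2.2 V (hV' n hn) ι u lam hE
    have hun : ∀ k, ∑ x, ‖u k x‖ ^ 2 = 1 := by
      intro k
      rw [← EuclideanSpace.norm_sq_eq, u.orthonormal.1 k, one_pow]
    have hlow : ∀ k ∈ B, q ≤ ∑ n ∈ s.erase 0, (if |lam k| ≤ a then A n k ^ 2 else 0) := by
      intro k hk
      rw [hB', Finset.mem_filter] at hk
      have h1 := dev_le φ hφ s c hs (fun x => ‖u k x‖ ^ 2) (fun x => sq_nonneg _) (hun k)
      have h2 : ε / 2 ≤ ∑ n ∈ s.erase 0, ‖c n‖ * A n k := by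
        have h3 := hk.2.2.trans h1
        rw [hAd]
        linarith
      obtain ⟨n, hn, hn2⟩ : ∃ n ∈ s.erase 0, ε / (2 * C) ≤ A n k := by
        by_contra hcon
        push Not at hcon
        have h4 : ∑ n ∈ s.erase 0, ‖c n‖ * A n k ≤ ∑ n ∈ s.erase 0, ‖c n‖ * (ε / (2 * C)) :=
          Finset.sum_le_sum fun n hn => mul_le_mul_of_nonneg_left (hcon n hn).le (norm_nonneg _)
        have h5 : ∑ n ∈ s.erase 0, ‖c n‖ * (ε / (2 * C)) < C * (ε / (2 * C)) := by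
          rw [← Finset.sum_mul]
          refine mul_lt_mul_of_pos_right ?_ (by positivity)
          have h6 : ∑ n ∈ s.erase 0, ‖c n‖ ≤ ∑ n ∈ s, ‖c n‖ :=
            Finset.sum_le_sum_of_subset_of_nonneg (Finset.erase_subset _ _)
              fun _ _ _ => norm_nonneg _
          rw [hC]
          linarith
        have h7 : C * (ε / (2 * C)) = ε / 2 := by field_simp
        linarith
      have h8 : q ≤ (if |lam k| ≤ a then A n k ^ 2 else 0) := by
        rw [if_pos hk.2.1, hq]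
        exact pow_le_pow_left₀ (by positivity) hn2 2
      refine h8.trans (Finset.single_le_sum (f := fun n => if |lam k| ≤ a then A n k ^ 2 else 0)
        (fun n _ => ?_) hn)
      show (0 : ℝ) ≤ if |lam k| ≤ a then A n k ^ 2 else 0
      split_ifs
      · exact sq_nonneg _
      · exact le_rfl
    have h1 : (B.card : ℝ) * q ≤ m * ε' * (L : ℝ) ^ d := by
      calc (B.card : ℝ) * q = ∑ _k ∈ B, q := by rw [Finset.sum_const, nsmul_eq_mul]
        _ ≤ ∑ k ∈ B, ∑ n ∈ s.erase 0, (if |lam k| ≤ a then A n k ^ 2 else 0) :=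
            Finset.sum_le_sum hlow
        _ ≤ ∑ k, ∑ n ∈ s.erase 0, (if |lam k| ≤ a then A n k ^ 2 else 0) := by
            refine Finset.sum_le_sum_of_subset_of_nonneg (Finset.subset_univ _) fun k _ _ => ?_
            refine Finset.sum_nonneg fun n _ => ?_
            split_ifs
            · exact sq_nonneg _
            · exact le_rfl
        _ = ∑ n ∈ s.erase 0, ∑ k, (if |lam k| ≤ a then A n k ^ 2 else 0) := Finset.sum_comm
        _ ≤ ∑ _n ∈ s.erase 0, ε' * (L : ℝ) ^ d := Finset.sum_le_sum hAs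
        _ = (s.erase 0).card * (ε' * (L : ℝ) ^ d) := by rw [Finset.sum_const, nsmul_eq_mul]
        _ ≤ m * (ε' * (L : ℝ) ^ d) := by
            rw [hm]
            gcongr
            linarith
        _ = _ := by ring
    have h2 : (B.card : ℝ) * q ≤ (ε * (L : ℝ) ^ d) * q := by
      refine h1.trans ?_
      calc m * ε' * (L : ℝ) ^ d ≤ ε * q * (L : ℝ) ^ d := by gcongr
        _ = _ := by ring
    exact le_of_mul_le_mul_right h2 hq0

end Pool.Agent.Run7.h47.Q
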