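import Pool.Agent.Run7.h47.Bil

/-! The variances of the diagonal of `R` and of `R A R*`. -/

set_option autoImplicit false
set_option linter.unusedSectionVars false

open scoped BigOperators Matrix
open MeasureTheory

namespace Pool.Agent.Run7.h47

open Pool.Agent.W788.MFP.Four Pool.Agent.W788.BK
open Pool.Agent.W788.MFP.Form
open Pool.Agent.W788.MFP.Gm (Γ)

variable {d L : ℕ} [NeZero L]

/-- the hypotheses for the variance bounds -/
structure Hyp (d L : ℕ) [NeZero L] (σ E t δ θ τ Q γ pb : ℝ) (G : Set (T d L → ℝ)) : Prop where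
  ht : 0 < t
  htδ : t ≤ δ
  hτ : 0 ≤ τ
  hστ : |σ| * τ ≤ 1 / 2
  hQ0 : 0 ≤ Q
  hγ : 0 ≤ γ
  hQ : ∀ P : T d L, ¬ Low θ P → ∑ k : T d L, (J E δ k * J E δ (k + P))⁻¹ ≤ Q * NN d L
  hg : (NN d L)⁻¹ * ∑ k : T d L, (J E δ k)⁻¹ ≤ γ
  hG : MeasurableSet G
  hP : (Γ (T d L)).real Gᶜ ≤ pb
  hf : ∀ V ∈ G, ∀ w : T d L → ℝ, |∑ x, V x * w x ^ 2| ≤ τ * q (J E δ) w

theorem R_col_nsq {σ E t : ℝ} (ht : 0 < t) (V : T d L → ℝ) :
    nsq (R σ E t V *ᵥ Pi.single 0 1) = (R σ E t V 0 0).im / t := by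
  rw [← R_ward ht, Matrix.mulVec_single_one]
  unfold nsq
  refine Finset.sum_congr rfl fun x _ => ?_
  rw [R_symm]
  rfl

theorem R_mul_nsq {σ E t : ℝ} (ht : 0 < t) (V : T d L → ℝ) (h : T d L → ℂ) :
    nsq (R σ E t V *ᵥ h) ≤ (t ^ 2)⁻¹ * nsq h := RR_bd (X0_herm E) (AS_herm σ) ht V h

/-- the bound on the good event -/
theorem good {σ E t δ θ τ Q γ pb : ℝ} {G : Set (T d L → ℝ)}
    (H : Hyp d L σ E t δ θ τ Q γ pb G) (V : T d L → ℝ) (hV : V ∈ G) (h : T d L → ℂ)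
    (hh : nsq h = (R σ E t V 0 0).im / t) :
    ∑ x, ‖R σ E t V 0 x‖ ^ 2 * ‖R σ E t V 0 x‖ ^ 2 ≤
      (48 * Q * δ ^ 2 + lw d L θ) * ((R σ E t V 0 0).im / t) ^ 2 + 32 * Q * γ ^ 2 ∧
    ∑ x, ‖R σ E t V 0 x‖ ^ 2 * ‖(R σ E t V *ᵥ h) x‖ ^ 2 ≤
      (t ^ 2)⁻¹ * ((48 * Q * δ ^ 2 + lw d L θ) * ((R σ E t V 0 0).im / t) ^ 2 +
        32 * Q * γ ^ 2) := by
  obtain ⟨ht, htδ, hτ, hστ, hQ0, hγ, hQ, hg, hG, hP, hf⟩ := H
  have hδ : 0 < δ := ht.trans_le htδ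
  set U := (R σ E t V 0 0).im / t with hU
  have hU0 : 0 ≤ U := div_nonneg (R_im_nonneg ht V 0) ht.le
  set u : T d L → ℂ := R σ E t V *ᵥ Pi.single 0 1 with hu
  set w : T d L → ℂ := R σ E t V *ᵥ h with hw
  have hux : ∀ x, R σ E t V 0 x = u x := by
    intro x
    rw [hu, Matrix.mulVec_single_one, R_symm]
    rfl
  have hun : nsq u = U := R_col_nsq ht V
  have hwn : nsq w ≤ (t ^ 2)⁻¹ * U := by
    rw [← hh]
    exact R_mul_nsq ht V h
  have h1 : HZ σ E t V *ᵥ u = Pi.single 0 1 := by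
    rw [hu, Matrix.mulVec_mulVec, HZ_mul ht, Matrix.one_mulVec]
  have h2 : HZ σ E t V *ᵥ w = h := by
    rw [hw, Matrix.mulVec_mulVec, HZ_mul ht, Matrix.one_mulVec]
  have hJn : ∀ v : T d L → ℂ, 0 ≤ qc (J E δ) v := fun v => qc_nonneg _ _ fun k =>
    (J_pos E δ hδ k).le
  have q1 : qc (J E δ) u ≤ 4 * δ * U + 4 * γ := by
    have h3 := off σ E t δ τ hδ hτ hστ V (hf V hV) u _ h1
    rw [qc_inv_single, hun] at h3
    linarith
  have q2 : qc (J E δ) w ≤ 8 * δ * ((t ^ 2)⁻¹ * U) := by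
    have h3 := off σ E t δ τ hδ hτ hστ V (hf V hV) w _ h2
    have h4 := qc_inv_le (d := d) (L := L) E δ hδ h
    rw [hh] at h4
    have h5 : δ⁻¹ * U ≤ δ * ((t ^ 2)⁻¹ * U) := by
      rw [← mul_assoc]
      refine mul_le_mul_of_nonneg_right ?_ hU0
      rw [← div_eq_mul_inv, le_div_iff₀ (by positivity), inv_mul_le_iff₀ hδ]
      nlinarith
    have h6 : 4 * δ * nsq w ≤ 4 * δ * ((t ^ 2)⁻¹ * U) := by gcongr
    linarith
  have b1 := bil E δ θ Q hδ hQ0 hQ u u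
  have b2 := bil E δ θ Q hδ hQ0 hQ u w
  have hlw := lw_nonneg (d := d) (L := L) θ
  constructor
  · simp only [hux]
    refine b1.trans ?_
    rw [hun]
    have h7 : qc (J E δ) u * qc (J E δ) u ≤ (4 * δ * U + 4 * γ) * (4 * δ * U + 4 * γ) :=
      mul_le_mul q1 q1 (hJn u) ((hJn u).trans q1)
    have h8 := mul_le_mul_of_nonneg_left h7 hQ0
    have h9 : 0 ≤ Q * (δ * U - γ) ^ 2 := by positivity
    have h10 : 0 ≤ Q * (δ * U) ^ 2 := by positivity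
    nlinarith
  · simp only [hux]
    refine b2.trans ?_
    rw [hun]
    have h7 : qc (J E δ) u * qc (J E δ) w ≤
        (4 * δ * U + 4 * γ) * (8 * δ * ((t ^ 2)⁻¹ * U)) :=
      mul_le_mul q1 q2 (hJn w) ((hJn u).trans q1)
    have h8 := mul_le_mul_of_nonneg_left h7 hQ0
    have h9 : lw d L θ * (U * nsq w) ≤ lw d L θ * (U * ((t ^ 2)⁻¹ * U)) := by gcongr
    have h10 : Q * ((4 * δ * U + 4 * γ) * (8 * δ * ((t ^ 2)⁻¹ * U))) ≤
        (t ^ 2)⁻¹ * (48 * Q * δ ^ 2 * U ^ 2 + 32 * Q * γ ^ 2) := by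
      have e1 : Q * ((4 * δ * U + 4 * γ) * (8 * δ * ((t ^ 2)⁻¹ * U))) =
          (t ^ 2)⁻¹ * (Q * (32 * δ ^ 2 * U ^ 2 + 32 * δ * γ * U)) := by ring
      rw [e1]
      refine mul_le_mul_of_nonneg_left ?_ (by positivity)
      have h11 : 0 ≤ Q * (δ * U - γ) ^ 2 := by positivity
      have h12 : 0 ≤ Q * γ ^ 2 := by positivity
      nlinarith
    calc _ ≤ (t ^ 2)⁻¹ * (48 * Q * δ ^ 2 * U ^ 2 + 32 * Q * γ ^ 2) +
        lw d L θ * (U * ((t ^ 2)⁻¹ * U)) := by linarith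
      _ = _ := by ring

/-- the pathwise bound -/
noncomputable def ZZ (σ E t δ θ Q γ : ℝ) (G : Set (T d L → ℝ)) (V : T d L → ℝ) : ℝ :=
  (48 * Q * δ ^ 2 + lw d L θ) * ((R σ E t V 0 0).im / t) ^ 2 + 32 * Q * γ ^ 2 +
    Set.indicator Gᶜ (fun _ => (t ^ 4)⁻¹) V

theorem allV {σ E t δ θ τ Q γ pb : ℝ} {G : Set (T d L → ℝ)}
    (H : Hyp d L σ E t δ θ τ Q γ pb G) (V : T d L → ℝ) (h : T d L → ℂ)
    (hh : nsq h = (R σ E t V 0 0).im / t) :
    ∑ x, ‖R σ E t V 0 x‖ ^ 2 * ‖R σ E t V 0 x‖ ^ 2 ≤ ZZ σ E t δ θ Q γ G V ∧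
    ∑ x, ‖R σ E t V 0 x‖ ^ 2 * ‖(R σ E t V *ᵥ h) x‖ ^ 2 ≤
      (t ^ 2)⁻¹ * ZZ σ E t δ θ Q γ G V := by
  have ht := H.ht
  have hδ : 0 < δ := ht.trans_le H.htδ
  have hQ0 := H.hQ0
  have hlw := lw_nonneg (d := d) (L := L) θ
  have hB0 : 0 ≤ (48 * Q * δ ^ 2 + lw d L θ) * ((R σ E t V 0 0).im / t) ^ 2 + 32 * Q * γ ^ 2 := by
    positivity
  by_cases hV : V ∈ G
  · have h1 := good H V hV h hh
    have h2 : ZZ σ E t δ θ Q γ G V = (48 * Q * δ ^ 2 + lw d L θ) * ((R σ E t V 0 0).im / t) ^ 2 +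
        32 * Q * γ ^ 2 := by
      unfold ZZ
      rw [Set.indicator_of_notMem (by simpa using hV), add_zero]
    rw [h2]
    exact h1
  · have h2 : (t ^ 4)⁻¹ ≤ ZZ σ E t δ θ Q γ G V := by
      unfold ZZ
      rw [Set.indicator_of_mem (by simpa using hV)]
      linarith
    have h3 := R_sum_le (σ := σ) (E := E) ht V 0
    have h4 : ∀ x, ‖R σ E t V 0 x‖ ^ 2 ≤ (t ^ 2)⁻¹ := fun x =>
      (Finset.single_le_sum (f := fun x => ‖R σ E t V 0 x‖ ^ 2) (fun _ _ => by positivity)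
        (Finset.mem_univ x)).trans h3
    have h5 : nsq (R σ E t V *ᵥ h) ≤ (t ^ 4)⁻¹ := by
      refine (R_mul_nsq ht V h).trans ?_
      rw [hh, ← R_ward ht]
      calc (t ^ 2)⁻¹ * ∑ b, ‖R σ E t V 0 b‖ ^ 2 ≤ (t ^ 2)⁻¹ * (t ^ 2)⁻¹ := by gcongr
        _ = (t ^ 4)⁻¹ := by rw [← mul_inv]; ring_nf
    constructor
    · refine le_trans ?_ h2
      calc ∑ x, ‖R σ E t V 0 x‖ ^ 2 * ‖R σ E t V 0 x‖ ^ 2 ≤
          ∑ x, (t ^ 2)⁻¹ * ‖R σ E t V 0 x‖ ^ 2 := Finset.sum_le_sum fun x _ =>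
            mul_le_mul_of_nonneg_right (h4 x) (by positivity)
        _ = (t ^ 2)⁻¹ * ∑ x, ‖R σ E t V 0 x‖ ^ 2 := by rw [Finset.mul_sum]
        _ ≤ (t ^ 2)⁻¹ * (t ^ 2)⁻¹ := by gcongr
        _ = (t ^ 4)⁻¹ := by rw [← mul_inv]; ring_nf
    · calc ∑ x, ‖R σ E t V 0 x‖ ^ 2 * ‖(R σ E t V *ᵥ h) x‖ ^ 2 ≤
          ∑ x, (t ^ 2)⁻¹ * ‖(R σ E t V *ᵥ h) x‖ ^ 2 := Finset.sum_le_sum fun x _ =>
            mul_le_mul_of_nonneg_right (h4 x) (by positivity)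
        _ = (t ^ 2)⁻¹ * nsq (R σ E t V *ᵥ h) := by rw [nsq, Finset.mul_sum]
        _ ≤ (t ^ 2)⁻¹ * ZZ σ E t δ θ Q γ G V := by
            refine mul_le_mul_of_nonneg_left (h5.trans h2) (by positivity)

theorem Z_int {σ E t δ θ τ Q γ pb : ℝ} {G : Set (T d L → ℝ)}
    (H : Hyp d L σ E t δ θ τ Q γ pb G) :
    Integrable (ZZ σ E t δ θ Q γ G) (Γ (T d L)) ∧
    ∫ V, ZZ σ E t δ θ Q γ G V ∂(Γ (T d L)) ≤ (48 * Q * δ ^ 2 + lw d L θ) * ((t ^ 2)⁻¹ *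
      (2 * V1 d L σ E t + 2 * (mm d L σ E t).im ^ 2)) + 32 * Q * γ ^ 2 + (t ^ 4)⁻¹ * pb := by
  have ht := H.ht
  have hQ0 := H.hQ0
  have hlw := lw_nonneg (d := d) (L := L) θ
  have hδ : 0 < δ := ht.trans_le H.htδ
  have b0 := R_BC (σ := σ) (E := E) ht (0 : T d L) 0
  have b1 : BC fun V : T d L → ℝ => ((R σ E t V 0 0).im / t) ^ 2 := by
    have : BC fun V : T d L → ℝ => ((R σ E t V 0 0).im * t⁻¹) ^ 2 :=
      (b0.im.mulR (BC.const t⁻¹)).powR 2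
    simpa only [div_eq_mul_inv] using this
  have i1 : Integrable (fun V : T d L → ℝ => (48 * Q * δ ^ 2 + lw d L θ) *
      ((R σ E t V 0 0).im / t) ^ 2) (Γ (T d L)) := b1.intR.const_mul _
  have i2 : Integrable (fun V : T d L → ℝ => (48 * Q * δ ^ 2 + lw d L θ) *
      ((R σ E t V 0 0).im / t) ^ 2 + 32 * Q * γ ^ 2) (Γ (T d L)) := i1.add (integrable_const _)
  have i3 : Integrable (Set.indicator Gᶜ fun _ : T d L → ℝ => (t ^ 4)⁻¹) (Γ (T d L)) :=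
    (integrable_const _).indicator H.hG.compl
  refine ⟨i2.add i3, ?_⟩
  have e1 : ∫ V, ZZ σ E t δ θ Q γ G V ∂(Γ (T d L)) = (48 * Q * δ ^ 2 + lw d L θ) *
      ∫ V, ((R σ E t V 0 0).im / t) ^ 2 ∂(Γ (T d L)) + 32 * Q * γ ^ 2 +
        (t ^ 4)⁻¹ * (Γ (T d L)).real Gᶜ := by
    have j1 : ∫ V, ZZ σ E t δ θ Q γ G V ∂(Γ (T d L)) =
        ∫ V, ((48 * Q * δ ^ 2 + lw d L θ) * ((R σ E t V 0 0).im / t) ^ 2 + 32 * Q * γ ^ 2)
          ∂(Γ (T d L)) +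
        ∫ V, Set.indicator Gᶜ (fun _ : T d L → ℝ => (t ^ 4)⁻¹) V ∂(Γ (T d L)) :=
      integral_add i2 i3
    have j2 : ∫ V, ((48 * Q * δ ^ 2 + lw d L θ) * ((R σ E t V 0 0).im / t) ^ 2 + 32 * Q * γ ^ 2)
          ∂(Γ (T d L)) = ∫ V, (48 * Q * δ ^ 2 + lw d L θ) * ((R σ E t V 0 0).im / t) ^ 2
          ∂(Γ (T d L)) + 32 * Q * γ ^ 2 := by
      rw [integral_add i1 (integrable_const _)]
      simp
    rw [j1, j2, integral_const_mul, integral_indicator H.hG.compl, setIntegral_const, smul_eq_mul]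
    ring
  have e2 : ∫ V, ((R σ E t V 0 0).im / t) ^ 2 ∂(Γ (T d L)) ≤ (t ^ 2)⁻¹ *
      (2 * V1 d L σ E t + 2 * (mm d L σ E t).im ^ 2) := by
    have e3 : ∀ V : T d L → ℝ, ((R σ E t V 0 0).im / t) ^ 2 ≤ (t ^ 2)⁻¹ *
        (2 * ‖R σ E t V 0 0 - mm d L σ E t‖ ^ 2 + 2 * (mm d L σ E t).im ^ 2) := by
      intro V
      rw [div_pow, div_eq_inv_mul]
      refine mul_le_mul_of_nonneg_left ?_ (by positivity)
      have h1 : ((R σ E t V 0 0).im - (mm d L σ E t).im) ^ 2 ≤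
          ‖R σ E t V 0 0 - mm d L σ E t‖ ^ 2 := by
        rw [← sq_abs]
        refine pow_le_pow_left₀ (abs_nonneg _) ?_ 2
        rw [← Complex.sub_im]
        exact Complex.abs_im_le_norm _
      nlinarith [sq_nonneg ((R σ E t V 0 0).im - 2 * (mm d L σ E t).im)]
    have b2 : BC fun V : T d L → ℝ => ‖R σ E t V 0 0 - mm d L σ E t‖ ^ 2 :=
      (b0.sub (BC.const _)).nsq
    refine (integral_mono b1.intR ?_ e3).trans (le_of_eq ?_)
    · exact ((b2.intR.const_mul 2).add (integrable_const _)).const_mul _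
    · rw [integral_const_mul, integral_add (b2.intR.const_mul 2) (integrable_const _),
        integral_const_mul]
      simp [V1]
  rw [e1]
  have h3 : (t ^ 4)⁻¹ * (Γ (T d L)).real Gᶜ ≤ (t ^ 4)⁻¹ * pb :=
    mul_le_mul_of_nonneg_left H.hP (by positivity)
  have h4 := mul_le_mul_of_nonneg_left e2 (show 0 ≤ 48 * Q * δ ^ 2 + lw d L θ by positivity)
  linarith

/-- the variance bounds -/
theorem variances {σ E t δ θ τ Q γ pb : ℝ} {G : Set (T d L → ℝ)}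
    (H : Hyp d L σ E t δ θ τ Q γ pb G)
    (hα : 120 * σ ^ 2 * (48 * Q * δ ^ 2 + lw d L θ) * (t ^ 2)⁻¹ ≤ 1 / 2) :
    ∃ Λ : ℝ, 0 ≤ Λ ∧ V1 d L σ E t ≤ Λ ∧ (∀ p : T d L, V2 σ E t p ≤ (t ^ 2)⁻¹ * Λ) ∧
      Λ ≤ 2 * (120 * σ ^ 2 * (48 * Q * δ ^ 2 + lw d L θ) * (t ^ 2)⁻¹) * (mm d L σ E t).im ^ 2 +
        2 * (60 * σ ^ 2 * (32 * Q * γ ^ 2 + (t ^ 4)⁻¹ * pb)) := by
  have ht := H.ht
  obtain ⟨iZ, hZ⟩ := Z_int H
  set Z := ∫ V, ZZ σ E t δ θ Q γ G V ∂(Γ (T d L)) with hZd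
  have hn0 : ∀ V : T d L → ℝ, nsq (fun x => (starRingEnd ℂ) (R σ E t V 0 x)) =
      (R σ E t V 0 0).im / t := by
    intro V
    unfold nsq
    simp only [RCLike.norm_conj]
    exact R_ward ht V 0
  have hZ0 : 0 ≤ Z := by
    refine integral_nonneg fun V => ?_
    have h1 := (allV H V _ (hn0 V)).1
    refine le_trans ?_ h1
    exact Finset.sum_nonneg fun _ _ => by positivity
  have hv1 : V1 d L σ E t ≤ 15 * (σ ^ 2 * Z) := by
    have h1 := (R_regE (σ := σ) (E := E) ht (0 : T d L) 0).poin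
    refine h1.trans ?_
    refine mul_le_mul_of_nonneg_left ?_ (by norm_num)
    rw [hZd, ← integral_const_mul]
    refine integral_mono ?_ (iZ.const_mul _) fun V => ?_
    · exact (BC.sum _ fun y _ => (((BC.const (σ : ℂ)).mul
        ((R_BC ht 0 y).mul (R_BC ht y 0))).neg).nsq).intR
    · have h2 := (allV H V _ (hn0 V)).1
      have h3 : ∑ y, ‖-((σ : ℂ) * (R σ E t V 0 y * R σ E t V y 0))‖ ^ 2 =
          σ ^ 2 * ∑ x, ‖R σ E t V 0 x‖ ^ 2 * ‖R σ E t V 0 x‖ ^ 2 := by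
        rw [Finset.mul_sum]
        refine Finset.sum_congr rfl fun y _ => ?_
        rw [norm_neg, norm_mul, norm_mul, R_symm σ E t V y 0, Complex.norm_real,
          Real.norm_eq_abs, mul_pow, mul_pow, sq_abs]
      beta_reduce
      rw [h3]
      exact mul_le_mul_of_nonneg_left h2 (sq_nonneg σ)
  have hv2 : ∀ p : T d L, V2 σ E t p ≤ 60 * (σ ^ 2 * ((t ^ 2)⁻¹ * Z)) := by
    intro p
    have h1 := (F_regE (σ := σ) (E := E) ht p (0 : T d L) 0).poin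
    refine h1.trans ?_
    have h4 : ∫ V, ∑ y, ‖-((σ : ℂ) * (R σ E t V 0 y * Fm σ E t p V y 0 +
        Fm σ E t p V 0 y * (starRingEnd ℂ) (R σ E t V 0 y)))‖ ^ 2 ∂(Γ (T d L)) ≤
        4 * σ ^ 2 * (t ^ 2)⁻¹ * Z := by
      rw [hZd, ← integral_const_mul]
      refine integral_mono ?_ (iZ.const_mul _) fun V => ?_
      · exact (BC.sum _ fun y _ => (((BC.const (σ : ℂ)).mul
          (((R_BC ht 0 y).mul (F_BC ht p y 0)).add
            ((F_BC ht p 0 y).mul (R_BC ht 0 y).conj))).neg).nsq).intR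
      · set h : T d L → ℂ := fun w => e p w * (starRingEnd ℂ) (R σ E t V 0 w) with hh
        set h' : T d L → ℂ := fun w => (starRingEnd ℂ) (R σ E t V 0 w * e p w) with hh'
        have n1 : nsq h = (R σ E t V 0 0).im / t := by
          rw [← hn0 V]
          unfold nsq
          refine Finset.sum_congr rfl fun w _ => ?_
          rw [hh]
          simp only [norm_mul, norm_e, one_mul]
        have n2 : nsq h' = (R σ E t V 0 0).im / t := by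
          rw [← hn0 V]
          unfold nsq
          refine Finset.sum_congr rfl fun w _ => ?_
          rw [hh']
          simp only [norm_mul, RCLike.norm_conj, norm_e, mul_one]
        have f1 : ∀ y, Fm σ E t p V y 0 = (R σ E t V *ᵥ h) y := by
          intro y
          unfold Fm Matrix.mulVec dotProduct
          exact Finset.sum_congr rfl fun w _ => by rw [hh]; ring
        have f2 : ∀ y, ‖Fm σ E t p V 0 y‖ = ‖(R σ E t V *ᵥ h') y‖ := by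
          intro y
          rw [← RCLike.norm_conj]
          congr 1
          unfold Fm Matrix.mulVec dotProduct
          rw [map_sum]
          refine Finset.sum_congr rfl fun w _ => ?_
          rw [hh', map_mul, Complex.conj_conj]
          ring
        have h2 := (allV H V h n1).2
        have h3 := (allV H V h' n2).2
        have h5 : ∑ y, ‖-((σ : ℂ) * (R σ E t V 0 y * Fm σ E t p V y 0 +
            Fm σ E t p V 0 y * (starRingEnd ℂ) (R σ E t V 0 y)))‖ ^ 2 ≤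
            σ ^ 2 * (2 * ∑ x, ‖R σ E t V 0 x‖ ^ 2 * ‖(R σ E t V *ᵥ h) x‖ ^ 2 +
              2 * ∑ x, ‖R σ E t V 0 x‖ ^ 2 * ‖(R σ E t V *ᵥ h') x‖ ^ 2) := by
          rw [Finset.mul_sum, Finset.mul_sum, ← Finset.sum_add_distrib, Finset.mul_sum]
          refine Finset.sum_le_sum fun y _ => ?_
          rw [norm_neg, norm_mul, Complex.norm_real, Real.norm_eq_abs, mul_pow, sq_abs]
          refine mul_le_mul_of_nonneg_left ?_ (sq_nonneg σ)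
          have h6 : ‖R σ E t V 0 y * Fm σ E t p V y 0 +
              Fm σ E t p V 0 y * (starRingEnd ℂ) (R σ E t V 0 y)‖ ≤
              ‖R σ E t V 0 y‖ * ‖(R σ E t V *ᵥ h) y‖ +
                ‖R σ E t V 0 y‖ * ‖(R σ E t V *ᵥ h') y‖ := by
            refine (norm_add_le _ _).trans (le_of_eq ?_)
            rw [norm_mul, norm_mul, RCLike.norm_conj, f1, f2]
            ring
          refine (pow_le_pow_left₀ (norm_nonneg _) h6 2).trans ?_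
          nlinarith [sq_nonneg (‖R σ E t V 0 y‖ * ‖(R σ E t V *ᵥ h) y‖ -
            ‖R σ E t V 0 y‖ * ‖(R σ E t V *ᵥ h') y‖)]
        beta_reduce
        refine h5.trans ?_
        have h7 := mul_le_mul_of_nonneg_left (add_le_add (mul_le_mul_of_nonneg_left h2
          (by norm_num : (0 : ℝ) ≤ 2)) (mul_le_mul_of_nonneg_left h3
          (by norm_num : (0 : ℝ) ≤ 2))) (sq_nonneg σ)
        refine h7.trans (le_of_eq ?_)
        ring
    have h8 := mul_le_mul_of_nonneg_left h4 (by norm_num : (0 : ℝ) ≤ 15)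
    refine h8.trans (le_of_eq ?_)
    ring
  refine ⟨60 * (σ ^ 2 * Z), by positivity, ?_, fun p => ?_, ?_⟩
  · have : 0 ≤ σ ^ 2 * Z := by positivity
    linarith
  · refine (hv2 p).trans (le_of_eq ?_)
    ring
  · set Λ := 60 * (σ ^ 2 * Z) with hΛ
    have hV1 : V1 d L σ E t ≤ Λ := by
      have : 0 ≤ σ ^ 2 * Z := by positivity
      linarith
    set α := 120 * σ ^ 2 * (48 * Q * δ ^ 2 + lw d L θ) * (t ^ 2)⁻¹ with hαd
    have hlw := lw_nonneg (d := d) (L := L) θ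
    have hQ0 := H.hQ0
    have hα0 : 0 ≤ α := by positivity
    have h1 := mul_le_mul_of_nonneg_left hZ (show (0 : ℝ) ≤ 60 * σ ^ 2 by positivity)
    have h2 : 60 * σ ^ 2 * ((48 * Q * δ ^ 2 + lw d L θ) * ((t ^ 2)⁻¹ *
        (2 * V1 d L σ E t + 2 * (mm d L σ E t).im ^ 2)) + 32 * Q * γ ^ 2 + (t ^ 4)⁻¹ * pb) =
        α * V1 d L σ E t + α * (mm d L σ E t).im ^ 2 +
          60 * σ ^ 2 * (32 * Q * γ ^ 2 + (t ^ 4)⁻¹ * pb) := by
      rw [hαd]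
      ring
    rw [h2] at h1
    have h3 : α * V1 d L σ E t ≤ 1 / 2 * Λ := by
      calc α * V1 d L σ E t ≤ α * Λ := mul_le_mul_of_nonneg_left hV1 hα0
        _ ≤ 1 / 2 * Λ := mul_le_mul_of_nonneg_right hα (by positivity)
    have h4 : Λ = 60 * σ ^ 2 * Z := by rw [hΛ]; ring
    linarith

end Pool.Agent.Run7.h47
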