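import Pool.Agent.Run7.h47.Zx
import Pool.Agent.Run7.h47.Lim2

/-! The limit on the lattice. -/

set_option autoImplicit false
set_option linter.unusedSectionVars false

open scoped BigOperators Matrix Topology
open MeasureTheory ProbabilityTheory

namespace Pool.Agent.Run7.h47

open Pool.Agent.W788.MFP.Four Pool.Agent.W788.BK
open Pool.Agent.H4R2.LO (Zd)
open Pool.Agent.H695R3.AN (lf lf_inj lf_add lf_sub)
open Pool.Agent.W788.MFP.Gm (Γ)

/-- the law of the field on the torus -/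
theorem law_tor {d L : ℕ} [NeZero L] {g : (T d L → ℝ) → ℝ} (hg : Measurable g) :
    ∫ ω, g (fun y => ω (lf y)) ∂(Measure.infinitePi fun _ : Zd d => gaussianReal 0 1) =
      ∫ V, g V ∂(Γ (T d L)) := by
  have h1 := Pool.Agent.W788.Gen3.law_shift (d := d) (L := L) (gaussianReal 0 1) 0
  have h2 : (fun (ω : Zd d → ℝ) (y : T d L) => ω (lf y + 0)) = fun ω y => ω (lf y) := by
    funext ω y
    rw [add_zero]
  rw [h2] at h1
  have hm : Measurable fun (ω : Zd d → ℝ) (y : T d L) => ω (lf y) :=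
    measurable_pi_iff.2 fun y => measurable_pi_apply _
  unfold Pool.Agent.W788.MFP.Gm.Γ Pool.Agent.W788.MFP.Gm.γ
  rw [← h1, integral_map hm.aemeasurable hg.aestronglyMeasurable]

/-- the limit -/
noncomputable def Dl (J S q : ℝ) : ℝ := 1 / (1 / J + q * S / (4 * J ^ 3))

theorem Dl_lip {J S q q' c0 C : ℝ} (hc0 : 0 < c0) (hJ : c0 ≤ J) (hS0 : 0 ≤ S) (hS : S ≤ C)
    (hq : 0 ≤ q) (hq' : 0 ≤ q') : |Dl J S q - Dl J S q'| ≤ C / (4 * c0) * |q - q'| := by
  have hJ0 : 0 < J := hc0.trans_le hJ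
  obtain ⟨A, hA⟩ : ∃ A, A = 1 / J + q * S / (4 * J ^ 3) := ⟨_, rfl⟩
  obtain ⟨B, hB⟩ : ∃ B, B = 1 / J + q' * S / (4 * J ^ 3) := ⟨_, rfl⟩
  have hA1 : 1 / J ≤ A := by
    rw [hA]
    have : 0 ≤ q * S / (4 * J ^ 3) := by positivity
    linarith
  have hB1 : 1 / J ≤ B := by
    rw [hB]
    have : 0 ≤ q' * S / (4 * J ^ 3) := by positivity
    linarith
  have hJ1 : 0 < 1 / J := by positivity
  have hA0 : 0 < A := hJ1.trans_le hA1
  have hB0 : 0 < B := hJ1.trans_le hB1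
  have e1 : Dl J S q - Dl J S q' = (q' - q) * (S / (4 * J ^ 3)) / (A * B) := by
    unfold Dl
    rw [← hA, ← hB, div_sub_div _ _ hA0.ne' hB0.ne', one_mul, mul_one]
    congr 1
    rw [hA, hB]
    ring
  rw [e1, abs_div, abs_mul, abs_of_pos (by positivity : 0 < A * B),
    abs_of_nonneg (by positivity : 0 ≤ S / (4 * J ^ 3)), abs_sub_comm]
  have h1 : 1 / J * (1 / J) ≤ A * B := by gcongr
  calc |q - q'| * (S / (4 * J ^ 3)) / (A * B) ≤ |q - q'| * (S / (4 * J ^ 3)) / (1 / J * (1 / J)) := by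
        gcongr
    _ = S / (4 * J) * |q - q'| := by
        field_simp
    _ ≤ C / (4 * c0) * |q - q'| := by
        have hC : 0 ≤ C := hS0.trans hS
        gcongr

theorem sq_four (a b c e : ℝ) :
    (a + b + c + e) ^ 2 ≤ 4 * (a ^ 2 + b ^ 2 + c ^ 2 + e ^ 2) := by
  nlinarith [sq_nonneg (a - b), sq_nonneg (a - c), sq_nonneg (a - e), sq_nonneg (b - c),
    sq_nonneg (b - e), sq_nonneg (c - e)]

/-- numerical facts about the scales -/
theorem scales {d : ℕ} {κ x t M : ℝ} (hκ1 : κ < 4 / 35) (hx : 0 < x) (hx1 : x ≤ 1 / 5)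
    (hxd : x * (17 * d + 13 * d * (M + 1)) ≤ 1) (hM : 0 ≤ M)
    (htl : x ^ (2 + κ) ≤ t) (htu : t ≤ 1) :
    x ^ 4 ≤ t ∧ x ^ 5 ≤ t ^ 2 ∧ x ^ 2 ≤ Real.sqrt t ∧
    t * (10 * d / ((x ^ 6)⁻¹ * t ^ 3) + 2 * d * (Real.pi * x ^ 12) * (x ^ 6)⁻¹ / t ^ 2) ≤
      17 * d * x ∧
    d * (Real.pi * x ^ 12) ≤ x * Real.sqrt t ∧
    d * (Real.pi * x ^ 12) * (2 * M * (x * Real.sqrt t) + Real.pi * x ^ 12) / (x ^ 2 * t) ≤
      13 * d * (M + 1) * x := by
  have hx1' : x ≤ 1 := by linarith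
  have hpi := Real.pi_pos
  have hpi4 := Real.pi_le_four
  have h25 : x ^ (5 / 2 : ℝ) ≤ t := by
    refine le_trans ?_ htl
    exact Real.rpow_le_rpow_of_exponent_ge hx hx1' (by linarith)
  have ht : 0 < t := (Real.rpow_pos_of_pos hx _).trans_le h25
  have h5 : x ^ 5 ≤ t ^ 2 := by
    have h1 : (x ^ (5 / 2 : ℝ)) ^ 2 = x ^ 5 := by
      rw [← Real.rpow_natCast, ← Real.rpow_natCast, ← Real.rpow_mul hx.le]
      norm_num
    rw [← h1]
    exact pow_le_pow_left₀ (by positivity) h25 2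
  have h4 : x ^ 4 ≤ t := by
    have h1 : x ^ 4 ≤ x ^ (5 / 2 : ℝ) := by
      rw [← Real.rpow_natCast]
      exact Real.rpow_le_rpow_of_exponent_ge hx hx1' (by norm_num)
    linarith
  have hs : x ^ 2 ≤ Real.sqrt t := by
    apply Real.le_sqrt_of_sq_le
    calc (x ^ 2) ^ 2 = x ^ 4 := by ring
      _ ≤ t := h4
  have hd0 : (0 : ℝ) ≤ d := Nat.cast_nonneg d
  refine ⟨h4, h5, hs, ?_, ?_, ?_⟩
  · have e1 : t * (10 * d / ((x ^ 6)⁻¹ * t ^ 3) + 2 * d * (Real.pi * x ^ 12) * (x ^ 6)⁻¹ / t ^ 2) =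
        10 * d * (x ^ 6 / t ^ 2) + 2 * d * Real.pi * (x ^ 6 / t) := by
      field_simp
    rw [e1]
    have h6 : x ^ 6 / t ^ 2 ≤ x := by
      rw [div_le_iff₀ (by positivity)]
      calc x ^ 6 = x * x ^ 5 := by ring
        _ ≤ x * t ^ 2 := by gcongr
    have h7 : x ^ 6 / t ≤ x ^ 2 := by
      rw [div_le_iff₀ ht]
      calc x ^ 6 = x ^ 2 * x ^ 4 := by ring
        _ ≤ x ^ 2 * t := by gcongr
    have h8 : x ^ 2 ≤ x * (1 / 5) := by
      rw [sq]
      gcongr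
    calc 10 * d * (x ^ 6 / t ^ 2) + 2 * d * Real.pi * (x ^ 6 / t) ≤
        10 * d * x + 2 * d * 4 * (x * (1 / 5)) := by
          gcongr
          exact h7.trans h8
      _ ≤ 17 * d * x := by
          have : 0 ≤ d * x := by positivity
          linarith
  · have h1 : d * (Real.pi * x ^ 12) ≤ x ^ 3 := by
      have h2 : x ^ 12 ≤ x ^ 4 := pow_le_pow_of_le_one hx.le hx1' (by norm_num)
      have h3 : x * (17 * d) ≤ 1 := by
        have : 0 ≤ x * (13 * d * (M + 1)) := by positivity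
        nlinarith
      calc d * (Real.pi * x ^ 12) ≤ d * (4 * x ^ 4) := by gcongr
        _ = (x * (4 * d)) * x ^ 3 := by ring
        _ ≤ 1 * x ^ 3 := by
            gcongr
            have : 0 ≤ x * d := by positivity
            nlinarith
        _ = _ := one_mul _
    calc d * (Real.pi * x ^ 12) ≤ x ^ 3 := h1
      _ = x * x ^ 2 := by ring
      _ ≤ _ := by gcongr
  · rw [div_le_iff₀ (by positivity)]
    have hst : Real.sqrt t ≤ 1 := by
      rw [Real.sqrt_le_left zero_le_one, one_pow]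
      exact htu
    have h1 : 2 * M * (x * Real.sqrt t) + Real.pi * x ^ 12 ≤ 2 * M * x + 4 * x := by
      have h2 : x ^ 12 ≤ x := pow_le_of_le_one hx.le hx1' (by norm_num)
      calc 2 * M * (x * Real.sqrt t) + Real.pi * x ^ 12 ≤ 2 * M * (x * 1) + 4 * x := by gcongr
        _ = _ := by ring
    have h3 : x ^ 12 ≤ x ^ 2 * t := by
      calc x ^ 12 ≤ x ^ 6 := pow_le_pow_of_le_one hx.le hx1' (by norm_num)
        _ = x ^ 2 * x ^ 4 := by ring
        _ ≤ _ := by gcongr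
    calc d * (Real.pi * x ^ 12) * (2 * M * (x * Real.sqrt t) + Real.pi * x ^ 12) ≤
        d * (Real.pi * (x ^ 2 * t)) * (2 * M * x + 4 * x) := by gcongr
      _ = d * (Real.pi * (2 * M + 4)) * x * (x ^ 2 * t) := by ring
      _ ≤ d * (13 * (M + 1)) * x * (x ^ 2 * t) := by
          have : Real.pi * (2 * M + 4) ≤ 13 * (M + 1) := by
            nlinarith [Real.pi_lt_d2]
          gcongr
      _ = _ := by ring

end Pool.Agent.Run7.h47
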