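import Pool.Agent.Run7.h47.GC

/-! Bounded continuous functions of the Gaussian variables; calculus. -/

set_option autoImplicit false
set_option linter.unusedSectionVars false

open scoped BigOperators
open MeasureTheory

namespace Pool.Agent.Run7.h47

open Pool.Agent.W788.MFP.Gm (Γ)

variable {κ : Type} [Fintype κ] [DecidableEq κ]

/-- bounded continuous functions -/
def BC {A : Type} [NormedAddCommGroup A] (f : (κ → ℝ) → A) : Prop :=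
  Continuous f ∧ ∃ C : ℝ, ∀ x, ‖f x‖ ≤ C

section BC
variable {A : Type} [NormedAddCommGroup A]

theorem BC.int {f : (κ → ℝ) → ℂ} (h : BC f) : Integrable f (Γ κ) := by
  obtain ⟨hc, C, hC⟩ := h
  exact Integrable.of_bound hc.aestronglyMeasurable C (Filter.Eventually.of_forall hC)

theorem BC.intR {f : (κ → ℝ) → ℝ} (h : BC f) : Integrable f (Γ κ) := by
  obtain ⟨hc, C, hC⟩ := h
  exact Integrable.of_bound hc.aestronglyMeasurable C (Filter.Eventually.of_forall hC)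

theorem BC.add {f g : (κ → ℝ) → A} (hf : BC f) (hg : BC g) : BC fun x => f x + g x := by
  obtain ⟨c1, C1, h1⟩ := hf
  obtain ⟨c2, C2, h2⟩ := hg
  exact ⟨c1.add c2, C1 + C2, fun x => (norm_add_le _ _).trans (add_le_add (h1 x) (h2 x))⟩

theorem BC.sub {f g : (κ → ℝ) → A} (hf : BC f) (hg : BC g) : BC fun x => f x - g x := by
  obtain ⟨c1, C1, h1⟩ := hf
  obtain ⟨c2, C2, h2⟩ := hg
  exact ⟨c1.sub c2, C1 + C2, fun x => (norm_sub_le _ _).trans (add_le_add (h1 x) (h2 x))⟩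

theorem BC.neg {f : (κ → ℝ) → A} (hf : BC f) : BC fun x => -f x := by
  obtain ⟨c1, C1, h1⟩ := hf
  exact ⟨c1.neg, C1, fun x => by rw [norm_neg]; exact h1 x⟩

theorem BC.const (a : A) : BC fun _ : κ → ℝ => a := ⟨continuous_const, ‖a‖, fun _ => le_rfl⟩

theorem BC.sum {ι : Type} (s : Finset ι) {f : ι → (κ → ℝ) → A} (h : ∀ i ∈ s, BC (f i)) :
    BC fun x => ∑ i ∈ s, f i x := by
  classical
  induction s using Finset.induction_on with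
  | empty => simpa using BC.const (0 : A)
  | insert a s ha ih =>
    simp only [Finset.sum_insert ha]
    exact (h a (Finset.mem_insert_self _ _)).add
      (ih fun i hi => h i (Finset.mem_insert_of_mem hi))

theorem BC.norm {f : (κ → ℝ) → A} (hf : BC f) : BC fun x => ‖f x‖ := by
  obtain ⟨c1, C1, h1⟩ := hf
  exact ⟨c1.norm, C1, fun x => by rw [norm_norm]; exact h1 x⟩

end BC

theorem BC.mul {f g : (κ → ℝ) → ℂ} (hf : BC f) (hg : BC g) : BC fun x => f x * g x := by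
  obtain ⟨c1, C1, h1⟩ := hf
  obtain ⟨c2, C2, h2⟩ := hg
  exact ⟨c1.mul c2, C1 * C2, fun x => by
    rw [norm_mul]
    exact mul_le_mul (h1 x) (h2 x) (norm_nonneg _) ((norm_nonneg _).trans (h1 x))⟩

theorem BC.mulR {f g : (κ → ℝ) → ℝ} (hf : BC f) (hg : BC g) : BC fun x => f x * g x := by
  obtain ⟨c1, C1, h1⟩ := hf
  obtain ⟨c2, C2, h2⟩ := hg
  exact ⟨c1.mul c2, C1 * C2, fun x => by
    rw [norm_mul]
    exact mul_le_mul (h1 x) (h2 x) (norm_nonneg _) ((norm_nonneg _).trans (h1 x))⟩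

theorem BC.powR {f : (κ → ℝ) → ℝ} (hf : BC f) (n : ℕ) : BC fun x => f x ^ n := by
  induction n with
  | zero => simpa using BC.const (1 : ℝ)
  | succ n ih =>
    simp only [pow_succ]
    exact ih.mulR hf

theorem BC.conj {f : (κ → ℝ) → ℂ} (hf : BC f) : BC fun x => (starRingEnd ℂ) (f x) := by
  obtain ⟨c1, C1, h1⟩ := hf
  exact ⟨Complex.continuous_conj.comp c1, C1, fun x => by
    rw [RCLike.norm_conj]
    exact h1 x⟩

theorem BC.im {f : (κ → ℝ) → ℂ} (hf : BC f) : BC fun x => (f x).im := by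
  obtain ⟨c1, C1, h1⟩ := hf
  exact ⟨Complex.continuous_im.comp c1, C1, fun x => (Complex.abs_im_le_norm _).trans (h1 x)⟩

theorem BC.re {f : (κ → ℝ) → ℂ} (hf : BC f) : BC fun x => (f x).re := by
  obtain ⟨c1, C1, h1⟩ := hf
  exact ⟨Complex.continuous_re.comp c1, C1, fun x => (Complex.abs_re_le_norm _).trans (h1 x)⟩

theorem BC.nsq {f : (κ → ℝ) → ℂ} (hf : BC f) : BC fun x => ‖f x‖ ^ 2 := hf.norm.powR 2

/-- Cauchy-Schwarz -/
theorem csI {ι : Type} [Fintype ι] (a b : ι → (κ → ℝ) → ℂ) (ha : ∀ i, BC (a i))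
    (hb : ∀ i, BC (b i)) :
    ‖∫ V, ∑ i, a i V * b i V ∂(Γ κ)‖ ^ 2 ≤
      (∫ V, ∑ i, ‖a i V‖ ^ 2 ∂(Γ κ)) * ∫ V, ∑ i, ‖b i V‖ ^ 2 ∂(Γ κ) := by
  set A := ∫ V, ∑ i, ‖a i V‖ ^ 2 ∂(Γ κ) with hA
  set B := ∫ V, ∑ i, ‖b i V‖ ^ 2 ∂(Γ κ) with hB
  set P := ∫ V, ∑ i, ‖a i V‖ * ‖b i V‖ ∂(Γ κ) with hP
  have bA : BC fun V : κ → ℝ => ∑ i, ‖a i V‖ ^ 2 := BC.sum _ fun i _ => (ha i).nsq
  have bB : BC fun V : κ → ℝ => ∑ i, ‖b i V‖ ^ 2 := BC.sum _ fun i _ => (hb i).nsq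
  have bP : BC fun V : κ → ℝ => ∑ i, ‖a i V‖ * ‖b i V‖ :=
    BC.sum _ fun i _ => (ha i).norm.mulR (hb i).norm
  have h1 : ‖∫ V, ∑ i, a i V * b i V ∂(Γ κ)‖ ≤ P := by
    refine (norm_integral_le_integral_norm _).trans ?_
    refine integral_mono ?_ bP.intR fun V => ?_
    · exact (BC.sum (A := ℂ) Finset.univ fun i _ => (ha i).mul (hb i)).norm.intR
    · refine (norm_sum_le _ _).trans (Finset.sum_le_sum fun i _ => ?_)
      rw [norm_mul]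
  have h2 : ∀ s : ℝ, 0 ≤ A * (s * s) + (-2 * P) * s + B := by
    intro s
    have e1 : ∫ V, (s ^ 2 * (∑ i, ‖a i V‖ ^ 2) - 2 * s * (∑ i, ‖a i V‖ * ‖b i V‖) +
        ∑ i, ‖b i V‖ ^ 2) ∂(Γ κ) = s ^ 2 * A - 2 * s * P + B := by
      have i1 := (bA.intR.const_mul (s ^ 2))
      have i2 := (bP.intR.const_mul (2 * s))
      have j1 : ∫ V, (s ^ 2 * (∑ i, ‖a i V‖ ^ 2) - 2 * s * (∑ i, ‖a i V‖ * ‖b i V‖) +
          ∑ i, ‖b i V‖ ^ 2) ∂(Γ κ) =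
          ∫ V, (s ^ 2 * (∑ i, ‖a i V‖ ^ 2) - 2 * s * (∑ i, ‖a i V‖ * ‖b i V‖)) ∂(Γ κ) + B :=
        integral_add (i1.sub i2) bB.intR
      have j2 : ∫ V, (s ^ 2 * (∑ i, ‖a i V‖ ^ 2) - 2 * s * (∑ i, ‖a i V‖ * ‖b i V‖)) ∂(Γ κ) =
          ∫ V, s ^ 2 * (∑ i, ‖a i V‖ ^ 2) ∂(Γ κ) - ∫ V, 2 * s * (∑ i, ‖a i V‖ * ‖b i V‖) ∂(Γ κ) :=
        integral_sub i1 i2
      rw [j1, j2, integral_const_mul, integral_const_mul]
    have e2 : 0 ≤ ∫ V, (s ^ 2 * (∑ i, ‖a i V‖ ^ 2) - 2 * s * (∑ i, ‖a i V‖ * ‖b i V‖) +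
        ∑ i, ‖b i V‖ ^ 2) ∂(Γ κ) := by
      refine integral_nonneg fun V => ?_
      simp only [Pi.zero_apply]
      have e3 : s ^ 2 * (∑ i, ‖a i V‖ ^ 2) - 2 * s * (∑ i, ‖a i V‖ * ‖b i V‖) +
          ∑ i, ‖b i V‖ ^ 2 = ∑ i, (s * ‖a i V‖ - ‖b i V‖) ^ 2 := by
        rw [Finset.mul_sum, Finset.mul_sum, ← Finset.sum_sub_distrib, ← Finset.sum_add_distrib]
        exact Finset.sum_congr rfl fun i _ => by ring
      rw [e3]
      exact Finset.sum_nonneg fun _ _ => sq_nonneg _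
    rw [e1] at e2
    linarith
  have h3 := discrim_le_zero h2
  unfold discrim at h3
  have h4 : ‖∫ V, ∑ i, a i V * b i V ∂(Γ κ)‖ ^ 2 ≤ P ^ 2 :=
    pow_le_pow_left₀ (norm_nonneg _) h1 2
  nlinarith

/-- differentiable functions with bounded derivatives -/
def RegE (F : (κ → ℝ) → ℂ) (D : κ → (κ → ℝ) → ℂ) : Prop :=
  Differentiable ℝ F ∧ BC F ∧ (∀ i, BC (D i)) ∧
    ∀ i x, HasDerivAt (fun t : ℝ => F (Function.update x i t)) (D i x) (x i)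

theorem RegE.reg {F : (κ → ℝ) → ℂ} {D : κ → (κ → ℝ) → ℂ} (h : RegE F D) :
    ∃ C, GC.Reg F D C := by
  obtain ⟨h1, ⟨h2, C, hC⟩, h3, h4⟩ := h
  choose hc CD hCD using h3
  refine ⟨|C| + ∑ i, |CD i|, h1, h4, hc, fun x => ?_, fun i x => ?_⟩
  · have : 0 ≤ ∑ i, |CD i| := Finset.sum_nonneg fun _ _ => abs_nonneg _
    linarith [hC x, le_abs_self C]
  · have h5 : |CD i| ≤ ∑ i, |CD i| :=
      Finset.single_le_sum (f := fun i => |CD i|) (fun _ _ => abs_nonneg _) (Finset.mem_univ i)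
    linarith [hCD i x, le_abs_self (CD i), abs_nonneg C]

theorem RegE.ibp {F : (κ → ℝ) → ℂ} {D : κ → (κ → ℝ) → ℂ} (h : RegE F D) (i : κ) :
    ∫ x, (x i : ℂ) * F x ∂(Γ κ) = ∫ x, D i x ∂(Γ κ) := by
  obtain ⟨C, hC⟩ := h.reg
  exact GC.ibp F (D i) C i hC.diff.continuous (hC.cont i) hC.bd (hC.bdD i) (hC.der i)

theorem RegE.poin {F : (κ → ℝ) → ℂ} {D : κ → (κ → ℝ) → ℂ} (h : RegE F D) :
    ∫ x, ‖F x - ∫ y, F y ∂(Γ κ)‖ ^ 2 ∂(Γ κ) ≤ 15 * ∫ x, ∑ i, ‖D i x‖ ^ 2 ∂(Γ κ) := by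
  obtain ⟨C, hC⟩ := h.reg
  exact GC.poin hC

theorem RegE.mul {F1 F2 : (κ → ℝ) → ℂ} {D1 D2 : κ → (κ → ℝ) → ℂ} (h1 : RegE F1 D1)
    (h2 : RegE F2 D2) :
    RegE (fun x => F1 x * F2 x) (fun i x => D1 i x * F2 x + F1 x * D2 i x) := by
  refine ⟨h1.1.mul h2.1, h1.2.1.mul h2.2.1, fun i => ?_, fun i x => ?_⟩
  · exact ((h1.2.2.1 i).mul h2.2.1).add (h1.2.1.mul (h2.2.2.1 i))
  · have := (h1.2.2.2 i x).mul (h2.2.2.2 i x)
    rw [Function.update_eq_self] at this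
    exact this

theorem RegE.conj {F : (κ → ℝ) → ℂ} {D : κ → (κ → ℝ) → ℂ} (h : RegE F D) :
    RegE (fun x => (starRingEnd ℂ) (F x)) (fun i x => (starRingEnd ℂ) (D i x)) := by
  refine ⟨Complex.conjCLE.differentiable.comp h.1, h.2.1.conj, fun i => (h.2.2.1 i).conj,
    fun i x => ?_⟩
  exact (h.2.2.2 i x).star

theorem RegE.const_mul {F : (κ → ℝ) → ℂ} {D : κ → (κ → ℝ) → ℂ} (h : RegE F D) (c : ℂ) :
    RegE (fun x => c * F x) (fun i x => c * D i x) :=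
  ⟨h.1.const_mul c, (BC.const c).mul h.2.1, fun i => (BC.const c).mul (h.2.2.1 i),
    fun i x => (h.2.2.2 i x).const_mul c⟩

theorem RegE.sum {ι : Type} (s : Finset ι) {F : ι → (κ → ℝ) → ℂ} {D : ι → κ → (κ → ℝ) → ℂ}
    (h : ∀ j ∈ s, RegE (F j) (D j)) :
    RegE (fun x => ∑ j ∈ s, F j x) (fun i x => ∑ j ∈ s, D j i x) :=
  ⟨Differentiable.fun_sum fun j hj => (h j hj).1, BC.sum s fun j hj => (h j hj).2.1,
    fun i => BC.sum s fun j hj => (h j hj).2.2.1 i,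
    fun i x => HasDerivAt.fun_sum fun j hj => (h j hj).2.2.2 i x⟩

theorem RegE.congr {F F' : (κ → ℝ) → ℂ} {D D' : κ → (κ → ℝ) → ℂ} (h : RegE F D)
    (hF : ∀ x, F' x = F x) (hD : ∀ i x, D' i x = D i x) : RegE F' D' := by
  have e1 : F' = F := funext hF
  have e2 : D' = D := funext fun i => funext fun x => hD i x
  rw [e1, e2]
  exact h

end Pool.Agent.Run7.h47
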