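import Pool.Agent.Run7.h47.Teq
import Pool.Agent.W788.MFP.Form

/-! The resolvent away from the energy shell, on a good event. -/

set_option autoImplicit false
set_option linter.unusedSectionVars false

open scoped BigOperators Matrix
open MeasureTheory

namespace Pool.Agent.Run7.h47

open Pool.Agent.W788.MFP.Four Pool.Agent.W788.BK
open Pool.Agent.W788.MFP.Form
open Pool.Agent.W788.MFP.Gm (Γ)

variable {d L : ℕ} [NeZero L]

/-- the form for complex functions -/
noncomputable def qc (m : T d L → ℝ) (u : T d L → ℂ) : ℝ :=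
  q m (fun x => (u x).re) + q m (fun x => (u x).im)

theorem qc_nonneg (m : T d L → ℝ) (u : T d L → ℂ) (h : ∀ k, 0 ≤ m k) : 0 ≤ qc m u :=
  add_nonneg (q_nonneg _ _ h) (q_nonneg _ _ h)

theorem nsq_split (u : T d L → ℂ) :
    nsq u = ∑ x, (u x).re ^ 2 + ∑ x, (u x).im ^ 2 := by
  unfold nsq
  rw [← Finset.sum_add_distrib]
  refine Finset.sum_congr rfl fun x _ => ?_
  rw [← Complex.normSq_eq_norm_sq, Complex.normSq_apply]
  ring

theorem young (E δ : ℝ) (hδ : 0 < δ) (w g : T d L → ℝ) :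
    ∑ x, w x * g x ≤ 1 / 4 * q (J E δ) w + q (fun k => (J E δ k)⁻¹) g := by
  set s : T d L → ℝ := fun k => Real.sqrt (J E δ k) with hs
  have hse : ∀ k, s (-k) = s k := fun k => by simp only [hs, J_neg]
  set r : T d L → ℝ := fun k => (Real.sqrt (J E δ k))⁻¹ with hr
  have hre : ∀ k, r (-k) = r k := fun k => by simp only [hr, J_neg]
  have hJ := J_pos (d := d) (L := L) E δ hδ
  have h1 : ∑ x, w x * g x = ∑ x, Op s w x * Op r g x := by
    rw [planch, planch]
    congr 1
    refine Finset.sum_congr rfl fun k _ => ?_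
    rw [ft_Op s w hse, ft_Op r g hre, map_mul, Complex.conj_ofReal]
    have h2 : (s k : ℂ) * ft w k * ((r k : ℂ) * (starRingEnd ℂ) (ft g k)) =
        ((s k * r k : ℝ) : ℂ) * (ft w k * (starRingEnd ℂ) (ft g k)) := by
      push_cast
      ring
    have h3 : s k * r k = 1 := mul_inv_cancel₀ (Real.sqrt_pos.2 (hJ k)).ne'
    rw [h2, h3]
    simp
  have h4 : ∑ x, Op s w x ^ 2 = q (J E δ) w := by
    rw [sum_sq, q_Op _ s w hse]
    congr 1
    funext k
    rw [one_mul]
    exact Real.sq_sqrt (hJ k).le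
  have h5 : ∑ x, Op r g x ^ 2 = q (fun k => (J E δ k)⁻¹) g := by
    rw [sum_sq, q_Op _ r g hre]
    congr 1
    funext k
    rw [one_mul, hr]
    simp only [inv_pow]
    rw [Real.sq_sqrt (hJ k).le]
  rw [h1, ← h4, ← h5, Finset.mul_sum, ← Finset.sum_add_distrib]
  refine Finset.sum_le_sum fun x _ => ?_
  nlinarith [sq_nonneg (1 / 2 * Op s w x - Op r g x)]

/-- the symbol `(adj - E)/J` -/
noncomputable def sg (E δ : ℝ) (k : T d L) : ℝ := (adj k - E) / J E δ k

theorem sg_neg (E δ : ℝ) (k : T d L) : sg E δ (-k) = sg E δ k := by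
  unfold sg
  rw [adj_neg, J_neg]

theorem sg_sq (E δ : ℝ) (hδ : 0 < δ) (k : T d L) : sg E δ k ^ 2 ≤ 1 := by
  unfold sg
  have hJ := J_pos (d := d) (L := L) E δ hδ k
  rw [div_pow, div_le_one (by positivity), J_sq]
  nlinarith [sq_nonneg δ]

/-- the random term -/
theorem rand (E δ τ : ℝ) (hδ : 0 < δ) (hτ : 0 ≤ τ) (V v : T d L → ℝ)
    (hf : ∀ w : T d L → ℝ, |∑ x, V x * w x ^ 2| ≤ τ * q (J E δ) w) :
    |∑ x, V x * (Op (sg E δ) v x * v x)| ≤ τ * q (J E δ) v := by
  set m : T d L → ℝ := sg E δ with hm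
  have hme : ∀ k, m (-k) = m k := sg_neg E δ
  have hm1 : ∀ k, m k ^ 2 ≤ 1 := sg_sq E δ hδ
  have hJp := J_pos (d := d) (L := L) E δ hδ
  set w : T d L → ℝ := Op m v with hw
  have e2 : (fun x => w x + v x) = Op (fun k => m k + 1) v := by
    apply ft_inj
    intro k
    rw [ft_add, hw, ft_Op m v hme, ft_Op _ v (fun k => by simp only [hme k])]
    push_cast
    ring
  have e3 : (fun x => w x - v x) = Op (fun k => m k - 1) v := by
    apply ft_inj
    intro k
    have e4 : ft (fun x => w x - v x) k = ft w k - ft v k := by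
      unfold ft
      rw [← Finset.sum_sub_distrib]
      exact Finset.sum_congr rfl fun x _ => by push_cast; ring
    rw [e4, hw, ft_Op m v hme, ft_Op _ v (fun k => by simp only [hme k])]
    push_cast
    ring
  have f2 : ∀ x, Op (fun k => m k + 1) v x = w x + v x := fun x => (congrFun e2 x).symm
  have f3 : ∀ x, Op (fun k => m k - 1) v x = w x - v x := fun x => (congrFun e3 x).symm
  have e1 : ∑ x, V x * (w x * v x) = 1 / 4 * (∑ x, V x * Op (fun k => m k + 1) v x ^ 2 -
      ∑ x, V x * Op (fun k => m k - 1) v x ^ 2) := by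
    rw [← Finset.sum_sub_distrib, Finset.mul_sum]
    refine Finset.sum_congr rfl fun x _ => ?_
    rw [f2, f3]
    ring
  have a1 := hf (Op (fun k => m k + 1) v)
  have a2 := hf (Op (fun k => m k - 1) v)
  rw [q_Op _ _ _ (fun k => by simp only [hme k])] at a1 a2
  have e5 : q (fun k => J E δ k * (m k + 1) ^ 2) v + q (fun k => J E δ k * (m k - 1) ^ 2) v ≤
      4 * q (J E δ) v := by
    rw [← q_add, ← q_const]
    apply q_mono
    intro k
    have := hm1 k
    have := hJp k
    nlinarith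
  have e6 := mul_le_mul_of_nonneg_left e5 hτ
  have b1 := abs_le.1 a1
  have b2 := abs_le.1 a2
  rw [e1, abs_le]
  constructor <;> nlinarith

theorem q_sg (E δ : ℝ) (hδ : 0 < δ) (v : T d L → ℝ) : q (J E δ) (Op (sg E δ) v) ≤ q (J E δ) v := by
  rw [q_Op _ _ _ (sg_neg E δ)]
  apply q_mono
  intro k
  have := J_pos (d := d) (L := L) E δ hδ k
  nlinarith [sg_sq (d := d) (L := L) E δ hδ k]

theorem q_low (E δ : ℝ) (hδ : 0 < δ) (v : T d L → ℝ) :
    q (J E δ) v ≤ ∑ x, Op (sg E δ) v x * Op (fun k => adj k - E) v x + δ * ∑ x, v x ^ 2 := by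
  rw [sum_Op (sg E δ) _ v (sg_neg E δ) (fun k => by rw [adj_neg]), sum_sq, ← q_const, ← q_add]
  apply q_mono
  intro k
  have h3 := J_pos (d := d) (L := L) E δ hδ k
  have h4 := J_sq (d := d) (L := L) E δ k
  have h5 := J_ge (d := d) (L := L) E δ hδ k
  unfold sg
  have h6 : (adj k - E) / J E δ k * (adj k - E) = (adj k - E) ^ 2 / J E δ k := by ring
  rw [h6]
  have h7 : J E δ k = (adj k - E) ^ 2 / J E δ k + δ ^ 2 / J E δ k := by
    rw [← add_div, eq_div_iff h3.ne', ← sq, h4]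
  have h8 : δ ^ 2 / J E δ k ≤ δ := by
    rw [div_le_iff₀ h3]
    nlinarith
  linarith

theorem Op_symm (m f g : T d L → ℝ) (hm : ∀ k, m (-k) = m k) :
    ∑ x, Op m f x * g x = ∑ x, f x * Op m g x := by
  rw [planch, planch]
  congr 1
  refine Finset.sum_congr rfl fun k _ => ?_
  rw [ft_Op m f hm, ft_Op m g hm, map_mul, Complex.conj_ofReal]
  congr 1
  ring

/-- the bound away from the shell -/
theorem off (σ E t δ τ : ℝ) (hδ : 0 < δ) (hτ : 0 ≤ τ) (hστ : |σ| * τ ≤ 1 / 2)
    (V : T d L → ℝ)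
    (hf : ∀ w : T d L → ℝ, |∑ x, V x * w x ^ 2| ≤ τ * q (J E δ) w) (u g : T d L → ℂ)
    (h : HZ σ E t V *ᵥ u = g) :
    qc (J E δ) u ≤ 4 * δ * nsq u + 4 * qc (fun k => (J E δ k)⁻¹) g := by
  set a : T d L → ℝ := fun x => (u x).re with ha
  set b : T d L → ℝ := fun x => (u x).im with hb
  have hX : ∀ x, (X0 E *ᵥ u) x = ((Op (fun k => adj k - E) a x : ℝ) : ℂ) +
      ((Op (fun k => adj k - E) b x : ℝ) : ℂ) * Complex.I := by
    intro x
    unfold Op Matrix.mulVec dotProduct X0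
    push_cast
    rw [Finset.sum_mul, ← Finset.sum_add_distrib]
    refine Finset.sum_congr rfl fun y _ => ?_
    rw [Matrix.of_apply]
    conv_lhs => rw [← Complex.re_add_im (u y)]
    simp only [ha, hb]
    ring
  have hH : ∀ x, ((Op (fun k => adj k - E) a x : ℝ) : ℂ) +
      ((Op (fun k => adj k - E) b x : ℝ) : ℂ) * Complex.I + σ * V x * (a x + b x * Complex.I) -
      t * Complex.I * (a x + b x * Complex.I) = g x := by
    intro x
    rw [← h, ← hX]
    unfold HZ
    rw [Matrix.sub_mulVec, Matrix.add_mulVec, Pi.sub_apply, Pi.add_apply, Matrix.smul_mulVec,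
      Matrix.one_mulVec, Matrix.mulVec_diagonal]
    have : (a x : ℂ) + b x * Complex.I = u x := Complex.re_add_im (u x)
    rw [this]
    rfl
  have h1 : ∀ x, Op (fun k => adj k - E) a x = -(σ * V x * a x) - t * b x + (g x).re := by
    intro x
    have := congrArg Complex.re (hH x)
    simp at this
    linarith
  have h2 : ∀ x, Op (fun k => adj k - E) b x = -(σ * V x * b x) + t * a x + (g x).im := by
    intro x
    have := congrArg Complex.im (hH x)
    simp at this
    linarith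
  set wa : T d L → ℝ := Op (sg E δ) a with hwa
  set wb : T d L → ℝ := Op (sg E δ) b with hwb
  have hcr : ∑ x, wa x * b x = ∑ x, a x * wb x := Op_symm _ _ _ (sg_neg E δ)
  have hqa := q_low (d := d) (L := L) E δ hδ a
  have hqb := q_low (d := d) (L := L) E δ hδ b
  have hra := rand E δ τ hδ hτ V a hf
  have hrb := rand E δ τ hδ hτ V b hf
  have hya := young (d := d) (L := L) E δ hδ wa fun x => (g x).re
  have hyb := young (d := d) (L := L) E δ hδ wb fun x => (g x).im
  have hsa := q_sg (d := d) (L := L) E δ hδ a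
  have hsb := q_sg (d := d) (L := L) E δ hδ b
  rw [← hwa] at hqa hsa hra
  rw [← hwb] at hqb hsb hrb
  have e1 : ∑ x, wa x * Op (fun k => adj k - E) a x = -(σ * ∑ x, V x * (wa x * a x)) -
      t * ∑ x, wa x * b x + ∑ x, wa x * (g x).re := by
    rw [Finset.mul_sum, Finset.mul_sum, ← Finset.sum_neg_distrib, ← Finset.sum_sub_distrib,
      ← Finset.sum_add_distrib]
    refine Finset.sum_congr rfl fun x _ => ?_
    rw [h1]
    ring
  have e2 : ∑ x, wb x * Op (fun k => adj k - E) b x = -(σ * ∑ x, V x * (wb x * b x)) +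
      t * ∑ x, a x * wb x + ∑ x, wb x * (g x).im := by
    rw [Finset.mul_sum, Finset.mul_sum, ← Finset.sum_neg_distrib, ← Finset.sum_add_distrib,
      ← Finset.sum_add_distrib]
    refine Finset.sum_congr rfl fun x _ => ?_
    rw [h2]
    ring
  have hJ0 : ∀ v : T d L → ℝ, 0 ≤ q (J E δ) v := fun v =>
    q_nonneg _ _ fun k => (J_pos E δ hδ k).le
  have f1 : -(σ * ∑ x, V x * (wa x * a x)) ≤ 1 / 2 * q (J E δ) a := by
    calc -(σ * ∑ x, V x * (wa x * a x)) ≤ |σ * ∑ x, V x * (wa x * a x)| := neg_le_abs _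
      _ = |σ| * |∑ x, V x * (wa x * a x)| := abs_mul _ _
      _ ≤ |σ| * (τ * q (J E δ) a) := mul_le_mul_of_nonneg_left hra (abs_nonneg _)
      _ = (|σ| * τ) * q (J E δ) a := by ring
      _ ≤ _ := mul_le_mul_of_nonneg_right hστ (hJ0 a)
  have f2 : -(σ * ∑ x, V x * (wb x * b x)) ≤ 1 / 2 * q (J E δ) b := by
    calc -(σ * ∑ x, V x * (wb x * b x)) ≤ |σ * ∑ x, V x * (wb x * b x)| := neg_le_abs _
      _ = |σ| * |∑ x, V x * (wb x * b x)| := abs_mul _ _
      _ ≤ |σ| * (τ * q (J E δ) b) := mul_le_mul_of_nonneg_left hrb (abs_nonneg _)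
      _ = (|σ| * τ) * q (J E δ) b := by ring
      _ ≤ _ := mul_le_mul_of_nonneg_right hστ (hJ0 b)
  have hn := nsq_split u
  rw [hn]
  unfold qc
  have g1 : ∑ x, (u x).re ^ 2 = ∑ x, a x ^ 2 := rfl
  have g2 : ∑ x, (u x).im ^ 2 = ∑ x, b x ^ 2 := rfl
  have g3 : q (J E δ) (fun x => (u x).re) = q (J E δ) a := rfl
  have g4 : q (J E δ) (fun x => (u x).im) = q (J E δ) b := rfl
  rw [g1, g2, g3, g4]
  rw [hcr] at e1
  linarith

/-- the form of the inverse symbol -/
theorem qc_inv_le (E δ : ℝ) (hδ : 0 < δ) (g : T d L → ℂ) :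
    qc (fun k => (J E δ k)⁻¹) g ≤ δ⁻¹ * nsq g := by
  have h : ∀ v : T d L → ℝ, q (fun k => (J E δ k)⁻¹) v ≤ δ⁻¹ * ∑ x, v x ^ 2 := by
    intro v
    rw [sum_sq, ← q_const]
    apply q_mono
    intro k
    rw [mul_one]
    exact inv_anti₀ hδ (J_ge E δ hδ k)
  rw [nsq_split]
  unfold qc
  have h1 := h fun x => (g x).re
  have h2 := h fun x => (g x).im
  linarith

theorem qc_inv_single (E δ : ℝ) :
    qc (fun k => (J E δ k)⁻¹) (Pi.single (0 : T d L) 1) =
      (NN d L)⁻¹ * ∑ k : T d L, (J E δ k)⁻¹ := by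
  unfold qc q
  have h1 : ∀ k : T d L, ft (fun x => ((Pi.single (0 : T d L) (1 : ℂ) : T d L → ℂ) x).re) k = 1 := by
    intro k
    unfold ft
    rw [Finset.sum_eq_single 0]
    · simp [e_zero]
    · intro x _ hx
      simp [hx]
    · intro hcon
      exact absurd (Finset.mem_univ _) hcon
  have h2 : ∀ k : T d L, ft (fun x => ((Pi.single (0 : T d L) (1 : ℂ) : T d L → ℂ) x).im) k = 0 := by
    intro k
    unfold ft
    refine Finset.sum_eq_zero fun x _ => ?_
    by_cases hx : x = 0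
    · subst hx
      simp
    · simp [hx]
  simp only [h1, h2]
  simp

end Pool.Agent.Run7.h47
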