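import Pool.Agent.Run7.h47.Rs

/-! Riemann sums with exponentially small errors: the free resolvent. -/

set_option autoImplicit false
set_option linter.unusedSectionVars false

open scoped BigOperators Matrix
open MeasureTheory Set

namespace Pool.Agent.Run7.h47.Q

open Pool.Agent.W788.MFP.Four Pool.Agent.W788.MFP.Dos
open Pool.Agent.W918.BK.Osc (U U_cont U_norm U_lip U_hasDeriv full)

/-- the weight -/
noncomputable def wt (χ : ℂ) : ℂ := (((2 * χ.im) ^ 2 : ℝ) : ℂ)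

theorem wt_cont : Continuous wt := by
  unfold wt
  fun_prop

theorem wt_eq (χ : ℂ) : wt χ = 2 * (χ ^ 1 * (starRingEnd ℂ) χ ^ 1) - χ ^ 2 * (starRingEnd ℂ) χ ^ 0 -
    χ ^ 0 * (starRingEnd ℂ) χ ^ 2 := by
  have h1 : χ - (starRingEnd ℂ) χ = 2 * Complex.I * (χ.im : ℂ) := by
    rw [Complex.sub_conj]
    push_cast
    ring
  have h2 : wt χ = -(χ - (starRingEnd ℂ) χ) ^ 2 := by
    rw [h1]
    unfold wt
    push_cast
    rw [mul_pow, mul_pow, mul_pow, Complex.I_sq]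
    ring
  rw [h2]
  ring

theorem wt_bd {χ : ℂ} (hχ : ‖χ‖ = 1) : ‖wt χ‖ ≤ 4 := by
  unfold wt
  have h1 := Complex.abs_im_le_norm χ
  rw [hχ] at h1
  rw [Complex.norm_real, Real.norm_of_nonneg (sq_nonneg _), mul_pow]
  have h2 : χ.im ^ 2 ≤ 1 := by
    rw [← sq_abs]
    exact pow_le_one₀ (abs_nonneg _) h1
  linarith

/-- the weighted moments -/
noncomputable def wmo (z : ℂ) (k : ℕ) : ℂ := ∑ m ∈ Finset.range (k + 1),
  (Complex.I ^ k * z ^ m * (starRingEnd ℂ) z ^ (k - m) * (k.choose m : ℂ)) *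
    (2 * (if m + 1 = k - m + 1 then 1 else 0) - (if m + 2 = k - m then 1 else 0) -
      (if m = k - m + 2 then 1 else 0))

theorem Av.wpow {F : (ℂ → ℂ) → ℂ} {N : ℕ} (hF : Av F N) (z : ℂ) (k : ℕ) (hk : k + 2 < N) :
    F (fun χ => wt χ * (ph z χ) ^ k) = wmo z k := by
  have h1 : (fun χ => wt χ * (ph z χ) ^ k) = fun χ => ∑ m ∈ Finset.range (k + 1),
      (Complex.I ^ k * z ^ m * (starRingEnd ℂ) z ^ (k - m) * (k.choose m : ℂ)) *
      ((2 * (χ ^ (m + 1) * (starRingEnd ℂ) χ ^ (k - m + 1)) -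
        χ ^ (m + 2) * (starRingEnd ℂ) χ ^ (k - m)) - χ ^ m * (starRingEnd ℂ) χ ^ (k - m + 2)) := by
    funext χ
    rw [ph_pow, Finset.mul_sum]
    refine Finset.sum_congr rfl fun m _ => ?_
    rw [wt_eq]
    ring
  rw [h1, hF.add _ _ fun m _ => by fun_prop]
  unfold wmo
  refine Finset.sum_congr rfl fun m hm => ?_
  have hm' := Finset.mem_range.1 hm
  rw [hF.mul, hF.sub _ _ (by fun_prop) (by fun_prop), hF.sub _ _ (by fun_prop) (by fun_prop),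
    hF.mul, hF.mon _ _ (by omega), hF.mon _ _ (by omega), hF.mon _ _ (by omega)]

theorem Av.wty {F : (ℂ → ℂ) → ℂ} {N n : ℕ} (hF : Av F N) (hn : n + 2 ≤ N) (z : ℂ) :
    F (fun χ => wt χ * Q.ty n z χ) = ∑ k ∈ Finset.range n, wmo z k / (k.factorial : ℂ) := by
  unfold Q.ty
  have h1 : (fun χ => wt χ * ∑ k ∈ Finset.range n, ph z χ ^ k / (k.factorial : ℂ)) =
      fun χ => ∑ k ∈ Finset.range n, ((k.factorial : ℂ)⁻¹ * (wt χ * ph z χ ^ k)) := by
    funext χ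
    rw [Finset.mul_sum]
    exact Finset.sum_congr rfl fun k _ => by rw [div_eq_inv_mul]; ring
  have hc := ph_cont z
  have hw := wt_cont
  rw [h1, hF.add _ _ fun m _ => by fun_prop]
  refine Finset.sum_congr rfl fun k hk => ?_
  have := Finset.mem_range.1 hk
  rw [hF.mul, hF.wpow z k (by omega), div_eq_inv_mul]

theorem Av.wexp {F : (ℂ → ℂ) → ℂ} {N n : ℕ} (hF : Av F N) (hn : n + 2 ≤ N) (z : ℂ)
    (hz : 16 * ‖z‖ ≤ n) :
    ‖F (fun χ => wt χ * Complex.exp (ph z χ)) -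
      ∑ k ∈ Finset.range n, wmo z k / (k.factorial : ℂ)‖ ≤ 8 * (1 / 2) ^ n := by
  have hc := ph_cont z
  have hw := wt_cont
  have hwt : Continuous fun χ => wt χ * Q.ty n z χ := hw.mul (ty_cont n z)
  rw [← hF.wty hn z, ← hF.sub _ _ (by fun_prop) hwt]
  refine hF.bd _ _ ((by fun_prop : Continuous fun χ => wt χ * Complex.exp (ph z χ)).sub
    (hw.mul (ty_cont n z))) fun χ hχ => ?_
  rw [← mul_sub, norm_mul]
  calc ‖wt χ‖ * ‖Complex.exp (ph z χ) - Q.ty n z χ‖ ≤ 4 * (2 * (1 / 2) ^ n) :=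
        mul_le_mul (wt_bd hχ) (ty_bd hχ hz) (norm_nonneg _) (by norm_num)
    _ = _ := by ring

theorem JL_eq (L : ℕ) [NeZero L] (s : ℝ) : JL L s = FD L (fun χ => Complex.exp (ph s χ)) := by
  unfold JL FD
  congr 1
  refine Finset.sum_congr rfl fun q _ => ?_
  simp only [ph_eq]
  congr 3
  unfold a
  rw [Complex.re_ofReal_mul]
  ring

theorem SL_eq (L : ℕ) [NeZero L] (s : ℝ) :
    SL L s = FD L (fun χ => wt χ * Complex.exp (ph s χ)) := by
  unfold SL FD wt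
  congr 1
  refine Finset.sum_congr rfl fun q _ => ?_
  simp only [ph_eq]
  congr 4
  unfold a
  rw [Complex.re_ofReal_mul]
  ring

theorem WS_eq (s : ℝ) : WS s = FI (fun χ => wt χ * Complex.exp (ph s χ)) := by
  unfold WS FI wt
  congr 1
  refine intervalIntegral.integral_congr fun t _ => ?_
  simp only
  have h1 : (Complex.exp (Complex.I * t)).im = Real.sin t := by
    rw [mul_comm, Complex.exp_ofReal_mul_I_im]
  have h2 : (Complex.exp (Complex.I * t)).re = Real.cos t := by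
    rw [mul_comm, Complex.exp_ofReal_mul_I_re]
  rw [h1]
  congr 1
  unfold U
  rw [ph_eq, Complex.re_ofReal_mul, h2]

theorem JL_small (L : ℕ) [NeZero L] (s : ℝ) (hs : 0 ≤ s) (h : 32 * s ≤ L) :
    ‖JL L s - WJ s‖ ≤ 4 * (1 / 2) ^ L := by
  have h1 := S_bes L (s : ℂ) (by
    rw [Complex.norm_real, Real.norm_of_nonneg hs]
    linarith)
  rw [Complex.norm_real, Real.norm_of_nonneg hs] at h1
  rw [JL_eq]
  exact h1

theorem SL_small (L : ℕ) [NeZero L] (hL : 4 ≤ L) (s : ℝ) (hs : 0 ≤ s) (h : 32 * s ≤ L) :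
    ‖SL L s - WS s‖ ≤ 64 * (1 / 2) ^ L := by
  obtain ⟨n, hn⟩ : ∃ n, L = n + 2 := ⟨L - 2, by omega⟩
  have hnL : (L : ℝ) = n + 2 := by
    rw [hn]
    push_cast
    ring
  have hn2 : (2 : ℝ) ≤ n := by
    have : 2 ≤ n := by omega
    exact_mod_cast this
  have hz : 16 * ‖(s : ℂ)‖ ≤ n := by
    rw [Complex.norm_real, Real.norm_of_nonneg hs]
    linarith
  have h1 := (FD_av L).wexp (n := n) (by omega) (s : ℂ) hz
  have h2 := (FI_av L).wexp (n := n) (by omega) (s : ℂ) hz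
  rw [← SL_eq] at h1
  rw [← WS_eq] at h2
  have h5 := norm_sub_le (SL L s - ∑ k ∈ Finset.range n, wmo (s : ℂ) k / (k.factorial : ℂ))
    (WS s - ∑ k ∈ Finset.range n, wmo (s : ℂ) k / (k.factorial : ℂ))
  rw [sub_sub_sub_cancel_right] at h5
  have h6 : (1 / 2 : ℝ) ^ n = 4 * (1 / 2) ^ L := by
    rw [hn, pow_add]
    ring
  rw [h6] at h1 h2
  linarith

theorem J_comp2 {d : ℕ} (L : ℕ) [NeZero L] (s : ℝ) (hs : 0 ≤ s) (h : 32 * s ≤ L) :
    ‖JL L s ^ d - HJ d s‖ ≤ d * (4 * (1 / 2) ^ L) := by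
  unfold HJ
  refine (pow_sub _ _ (JL_le_one L s) (WJ_le_one s) d).trans ?_
  exact mul_le_mul_of_nonneg_left (JL_small L s hs h) (Nat.cast_nonneg d)

theorem S_comp2 {d : ℕ} (hd : 3 ≤ d) (L : ℕ) [NeZero L] (hL : 4 ≤ L) (s : ℝ) (hs : 0 ≤ s)
    (h : 32 * s ≤ L) :
    ‖JL L s ^ (d - 1) * SL L s - HS d s‖ ≤ d * (64 * (1 / 2) ^ L) := by
  unfold HS
  have e1 : JL L s ^ (d - 1) * SL L s - WJ s ^ (d - 1) * WS s =
      JL L s ^ (d - 1) * (SL L s - WS s) + (JL L s ^ (d - 1) - WJ s ^ (d - 1)) * WS s := by ring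
  rw [e1]
  refine (norm_add_le _ _).trans ?_
  rw [norm_mul, norm_mul, norm_pow]
  have h1 := JL_small L s hs h
  have h2 := SL_small L hL s hs h
  have h3 := pow_sub _ _ (JL_le_one L s) (WJ_le_one s) (d - 1)
  have h4 : ‖JL L s‖ ^ (d - 1) ≤ 1 := pow_le_one₀ (norm_nonneg _) (JL_le_one L s)
  have h5 := WS_le_four s
  have hd1 : ((d - 1 : ℕ) : ℝ) = d - 1 := by
    rw [Nat.cast_sub (by omega)]
    simp
  rw [hd1] at h3
  have hd0 : (3 : ℝ) ≤ d := by exact_mod_cast hd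
  obtain ⟨y, hy⟩ : ∃ y : ℝ, y = (1 / 2) ^ L := ⟨_, rfl⟩
  have hy0 : 0 < y := by rw [hy]; positivity
  rw [← hy] at h1 h2 ⊢
  have h6 : ‖JL L s ^ (d - 1) - WJ s ^ (d - 1)‖ ≤ (d - 1) * (4 * y) :=
    h3.trans (mul_le_mul_of_nonneg_left h1 (by linarith))
  have h7 : ‖JL L s ^ (d - 1) - WJ s ^ (d - 1)‖ * ‖WS s‖ ≤ ((d - 1) * (4 * y)) * 4 :=
    mul_le_mul h6 h5 (norm_nonneg _) (mul_nonneg (by linarith) (by positivity))
  have h8 : ‖JL L s‖ ^ (d - 1) * ‖SL L s - WS s‖ ≤ 1 * (64 * y) :=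
    mul_le_mul h4 h2 (norm_nonneg _) (by norm_num)
  have h9 : 0 ≤ (d - 1 : ℝ) * y := mul_nonneg (by linarith) hy0.le
  have h10 : (d : ℝ) * (64 * y) = 64 * ((d - 1) * y) + 64 * y := by ring
  rw [h10]
  linarith

/-- comparison of two functions which are close up to the time `X` -/
theorem cmp3 {r : ℝ} (hr : 0 < r) {K f g : ℝ → ℂ} (hK : Continuous K)
    (hf : Continuous f) (hg : Continuous g)
    (hb : ∀ s, 0 ≤ s → ‖K s‖ ≤ 2 * Real.exp (-r * s)) {B X : ℝ} (hB0 : 0 ≤ B)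
    (hB : ∀ s, 0 ≤ s → s ≤ X → ‖f s - g s‖ ≤ B)
    (hBf : ∀ s, 0 ≤ s → ‖f s‖ ≤ 4) (hBg : ∀ s, 0 ≤ s → ‖g s‖ ≤ 4) :
    ‖(∫ s in Ioi (0 : ℝ), K s * f s) - ∫ s in Ioi (0 : ℝ), K s * g s‖ ≤
      2 * B / r + 32 * Real.exp (-(r * X / 2)) / r := by
  have i1 := kint (B := 4) hr hK hf hb fun s hs => (hBf s hs).trans (by linarith)
  have i2 := kint (B := 4) hr hK hg hb fun s hs => (hBg s hs).trans (by linarith)
  rw [← integral_sub i1 i2]
  have h1 : IntegrableOn (fun s : ℝ => 2 * B * Real.exp (-r * s) +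
      16 * Real.exp (-(r * X / 2)) * Real.exp (-(r / 2) * s)) (Ioi 0) :=
    ((exp_int hr).const_mul _).add ((exp_int (by positivity)).const_mul _)
  refine (norm_integral_le_of_norm_le h1 ?_).trans ?_
  · refine (ae_restrict_iff' measurableSet_Ioi).2 (Filter.Eventually.of_forall fun s hs => ?_)
    have hs' : (0 : ℝ) ≤ s := le_of_lt hs
    rw [← mul_sub, norm_mul]
    have h3 : ‖f s - g s‖ ≤ B + 8 * Real.exp (r / 2 * (s - X)) := by
      rcases le_or_gt s X with h | h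
      · have := hB s hs' h
        have h4 := Real.exp_pos (r / 2 * (s - X))
        linarith
      · have h4 : 1 ≤ Real.exp (r / 2 * (s - X)) :=
          Real.one_le_exp (mul_nonneg (by positivity) (by linarith))
        have h5 := norm_sub_le (f s) (g s)
        have h6 := hBf s hs'
        have h7 := hBg s hs'
        linarith
    calc ‖K s‖ * ‖f s - g s‖ ≤ 2 * Real.exp (-r * s) * (B + 8 * Real.exp (r / 2 * (s - X))) :=
          mul_le_mul (hb s hs') h3 (norm_nonneg _) (by positivity)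
      _ = 2 * B * Real.exp (-r * s) +
          16 * (Real.exp (-r * s) * Real.exp (r / 2 * (s - X))) := by ring
      _ = _ := by
          have h4 : Real.exp (-r * s) * Real.exp (r / 2 * (s - X)) =
              Real.exp (-(r * X / 2)) * Real.exp (-(r / 2) * s) := by
            rw [← Real.exp_add, ← Real.exp_add]
            congr 1
            ring
          rw [h4]
          ring
  · rw [integral_add ((exp_int hr).const_mul _) ((exp_int (by positivity)).const_mul _),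
      integral_const_mul, integral_const_mul, exp_integral hr, exp_integral (by positivity)]
    apply le_of_eq
    field_simp
    ring

/-- the new error of the discretization -/
noncomputable def er2 (d L : ℕ) (η : ℝ) : ℝ :=
  2 * (d * (64 * (1 / 2) ^ L)) / (η / 2) + 32 * Real.exp (-(η * L / 128)) / (η / 2)

theorem er2_nonneg (d L : ℕ) {η : ℝ} (hη : 0 < η) : 0 ≤ er2 d L η := by
  unfold er2
  positivity

theorem er2_anti {d L : ℕ} {η η' : ℝ} (h0 : 0 < η) (h : η ≤ η') : er2 d L η' ≤ er2 d L η := by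
  unfold er2
  have h1 : 0 < η' := h0.trans_le h
  have h2 : Real.exp (-(η' * L / 128)) ≤ Real.exp (-(η * L / 128)) := by
    apply Real.exp_le_exp.2
    have : η * L ≤ η' * L := mul_le_mul_of_nonneg_right h (Nat.cast_nonneg L)
    linarith
  gcongr

theorem pS_bd4 {d : ℕ} (L : ℕ) [NeZero L] (s : ℝ) : ‖JL L s ^ (d - 1) * SL L s‖ ≤ 4 := by
  rw [norm_mul, norm_pow]
  have h1 := pow_le_one₀ (n := d - 1) (norm_nonneg _) (JL_le_one L s)
  have h2 := SL_le_four L s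
  calc ‖JL L s‖ ^ (d - 1) * ‖SL L s‖ ≤ 1 * 4 := mul_le_mul h1 h2 (norm_nonneg _) zero_le_one
    _ = 4 := by norm_num

theorem HS_bd4 {d : ℕ} (s : ℝ) : ‖HS d s‖ ≤ 4 := by
  unfold HS
  rw [norm_mul, norm_pow]
  have h1 := pow_le_one₀ (n := d - 1) (norm_nonneg _) (WJ_le_one s)
  have h2 := WS_le_four s
  calc ‖WJ s‖ ^ (d - 1) * ‖WS s‖ ≤ 1 * 4 := mul_le_mul h1 h2 (norm_nonneg _) zero_le_one
    _ = 4 := by norm_num

variable {d : ℕ}

theorem cmpJ {ζ : ℂ} (hζ : 0 < ζ.im) {K : ℝ → ℂ} (hK : Continuous K)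
    (hb : ∀ s, 0 ≤ s → ‖K s‖ ≤ 2 * Real.exp (-(ζ.im / 2) * s)) (L : ℕ) [NeZero L] :
    ‖(∫ s in Ioi (0 : ℝ), K s * JL L s ^ d) - ∫ s in Ioi (0 : ℝ), K s * HJ d s‖ ≤
      er2 d L ζ.im := by
  have h := cmp3 (r := ζ.im / 2) (by positivity) hK ((JL_cont L).pow d) (HJ_cont d) hb
    (B := d * (64 * (1 / 2) ^ L)) (X := L / 32) (by positivity) (fun s hs hX => by
      refine (J_comp2 L s hs (by linarith)).trans ?_
      gcongr
      norm_num)
    (fun s hs => by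
      rw [Pi.pow_apply, norm_pow]
      have := pow_le_one₀ (n := d) (norm_nonneg _) (JL_le_one L s)
      linarith)
    (fun s hs => by
      unfold HJ
      rw [norm_pow]
      have := pow_le_one₀ (n := d) (norm_nonneg _) (WJ_le_one s)
      linarith)
  refine h.trans (le_of_eq ?_)
  unfold er2
  congr 4
  ring

theorem cmpS (hd : 3 ≤ d) {ζ : ℂ} (hζ : 0 < ζ.im) {K : ℝ → ℂ} (hK : Continuous K)
    (hb : ∀ s, 0 ≤ s → ‖K s‖ ≤ 2 * Real.exp (-(ζ.im / 2) * s)) (L : ℕ) [NeZero L] (hL : 4 ≤ L) :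
    ‖(∫ s in Ioi (0 : ℝ), K s * (JL L s ^ (d - 1) * SL L s)) -
      ∫ s in Ioi (0 : ℝ), K s * HS d s‖ ≤ er2 d L ζ.im := by
  have h := cmp3 (r := ζ.im / 2) (by positivity) hK (((JL_cont L).pow (d - 1)).mul (SL_cont L))
    (HS_cont d) hb
    (B := d * (64 * (1 / 2) ^ L)) (X := L / 32) (by positivity) (fun s hs hX =>
      S_comp2 hd L hL s hs (by linarith))
    (fun s hs => pS_bd4 L s) (fun s hs => HS_bd4 s)
  refine h.trans (le_of_eq ?_)
  unfold er2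
  congr 4
  ring

/-- the diagonal of the free resolvent -/
theorem free1 (hd : 3 ≤ d) (L : ℕ) [NeZero L] {ζ : ℂ} (hζ : 0 < ζ.im) (E0 : ℝ) :
    ‖(starRingEnd ℂ) (GG ζ (0 : T d L) 0) - -Complex.I * mJ d E0‖ ≤
      er2 d L ζ.im + 3 * 72 * C54 * ‖ζ - E0‖ ^ (1 / 4 : ℝ) := by
  rw [avg_time1 hζ, ← mul_sub, norm_mul, norm_neg, Complex.norm_I, one_mul]
  have h1 := cmpJ (d := d) hζ (k1_cont ζ) (fun s hs => k1_le hζ.le hs) L
  have h2 := cmp2 (k1_cont ζ) (k1_cont E0) (HJ_cont d) (fun s hs => k1_le2 hζ.le hs)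
    (fun s hs => k1_le2 (ζ := (E0 : ℂ)) (by simp) hs) (norm_nonneg (ζ - E0)) (HJ_bd hd)
    (fun s hs => (k1_diff hζ.le E0 hs).trans (by
      have : 0 ≤ (s * ‖ζ - E0‖) ^ (1 / 4 : ℝ) := by positivity
      linarith))
  have e1 : (∫ s in Ioi (0 : ℝ), k1 ζ s * JL L s ^ d) - mJ d E0 =
      ((∫ s in Ioi (0 : ℝ), k1 ζ s * JL L s ^ d) - ∫ s in Ioi (0 : ℝ), k1 ζ s * HJ d s) +
      ((∫ s in Ioi (0 : ℝ), k1 ζ s * HJ d s) - ∫ s in Ioi (0 : ℝ), k1 E0 s * HJ d s) := by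
    unfold mJ
    ring
  rw [e1]
  exact (norm_add_le _ _).trans (add_le_add h1 h2)

theorem free1_im (hd : 3 ≤ d) (L : ℕ) [NeZero L] {ζ : ℂ} (hζ : 0 < ζ.im)
    (E0 : ℝ) : |(GG ζ (0 : T d L) 0).im - (mJ d E0).re| ≤
      er2 d L ζ.im + 3 * 72 * C54 * ‖ζ - E0‖ ^ (1 / 4 : ℝ) := by
  refine le_trans ?_ (free1 hd L hζ E0)
  refine le_trans (le_of_eq ?_) (Complex.abs_im_le_norm _)
  rw [← abs_neg]
  congr 1
  simp
  ring

theorem free0 (hd : 3 ≤ d) (L : ℕ) [NeZero L] {ζ : ℂ} (hζ : 0 < ζ.im) :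
    ‖GG ζ (0 : T d L) 0‖ ≤ er2 d L ζ.im + 2 * (72 * C32) := by
  have h1 := cmpJ (d := d) hζ (k1_cont ζ) (fun s hs => k1_le hζ.le hs) L
  have h2 := gbd (K := k1 ζ) (fun s hs => k1_le2 hζ.le hs) (HJ_bd hd)
  rw [← RCLike.norm_conj, avg_time1 hζ, norm_mul, norm_neg, Complex.norm_I, one_mul]
  have e1 : (∫ s in Ioi (0 : ℝ), k1 ζ s * JL L s ^ d) =
      ((∫ s in Ioi (0 : ℝ), k1 ζ s * JL L s ^ d) - ∫ s in Ioi (0 : ℝ), k1 ζ s * HJ d s) +
      ∫ s in Ioi (0 : ℝ), k1 ζ s * HJ d s := by ring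
  rw [e1]
  exact (norm_add_le _ _).trans (add_le_add h1 h2)

/-- the velocity average -/
theorem free2 (hd : 3 ≤ d) (L : ℕ) [NeZero L] (hL : 4 ≤ L) {ζ : ℂ} (hζ : 0 < ζ.im) (E0 : ℝ)
    (i : Fin d) :
    |(NN d L)⁻¹ * ∑ k : T d L, (2 * (ZMod.stdAddChar (k i) : ℂ).im) ^ 2 *
      (ζ.im ^ 3 * ‖gs ζ k‖ ^ 4) - 1 / 2 * (mS d E0).re| ≤
      er2 d L ζ.im + 3 * 72 * C54 * ‖ζ - E0‖ ^ (1 / 4 : ℝ) := by
  rw [avg_time2 hζ (fun k : T d L => (2 * (ZMod.stdAddChar (k i) : ℂ).im) ^ 2)]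
  simp only [avg_sq]
  have h1 := cmpS hd hζ (k2_cont ζ) (fun s hs => k2_le hζ.le hs) L hL
  have h2 := cmp2 (k2_cont ζ) (k1_cont E0) (HS_cont d) (fun s hs => k2_le2 hζ.le hs)
    (fun s hs => k1_le2 (ζ := (E0 : ℂ)) (by simp) hs) (norm_nonneg (ζ - E0)) (HS_bd hd)
    (fun s hs => k2_diff hζ.le E0 hs)
  have e1 : (∫ s in Ioi (0 : ℝ), k2 ζ s * (JL L s ^ (d - 1) * SL L s)) - mS d E0 =
      ((∫ s in Ioi (0 : ℝ), k2 ζ s * (JL L s ^ (d - 1) * SL L s)) -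
        ∫ s in Ioi (0 : ℝ), k2 ζ s * HS d s) +
      ((∫ s in Ioi (0 : ℝ), k2 ζ s * HS d s) - ∫ s in Ioi (0 : ℝ), k1 E0 s * HS d s) := by
    unfold mS
    ring
  have h3 : ‖(∫ s in Ioi (0 : ℝ), k2 ζ s * (JL L s ^ (d - 1) * SL L s)) - mS d E0‖ ≤
      er2 d L ζ.im + 3 * 72 * C54 * ‖ζ - E0‖ ^ (1 / 4 : ℝ) := by
    rw [e1]
    exact (norm_add_le _ _).trans (add_le_add h1 h2)
  rw [← mul_sub, abs_mul, abs_of_pos (by norm_num : (0 : ℝ) < 1 / 2), ← Complex.sub_re]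
  have h4 := Complex.abs_re_le_norm
    ((∫ s in Ioi (0 : ℝ), k2 ζ s * (JL L s ^ (d - 1) * SL L s)) - mS d E0)
  have h5 := abs_nonneg ((∫ s in Ioi (0 : ℝ), k2 ζ s * (JL L s ^ (d - 1) * SL L s)) - mS d E0).re
  linarith

end Pool.Agent.Run7.h47.Q
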