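import Pool.Agent.Run7.h47.Tor2

/-! Estimates for the free resolvent on the torus. -/

set_option autoImplicit false
set_option linter.unusedSectionVars false

open scoped BigOperators Matrix
open MeasureTheory Set

namespace Pool.Agent.Run7.h47

open Pool.Agent.W788.MFP.Four Pool.Agent.W788.MFP.Dos
open Pool.Agent.W918.BK.Osc (U U_cont U_norm U_lip U_hasDeriv full)

theorem WJ_cont : Continuous WJ := by
  unfold WJ
  refine continuous_const.mul ?_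
  refine intervalIntegral.continuous_parametric_intervalIntegral_of_continuous' ?_ _ _
  unfold U Function.uncurry
  fun_prop

theorem WS_cont : Continuous WS := by
  unfold WS
  refine continuous_const.mul ?_
  refine intervalIntegral.continuous_parametric_intervalIntegral_of_continuous' ?_ _ _
  unfold U Function.uncurry
  fun_prop

theorem JL_cont (L : ℕ) [NeZero L] : Continuous (JL L) := by
  unfold JL
  fun_prop

theorem SL_cont (L : ℕ) [NeZero L] : Continuous (SL L) := by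
  unfold SL
  fun_prop

theorem pow_sub (x y : ℂ) (hx : ‖x‖ ≤ 1) (hy : ‖y‖ ≤ 1) (n : ℕ) :
    ‖x ^ n - y ^ n‖ ≤ n * ‖x - y‖ := by
  induction n with
  | zero => simp
  | succ n ih =>
    have e1 : x ^ (n + 1) - y ^ (n + 1) = (x ^ n - y ^ n) * x + y ^ n * (x - y) := by ring
    rw [e1]
    refine (norm_add_le _ _).trans ?_
    rw [norm_mul, norm_mul, norm_pow]
    have h1 : ‖y‖ ^ n ≤ 1 := pow_le_one₀ (norm_nonneg _) hy
    have h2 := norm_nonneg (x - y)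
    have h3 := norm_nonneg (x ^ n - y ^ n)
    push_cast
    nlinarith [norm_nonneg x]

/-- the time function of the density of states -/
noncomputable def HJ (d : ℕ) (s : ℝ) : ℂ := WJ s ^ d

/-- the time function of the velocity -/
noncomputable def HS (d : ℕ) (s : ℝ) : ℂ := WJ s ^ (d - 1) * WS s

theorem HJ_cont (d : ℕ) : Continuous (HJ d) := WJ_cont.pow d

theorem HS_cont (d : ℕ) : Continuous (HS d) := (WJ_cont.pow (d - 1)).mul WS_cont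

theorem sqrt_rpow {s : ℝ} (hs : 0 ≤ s) : (Real.sqrt (1 + s))⁻¹ ^ 3 = (s + 1) ^ (-(3 / 2) : ℝ) := by
  have h1 : (0 : ℝ) < s + 1 := by linarith
  rw [add_comm 1 s, Real.sqrt_eq_rpow, ← Real.rpow_neg h1.le, ← Real.rpow_natCast, ← Real.rpow_mul h1.le]
  norm_num

theorem HJ_bd {d : ℕ} (hd : 3 ≤ d) (s : ℝ) (hs : 0 ≤ s) :
    ‖HJ d s‖ ≤ 72 * (s + 1) ^ (-(3 / 2) : ℝ) := by
  unfold HJ
  rw [norm_pow, ← sqrt_rpow hs]
  have h1 := WJ_bd s hs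
  calc ‖WJ s‖ ^ d ≤ ‖WJ s‖ ^ 3 := pow_le_pow_of_le_one (norm_nonneg _) (WJ_le_one s) hd
    _ ≤ (3 / Real.sqrt (1 + s)) ^ 3 := pow_le_pow_left₀ (norm_nonneg _) h1 3
    _ = 27 * (Real.sqrt (1 + s))⁻¹ ^ 3 := by
        rw [div_eq_mul_inv, mul_pow]
        norm_num
    _ ≤ 72 * (Real.sqrt (1 + s))⁻¹ ^ 3 := by
        refine mul_le_mul_of_nonneg_right (by norm_num) (by positivity)

theorem HS_bd {d : ℕ} (hd : 3 ≤ d) (s : ℝ) (hs : 0 ≤ s) :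
    ‖HS d s‖ ≤ 72 * (s + 1) ^ (-(3 / 2) : ℝ) := by
  unfold HS
  rw [norm_mul, norm_pow]
  have h1 := WJ_bd s hs
  have h2 := WS_bd s hs
  have hs1 : (0 : ℝ) < s + 1 := by linarith
  have h3 : ‖WJ s‖ ^ (d - 1) ≤ 9 / (1 + s) := by
    calc ‖WJ s‖ ^ (d - 1) ≤ ‖WJ s‖ ^ 2 :=
          pow_le_pow_of_le_one (norm_nonneg _) (WJ_le_one s) (by omega)
      _ ≤ (3 / Real.sqrt (1 + s)) ^ 2 := pow_le_pow_left₀ (norm_nonneg _) h1 2
      _ = 9 / (1 + s) := by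
          rw [div_pow, Real.sq_sqrt (by linarith)]
          norm_num
  have h4 : (s + 1) ^ (-2 : ℝ) ≤ (s + 1) ^ (-(3 / 2) : ℝ) :=
    Real.rpow_le_rpow_of_exponent_le (by linarith) (by norm_num)
  have h5 : (s + 1) ^ (-2 : ℝ) = ((1 + s) ^ 2)⁻¹ := by
    rw [Real.rpow_neg hs1.le, add_comm]
    norm_num
  calc ‖WJ s‖ ^ (d - 1) * ‖WS s‖ ≤ 9 / (1 + s) * (8 / (1 + s)) := by gcongr
    _ = 72 * ((1 + s) ^ 2)⁻¹ := by field_simp; norm_num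
    _ = 72 * (s + 1) ^ (-2 : ℝ) := by rw [h5]
    _ ≤ _ := by gcongr

theorem J_comp {d : ℕ} (hd : 3 ≤ d) (L : ℕ) [NeZero L] (s : ℝ) (hs : 0 ≤ s) :
    ‖JL L s ^ d - HJ d s‖ ≤ 16 * Real.pi * d / L * (1 + s) := by
  have hLR : (0 : ℝ) < L := by exact_mod_cast Nat.pos_of_ne_zero (NeZero.ne L)
  have hpi := Real.pi_pos
  have hd0 : (3 : ℝ) ≤ d := by exact_mod_cast hd
  unfold HJ
  refine (pow_sub _ _ (JL_le_one L s) (WJ_le_one s) d).trans ?_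
  have h1 := JL_sub L s
  rw [abs_of_nonneg hs] at h1
  calc (d : ℝ) * ‖JL L s - WJ s‖ ≤ d * (4 * Real.pi * s / L) := by gcongr
    _ = 4 * Real.pi * d / L * s := by ring
    _ ≤ 16 * Real.pi * d / L * (1 + s) := by
        have h2 : 4 * Real.pi * d / L ≤ 16 * Real.pi * d / L := by
          gcongr
          norm_num
        exact mul_le_mul h2 (by linarith) hs (by positivity)

theorem S_comp {d : ℕ} (hd : 3 ≤ d) (L : ℕ) [NeZero L] (s : ℝ) (hs : 0 ≤ s) :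
    ‖JL L s ^ (d - 1) * SL L s - HS d s‖ ≤ 16 * Real.pi * d / L * (1 + s) := by
  have hLR : (0 : ℝ) < L := by exact_mod_cast Nat.pos_of_ne_zero (NeZero.ne L)
  have hpi := Real.pi_pos
  unfold HS
  have e1 : JL L s ^ (d - 1) * SL L s - WJ s ^ (d - 1) * WS s =
      JL L s ^ (d - 1) * (SL L s - WS s) + (JL L s ^ (d - 1) - WJ s ^ (d - 1)) * WS s := by ring
  rw [e1]
  refine (norm_add_le _ _).trans ?_
  rw [norm_mul, norm_mul, norm_pow]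
  have h1 := JL_sub L s
  have h2 := SL_sub L s
  rw [abs_of_nonneg hs] at h1 h2
  have h3 := pow_sub _ _ (JL_le_one L s) (WJ_le_one s) (d - 1)
  have h4 : ‖JL L s‖ ^ (d - 1) ≤ 1 := pow_le_one₀ (norm_nonneg _) (JL_le_one L s)
  have h5 := WS_le_four s
  have hd1 : ((d - 1 : ℕ) : ℝ) = d - 1 := by
    rw [Nat.cast_sub (by omega)]
    simp
  rw [hd1] at h3
  have hd0 : (3 : ℝ) ≤ d := by exact_mod_cast hd
  calc ‖JL L s‖ ^ (d - 1) * ‖SL L s - WS s‖ + ‖JL L s ^ (d - 1) - WJ s ^ (d - 1)‖ * ‖WS s‖ ≤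
      1 * (16 * Real.pi * (1 + s) / L) + ((d - 1) * (4 * Real.pi * s / L)) * 4 := by
        have h6 : ‖JL L s ^ (d - 1) - WJ s ^ (d - 1)‖ ≤ (d - 1) * (4 * Real.pi * s / L) :=
          h3.trans (mul_le_mul_of_nonneg_left h1 (by linarith))
        have h7 : ‖JL L s ^ (d - 1) - WJ s ^ (d - 1)‖ * ‖WS s‖ ≤
            ((d - 1) * (4 * Real.pi * s / L)) * 4 :=
          mul_le_mul h6 h5 (norm_nonneg _) (mul_nonneg (by linarith) (by positivity))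
        have h8 : ‖JL L s‖ ^ (d - 1) * ‖SL L s - WS s‖ ≤ 1 * (16 * Real.pi * (1 + s) / L) :=
          mul_le_mul h4 h2 (norm_nonneg _) (by norm_num)
        linarith
    _ = 16 * Real.pi / L * ((1 + s) + (d - 1) * s) := by ring
    _ ≤ 16 * Real.pi / L * (d * (1 + s)) := by
        refine mul_le_mul_of_nonneg_left ?_ (by positivity)
        nlinarith
    _ = _ := by ring

/-- the limit of the diagonal -/
noncomputable def mJ (d : ℕ) (E0 : ℝ) : ℂ := ∫ s in Ioi (0 : ℝ), k1 E0 s * HJ d s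

/-- the limit of the velocity average -/
noncomputable def mS (d : ℕ) (E0 : ℝ) : ℂ := ∫ s in Ioi (0 : ℝ), k1 E0 s * HS d s

theorem k1_le2 {ζ : ℂ} (hζ : 0 ≤ ζ.im) {s : ℝ} (hs : 0 ≤ s) : ‖k1 ζ s‖ ≤ 2 := by
  refine (k1_le hζ hs).trans ?_
  have : Real.exp (-(ζ.im / 2) * s) ≤ 1 := Real.exp_le_one_iff.2 (by nlinarith [mul_nonneg hζ hs])
  linarith

theorem k2_le2 {ζ : ℂ} (hζ : 0 ≤ ζ.im) {s : ℝ} (hs : 0 ≤ s) : ‖k2 ζ s‖ ≤ 2 := by
  refine (k2_le hζ hs).trans ?_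
  have : Real.exp (-(ζ.im / 2) * s) ≤ 1 := Real.exp_le_one_iff.2 (by nlinarith [mul_nonneg hζ hs])
  linarith

variable {d : ℕ}

theorem pow_bd (L : ℕ) [NeZero L] (s : ℝ) (hs : 0 ≤ s) : ‖JL L s ^ d‖ ≤ 1 * (1 + s) := by
  rw [norm_pow]
  have := pow_le_one₀ (n := d) (norm_nonneg _) (JL_le_one L s)
  linarith

theorem SL_le_four (L : ℕ) [NeZero L] (s : ℝ) : ‖SL L s‖ ≤ 4 := by
  unfold SL
  have hLR : (0 : ℝ) < L := by exact_mod_cast Nat.pos_of_ne_zero (NeZero.ne L)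
  rw [norm_mul, norm_inv, Complex.norm_natCast]
  have h1 : ‖∑ q : ZMod L, (((2 * (ZMod.stdAddChar q : ℂ).im) ^ 2 : ℝ) : ℂ) *
      Complex.exp (Complex.I * ((s * a q : ℝ) : ℂ))‖ ≤ ∑ _q : ZMod L, (4 : ℝ) := by
    refine (norm_sum_le _ _).trans (Finset.sum_le_sum fun q _ => ?_)
    rw [norm_mul, exp_a, U_norm, mul_one, Complex.norm_real, Real.norm_of_nonneg (sq_nonneg _),
      im_char]
    nlinarith [Real.sin_sq_add_cos_sq (2 * Real.pi * q.val / L),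
      sq_nonneg (Real.cos (2 * Real.pi * q.val / L))]
  rw [Finset.sum_const, Finset.card_univ, ZMod.card, nsmul_eq_mul] at h1
  calc (L : ℝ)⁻¹ * ‖∑ q : ZMod L, (((2 * (ZMod.stdAddChar q : ℂ).im) ^ 2 : ℝ) : ℂ) *
      Complex.exp (Complex.I * ((s * a q : ℝ) : ℂ))‖ ≤ (L : ℝ)⁻¹ * (L * 4) := by gcongr
    _ = 4 := by field_simp

theorem pS_bd (L : ℕ) [NeZero L] (s : ℝ) (hs : 0 ≤ s) :
    ‖JL L s ^ (d - 1) * SL L s‖ ≤ 4 * (1 + s) := by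
  rw [norm_mul, norm_pow]
  have h1 := pow_le_one₀ (n := d - 1) (norm_nonneg _) (JL_le_one L s)
  have h2 := SL_le_four L s
  have h3 := norm_nonneg (SL L s)
  nlinarith

theorem H_lin {g : ℝ → ℂ} (h : ∀ s, 0 ≤ s → ‖g s‖ ≤ 72 * (s + 1) ^ (-(3 / 2) : ℝ)) (s : ℝ)
    (hs : 0 ≤ s) : ‖g s‖ ≤ 72 * (1 + s) := by
  refine (h s hs).trans ?_
  have : (s + 1) ^ (-(3 / 2) : ℝ) ≤ 1 :=
    Real.rpow_le_one_of_one_le_of_nonpos (by linarith) (by norm_num)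
  linarith

/-- the error of the discretization -/
noncomputable def er (d L : ℕ) (η : ℝ) : ℝ := 12 * (16 * Real.pi * d / L) / (η / 2) ^ 2

/-- the diagonal of the free resolvent -/
theorem free1 (hd : 3 ≤ d) (L : ℕ) [NeZero L] {ζ : ℂ} (hζ : 0 < ζ.im) (hζ1 : ζ.im ≤ 1) (E0 : ℝ) :
    ‖(starRingEnd ℂ) (GG ζ (0 : T d L) 0) - -Complex.I * mJ d E0‖ ≤
      er d L ζ.im + 3 * 72 * C54 * ‖ζ - E0‖ ^ (1 / 4 : ℝ) := by
  rw [avg_time1 hζ, ← mul_sub, norm_mul, norm_neg, Complex.norm_I, one_mul]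
  have h1 := cmp1 (r := ζ.im / 2) (by positivity) (by linarith) (k1_cont ζ)
    ((JL_cont L).pow d) (HJ_cont d) (fun s hs => k1_le hζ.le hs) (fun s hs => J_comp hd L s hs)
    (fun s hs => pow_bd L s hs) (H_lin (HJ_bd hd))
  have h2 := cmp2 (k1_cont ζ) (k1_cont E0) (HJ_cont d) (fun s hs => k1_le2 hζ.le hs)
    (fun s hs => k1_le2 (ζ := (E0 : ℂ)) (by simp) hs) (norm_nonneg (ζ - E0)) (HJ_bd hd)
    (fun s hs => (k1_diff hζ.le E0 hs).trans (by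
      have : 0 ≤ (s * ‖ζ - E0‖) ^ (1 / 4 : ℝ) := by positivity
      linarith))
  have e1 : (∫ s in Ioi (0 : ℝ), k1 ζ s * JL L s ^ d) - mJ d E0 =
      ((∫ s in Ioi (0 : ℝ), k1 ζ s * JL L s ^ d) - ∫ s in Ioi (0 : ℝ), k1 ζ s * HJ d s) +
      ((∫ s in Ioi (0 : ℝ), k1 ζ s * HJ d s) - ∫ s in Ioi (0 : ℝ), k1 E0 s * HJ d s) := by
    unfold mJ
    ring
  rw [e1]
  refine (norm_add_le _ _).trans (add_le_add ?_ h2)
  exact h1

theorem free1_im (hd : 3 ≤ d) (L : ℕ) [NeZero L] {ζ : ℂ} (hζ : 0 < ζ.im) (hζ1 : ζ.im ≤ 1)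
    (E0 : ℝ) : |(GG ζ (0 : T d L) 0).im - (mJ d E0).re| ≤
      er d L ζ.im + 3 * 72 * C54 * ‖ζ - E0‖ ^ (1 / 4 : ℝ) := by
  refine le_trans ?_ (free1 hd L hζ hζ1 E0)
  refine le_trans (le_of_eq ?_) (Complex.abs_im_le_norm _)
  rw [← abs_neg]
  congr 1
  simp
  ring

theorem mJ_bd (hd : 3 ≤ d) (E0 : ℝ) : ‖mJ d E0‖ ≤ 2 * (72 * C32) :=
  gbd (fun s hs => k1_le2 (ζ := (E0 : ℂ)) (by simp) hs) (HJ_bd hd)

theorem free0 (hd : 3 ≤ d) (L : ℕ) [NeZero L] {ζ : ℂ} (hζ : 0 < ζ.im) (hζ1 : ζ.im ≤ 1) :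
    ‖GG ζ (0 : T d L) 0‖ ≤ er d L ζ.im + 2 * (72 * C32) := by
  have h1 := cmp1 (r := ζ.im / 2) (by positivity) (by linarith) (k1_cont ζ)
    ((JL_cont L).pow d) (HJ_cont d) (fun s hs => k1_le hζ.le hs) (fun s hs => J_comp hd L s hs)
    (fun s hs => pow_bd L s hs) (H_lin (HJ_bd hd))
  have h2 := gbd (K := k1 ζ) (fun s hs => k1_le2 hζ.le hs) (HJ_bd hd)
  rw [← RCLike.norm_conj, avg_time1 hζ, norm_mul, norm_neg, Complex.norm_I, one_mul]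
  have e1 : (∫ s in Ioi (0 : ℝ), k1 ζ s * JL L s ^ d) =
      ((∫ s in Ioi (0 : ℝ), k1 ζ s * JL L s ^ d) - ∫ s in Ioi (0 : ℝ), k1 ζ s * HJ d s) +
      ∫ s in Ioi (0 : ℝ), k1 ζ s * HJ d s := by ring
  rw [e1]
  exact (norm_add_le _ _).trans (add_le_add h1 h2)

/-- the velocity average -/
theorem free2 (hd : 3 ≤ d) (L : ℕ) [NeZero L] {ζ : ℂ} (hζ : 0 < ζ.im) (hζ1 : ζ.im ≤ 1) (E0 : ℝ)
    (i : Fin d) :
    |(NN d L)⁻¹ * ∑ k : T d L, (2 * (ZMod.stdAddChar (k i) : ℂ).im) ^ 2 *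
      (ζ.im ^ 3 * ‖gs ζ k‖ ^ 4) - 1 / 2 * (mS d E0).re| ≤
      er d L ζ.im + 3 * 72 * C54 * ‖ζ - E0‖ ^ (1 / 4 : ℝ) := by
  rw [avg_time2 hζ (fun k : T d L => (2 * (ZMod.stdAddChar (k i) : ℂ).im) ^ 2)]
  simp only [avg_sq]
  have h1 := cmp1 (r := ζ.im / 2) (by positivity) (by linarith) (k2_cont ζ)
    (((JL_cont L).pow (d - 1)).mul (SL_cont L)) (HS_cont d) (fun s hs => k2_le hζ.le hs)
    (fun s hs => S_comp hd L s hs) (fun s hs => pS_bd L s hs) (H_lin (HS_bd hd))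
  have h2 := cmp2 (k2_cont ζ) (k1_cont E0) (HS_cont d) (fun s hs => k2_le2 hζ.le hs)
    (fun s hs => k1_le2 (ζ := (E0 : ℂ)) (by simp) hs) (norm_nonneg (ζ - E0)) (HS_bd hd)
    (fun s hs => k2_diff hζ.le E0 hs)
  have e1 : (∫ s in Ioi (0 : ℝ), k2 ζ s * (JL L s ^ (d - 1) * SL L s)) - mS d E0 =
      ((∫ s in Ioi (0 : ℝ), k2 ζ s * (JL L s ^ (d - 1) * SL L s)) -
        ∫ s in Ioi (0 : ℝ), k2 ζ s * HS d s) +
      ((∫ s in Ioi (0 : ℝ), k2 ζ s * HS d s) - ∫ s in Ioi (0 : ℝ), k1 E0 s * HS d s) := by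
    unfold mS
    ring
  have h3 : ‖(∫ s in Ioi (0 : ℝ), k2 ζ s * (JL L s ^ (d - 1) * SL L s)) - mS d E0‖ ≤
      er d L ζ.im + 3 * 72 * C54 * ‖ζ - E0‖ ^ (1 / 4 : ℝ) := by
    rw [e1]
    exact (norm_add_le _ _).trans (add_le_add h1 h2)
  rw [← mul_sub, abs_mul, abs_of_pos (by norm_num : (0 : ℝ) < 1 / 2), ← Complex.sub_re]
  have h4 := Complex.abs_re_le_norm
    ((∫ s in Ioi (0 : ℝ), k2 ζ s * (JL L s ^ (d - 1) * SL L s)) - mS d E0)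
  have h5 := abs_nonneg ((∫ s in Ioi (0 : ℝ), k2 ζ s * (JL L s ^ (d - 1) * SL L s)) - mS d E0).re
  linarith

/-- the cross terms vanish -/
theorem free3 (L : ℕ) [NeZero L] {ζ : ℂ} (hζ : 0 < ζ.im) (i j : Fin d) (hij : i ≠ j) :
    ∑ k : T d L, (2 * (ZMod.stdAddChar (k i) : ℂ).im) * (2 * (ZMod.stdAddChar (k j) : ℂ).im) *
      ‖gs ζ k‖ ^ 4 = 0 := by
  have h1 := avg_time2 (d := d) (L := L) hζ
    (fun k : T d L => (2 * (ZMod.stdAddChar (k i) : ℂ).im) * (2 * (ZMod.stdAddChar (k j) : ℂ).im))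
  simp only [avg_cross i j hij] at h1
  simp only [mul_zero, integral_zero, Complex.zero_re] at h1
  have h2 : ∑ k : T d L, (2 * (ZMod.stdAddChar (k i) : ℂ).im) * (2 * (ZMod.stdAddChar (k j) : ℂ).im) *
      (ζ.im ^ 3 * ‖gs ζ k‖ ^ 4) = ζ.im ^ 3 * ∑ k : T d L,
      (2 * (ZMod.stdAddChar (k i) : ℂ).im) * (2 * (ZMod.stdAddChar (k j) : ℂ).im) *
      ‖gs ζ k‖ ^ 4 := by
    rw [Finset.mul_sum]
    exact Finset.sum_congr rfl fun k _ => by ring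
  rw [h2] at h1
  have hN := NN_pos (d := d) (L := L)
  have h3 := (mul_eq_zero.1 h1).resolve_left (inv_ne_zero hN.ne')
  exact (mul_eq_zero.1 h3).resolve_left (by positivity)

end Pool.Agent.Run7.h47
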