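import Pool.Agent.Run7.h47.Zc
import Pool.Agent.Run7.h47.Lad

/-! The Fourier transform of the square of the Green function. -/

set_option autoImplicit false
set_option linter.unusedSectionVars false

open scoped BigOperators Matrix
open MeasureTheory

namespace Pool.Agent.Run7.h47

open Pool.Agent.W788.MFP.Four Pool.Agent.W788.BK Pool.Agent.W788.MFP.Cut
open Pool.Agent.H4R2.LO (Zd)
open Pool.Agent.H695R3.AN (lf lf_inj lf_add lf_sub)
open Pool.Agent.W788.MFP.Site (z lf_z)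

variable {d : ℕ}

/-- the character on the lattice -/
noncomputable def ex (θ : Fin d → ℝ) (x : Zd d) : ℂ :=
  Complex.exp (Complex.I * ((∑ i, θ i * x i : ℝ) : ℂ))

theorem ex_norm (θ : Fin d → ℝ) (x : Zd d) : ‖ex θ x‖ = 1 := by
  unfold ex
  rw [mul_comm, Complex.norm_exp_ofReal_mul_I]

theorem coord_le (x : Zd d) (i : Fin d) : |(x i : ℝ)| ≤ ‖x‖ := by
  have h1 := norm_le_pi_norm x i
  rw [Int.norm_eq_abs] at h1
  exact h1

theorem ex_sub (θ θ' : Fin d → ℝ) (x : Zd d) (q : ℝ) (hq : ∀ i, |θ i - θ' i| ≤ q) :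
    ‖ex θ x - ex θ' x‖ ≤ d * q * ‖x‖ := by
  have h1 : ex θ x - ex θ' x = ex θ' x *
      (Complex.exp (Complex.I * ((∑ i, θ i * x i - ∑ i, θ' i * x i : ℝ) : ℂ)) - 1) := by
    unfold ex
    rw [mul_sub, ← Complex.exp_add, mul_one]
    congr 2
    push_cast
    ring
  rw [h1, norm_mul, ex_norm, one_mul]
  refine Real.norm_exp_I_mul_ofReal_sub_one_le.trans ?_
  rw [← Finset.sum_sub_distrib, Real.norm_eq_abs]
  refine (Finset.abs_sum_le_sum_abs _ _).trans ?_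
  calc ∑ i, |θ i * x i - θ' i * x i| ≤ ∑ _i : Fin d, q * ‖x‖ := by
        refine Finset.sum_le_sum fun i _ => ?_
        rw [← sub_mul, abs_mul]
        exact mul_le_mul (hq i) (coord_le x i) (abs_nonneg _) ((abs_nonneg _).trans (hq i))
    _ = _ := by
        rw [Finset.sum_const, Finset.card_univ, Fintype.card_fin, nsmul_eq_mul]
        ring

variable {L : ℕ} [NeZero L]

theorem e_mom (j : Fin d → ℤ) (y : T d L) : e (mom d L j) y = ex (ang L j) (lf y) := by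
  have h1 : ∑ i, mom d L j i * y i = ((∑ i, j i * lf y i : ℤ) : ZMod L) := by
    rw [Int.cast_sum]
    refine Finset.sum_congr rfl fun i _ => ?_
    rw [Int.cast_mul]
    congr 1
    exact (ZMod.coe_valMinAbs (y i)).symm
  unfold e ex
  rw [h1, char_int]
  congr 3
  unfold ang
  push_cast
  rw [Finset.mul_sum, Finset.sum_div]
  exact Finset.sum_congr rfl fun i _ => by ring

/-- the Fourier transform of `‖u‖ ^ 2` -/
noncomputable def Qz (θ : Fin d → ℝ) (u : Zd d → ℂ) : ℂ := ∑' x, ex θ x * ((‖u x‖ ^ 2 : ℝ) : ℂ)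

theorem Fm_zero {σ E t : ℝ} (p : T d L) (V : T d L → ℝ) :
    Fm σ E t p V 0 0 = ∑ y, e p y * ((‖R σ E t V 0 y‖ ^ 2 : ℝ) : ℂ) := by
  unfold Fm
  refine Finset.sum_congr rfl fun y _ => ?_
  have h1 := Complex.mul_conj (R σ E t V 0 y)
  rw [Complex.normSq_eq_norm_sq] at h1
  rw [← h1]
  ring

theorem summ_ex {θ : Fin d → ℝ} {F : Zd d → ℝ} (hF : Summable F) :
    Summable fun x => ex θ x * ((F x : ℝ) : ℂ) := by
  refine Summable.of_norm_bounded (g := fun x => |F x|) hF.abs fun x => ?_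
  rw [norm_mul, ex_norm, one_mul, Complex.norm_real, Real.norm_eq_abs]

theorem trans {σ E t ℓ : ℝ} (hd : 1 ≤ d) (ht : 0 < t) (hℓ : 0 < ℓ) (hL : 4 * ℓ + 4 < L)
    {ω : Zd d → ℝ} {u : Zd d → ℂ} (h : IsGreen d σ ((E : ℂ) + (t : ℂ) * Complex.I) ω u)
    (θ : Fin d → ℝ) (j : Fin d → ℤ) (q : ℝ) (hj : ∀ i, |θ i - ang L j i| ≤ q) :
    ‖Qz θ u - Fm σ E t (mom d L j) (fun y => ω (lf y)) 0 0‖ ≤
      10 * d / (ℓ * t ^ 3) + 2 * d * q * ℓ / t ^ 2 := by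
  have hd0 : (0 : ℝ) < d := by exact_mod_cast hd
  obtain ⟨a, ha⟩ : ∃ a, a = 2 * d / ℓ := ⟨_, rfl⟩
  have ha0 : 0 < a := by rw [ha]; positivity
  obtain ⟨f1, f2⟩ := far ht hℓ h
  have hn := near ht hℓ hL h
  rw [← ha] at f2 hn
  have hg := green_norm ht h
  obtain ⟨S, hS⟩ : ∃ S, S = ∑' x, ‖u x‖ ^ 2 := ⟨_, rfl⟩
  have hSt : S ≤ 1 / t ^ 2 := by
    rw [le_div_iff₀ (by positivity), hS]
    linarith
  -- first step
  have e1 : Qz θ u = (∑' x, ex θ x * ((φ ℓ x ^ 2 * ‖u x‖ ^ 2 : ℝ) : ℂ)) +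
      ∑' x, ex θ x * (((1 - φ ℓ x ^ 2) * ‖u x‖ ^ 2 : ℝ) : ℂ) := by
    have s1 : Summable fun x => φ ℓ x ^ 2 * ‖u x‖ ^ 2 := by
      refine Summable.of_nonneg_of_le (fun x => by positivity) (fun x => ?_) h.1
      apply mul_le_of_le_one_left (by positivity)
      exact pow_le_one₀ (φ_nonneg _ _) (φ_le_one _ _)
    have s2 : Summable fun x => (1 - φ ℓ x ^ 2) * ‖u x‖ ^ 2 := by
      have := h.1.sub s1
      refine this.congr fun x => ?_
      ring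
    rw [← (summ_ex s1).tsum_add (summ_ex s2)]
    unfold Qz
    refine tsum_congr fun x => ?_
    rw [← mul_add, ← Complex.ofReal_add]
    congr 2
    ring
  have b1 : ‖∑' x, ex θ x * (((1 - φ ℓ x ^ 2) * ‖u x‖ ^ 2 : ℝ) : ℂ)‖ ≤ 2 * a / t ^ 3 := by
    have hp : ∀ x, ‖ex θ x * (((1 - φ ℓ x ^ 2) * ‖u x‖ ^ 2 : ℝ) : ℂ)‖ ≤
        t / a * ‖((1 - φ ℓ x : ℝ) : ℂ) * u x‖ ^ 2 + a / t * ‖u x‖ ^ 2 := by
      intro x
      have n0 := φ_nonneg ℓ x
      have n1 := φ_le_one ℓ x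
      have n2 : 0 ≤ (1 - φ ℓ x ^ 2) * ‖u x‖ ^ 2 := by
        have : 0 ≤ 1 - φ ℓ x ^ 2 := by nlinarith
        positivity
      rw [norm_mul, ex_norm, one_mul, Complex.norm_real, Real.norm_of_nonneg n2, norm_mul,
        Complex.norm_real, Real.norm_of_nonneg (by linarith : 0 ≤ 1 - φ ℓ x)]
      have h1 : (1 - φ ℓ x ^ 2) * ‖u x‖ ^ 2 ≤ 2 * ((1 - φ ℓ x) * ‖u x‖) * ‖u x‖ := by
        have : 1 - φ ℓ x ^ 2 ≤ 2 * (1 - φ ℓ x) := by nlinarith
        have h2 := mul_le_mul_of_nonneg_right this (sq_nonneg ‖u x‖)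
        linarith
      refine h1.trans ?_
      have e2 : t / a * ((1 - φ ℓ x) * ‖u x‖) ^ 2 + a / t * ‖u x‖ ^ 2 -
          2 * ((1 - φ ℓ x) * ‖u x‖) * ‖u x‖ =
          1 / (a * t) * (t * ((1 - φ ℓ x) * ‖u x‖) - a * ‖u x‖) ^ 2 := by
        field_simp
        ring
      have e3 : 0 ≤ 1 / (a * t) * (t * ((1 - φ ℓ x) * ‖u x‖) - a * ‖u x‖) ^ 2 := by positivity
      linarith
    have hsum := ((f1.mul_left (t / a)).add (h.1.mul_left (a / t)))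
    have h2 := tsum_of_norm_bounded hsum.hasSum hp
    rw [(f1.mul_left (t / a)).tsum_add (h.1.mul_left (a / t)), tsum_mul_left, tsum_mul_left,
      ← hS] at h2
    refine h2.trans ?_
    calc t / a * ∑' x, ‖((1 - φ ℓ x : ℝ) : ℂ) * u x‖ ^ 2 + a / t * S ≤
        t / a * (a ^ 2 / t ^ 4) + a / t * (1 / t ^ 2) := by gcongr
      _ = _ := by
          field_simp
          ring
  -- second step
  obtain ⟨v, hv⟩ : ∃ v : T d L → ℂ, v = fun y => ((φ ℓ (lf y) : ℝ) : ℂ) * u (lf y) := ⟨_, rfl⟩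
  have hvn : ∀ y, ‖v y‖ ^ 2 = φ ℓ (lf y) ^ 2 * ‖u (lf y)‖ ^ 2 := by
    intro y
    rw [hv]
    simp only
    rw [norm_mul, mul_pow, Complex.norm_real, Real.norm_eq_abs, sq_abs]
  have e2 : (∑' x, ex θ x * ((φ ℓ x ^ 2 * ‖u x‖ ^ 2 : ℝ) : ℂ)) =
      ∑ y : T d L, ex θ (lf y) * ((‖v y‖ ^ 2 : ℝ) : ℂ) := by
    rw [← (lf_inj (d := d) (L := L)).tsum_eq (f := fun x => ex θ x *
      ((φ ℓ x ^ 2 * ‖u x‖ ^ 2 : ℝ) : ℂ)), tsum_fintype]
    · exact Finset.sum_congr rfl fun y _ => by rw [hvn]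
    · intro x hx
      have h1 : φ ℓ x ≠ 0 := by
        intro h0
        apply hx
        simp only
        rw [h0]
        simp
      have h2 : ‖x‖ < 2 * ℓ := by
        by_contra hcon
        push Not at hcon
        exact h1 (φ_zero ℓ hℓ x hcon)
      exact ⟨z L x, lf_z x (by linarith)⟩
  have hvS : ∑ y : T d L, ‖v y‖ ^ 2 ≤ S := by
    rw [hS]
    refine le_trans (Finset.sum_le_sum fun y _ => ?_)
      (sum_lf (L := L) (fun x => ‖u x‖ ^ 2) (fun x => sq_nonneg _) h.1)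
    rw [hvn]
    apply mul_le_of_le_one_left (sq_nonneg _)
    exact pow_le_one₀ (φ_nonneg _ _) (φ_le_one _ _)
  have b2 : ‖∑ y : T d L, ex θ (lf y) * ((‖v y‖ ^ 2 : ℝ) : ℂ) -
      ∑ y : T d L, e (mom d L j) y * ((‖v y‖ ^ 2 : ℝ) : ℂ)‖ ≤ 2 * d * q * ℓ / t ^ 2 := by
    have hq0 : 0 ≤ q := (abs_nonneg _).trans (hj ⟨0, by omega⟩)
    rw [← Finset.sum_sub_distrib]
    calc ‖∑ y : T d L, (ex θ (lf y) * ((‖v y‖ ^ 2 : ℝ) : ℂ) -
          e (mom d L j) y * ((‖v y‖ ^ 2 : ℝ) : ℂ))‖ ≤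
        ∑ y : T d L, (d * q * (2 * ℓ)) * ‖v y‖ ^ 2 := by
          refine (norm_sum_le _ _).trans (Finset.sum_le_sum fun y _ => ?_)
          rw [← sub_mul, norm_mul, Complex.norm_real, Real.norm_of_nonneg (sq_nonneg _), e_mom]
          by_cases h0 : v y = 0
          · rw [h0]
            simp
          · apply mul_le_mul_of_nonneg_right _ (sq_nonneg _)
            refine (ex_sub θ (ang L j) (lf y) q hj).trans ?_
            apply mul_le_mul_of_nonneg_left _ (by positivity)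
            by_contra hcon
            push Not at hcon
            apply h0
            rw [hv]
            simp only
            rw [φ_zero ℓ hℓ _ hcon.le]
            simp
      _ = d * q * (2 * ℓ) * ∑ y : T d L, ‖v y‖ ^ 2 := by rw [Finset.mul_sum]
      _ ≤ d * q * (2 * ℓ) * (1 / t ^ 2) := by
          gcongr
          exact hvS.trans hSt
      _ = _ := by ring
  -- third step
  obtain ⟨ρ, hρ⟩ : ∃ ρ : T d L → ℂ, ρ = fun y => R σ E t (fun y => ω (lf y)) 0 y := ⟨_, rfl⟩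
  have hρS : ∑ y, ‖ρ y‖ ^ 2 ≤ 1 / t ^ 2 := by
    rw [hρ]
    refine (R_sum_le ht (fun y : T d L => ω (lf y)) 0).trans (le_of_eq ?_)
    rw [one_div]
  have b3 : ‖∑ y : T d L, e (mom d L j) y * ((‖v y‖ ^ 2 : ℝ) : ℂ) -
      Fm σ E t (mom d L j) (fun y => ω (lf y)) 0 0‖ ≤ 3 * a / t ^ 3 := by
    rw [Fm_zero, ← Finset.sum_sub_distrib]
    have hp : ∀ y : T d L, ‖e (mom d L j) y * ((‖v y‖ ^ 2 : ℝ) : ℂ) -
        e (mom d L j) y * ((‖R σ E t (fun y => ω (lf y)) 0 y‖ ^ 2 : ℝ) : ℂ)‖ ≤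
        t / a * ‖v y - ρ y‖ ^ 2 + a / t * (‖v y‖ ^ 2 + ‖ρ y‖ ^ 2) := by
      intro y
      rw [← mul_sub, norm_mul, norm_e, one_mul, ← Complex.ofReal_sub, Complex.norm_real,
        Real.norm_eq_abs]
      have hρy : R σ E t (fun y => ω (lf y)) 0 y = ρ y := by rw [hρ]
      rw [hρy]
      have h1 : |‖v y‖ ^ 2 - ‖ρ y‖ ^ 2| ≤ ‖v y - ρ y‖ * (‖v y‖ + ‖ρ y‖) := by
        have e3 : ‖v y‖ ^ 2 - ‖ρ y‖ ^ 2 = (‖v y‖ - ‖ρ y‖) * (‖v y‖ + ‖ρ y‖) := by ring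
        rw [e3, abs_mul, abs_of_nonneg (by positivity : 0 ≤ ‖v y‖ + ‖ρ y‖)]
        exact mul_le_mul_of_nonneg_right (abs_norm_sub_norm_le _ _) (by positivity)
      refine h1.trans ?_
      have e4 : t / a * ‖v y - ρ y‖ ^ 2 + a / t * (‖v y‖ ^ 2 + ‖ρ y‖ ^ 2) -
          ‖v y - ρ y‖ * (‖v y‖ + ‖ρ y‖) =
          1 / (2 * (a * t)) * ((t * ‖v y - ρ y‖ - a * ‖v y‖) ^ 2 +
            (t * ‖v y - ρ y‖ - a * ‖ρ y‖) ^ 2) + a / (2 * t) * (‖v y‖ ^ 2 + ‖ρ y‖ ^ 2) := by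
        field_simp
        ring
      have e5 : 0 ≤ 1 / (2 * (a * t)) * ((t * ‖v y - ρ y‖ - a * ‖v y‖) ^ 2 +
            (t * ‖v y - ρ y‖ - a * ‖ρ y‖) ^ 2) + a / (2 * t) * (‖v y‖ ^ 2 + ‖ρ y‖ ^ 2) := by
        positivity
      linarith
    refine (norm_sum_le _ _).trans ((Finset.sum_le_sum fun y _ => hp y).trans ?_)
    rw [Finset.sum_add_distrib, ← Finset.mul_sum, ← Finset.mul_sum, Finset.sum_add_distrib]
    have hn' : ∑ y : T d L, ‖v y - ρ y‖ ^ 2 ≤ a ^ 2 / t ^ 4 := by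
      rw [hv, hρ]
      exact hn
    calc t / a * ∑ y : T d L, ‖v y - ρ y‖ ^ 2 +
          a / t * (∑ y : T d L, ‖v y‖ ^ 2 + ∑ y : T d L, ‖ρ y‖ ^ 2) ≤
        t / a * (a ^ 2 / t ^ 4) + a / t * (1 / t ^ 2 + 1 / t ^ 2) := by
          gcongr
          exact hvS.trans hSt
      _ = _ := by
          field_simp
          ring
  have hfin : Qz θ u - Fm σ E t (mom d L j) (fun y => ω (lf y)) 0 0 =
      (∑' x, ex θ x * (((1 - φ ℓ x ^ 2) * ‖u x‖ ^ 2 : ℝ) : ℂ)) +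
      (∑ y : T d L, ex θ (lf y) * ((‖v y‖ ^ 2 : ℝ) : ℂ) -
        ∑ y : T d L, e (mom d L j) y * ((‖v y‖ ^ 2 : ℝ) : ℂ)) +
      (∑ y : T d L, e (mom d L j) y * ((‖v y‖ ^ 2 : ℝ) : ℂ) -
        Fm σ E t (mom d L j) (fun y => ω (lf y)) 0 0) := by
    rw [e1, e2]
    ring
  rw [hfin]
  refine (norm_add₃_le).trans ?_
  have e6 : 10 * d / (ℓ * t ^ 3) = 2 * a / t ^ 3 + 3 * a / t ^ 3 := by
    rw [ha]
    field_simp
    ring
  rw [e6]
  linarith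

end Pool.Agent.Run7.h47
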