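import Pool.Agent.Run7.h47.Free

/-! The density of states of the lattice Laplacian. -/

set_option autoImplicit false
set_option linter.unusedSectionVars false

open scoped BigOperators Topology
open MeasureTheory Set Filter

namespace Pool.Agent.Run7.h47

open Pool.Agent.W918.BK.Osc (U U_cont U_norm U_lip U_hasDeriv full)

variable {d : ℕ}

/-- Lebesgue measure on `[0, 2π]` -/
noncomputable def ν0 : Measure ℝ := volume.restrict (Icc 0 (2 * Real.pi))

instance : IsFiniteMeasure ν0 := by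
  unfold ν0
  infer_instance

/-- Lebesgue measure on the cube -/
noncomputable def νd (d : ℕ) : Measure (Fin d → ℝ) := Measure.pi fun _ => ν0

instance : IsFiniteMeasure (νd d) := by
  unfold νd
  infer_instance

theorem νd_eq : νd d = volume.restrict (Icc (0 : Fin d → ℝ) (fun _ => 2 * Real.pi)) := by
  unfold νd ν0
  rw [← Measure.restrict_pi_pi, pi_univ_Icc]
  rfl

theorem ν0_int (f : ℝ → ℂ) : ∫ x, f x ∂ν0 = ∫ x in (0 : ℝ)..(2 * Real.pi), f x := by
  have hpi := Real.pi_pos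
  unfold ν0
  rw [integral_Icc_eq_integral_Ioc, intervalIntegral.integral_of_le (by positivity)]

theorem ν0_WJ (s : ℝ) : ∫ x, U s x ∂ν0 = ((2 * Real.pi : ℝ) : ℂ) * WJ s := by
  have hpi : ((2 * Real.pi : ℝ) : ℂ) ≠ 0 := by
    exact_mod_cast (by positivity : (2 * Real.pi : ℝ) ≠ 0)
  rw [ν0_int]
  unfold WJ
  rw [← mul_assoc, mul_inv_cancel₀ hpi, one_mul]

theorem ν0_WS (s : ℝ) : ∫ x, ((2 * Real.sin x) ^ 2 : ℝ) * U s x ∂ν0 =
    ((2 * Real.pi : ℝ) : ℂ) * WS s := by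
  have hpi : ((2 * Real.pi : ℝ) : ℂ) ≠ 0 := by
    exact_mod_cast (by positivity : (2 * Real.pi : ℝ) ≠ 0)
  rw [ν0_int]
  unfold WS
  rw [← mul_assoc, mul_inv_cancel₀ hpi, one_mul]

/-- the symbol of the lattice Laplacian -/
noncomputable def ep (k : Fin d → ℝ) : ℝ := ∑ i, 2 * Real.cos (k i)

theorem ep_cont : Continuous (ep (d := d)) := by
  unfold ep
  fun_prop

theorem exp_ep (s : ℝ) (k : Fin d → ℝ) :
    Complex.exp (Complex.I * ((s * ep k : ℝ) : ℂ)) = ∏ i, U s (k i) := by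
  unfold ep U
  rw [← Complex.exp_sum]
  congr 1
  push_cast
  rw [Finset.mul_sum, Finset.mul_sum]
  exact Finset.sum_congr rfl fun i _ => by ring

theorem int_one (s : ℝ) : ∫ k, ((1 : ℝ) : ℂ) * Complex.exp (Complex.I * ((s * ep k : ℝ) : ℂ))
    ∂(νd d) = ((2 * Real.pi : ℝ) : ℂ) ^ d * HJ d s := by
  simp only [exp_ep, Complex.ofReal_one, one_mul]
  unfold νd
  rw [integral_fintype_prod_eq_prod (f := fun _ x => U s x)]
  simp only [ν0_WJ]
  rw [Finset.prod_const, Finset.card_univ, Fintype.card_fin, mul_pow]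
  rfl

theorem int_sin (i : Fin d) (s : ℝ) : ∫ k, (((2 * Real.sin (k i)) ^ 2 : ℝ) : ℂ) *
    Complex.exp (Complex.I * ((s * ep k : ℝ) : ℂ)) ∂(νd d) =
      ((2 * Real.pi : ℝ) : ℂ) ^ d * HS d s := by
  have h1 : ∀ k : Fin d → ℝ, (((2 * Real.sin (k i)) ^ 2 : ℝ) : ℂ) *
      Complex.exp (Complex.I * ((s * ep k : ℝ) : ℂ)) =
      ∏ j, (if j = i then ((((2 * Real.sin (k j)) ^ 2 : ℝ) : ℂ) * U s (k j)) else U s (k j)) := by
    intro k
    rw [exp_ep, ← Finset.mul_prod_erase _ _ (Finset.mem_univ i),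
      ← Finset.mul_prod_erase (a := i) (f := fun j => if j = i then
        ((((2 * Real.sin (k j)) ^ 2 : ℝ) : ℂ) * U s (k j)) else U s (k j)) _ (Finset.mem_univ i),
      if_pos rfl, ← mul_assoc]
    congr 1
    refine Finset.prod_congr rfl fun j hj => ?_
    rw [if_neg (Finset.ne_of_mem_erase hj)]
  simp only [h1]
  unfold νd
  rw [integral_fintype_prod_eq_prod (f := fun j x => if j = i then
    ((((2 * Real.sin x) ^ 2 : ℝ) : ℂ) * U s x) else U s x),
    ← Finset.mul_prod_erase _ _ (Finset.mem_univ i)]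
  have h2 : ∫ x, (if i = i then ((((2 * Real.sin x) ^ 2 : ℝ) : ℂ) * U s x) else U s x) ∂ν0 =
      ((2 * Real.pi : ℝ) : ℂ) * WS s := by
    simp only [if_true]
    exact ν0_WS s
  have h3 : ∏ j ∈ Finset.univ.erase i, ∫ x, (if j = i then
      ((((2 * Real.sin x) ^ 2 : ℝ) : ℂ) * U s x) else U s x) ∂ν0 =
      (((2 * Real.pi : ℝ) : ℂ) * WJ s) ^ (d - 1) := by
    rw [Finset.prod_congr rfl (g := fun _ => ((2 * Real.pi : ℝ) : ℂ) * WJ s)]
    · rw [Finset.prod_const, Finset.card_erase_of_mem (Finset.mem_univ i), Finset.card_univ,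
        Fintype.card_fin]
    · intro j hj
      simp only [if_neg (Finset.ne_of_mem_erase hj)]
      exact ν0_WJ s
  rw [h2, h3, mul_pow]
  unfold HS
  have h4 : ((2 * Real.pi : ℝ) : ℂ) ^ d =
      ((2 * Real.pi : ℝ) : ℂ) * ((2 * Real.pi : ℝ) : ℂ) ^ (d - 1) := by
    have h5 : d = (d - 1) + 1 := by
      have := i.pos
      omega
    conv_lhs => rw [h5]
    rw [pow_succ]
    ring
  rw [h4]
  ring

/-- the time representation of the Poisson kernel -/
theorem pois_time {η : ℝ} (hη : 0 < η) (E x : ℝ) : η / ((x - E) ^ 2 + η ^ 2) =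
    (∫ s in Ioi (0 : ℝ), k1 ((E : ℂ) + (η : ℂ) * Complex.I) s *
      Complex.exp (Complex.I * ((s * x : ℝ) : ℂ))).re := by
  have hc : 0 < (Complex.I * (starRingEnd ℂ) ((E : ℂ) + (η : ℂ) * Complex.I) -
      Complex.I * x).re := by
    rw [cc_re]
    simpa using hη
  have h1 := lap1 hc
  simp only [cc_eq] at h1
  rw [h1, Complex.inv_re]
  have h2 : (Complex.I * (starRingEnd ℂ) ((E : ℂ) + (η : ℂ) * Complex.I) - Complex.I * x).re =
      η := by
    rw [cc_re]
    simp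
  have h3 : (Complex.I * (starRingEnd ℂ) ((E : ℂ) + (η : ℂ) * Complex.I) - Complex.I * x).im =
      E - x := by
    simp
  rw [Complex.normSq_apply, h2, h3]
  congr 1
  ring

/-- averaging the Poisson kernel -/
theorem avg_pois {W : (Fin d → ℝ) → ℝ} (hW : Continuous W) {B : ℝ} (hB : ∀ k, |W k| ≤ B)
    {H : ℝ → ℂ} (hH : ∀ s, ∫ k, ((W k : ℝ) : ℂ) * Complex.exp (Complex.I * ((s * ep k : ℝ) : ℂ))
      ∂(νd d) = ((2 * Real.pi : ℝ) : ℂ) ^ d * H s) {η : ℝ} (hη : 0 < η) (E : ℝ) :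
    ∫ k, W k * (η / ((ep k - E) ^ 2 + η ^ 2)) ∂(νd d) = (2 * Real.pi) ^ d *
      (∫ s in Ioi (0 : ℝ), k1 ((E : ℂ) + (η : ℂ) * Complex.I) s * H s).re := by
  obtain ⟨ζ, hζ⟩ : ∃ ζ : ℂ, ζ = (E : ℂ) + (η : ℂ) * Complex.I := ⟨_, rfl⟩
  have hζi : ζ.im = η := by rw [hζ]; simp
  rw [← hζ]
  have hep := ep_cont (d := d)
  have hint : Integrable (Function.uncurry fun (k : Fin d → ℝ) (s : ℝ) => k1 ζ s *
      (((W k : ℝ) : ℂ) * Complex.exp (Complex.I * ((s * ep k : ℝ) : ℂ))))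
      ((νd d).prod (volume.restrict (Ioi 0))) := by
    have hg : Integrable (fun p : (Fin d → ℝ) × ℝ => B * Real.exp (-η * p.2))
        ((νd d).prod (volume.restrict (Ioi 0))) :=
      (integrable_const (μ := νd d) B).mul_prod (exp_int hη)
    refine Integrable.mono' hg ?_ ?_
    · apply Continuous.aestronglyMeasurable
      have h1 := k1_cont ζ
      unfold Function.uncurry
      fun_prop
    · refine Filter.Eventually.of_forall fun p => ?_
      unfold Function.uncurry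
      simp only
      rw [norm_mul, norm_mul, k1_norm, mul_comm Complex.I, Complex.norm_exp_ofReal_mul_I, mul_one,
        Complex.norm_real, hζi, mul_comm]
      have h1 := hB p.1
      have h2 : -(η * p.2) = -η * p.2 := by ring
      rw [h2]
      exact mul_le_mul_of_nonneg_right h1 (Real.exp_pos _).le
  have hsw := integral_integral_swap hint
  have h1 : ∀ k : Fin d → ℝ, W k * (η / ((ep k - E) ^ 2 + η ^ 2)) =
      Complex.reCLM (∫ s in Ioi (0 : ℝ), k1 ζ s *
      (((W k : ℝ) : ℂ) * Complex.exp (Complex.I * ((s * ep k : ℝ) : ℂ)))) := by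
    intro k
    have h2 : ∀ s : ℝ, k1 ζ s * (((W k : ℝ) : ℂ) *
        Complex.exp (Complex.I * ((s * ep k : ℝ) : ℂ))) =
        ((W k : ℝ) : ℂ) * (k1 ζ s * Complex.exp (Complex.I * ((s * ep k : ℝ) : ℂ))) := fun s => by
      ring
    simp only [h2]
    rw [integral_const_mul, pois_time hη E (ep k), ← hζ, Complex.reCLM_apply,
      Complex.re_ofReal_mul]
  simp only [h1]
  refine (Complex.reCLM.integral_comp_comm hint.integral_prod_left).trans
    ((congrArg Complex.reCLM hsw).trans ?_)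
  rw [Complex.reCLM_apply]
  have h3 : ∀ s : ℝ, ∫ k, k1 ζ s * (((W k : ℝ) : ℂ) *
      Complex.exp (Complex.I * ((s * ep k : ℝ) : ℂ))) ∂(νd d) =
      (((2 * Real.pi) ^ d : ℝ) : ℂ) * (k1 ζ s * H s) := by
    intro s
    rw [integral_const_mul, hH]
    push_cast
    ring
  simp only [h3]
  rw [integral_const_mul, Complex.re_ofReal_mul]

theorem k1_lim {H : ℝ → ℂ} (hc : Continuous H)
    (hb : ∀ s, 0 ≤ s → ‖H s‖ ≤ 72 * (s + 1) ^ (-(3 / 2) : ℝ)) (E : ℝ) :
    Tendsto (fun η : ℝ => (∫ s in Ioi (0 : ℝ), k1 ((E : ℂ) + (η : ℂ) * Complex.I) s * H s).re)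
      (𝓝[>] 0) (𝓝 (∫ s in Ioi (0 : ℝ), k1 E s * H s).re) := by
  rw [tendsto_iff_norm_sub_tendsto_zero]
  have h1 : ∀ η : ℝ, 0 < η →
      ‖(∫ s in Ioi (0 : ℝ), k1 ((E : ℂ) + (η : ℂ) * Complex.I) s * H s).re -
        (∫ s in Ioi (0 : ℝ), k1 E s * H s).re‖ ≤ 3 * 72 * C54 * η ^ (1 / 4 : ℝ) := by
    intro η hη
    have hζ : 0 ≤ ((E : ℂ) + (η : ℂ) * Complex.I).im := by
      simp only [Complex.add_im, Complex.ofReal_im, Complex.mul_im, Complex.ofReal_re,
        Complex.I_im, mul_one, Complex.I_re, mul_zero, add_zero, zero_add]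
      exact hη.le
    have h2 := cmp2 (k1_cont ((E : ℂ) + (η : ℂ) * Complex.I)) (k1_cont E) hc
      (fun s hs => k1_le2 hζ hs) (fun s hs => k1_le2 (ζ := (E : ℂ)) (by simp) hs) hη.le hb
      (fun s hs => by
        have h3 := k1_diff hζ E hs
        have h4 : ‖((E : ℂ) + (η : ℂ) * Complex.I) - E‖ = η := by
          rw [add_sub_cancel_left, norm_mul, Complex.norm_I, mul_one, Complex.norm_real,
            Real.norm_of_nonneg hη.le]
        rw [h4] at h3
        have : 0 ≤ (s * η) ^ (1 / 4 : ℝ) := by positivity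
        linarith)
    refine le_trans ?_ h2
    rw [← Complex.sub_re, Real.norm_eq_abs]
    exact Complex.abs_re_le_norm _
  have h3 : Tendsto (fun η : ℝ => 3 * 72 * C54 * η ^ (1 / 4 : ℝ)) (𝓝[>] 0) (𝓝 0) := by
    have h4 : Tendsto (fun η : ℝ => 3 * 72 * C54 * η ^ (1 / 4 : ℝ)) (𝓝 0)
        (𝓝 (3 * 72 * C54 * 0 ^ (1 / 4 : ℝ))) :=
      ((Real.continuousAt_rpow_const _ _ (Or.inr (by norm_num))).tendsto).const_mul _
    rw [Real.zero_rpow (by norm_num), mul_zero] at h4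
    exact h4.mono_left nhdsWithin_le_nhds
  refine squeeze_zero' (Filter.Eventually.of_forall fun _ => norm_nonneg _) ?_ h3
  filter_upwards [self_mem_nhdsWithin] with η hη
  exact h1 η hη

/-- the density of states -/
theorem dos_lim (hd : 3 ≤ d) (E : ℝ) : Tendsto (fun η : ℝ =>
    ∫ k, η / ((ep k - E) ^ 2 + η ^ 2) ∂(νd d)) (𝓝[>] 0)
    (𝓝 ((2 * Real.pi) ^ d * (mJ d E).re)) := by
  have h1 := (k1_lim (HJ_cont d) (HJ_bd hd) E).const_mul ((2 * Real.pi) ^ d)
  refine h1.congr' ?_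
  filter_upwards [self_mem_nhdsWithin] with η hη
  rw [← avg_pois (W := fun _ => 1) continuous_const (B := 1) (fun _ => by simp) int_one hη E]
  simp only [one_mul]

/-- the velocity weighted density of states, one direction -/
theorem vel_lim (hd : 3 ≤ d) (i : Fin d) (E : ℝ) : Tendsto (fun η : ℝ =>
    ∫ k, (2 * Real.sin (k i)) ^ 2 * (η / ((ep k - E) ^ 2 + η ^ 2)) ∂(νd d)) (𝓝[>] 0)
    (𝓝 ((2 * Real.pi) ^ d * (mS d E).re)) := by
  have h1 := (k1_lim (HS_cont d) (HS_bd hd) E).const_mul ((2 * Real.pi) ^ d)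
  refine h1.congr' ?_
  filter_upwards [self_mem_nhdsWithin] with η hη
  rw [← avg_pois (W := fun k => (2 * Real.sin (k i)) ^ 2) (by fun_prop) (B := 4) (fun k => by
    rw [abs_of_nonneg (sq_nonneg _)]
    nlinarith [Real.sin_sq_add_cos_sq (k i), sq_nonneg (Real.cos (k i))]) (int_sin i) hη E]

end Pool.Agent.Run7.h47
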