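import Pool.Agent.Run7.h47.Zm
import Pool.Agent.Run7.h47.Pos

/-! Eigenvectors on the torus. -/

set_option autoImplicit false
set_option linter.unusedSectionVars false

open scoped BigOperators Matrix Topology
open MeasureTheory ProbabilityTheory

namespace Pool.Agent.Run7.h47

open Pool.Agent.W788.MFP.Four Pool.Agent.W788.BK
open Pool.Agent.W788.MFP.Gm (Γ)

variable {d L : ℕ} [NeZero L]

/-- Bessel's inequality for a finite orthonormal family -/
theorem bessel {ι : Type} [Fintype ι] {u : ι → EuclideanSpace ℂ (T d L)} (hu : Orthonormal ℂ u)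
    (b : T d L → ℂ) : ∑ j, ‖∑ x, b x * u j x‖ ^ 2 ≤ ∑ x, ‖b x‖ ^ 2 := by
  obtain ⟨w, hw⟩ : ∃ w : EuclideanSpace ℂ (T d L), ∀ x, w x = (starRingEnd ℂ) (b x) :=
    ⟨WithLp.toLp 2 fun x => (starRingEnd ℂ) (b x), fun x => rfl⟩
  have h1 := hu.sum_inner_products_le w (s := Finset.univ)
  have h2 : ∀ j, ‖inner ℂ (u j) w‖ = ‖∑ x, b x * u j x‖ := by
    intro j
    have h4 : (starRingEnd ℂ) (inner ℂ (u j) w) = ∑ x, b x * u j x := by
      rw [PiLp.inner_apply, map_sum]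
      refine Finset.sum_congr rfl fun x _ => ?_
      rw [hw, RCLike.inner_apply, map_mul, Complex.conj_conj, Complex.conj_conj]
    rw [← h4, RCLike.norm_conj]
  have h3 : ‖w‖ ^ 2 = ∑ x, ‖b x‖ ^ 2 := by
    rw [EuclideanSpace.norm_sq_eq]
    refine Finset.sum_congr rfl fun x _ => ?_
    rw [hw, RCLike.norm_conj]
  simp only [h2, h3] at h1
  exact h1

theorem on_norm {ι : Type} {u : ι → EuclideanSpace ℂ (T d L)} (hu : Orthonormal ℂ u) (j : ι) :
    ∑ x, ‖u j x‖ ^ 2 = 1 := by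
  rw [← EuclideanSpace.norm_sq_eq, hu.1 j, one_pow]

/-- an eigenvector -/
def IsEig (σ lam : ℝ) (V : T d L → ℝ) (u : T d L → ℂ) : Prop :=
  ∀ x, ∑ i, (u (x + Pi.single i 1) + u (x - Pi.single i 1)) + σ * V x * u x = lam * u x

theorem eig_conj {σ lam : ℝ} {V : T d L → ℝ} {u : T d L → ℂ} (h : IsEig σ lam V u) :
    IsEig σ lam V fun x => (starRingEnd ℂ) (u x) := by
  intro x
  have h1 := congrArg (starRingEnd ℂ) (h x)
  simp only [map_add, map_mul, map_sum, Complex.conj_ofReal] at h1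
  exact h1

theorem eig_R {σ lam E t : ℝ} (ht : 0 < t) {V : T d L → ℝ} {u : T d L → ℂ}
    (h : IsEig σ lam V u) (x : T d L) :
    ∑ y, R σ E t V x y * u y = ((lam - E : ℝ) - (t : ℂ) * Complex.I)⁻¹ * u x := by
  obtain ⟨c, hc⟩ : ∃ c : ℂ, c = (lam - E : ℝ) - (t : ℂ) * Complex.I := ⟨_, rfl⟩
  have hc0 : c ≠ 0 := by
    intro h0
    rw [hc] at h0
    have := congrArg Complex.im h0
    simp at this
    linarith
  rw [← hc]
  have h1 : HZ σ E t V *ᵥ u = c • u := by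
    funext x
    rw [HZ_mulVec, h x, Pi.smul_apply, smul_eq_mul, hc]
    push_cast
    ring
  have h2 : R σ E t V *ᵥ (HZ σ E t V *ᵥ u) = u := by
    rw [Matrix.mulVec_mulVec, mul_HZ ht, Matrix.one_mulVec]
  rw [h1, Matrix.mulVec_smul] at h2
  have h3 := congrFun h2 x
  rw [Pi.smul_apply, smul_eq_mul] at h3
  have h4 : (R σ E t V *ᵥ u) x = ∑ y, R σ E t V x y * u y := rfl
  rw [h4] at h3
  rw [← h3, ← mul_assoc, inv_mul_cancel₀ hc0, one_mul]

/-- the weight of an energy -/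
noncomputable def fw (E t lam : ℝ) : ℝ := t / ((lam - E) ^ 2 + t ^ 2)

theorem fw_norm {E t lam : ℝ} :
    t * ‖((lam - E : ℝ) - (t : ℂ) * Complex.I)⁻¹‖ ^ 2 = fw E t lam := by
  unfold fw
  rw [norm_inv, inv_pow, ← Complex.normSq_eq_norm_sq, Complex.normSq_apply]
  simp only [Complex.sub_re, Complex.ofReal_re, Complex.mul_re, Complex.I_re, mul_zero,
    Complex.ofReal_im, Complex.I_im, mul_one, sub_zero, Complex.sub_im, Complex.mul_im, add_zero,
    zero_sub]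
  rw [div_eq_mul_inv]
  congr 2
  ring

theorem fw_ge {E t lam : ℝ} (ht : 0 < t) (h : |lam - E| ≤ t) : 1 / (2 * t) ≤ fw E t lam := by
  unfold fw
  have h1 : (lam - E) ^ 2 ≤ t ^ 2 := by
    rw [← sq_abs]
    exact pow_le_pow_left₀ (abs_nonneg _) h 2
  rw [div_le_div_iff₀ (by positivity) (by positivity)]
  nlinarith

/-- the form of `R A R*` in an eigenvector -/
theorem form_eig {σ lam E t : ℝ} (ht : 0 < t) {V : T d L → ℝ} {u : T d L → ℂ}
    (h : IsEig σ lam V u) (q : T d L) :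
    (t : ℂ) * ∑ a, ∑ b, (starRingEnd ℂ) (u a) * Fm σ E t q V a b * u b =
      ((fw E t lam : ℝ) : ℂ) * ∑ w, e q w * ((‖u w‖ ^ 2 : ℝ) : ℂ) := by
  obtain ⟨c, hc⟩ : ∃ c : ℂ, c = ((lam - E : ℝ) - (t : ℂ) * Complex.I)⁻¹ := ⟨_, rfl⟩
  have h1 : ∀ w, ∑ a, (starRingEnd ℂ) (u a) * R σ E t V a w = c * (starRingEnd ℂ) (u w) := by
    intro w
    rw [hc, ← eig_R ht (eig_conj h) w]
    exact Finset.sum_congr rfl fun a _ => by rw [R_symm, mul_comm]
  have h2 : ∀ w, ∑ b, (starRingEnd ℂ) (R σ E t V b w) * u b = (starRingEnd ℂ) c * u w := by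
    intro w
    have h3 := congrArg (starRingEnd ℂ) (h1 w)
    simp only [map_sum, map_mul, Complex.conj_conj] at h3
    rw [← h3]
    exact Finset.sum_congr rfl fun b _ => by ring
  have h3 : ∑ a, ∑ b, (starRingEnd ℂ) (u a) * Fm σ E t q V a b * u b =
      ∑ w, e q w * ((∑ a, (starRingEnd ℂ) (u a) * R σ E t V a w) *
        ∑ b, (starRingEnd ℂ) (R σ E t V b w) * u b) := by
    have e1 : ∀ a b, (starRingEnd ℂ) (u a) * Fm σ E t q V a b * u b =
        ∑ w, e q w * (((starRingEnd ℂ) (u a) * R σ E t V a w) *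
          ((starRingEnd ℂ) (R σ E t V b w) * u b)) := by
      intro a b
      unfold Fm
      rw [Finset.mul_sum, Finset.sum_mul]
      exact Finset.sum_congr rfl fun w _ => by ring
    simp only [e1]
    rw [Finset.sum_congr rfl fun a _ => Finset.sum_comm, Finset.sum_comm]
    refine Finset.sum_congr rfl fun w _ => ?_
    rw [Finset.sum_mul_sum, Finset.mul_sum]
    refine Finset.sum_congr rfl fun a _ => ?_
    rw [Finset.mul_sum]
  rw [h3]
  simp only [h1, h2]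
  rw [Finset.mul_sum, Finset.mul_sum]
  refine Finset.sum_congr rfl fun w _ => ?_
  have h4 : (c * (starRingEnd ℂ) (u w)) * ((starRingEnd ℂ) c * u w) =
      ((‖c‖ ^ 2 : ℝ) : ℂ) * ((‖u w‖ ^ 2 : ℝ) : ℂ) := by
    have e1 := Complex.mul_conj c
    have e2 := Complex.mul_conj (u w)
    rw [Complex.normSq_eq_norm_sq] at e1 e2
    rw [← e1, ← e2]
    ring
  rw [h4, ← fw_norm, ← hc]
  push_cast
  ring

/-- the Ward identity for matrices -/
theorem ward2 {σ E t : ℝ} (ht : 0 < t) (V : T d L → ℝ) (w w' : T d L) :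
    (t : ℂ) * ∑ a, (starRingEnd ℂ) (R σ E t V a w) * R σ E t V a w' =
      (((R σ E t V w w').im : ℝ) : ℂ) := by
  obtain ⟨G, hG⟩ : ∃ G, G = R σ E t V := ⟨_, rfl⟩
  obtain ⟨Z, hZ⟩ : ∃ Z, Z = HZ σ E t V := ⟨_, rfl⟩
  have h1 : Z * G = 1 := by rw [hZ, hG]; exact HZ_mul ht V
  have h2 : Z.conjTranspose = Z + (2 * (t : ℂ) * Complex.I) • 1 := by
    rw [hZ]
    unfold HZ
    rw [Matrix.conjTranspose_sub, Matrix.conjTranspose_add, (X0_herm E).eq,
      Matrix.diagonal_conjTranspose, Matrix.conjTranspose_smul, Matrix.conjTranspose_one]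
    have h3 : (star fun x => (σ : ℂ) * (V x : ℂ)) = fun x => (σ : ℂ) * (V x : ℂ) := by
      funext x
      simp [Complex.conj_ofReal]
    have h4 : star ((t : ℂ) * Complex.I) = -((t : ℂ) * Complex.I) := by
      simp
    rw [h3, h4]
    ext x y
    simp only [Matrix.sub_apply, Matrix.add_apply, Matrix.smul_apply, smul_eq_mul]
    ring
  have h5 : G.conjTranspose * Z.conjTranspose = 1 := by
    rw [← Matrix.conjTranspose_mul, h1, Matrix.conjTranspose_one]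
  have h6 : G = G.conjTranspose + (2 * (t : ℂ) * Complex.I) • (G.conjTranspose * G) := by
    calc G = (G.conjTranspose * Z.conjTranspose) * G := by rw [h5, one_mul]
      _ = G.conjTranspose * (Z * G) + (2 * (t : ℂ) * Complex.I) • (G.conjTranspose * G) := by
          rw [h2, mul_add, add_mul, mul_assoc, mul_smul_comm, mul_one, smul_mul_assoc]
      _ = _ := by rw [h1, mul_one]
  have h7 := congrFun (congrFun h6 w) w'
  rw [Matrix.add_apply, Matrix.smul_apply, Matrix.mul_apply, Matrix.conjTranspose_apply,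
    smul_eq_mul] at h7
  simp only [Matrix.conjTranspose_apply, RCLike.star_def] at h7
  have h8 : G w' w = G w w' := by rw [hG]; exact R_symm σ E t V w' w
  rw [h8] at h7
  rw [← hG]
  have h9 : G w w' - (starRingEnd ℂ) (G w w') = 2 * Complex.I * ((G w w').im : ℂ) := by
    rw [Complex.sub_conj]
    push_cast
    ring
  have h10 : 2 * Complex.I * ((t : ℂ) * ∑ a, (starRingEnd ℂ) (G a w) * G a w') =
      2 * Complex.I * ((G w w').im : ℂ) := by
    rw [← h9]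
    linear_combination -h7
  exact mul_left_cancel₀ (mul_ne_zero two_ne_zero Complex.I_ne_zero) h10

/-- the Hilbert-Schmidt norm of `R A R*` -/
theorem hs_F {σ E t : ℝ} (ht : 0 < t) (V : T d L → ℝ) (q : T d L) :
    ((∑ a, ∑ b, ‖(t : ℂ) * Fm σ E t q V a b‖ ^ 2 : ℝ) : ℂ) =
      ∑ w, ∑ w', e q (w - w') * (((R σ E t V w w').im ^ 2 : ℝ) : ℂ) := by
  have h0 : ∀ z : ℂ, ((‖z‖ ^ 2 : ℝ) : ℂ) = z * (starRingEnd ℂ) z := fun z => by
    rw [Complex.mul_conj, Complex.normSq_eq_norm_sq]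
  have h1 : ∀ a b, ((‖(t : ℂ) * Fm σ E t q V a b‖ ^ 2 : ℝ) : ℂ) =
      ∑ w, ∑ w', e q (w - w') * (((t : ℂ) * ((starRingEnd ℂ) (R σ E t V a w') * R σ E t V a w)) *
        ((t : ℂ) * ((starRingEnd ℂ) (R σ E t V b w) * R σ E t V b w'))) := by
    intro a b
    rw [h0]
    unfold Fm
    rw [map_mul, map_sum, Complex.conj_ofReal]
    have e1 : (t : ℂ) * (∑ w, R σ E t V a w * e q w * (starRingEnd ℂ) (R σ E t V b w)) *
        ((t : ℂ) * ∑ w', (starRingEnd ℂ) (R σ E t V a w' * e q w' *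
          (starRingEnd ℂ) (R σ E t V b w'))) =
        ((t : ℂ) * (t : ℂ)) * ((∑ w, R σ E t V a w * e q w * (starRingEnd ℂ) (R σ E t V b w)) *
        ∑ w', (starRingEnd ℂ) (R σ E t V a w' * e q w' *
          (starRingEnd ℂ) (R σ E t V b w'))) := by ring
    rw [e1, Finset.sum_mul_sum, Finset.mul_sum]
    refine Finset.sum_congr rfl fun w _ => ?_
    rw [Finset.mul_sum]
    refine Finset.sum_congr rfl fun w' _ => ?_
    rw [map_mul, map_mul, Complex.conj_conj, sub_eq_add_neg, e_add, e_neg]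
    ring
  have h2 : ∀ a, ∑ b, ∑ w, ∑ w', e q (w - w') *
      (((t : ℂ) * ((starRingEnd ℂ) (R σ E t V a w') * R σ E t V a w)) *
        ((t : ℂ) * ((starRingEnd ℂ) (R σ E t V b w) * R σ E t V b w'))) =
      ∑ w, ∑ w', e q (w - w') * (((t : ℂ) * ((starRingEnd ℂ) (R σ E t V a w') * R σ E t V a w)) *
        (((R σ E t V w w').im : ℝ) : ℂ)) := by
    intro a
    rw [Finset.sum_comm]
    refine Finset.sum_congr rfl fun w _ => ?_
    rw [Finset.sum_comm]
    refine Finset.sum_congr rfl fun w' _ => ?_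
    rw [← Finset.mul_sum, ← Finset.mul_sum, ← Finset.mul_sum, ward2 ht V w w']
  rw [Complex.ofReal_sum]
  have h3 : ∀ a, ((∑ b, ‖(t : ℂ) * Fm σ E t q V a b‖ ^ 2 : ℝ) : ℂ) =
      ∑ w, ∑ w', e q (w - w') * (((t : ℂ) * ((starRingEnd ℂ) (R σ E t V a w') * R σ E t V a w)) *
        (((R σ E t V w w').im : ℝ) : ℂ)) := by
    intro a
    rw [Complex.ofReal_sum, ← h2 a]
    exact Finset.sum_congr rfl fun b _ => h1 a b
  rw [Finset.sum_congr rfl fun a _ => h3 a, Finset.sum_comm]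
  refine Finset.sum_congr rfl fun w _ => ?_
  rw [Finset.sum_comm]
  refine Finset.sum_congr rfl fun w' _ => ?_
  rw [← Finset.mul_sum, ← Finset.sum_mul, ← Finset.mul_sum, ward2 ht V w' w, R_symm σ E t V w' w]
  push_cast
  ring

/-- **the quadratic inequality for eigenvectors** -/
theorem eig_sum {σ E t : ℝ} (ht : 0 < t) (V : T d L → ℝ) (q : T d L) {ι : Type} [Fintype ι]
    {u : ι → EuclideanSpace ℂ (T d L)} (hu : Orthonormal ℂ u) {lam : ι → ℝ}
    (h : ∀ j, IsEig σ (lam j) V (u j)) :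
    ∑ j, fw E t (lam j) ^ 2 * ‖∑ w, e q w * ((‖u j w‖ ^ 2 : ℝ) : ℂ)‖ ^ 2 ≤
      ∑ a, ∑ b, ‖(t : ℂ) * Fm σ E t q V a b‖ ^ 2 := by
  have h1 : ∀ j, fw E t (lam j) ^ 2 * ‖∑ w, e q w * ((‖u j w‖ ^ 2 : ℝ) : ℂ)‖ ^ 2 ≤
      ∑ a, ‖∑ b, ((t : ℂ) * Fm σ E t q V a b) * u j b‖ ^ 2 := by
    intro j
    have h2 := form_eig (E := E) ht (h j) q
    have h3 : (t : ℂ) * ∑ a, ∑ b, (starRingEnd ℂ) (u j a) * Fm σ E t q V a b * u j b =
        ∑ a, (starRingEnd ℂ) (u j a) * ∑ b, ((t : ℂ) * Fm σ E t q V a b) * u j b := by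
      rw [Finset.mul_sum]
      refine Finset.sum_congr rfl fun a _ => ?_
      rw [Finset.mul_sum, Finset.mul_sum]
      exact Finset.sum_congr rfl fun b _ => by ring
    rw [h3] at h2
    have h4 : fw E t (lam j) ^ 2 * ‖∑ w, e q w * ((‖u j w‖ ^ 2 : ℝ) : ℂ)‖ ^ 2 =
        ‖∑ a, (starRingEnd ℂ) (u j a) * ∑ b, ((t : ℂ) * Fm σ E t q V a b) * u j b‖ ^ 2 := by
      rw [h2, norm_mul, mul_pow, Complex.norm_real, Real.norm_eq_abs, sq_abs]
    rw [h4]
    have h5 : ‖∑ a, (starRingEnd ℂ) (u j a) * ∑ b, ((t : ℂ) * Fm σ E t q V a b) * u j b‖ ≤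
        ∑ a, ‖u j a‖ * ‖∑ b, ((t : ℂ) * Fm σ E t q V a b) * u j b‖ := by
      refine (norm_sum_le _ _).trans (Finset.sum_le_sum fun a _ => ?_)
      rw [norm_mul, RCLike.norm_conj]
    calc ‖∑ a, (starRingEnd ℂ) (u j a) * ∑ b, ((t : ℂ) * Fm σ E t q V a b) * u j b‖ ^ 2 ≤
        (∑ a, ‖u j a‖ * ‖∑ b, ((t : ℂ) * Fm σ E t q V a b) * u j b‖) ^ 2 :=
          pow_le_pow_left₀ (norm_nonneg _) h5 2
      _ ≤ (∑ a, ‖u j a‖ ^ 2) * ∑ a, ‖∑ b, ((t : ℂ) * Fm σ E t q V a b) * u j b‖ ^ 2 :=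
          Finset.sum_mul_sq_le_sq_mul_sq _ _ _
      _ = _ := by rw [on_norm hu j, one_mul]
  refine (Finset.sum_le_sum fun j _ => h1 j).trans ?_
  rw [Finset.sum_comm]
  exact Finset.sum_le_sum fun a _ => bessel hu _

end Pool.Agent.Run7.h47
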