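import Pool.Agent.Run7.h47.Res

/-! Complex Fourier series on the torus and the free resolvent. -/

set_option autoImplicit false
set_option linter.unusedSectionVars false

open scoped BigOperators Matrix
open MeasureTheory

namespace Pool.Agent.Run7.h47

open Pool.Agent.W788.MFP.Four Pool.Agent.W788.BK

variable {d L : ℕ} [NeZero L]

/-- Fourier coefficients -/
noncomputable def fc (f : T d L → ℂ) (k : T d L) : ℂ := ∑ x, f x * e k x

/-- the kernel with symbol `m` -/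
noncomputable def Kc (m : T d L → ℂ) (x : T d L) : ℂ := (NN d L : ℂ)⁻¹ * ∑ k, m k * e k x

theorem NNc_ne : (NN d L : ℂ) ≠ 0 := by exact_mod_cast (NN_pos (d := d) (L := L)).ne'

theorem norm_e (k x : T d L) : ‖e k x‖ = 1 := by
  have h := congrArg (fun z : ℂ => ‖z‖) (e_normSq k x)
  simp only [norm_mul, RCLike.norm_conj, norm_one] at h
  have h2 := norm_nonneg (e k x)
  nlinarith

theorem sum_e' (x : T d L) : ∑ k, e x k = if x = 0 then (NN d L : ℂ) else 0 := by
  rw [Finset.sum_congr rfl fun k _ => e_comm x k]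
  exact sum_e x

theorem parseval (f g : T d L → ℂ) :
    ∑ x, f x * (starRingEnd ℂ) (g x) =
      (NN d L : ℂ)⁻¹ * ∑ k, fc f k * (starRingEnd ℂ) (fc g k) := by
  have h2 : ∀ k, fc f k * (starRingEnd ℂ) (fc g k) =
      ∑ x, ∑ y, f x * (starRingEnd ℂ) (g y) * e k (x - y) := by
    intro k
    unfold fc
    rw [map_sum, Finset.sum_mul_sum]
    refine Finset.sum_congr rfl fun x _ => Finset.sum_congr rfl fun y _ => ?_
    rw [map_mul, ← e_neg, sub_eq_add_neg, e_add]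
    ring
  simp only [h2]
  rw [Finset.sum_comm]
  have h3 : ∀ x, ∑ k, ∑ y, f x * (starRingEnd ℂ) (g y) * e k (x - y) =
      (NN d L : ℂ) * (f x * (starRingEnd ℂ) (g x)) := by
    intro x
    rw [Finset.sum_comm]
    have h4 : ∀ y, ∑ k, f x * (starRingEnd ℂ) (g y) * e k (x - y) =
        f x * (starRingEnd ℂ) (g y) * (if x - y = 0 then (NN d L : ℂ) else 0) := by
      intro y
      rw [← Finset.mul_sum, sum_e]
    simp only [h4]
    rw [Finset.sum_eq_single x]
    · simp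
      ring
    · intro y _ hy
      rw [if_neg (sub_ne_zero.2 hy.symm), mul_zero]
    · intro h
      exact absurd (Finset.mem_univ x) h
  simp only [h3]
  rw [← Finset.mul_sum, ← mul_assoc, inv_mul_cancel₀ NNc_ne, one_mul]

theorem parseval_sq (f : T d L → ℂ) :
    ∑ x, ‖f x‖ ^ 2 = (NN d L)⁻¹ * ∑ k, ‖fc f k‖ ^ 2 := by
  have h := parseval f f
  have h1 : ∀ z : ℂ, z * (starRingEnd ℂ) z = ((‖z‖ ^ 2 : ℝ) : ℂ) := fun z => by
    rw [Complex.mul_conj, Complex.normSq_eq_norm_sq]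
  simp only [h1] at h
  exact_mod_cast h

theorem fc_Kc (m : T d L → ℂ) (k : T d L) : fc (Kc m) k = m (-k) := by
  unfold fc Kc
  have h1 : ∀ x, (NN d L : ℂ)⁻¹ * (∑ l, m l * e l x) * e k x =
      (NN d L : ℂ)⁻¹ * ∑ l, m l * e (l + k) x := by
    intro x
    rw [mul_assoc, Finset.sum_mul]
    congr 1
    refine Finset.sum_congr rfl fun l _ => ?_
    rw [e_add_left]
    ring
  simp only [h1]
  rw [← Finset.mul_sum, Finset.sum_comm]
  have h2 : ∀ l, ∑ x, m l * e (l + k) x = m l * (if l + k = 0 then (NN d L : ℂ) else 0) := by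
    intro l
    rw [← Finset.mul_sum, sum_e']
  simp only [h2]
  rw [Finset.sum_eq_single (-k)]
  · rw [if_pos (neg_add_cancel k), mul_comm (m (-k)), ← mul_assoc, inv_mul_cancel₀ NNc_ne, one_mul]
  · intro l _ hl
    rw [if_neg (fun h => hl (eq_neg_of_add_eq_zero_left h)), mul_zero]
  · intro h
    exact absurd (Finset.mem_univ _) h

theorem fc_inj (f g : T d L → ℂ) (h : ∀ k, fc f k = fc g k) : f = g := by
  have h1 := parseval_sq (fun x => f x - g x)
  have h2 : ∀ k, fc (fun x => f x - g x) k = 0 := by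
    intro k
    have h3 : fc (fun x => f x - g x) k = fc f k - fc g k := by
      unfold fc
      rw [← Finset.sum_sub_distrib]
      exact Finset.sum_congr rfl fun x _ => by ring
    rw [h3, h k, sub_self]
  simp only [h2] at h1
  simp only [norm_zero] at h1
  rw [Finset.sum_congr rfl fun k _ => zero_pow two_ne_zero, Finset.sum_const_zero, mul_zero] at h1
  funext x
  have h4 := (Finset.sum_eq_zero_iff_of_nonneg (fun x _ => by positivity)).1 h1 x
    (Finset.mem_univ x)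
  have h5 : ‖f x - g x‖ = 0 := by simpa using h4
  exact sub_eq_zero.1 (norm_eq_zero.1 h5)

theorem fc_conv (a f : T d L → ℂ) (k : T d L) :
    fc (fun x => ∑ y, a (x - y) * f y) k = fc a k * fc f k := by
  have h1 : fc (fun x => ∑ y, a (x - y) * f y) k =
      ∑ y, f y * e k y * ∑ x, a (x - y) * e k (x - y) := by
    unfold fc
    simp only [Finset.sum_mul, Finset.mul_sum]
    rw [Finset.sum_comm]
    refine Finset.sum_congr rfl fun y _ => Finset.sum_congr rfl fun x _ => ?_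
    have : e k x = e k (x - y) * e k y := by rw [← e_add, sub_add_cancel]
    rw [this]
    ring
  rw [h1]
  have h2 : ∀ y, ∑ x, a (x - y) * e k (x - y) = fc a k := fun y =>
    Equiv.sum_comp (Equiv.subRight y) (fun x => a x * e k x)
  simp only [h2]
  unfold fc
  rw [Finset.mul_sum]
  exact Finset.sum_congr rfl fun x _ => by ring

theorem Kc_conv (m n : T d L → ℂ) (x y : T d L) :
    ∑ z, Kc m (x - z) * Kc n (z - y) = Kc (fun k => m k * n k) (x - y) := by
  have h1 : (fun x => ∑ z, Kc m (x - z) * Kc n z) = Kc (fun k => m k * n k) := by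
    apply fc_inj
    intro k
    rw [fc_conv, fc_Kc, fc_Kc, fc_Kc]
  have h2 : ∑ z, Kc m (x - z) * Kc n (z - y) = ∑ z, Kc m ((x - y) - z) * Kc n z := by
    rw [← Equiv.sum_comp (Equiv.subRight y) (fun z => Kc m ((x - y) - z) * Kc n z)]
    refine Finset.sum_congr rfl fun z _ => ?_
    have e1 : (Equiv.subRight y) z = z - y := rfl
    have e2 : x - y - (z - y) = x - z := by abel
    simp only [e1, e2]
  rw [h2]
  exact congrFun h1 (x - y)

theorem Kc_neg (m : T d L → ℂ) (hm : ∀ k, m (-k) = m k) (x : T d L) : Kc m (-x) = Kc m x := by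
  unfold Kc
  congr 1
  rw [← Equiv.sum_comp (Equiv.neg _) (fun k => m k * e k (-x))]
  refine Finset.sum_congr rfl fun k _ => ?_
  rw [Equiv.neg_apply, hm, e_neg_left, e_neg, Complex.conj_conj]

theorem K_eq_Kc (m : T d L → ℝ) (hm : ∀ k, m (-k) = m k) (x : T d L) :
    ((K m x : ℝ) : ℂ) = Kc (fun k => (m k : ℂ)) x := by
  have h1 := Kc_neg (fun k => (m k : ℂ)) (fun k => by simp only [hm]) x
  have h2 : Kc (fun k => (m k : ℂ)) (-x) = (starRingEnd ℂ) (Kc (fun k => (m k : ℂ)) x) := by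
    unfold Kc
    rw [map_mul, map_inv₀, Complex.conj_ofReal, map_sum]
    congr 1
    refine Finset.sum_congr rfl fun k _ => ?_
    rw [map_mul, Complex.conj_ofReal, e_neg]
  have h3 : (Kc (fun k => (m k : ℂ)) x).im = 0 := by
    rw [h1] at h2
    exact Complex.conj_eq_iff_im.1 h2.symm
  apply Complex.ext
  · rw [Complex.ofReal_re]
    unfold K Kc
    rw [← Complex.ofReal_inv, Complex.re_ofReal_mul, Complex.re_sum]
    congr 1
    exact Finset.sum_congr rfl fun k _ => by rw [Complex.re_ofReal_mul]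
  · rw [Complex.ofReal_im, h3]

/-- the symbol of the free resolvent -/
noncomputable def gs (ζ : ℂ) (k : T d L) : ℂ := ((adj k : ℂ) - ζ)⁻¹

/-- the free resolvent -/
noncomputable def GG (ζ : ℂ) : Matrix (T d L) (T d L) ℂ := Matrix.of fun x y => Kc (gs ζ) (x - y)

theorem gs_neg (ζ : ℂ) (k : T d L) : gs ζ (-k) = gs ζ k := by
  unfold gs
  rw [adj_neg]

theorem sub_ne {ζ : ℂ} (hζ : 0 < ζ.im) (a : ℝ) : (a : ℂ) - ζ ≠ 0 := by
  intro h
  have := congrArg Complex.im h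
  simp at this
  linarith

theorem X0_GG {ζ : ℂ} (E : ℝ) (hζ : 0 < ζ.im) :
    (X0 E - (ζ - E) • (1 : Matrix (T d L) (T d L) ℂ)) * GG ζ = 1 := by
  ext x y
  rw [sub_mul, Matrix.sub_apply, smul_mul_assoc, one_mul, Matrix.mul_apply]
  have h1 : ∀ z, X0 E x z * GG ζ z y =
      Kc (fun k : T d L => ((adj k - E : ℝ) : ℂ)) (x - z) * Kc (gs ζ) (z - y) := by
    intro z
    unfold X0 GG
    rw [Matrix.of_apply, Matrix.of_apply, K_eq_Kc _ fun k => by rw [adj_neg]]
  simp only [h1]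
  rw [Kc_conv]
  unfold GG
  rw [Matrix.smul_apply, Matrix.of_apply, smul_eq_mul]
  unfold Kc
  have h2 : (NN d L : ℂ)⁻¹ * ∑ k, ((adj k - E : ℝ) : ℂ) * gs ζ k * e k (x - y) -
      (ζ - E) * ((NN d L : ℂ)⁻¹ * ∑ k, gs ζ k * e k (x - y)) =
      (NN d L : ℂ)⁻¹ * ∑ k, e k (x - y) := by
    rw [mul_left_comm (ζ - (E : ℂ)), ← mul_sub]
    congr 1
    rw [Finset.mul_sum, ← Finset.sum_sub_distrib]
    refine Finset.sum_congr rfl fun k _ => ?_
    have h3 : ((adj k : ℂ) - ζ) * gs ζ k = 1 := mul_inv_cancel₀ (sub_ne hζ _)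
    push_cast
    linear_combination (e k (x - y)) * h3
  rw [h2, sum_e]
  by_cases hxy : x = y
  · subst hxy
    rw [sub_self, if_pos rfl, inv_mul_cancel₀ NNc_ne, Matrix.one_apply_eq]
  · rw [if_neg (sub_ne_zero.2 hxy), mul_zero, Matrix.one_apply_ne hxy]

theorem GG_X0 {ζ : ℂ} (E : ℝ) (hζ : 0 < ζ.im) :
    GG ζ * (X0 E - (ζ - E) • (1 : Matrix (T d L) (T d L) ℂ)) = 1 :=
  mul_eq_one_comm.1 (X0_GG E hζ)

theorem GG_symm (ζ : ℂ) (x y : T d L) : GG ζ x y = GG ζ y x := by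
  unfold GG
  rw [Matrix.of_apply, Matrix.of_apply, ← neg_sub, Kc_neg _ (gs_neg ζ)]

theorem GG_row (ζ : ℂ) (x : T d L) : GG ζ 0 x = Kc (gs ζ) x := by
  rw [GG_symm]
  unfold GG
  rw [Matrix.of_apply, sub_zero]

theorem fc_GG (ζ : ℂ) (k : T d L) : fc (fun x => GG ζ 0 x) k = gs ζ k := by
  simp only [GG_row]
  rw [fc_Kc, gs_neg]

theorem fc_mul_e (f : T d L → ℂ) (p k : T d L) :
    fc (fun x => f x * e p x) k = fc f (k + p) := by
  unfold fc
  refine Finset.sum_congr rfl fun x _ => ?_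
  rw [e_add_left]
  ring

theorem fc_conj (f : T d L → ℂ) (k : T d L) :
    fc (fun x => (starRingEnd ℂ) (f x)) k = (starRingEnd ℂ) (fc f (-k)) := by
  unfold fc
  rw [map_sum]
  refine Finset.sum_congr rfl fun x _ => ?_
  rw [map_mul, e_neg_left, Complex.conj_conj]

theorem gs_im (ζ : ℂ) (hζ : 0 < ζ.im) (k : T d L) : (gs ζ k).im = ζ.im * ‖gs ζ k‖ ^ 2 := by
  unfold gs
  rw [Complex.inv_im, norm_inv, inv_pow, ← Complex.normSq_eq_norm_sq]
  simp
  ring

theorem gs_le {ζ : ℂ} (hζ : 0 < ζ.im) (k : T d L) : ‖gs ζ k‖ ≤ (ζ.im)⁻¹ := by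
  unfold gs
  rw [norm_inv]
  apply inv_anti₀ hζ
  have h := Complex.abs_im_le_norm ((adj k : ℂ) - ζ)
  simp only [Complex.sub_im, Complex.ofReal_im, zero_sub, abs_neg] at h
  exact (le_abs_self _).trans h

theorem GG_00 (ζ : ℂ) : GG ζ (0 : T d L) 0 = (NN d L : ℂ)⁻¹ * ∑ k : T d L, gs ζ k := by
  rw [GG_row]
  unfold Kc
  simp only [e_zero, mul_one]

theorem g2_eq {ζ : ℂ} (hζ : 0 < ζ.im) :
    ∑ x : T d L, ‖GG ζ 0 x‖ ^ 2 = (GG ζ (0 : T d L) 0).im / ζ.im := by
  rw [parseval_sq]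
  simp only [fc_GG]
  rw [GG_00, ← Complex.ofReal_inv, Complex.im_ofReal_mul, Complex.im_sum]
  have h1 : ∀ k : T d L, (gs ζ k).im = ζ.im * ‖gs ζ k‖ ^ 2 := gs_im ζ hζ
  simp only [h1]
  rw [← Finset.mul_sum]
  field_simp

/-- the kernel of the ladder -/
noncomputable def Kp (ζ : ℂ) (p : T d L) : ℂ := ∑ x : T d L, ((‖GG ζ 0 x‖ ^ 2 : ℝ) : ℂ) * e p x

theorem Kp_zero {ζ : ℂ} (hζ : 0 < ζ.im) :
    Kp ζ (0 : T d L) = (((GG ζ (0 : T d L) 0).im / ζ.im : ℝ) : ℂ) := by
  unfold Kp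
  rw [← g2_eq hζ]
  push_cast
  refine Finset.sum_congr rfl fun x _ => ?_
  rw [e_comm, e_zero, mul_one]

theorem Kp_le {ζ : ℂ} (hζ : 0 < ζ.im) (p : T d L) :
    ‖Kp ζ p‖ ≤ (GG ζ (0 : T d L) 0).im / ζ.im := by
  rw [← g2_eq hζ]
  unfold Kp
  refine (norm_sum_le _ _).trans (Finset.sum_le_sum fun x _ => ?_)
  rw [norm_mul, norm_e, mul_one, Complex.norm_real, Real.norm_of_nonneg (by positivity)]

theorem Kp_re {ζ : ℂ} (hζ : 0 < ζ.im) (p : T d L) :
    (GG ζ (0 : T d L) 0).im / ζ.im - (Kp ζ p).re =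
      1 / 2 * ((NN d L)⁻¹ * ∑ k : T d L, ‖gs ζ k - gs ζ (k + p)‖ ^ 2) := by
  have h1 := parseval_sq (fun x : T d L => GG ζ 0 x - GG ζ 0 x * e p x)
  have h2 : ∀ k, fc (fun x : T d L => GG ζ 0 x - GG ζ 0 x * e p x) k = gs ζ k - gs ζ (k + p) := by
    intro k
    have h3 : fc (fun x : T d L => GG ζ 0 x - GG ζ 0 x * e p x) k =
        fc (fun x => GG ζ 0 x) k - fc (fun x => GG ζ 0 x * e p x) k := by
      unfold fc
      rw [← Finset.sum_sub_distrib]
      exact Finset.sum_congr rfl fun x _ => by ring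
    rw [h3, fc_mul_e, fc_GG, fc_GG]
  simp only [h2] at h1
  rw [← h1, ← g2_eq hζ]
  unfold Kp
  rw [Complex.re_sum, ← Finset.sum_sub_distrib, Finset.mul_sum]
  refine Finset.sum_congr rfl fun x _ => ?_
  have h4 : GG ζ 0 x - GG ζ 0 x * e p x = GG ζ 0 x * (1 - e p x) := by ring
  rw [h4, norm_mul, mul_pow, Complex.re_ofReal_mul]
  have h5 : ‖1 - e p x‖ ^ 2 = 2 - 2 * (e p x).re := by
    have h6 : ‖e p x‖ ^ 2 = 1 := by rw [norm_e, one_pow]
    rw [← Complex.normSq_eq_norm_sq, Complex.normSq_apply] at h6 ⊢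
    simp only [Complex.sub_re, Complex.one_re, Complex.sub_im, Complex.one_im]
    nlinarith
  rw [h5]
  ring

end Pool.Agent.Run7.h47
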