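import Mathlib

/-! Gaussian integration by parts. -/

set_option autoImplicit false

open MeasureTheory ProbabilityTheory Set Filter Topology

namespace Pool.Agent.Run7.h47.St

/-- the product Gaussian measure -/
noncomputable abbrev G (ι : Type*) [Fintype ι] : Measure (ι → ℝ) :=
  Measure.pi fun _ => gaussianReal 0 1

theorem eval_integrable {κ : Type} [Fintype κ] (i : κ) : Integrable (fun x : κ → ℝ => x i) (G κ) := by
  have mp : MeasurePreserving (fun x : κ → ℝ => x i) (G κ) (gaussianReal 0 1) :=
    measurePreserving_eval (fun _ : κ => gaussianReal 0 1) i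
  have : Integrable (fun t : ℝ => t) (gaussianReal 0 1) :=
    (memLp_id_gaussianReal 1).integrable (by norm_num)
  exact mp.integrable_comp_of_integrable this

theorem pdf_deriv (t : ℝ) :
    HasDerivAt (gaussianPDFReal 0 1) (-(t * gaussianPDFReal 0 1 t)) t := by
  have h : gaussianPDFReal 0 1 = fun x : ℝ =>
      (Real.sqrt (2 * Real.pi * ((1 : NNReal) : ℝ)))⁻¹ *
        Real.exp (-(x - 0) ^ 2 / (2 * ((1 : NNReal) : ℝ))) := by
    rw [gaussianPDFReal_def]
  rw [h]
  have h1 : HasDerivAt (fun x : ℝ => -(x - 0) ^ 2 / (2 * ((1 : NNReal) : ℝ))) (-t) t := by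
    have := (((hasDerivAt_id t).sub_const (0:ℝ)).pow 2).neg.div_const (2 * ((1 : NNReal) : ℝ))
    refine this.congr_deriv ?_
    simp only [id, sub_zero, NNReal.coe_one, mul_one]
    norm_num
    ring
  have h2 := (h1.exp).const_mul (Real.sqrt (2 * Real.pi * ((1 : NNReal) : ℝ)))⁻¹
  refine h2.congr_deriv ?_
  ring

theorem integrable_gauss_iff (f : ℝ → ℝ) (hf : Integrable f (gaussianReal 0 1)) :
    Integrable fun t => f t * gaussianPDFReal 0 1 t := by
  rw [gaussianReal_of_var_ne_zero 0 (by norm_num : (1 : NNReal) ≠ 0),
    integrable_withDensity_iff_integrable_smul' (measurable_gaussianPDF 0 1)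
      (Eventually.of_forall fun _ => gaussianPDF_lt_top)] at hf
  refine hf.congr (Eventually.of_forall fun t => ?_)
  simp only [smul_eq_mul, toReal_gaussianPDF]
  ring

theorem stein1 (g g' : ℝ → ℝ) (C : ℝ) (hd : ∀ t, HasDerivAt g (g' t) t) (hC : ∀ t, |g t| ≤ C)
    (hC' : ∀ t, |g' t| ≤ C) (hm' : Measurable g') :
    ∫ t, t * g t ∂(gaussianReal 0 1) = ∫ t, g' t ∂(gaussianReal 0 1) := by
  have hgm : Measurable g := by
    have : Continuous g := continuous_iff_continuousAt.2 fun t => (hd t).continuousAt
    exact this.measurable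
  have hid : Integrable (fun t : ℝ => t) (gaussianReal 0 1) :=
    (memLp_id_gaussianReal 1).integrable (by norm_num)
  have i1 : Integrable (fun t => t * g t) (gaussianReal 0 1) :=
    hid.mul_bdd (c := C) hgm.aestronglyMeasurable (Eventually.of_forall fun t => hC t)
  have i2 : Integrable g' (gaussianReal 0 1) :=
    Integrable.of_bound hm'.aestronglyMeasurable C (Eventually.of_forall fun t => hC' t)
  have i3 : Integrable g (gaussianReal 0 1) :=
    Integrable.of_bound hgm.aestronglyMeasurable C (Eventually.of_forall fun t => hC t)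
  have j1 := integrable_gauss_iff _ i1
  have j2 := integrable_gauss_iff _ i2
  have j3 := integrable_gauss_iff _ i3
  have key := integral_mul_deriv_eq_deriv_mul_of_integrable (u := g) (u' := g')
    (v := gaussianPDFReal 0 1) (v' := fun t => -(t * gaussianPDFReal 0 1 t))
    (fun x _ => hd x) (fun x _ => pdf_deriv x)
    (j1.neg.congr (Eventually.of_forall fun t => by simp only [Pi.neg_apply, Pi.mul_apply]; ring))
    (j2.congr (Eventually.of_forall fun t => by simp only [Pi.mul_apply]))
    (j3.congr (Eventually.of_forall fun t => by simp only [Pi.mul_apply]))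
  rw [integral_gaussianReal_eq_integral_smul (by norm_num),
    integral_gaussianReal_eq_integral_smul (by norm_num)]
  have e1 : ∫ x, gaussianPDFReal 0 1 x • (x * g x) =
      -∫ x, g x * -(x * gaussianPDFReal 0 1 x) := by
    rw [← integral_neg]
    congr 1; ext x; simp only [smul_eq_mul]; ring
  have e2 : ∫ x, gaussianPDFReal 0 1 x • g' x = ∫ x, g' x * gaussianPDFReal 0 1 x := by
    congr 1; ext x; simp only [smul_eq_mul]; ring
  rw [e1, e2, key, neg_neg]

section
variable {κ : Type} [Fintype κ] [DecidableEq κ]

/-- resampling one coordinate preserves the Gaussian measure -/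
theorem mp_update (i : κ) :
    MeasurePreserving (fun p : (κ → ℝ) × ℝ => Function.update p.1 i p.2)
      ((G κ).prod (gaussianReal 0 1)) (G κ) := by
  have hm : Measurable (fun p : (κ → ℝ) × ℝ => Function.update p.1 i p.2) := by
    rw [measurable_pi_iff]
    intro j
    by_cases h : j = i
    · subst h; simpa using measurable_snd
    · simp only [Function.update_of_ne h]; fun_prop
  refine ⟨hm, ?_⟩
  symm
  refine Measure.pi_eq fun s hs => ?_
  rw [Measure.map_apply hm (MeasurableSet.univ_pi hs)]
  have e : (fun p : (κ → ℝ) × ℝ => Function.update p.1 i p.2) ⁻¹' (Set.univ.pi s) =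
      (Set.univ.pi (Function.update s i Set.univ)) ×ˢ (s i) := by
    ext ⟨x, t⟩
    simp only [Set.mem_preimage, Set.mem_univ_pi, Set.mem_prod]
    constructor
    · intro h
      refine ⟨fun j => ?_, by simpa using h i⟩
      by_cases hj : j = i
      · subst hj; simp
      · rw [Function.update_of_ne hj]; simpa [Function.update_of_ne hj] using h j
    · rintro ⟨h1, h2⟩ j
      by_cases hj : j = i
      · subst hj; simpa using h2
      · rw [Function.update_of_ne hj]; simpa [Function.update_of_ne hj] using h1 j
  rw [e, Measure.prod_prod, Measure.pi_pi]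
  rw [← Finset.mul_prod_erase _ _ (Finset.mem_univ i), ← Finset.mul_prod_erase _ _ (Finset.mem_univ i)]
  simp only [Function.update_self, measure_univ, one_mul]
  rw [mul_comm]
  congr 1
  apply Finset.prod_congr rfl
  intro j hj
  rw [Function.update_of_ne (Finset.ne_of_mem_erase hj)]

theorem stein (i : κ) (f f' : (κ → ℝ) → ℝ) (C : ℝ) (hf : Measurable f) (hf' : Measurable f')
    (hC : ∀ x, |f x| ≤ C) (hC' : ∀ x, |f' x| ≤ C)
    (hd : ∀ x, HasDerivAt (fun t => f (Function.update x i t)) (f' x) (x i)) :
    ∫ x, x i * f x ∂(G κ) = ∫ x, f' x ∂(G κ) := by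
  have mp := mp_update i
  have hi1 : Integrable (fun x : κ → ℝ => x i * f x) (G κ) :=
    (eval_integrable i).mul_bdd (c := C) hf.aestronglyMeasurable (Eventually.of_forall fun t => hC t)
  have hi2 : Integrable f' (G κ) :=
    Integrable.of_bound hf'.aestronglyMeasurable C (Eventually.of_forall fun t => hC' t)
  have e : ∀ F : (κ → ℝ) → ℝ, Measurable F → Integrable F (G κ) →
      ∫ x, F x ∂(G κ) = ∫ x, ∫ t, F (Function.update x i t) ∂(gaussianReal 0 1) ∂(G κ) := by
    intro F hF hFi
    conv_lhs => rw [← mp.map_eq]
    rw [integral_map mp.measurable.aemeasurable hF.aestronglyMeasurable, integral_prod]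
    exact mp.integrable_comp_of_integrable hFi
  rw [e (fun x => x i * f x) ((measurable_pi_apply i).mul hf) hi1, e f' hf' hi2]
  congr 1
  ext x
  have h1 : ∀ t, Function.update x i t i = t := fun t => Function.update_self ..
  simp only [h1]
  refine stein1 (fun t => f (Function.update x i t)) (fun t => f' (Function.update x i t)) C ?_ ?_ ?_ ?_
  · intro t
    have := hd (Function.update x i t)
    simpa using this
  · intro t; exact hC _
  · intro t; exact hC' _
  · exact hf'.comp (measurable_update x)

end

end Pool.Agent.Run7.h47.St
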