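import Pool.Agent.R972.GM.Rot
import Pool.Agent.Run7.h47.Stein
import Pool.Agent.W788.MFP.Gm

/-! Gaussian calculus: integration by parts and the Poincare inequality for complex functions. -/

set_option autoImplicit false
set_option linter.unusedSectionVars false

open scoped BigOperators ENNReal NNReal
open MeasureTheory ProbabilityTheory

namespace Pool.Agent.Run7.h47.GC

open Pool.Agent.W788.MFP.Gm (Γ)

variable {κ : Type} [Fintype κ] [DecidableEq κ]

/-- bounded functions with bounded partial derivatives -/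
structure Reg (F : (κ → ℝ) → ℂ) (D : κ → (κ → ℝ) → ℂ) (C : ℝ) : Prop where
  diff : Differentiable ℝ F
  der : ∀ i x, HasDerivAt (fun t : ℝ => F (Function.update x i t)) (D i x) (x i)
  cont : ∀ i, Continuous (D i)
  bd : ∀ x, ‖F x‖ ≤ C
  bdD : ∀ i x, ‖D i x‖ ≤ C

theorem int_bd {F : (κ → ℝ) → ℂ} {C : ℝ} (hc : Continuous F) (hb : ∀ x, ‖F x‖ ≤ C) :
    Integrable F (Γ κ) :=
  Integrable.of_bound hc.aestronglyMeasurable C (Filter.Eventually.of_forall hb)

theorem int_bdR {F : (κ → ℝ) → ℝ} {C : ℝ} (hc : Continuous F) (hb : ∀ x, ‖F x‖ ≤ C) :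
    Integrable F (Γ κ) :=
  Integrable.of_bound hc.aestronglyMeasurable C (Filter.Eventually.of_forall hb)

/-- Gaussian integration by parts -/
theorem ibp (F F' : (κ → ℝ) → ℂ) (C : ℝ) (i : κ) (hc : Continuous F) (hc' : Continuous F')
    (hb : ∀ x, ‖F x‖ ≤ C) (hb' : ∀ x, ‖F' x‖ ≤ C)
    (hd : ∀ x, HasDerivAt (fun t : ℝ => F (Function.update x i t)) (F' x) (x i)) :
    ∫ x, (x i : ℂ) * F x ∂(Γ κ) = ∫ x, F' x ∂(Γ κ) := by
  have hre := St.stein i (fun x => (F x).re) (fun x => (F' x).re) C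
    (Complex.continuous_re.comp hc).measurable (Complex.continuous_re.comp hc').measurable
    (fun x => (Complex.abs_re_le_norm _).trans (hb x))
    (fun x => (Complex.abs_re_le_norm _).trans (hb' x))
    (fun x => (Complex.reCLM.hasFDerivAt.comp_hasDerivAt _ (hd x)))
  have him := St.stein i (fun x => (F x).im) (fun x => (F' x).im) C
    (Complex.continuous_im.comp hc).measurable (Complex.continuous_im.comp hc').measurable
    (fun x => (Complex.abs_im_le_norm _).trans (hb x))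
    (fun x => (Complex.abs_im_le_norm _).trans (hb' x))
    (fun x => (Complex.imCLM.hasFDerivAt.comp_hasDerivAt _ (hd x)))
  have i1 : Integrable (fun x : κ → ℝ => (x i : ℂ) * F x) (Γ κ) := by
    have h1 : Integrable (fun x : κ → ℝ => (x i : ℂ)) (Γ κ) := by
      have h2 : Integrable (fun x : κ → ℝ => x i) (Γ κ) := by
        have h3 := Pool.Agent.W788.MFP.Gm.int_poly (κ := κ) (MvPolynomial.X i)
        simpa using h3
      exact h2.ofReal
    exact h1.mul_bdd (c := C) hc.aestronglyMeasurable (Filter.Eventually.of_forall hb)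
  have i2 := int_bd hc' hb'
  apply Complex.ext
  · have e1 := integral_re i1
    have e2 := integral_re i2
    simp only [RCLike.re_to_complex] at e1 e2
    rw [← e1, ← e2]
    simp only [Complex.re_ofReal_mul]
    exact hre
  · have e1 := integral_im i1
    have e2 := integral_im i2
    simp only [RCLike.im_to_complex] at e1 e2
    rw [← e1, ← e2]
    simp only [Complex.im_ofReal_mul]
    exact him

/-- the norm of a functional -/
theorem norm_fun (L : EuclideanSpace ℝ κ →L[ℝ] ℝ) :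
    ‖L‖ ^ 2 ≤ ∑ i, (L (EuclideanSpace.single i 1)) ^ 2 := by
  have h0 : 0 ≤ ∑ i, (L (EuclideanSpace.single i 1)) ^ 2 :=
    Finset.sum_nonneg fun _ _ => sq_nonneg _
  have h1 : ‖L‖ ≤ Real.sqrt (∑ i, (L (EuclideanSpace.single i 1)) ^ 2) := by
    refine L.opNorm_le_bound (Real.sqrt_nonneg _) fun v => ?_
    have h2 : v = ∑ i, v i • EuclideanSpace.single i (1 : ℝ) := by
      ext j
      simp [Finset.sum_apply, Pi.single_apply]
    have h3 : L v = ∑ i, v i * L (EuclideanSpace.single i 1) := by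
      conv_lhs => rw [h2]
      rw [map_sum]
      exact Finset.sum_congr rfl fun i _ => by rw [map_smul, smul_eq_mul]
    rw [h3, Real.norm_eq_abs, EuclideanSpace.norm_eq, ← Real.sqrt_mul h0]
    apply Real.abs_le_sqrt
    rw [mul_comm]
    refine (Finset.sum_mul_sq_le_sq_mul_sq _ _ _).trans (le_of_eq ?_)
    congr 1
    exact Finset.sum_congr rfl fun i _ => by simp
  calc ‖L‖ ^ 2 ≤ Real.sqrt (∑ i, (L (EuclideanSpace.single i 1)) ^ 2) ^ 2 :=
        pow_le_pow_left₀ (norm_nonneg _) h1 2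
    _ = _ := Real.sq_sqrt h0

/-- the partial derivatives -/
theorem fder (u : (κ → ℝ) → ℝ) (D : κ → (κ → ℝ) → ℝ) (hu : Differentiable ℝ u)
    (hd : ∀ i x, HasDerivAt (fun t : ℝ => u (Function.update x i t)) (D i x) (x i))
    (x : EuclideanSpace ℝ κ) (i : κ) :
    fderiv ℝ (fun y : EuclideanSpace ℝ κ => u (WithLp.ofLp y)) x (EuclideanSpace.single i 1) =
      D i (WithLp.ofLp x) := by
  have h1 : Differentiable ℝ fun y : EuclideanSpace ℝ κ => u (WithLp.ofLp y) :=
    hu.comp (by fun_prop)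
  have h2 : HasDerivAt (fun t : ℝ => x + (t - x i) • EuclideanSpace.single i (1 : ℝ))
      (EuclideanSpace.single i (1 : ℝ)) (x i) := by
    have h3 := (((hasDerivAt_id (x i)).sub_const (x i)).smul_const
      (EuclideanSpace.single i (1 : ℝ))).const_add x
    simpa using h3
  have h4 := (h1 (x + (x i - x i) • EuclideanSpace.single i (1 : ℝ))).hasFDerivAt.comp_hasDerivAt
    (x i) h2
  have h5 : (fun y : EuclideanSpace ℝ κ => u (WithLp.ofLp y)) ∘
      (fun t : ℝ => x + (t - x i) • EuclideanSpace.single i (1 : ℝ)) =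
      fun t : ℝ => u (Function.update (WithLp.ofLp x) i t) := by
    funext t
    simp only [Function.comp]
    congr 1
    funext j
    by_cases hj : j = i
    · subst hj
      simp
    · simp [hj]
  rw [h5] at h4
  have h6 := h4.unique (hd i (WithLp.ofLp x))
  rw [sub_self, zero_smul, add_zero] at h6
  exact h6

theorem lin (f g : (κ → ℝ) → ℝ) (hf : Integrable f (Γ κ)) (hg : Integrable g (Γ κ)) (a c : ℝ) :
    ∫ x, (f x - a * g x + c) ∂(Γ κ) = ∫ x, f x ∂(Γ κ) - a * ∫ x, g x ∂(Γ κ) + c := by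
  have h1 : ∫ x, (f x - a * g x + c) ∂(Γ κ) = ∫ x, (f x - a * g x) ∂(Γ κ) + ∫ _x, c ∂(Γ κ) :=
    integral_add (f := fun x => f x - a * g x) (hf.sub (hg.const_mul a)) (integrable_const c)
  have h2 : ∫ x, (f x - a * g x) ∂(Γ κ) = ∫ x, f x ∂(Γ κ) - ∫ x, a * g x ∂(Γ κ) :=
    integral_sub hf (hg.const_mul a)
  rw [h1, h2, integral_const_mul]
  simp

/-- the Poincare inequality for real functions -/
theorem poinR (u : (κ → ℝ) → ℝ) (D : κ → (κ → ℝ) → ℝ) (C : ℝ) (hu : Differentiable ℝ u)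
    (hd : ∀ i x, HasDerivAt (fun t : ℝ => u (Function.update x i t)) (D i x) (x i))
    (hc : ∀ i, Continuous (D i)) (hb : ∀ x, |u x| ≤ C) (hbD : ∀ i x, |D i x| ≤ C) :
    ∫ x, (u x - ∫ y, u y ∂(Γ κ)) ^ 2 ∂(Γ κ) ≤ 15 * ∫ x, ∑ i, D i x ^ 2 ∂(Γ κ) := by
  have hC : 0 ≤ C := (abs_nonneg _).trans (hb 0)
  set w : EuclideanSpace ℝ κ → ℝ := fun y => u (WithLp.ofLp y) with hw
  have hwd : Differentiable ℝ w := hu.comp (by fun_prop)
  have hcs : Continuous fun x => ∑ i, D i x ^ 2 := by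
    exact continuous_finsetSum _ fun i _ => (hc i).pow 2
  have hfn : ∀ x : EuclideanSpace ℝ κ, ‖fderiv ℝ w x‖ ^ 2 ≤ ∑ i, D i (WithLp.ofLp x) ^ 2 := by
    intro x
    refine (norm_fun _).trans (le_of_eq ?_)
    exact Finset.sum_congr rfl fun i _ => by rw [fder u D hu hd]
  have hrot := Pool.Agent.R972.GM.rotp (E := EuclideanSpace ℝ κ) (u := w) hwd
    (b := fun x => Real.sqrt (∑ i, D i (WithLp.ofLp x) ^ 2))
    (Real.continuous_sqrt.comp (hcs.comp (by fun_prop))) (fun x => Real.le_sqrt_of_sq_le (hfn x))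
    1 le_rfl
  rw [← map_pi_eq_stdGaussian] at hrot
  have hm : MeasurePreserving (WithLp.toLp 2 : (κ → ℝ) → EuclideanSpace ℝ κ) (Γ κ)
      ((Γ κ).map (WithLp.toLp 2)) :=
    ⟨by fun_prop, rfl⟩
  have hsf : SigmaFinite (Measure.map (WithLp.toLp 2 : (κ → ℝ) → EuclideanSpace ℝ κ) (Γ κ)) := by
    have : IsProbabilityMeasure
        (Measure.map (WithLp.toLp 2 : (κ → ℝ) → EuclideanSpace ℝ κ) (Γ κ)) :=
      Measure.isProbabilityMeasure_map hm.measurable.aemeasurable
    infer_instance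
  have hmm := hm.prod hm
  have hwm : Measurable w := hwd.continuous.measurable
  rw [← hmm.lintegral_comp (by fun_prop)] at hrot
  have e1 : ∫⁻ x, ENNReal.ofReal (‖fderiv ℝ w x‖ ^ (2 * 1)) ∂((Γ κ).map (WithLp.toLp 2)) ≤
      ∫⁻ x, ENNReal.ofReal (∑ i, D i x ^ 2) ∂(Γ κ) := by
    rw [← hm.lintegral_comp (((measurable_fderiv ℝ w).norm.pow_const _).ennreal_ofReal)]
    refine lintegral_mono fun x => ENNReal.ofReal_le_ofReal ?_
    rw [mul_one]
    exact hfn _
  have hcu : Continuous u := hu.continuous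
  have hD2 : ∀ x, ‖∑ i, D i x ^ 2‖ ≤ (Fintype.card κ) * C ^ 2 := by
    intro x
    rw [Real.norm_of_nonneg (Finset.sum_nonneg fun _ _ => sq_nonneg _)]
    calc ∑ i, D i x ^ 2 ≤ ∑ _i : κ, C ^ 2 := Finset.sum_le_sum fun i _ => by
          rw [← sq_abs]
          exact pow_le_pow_left₀ (abs_nonneg _) (hbD i x) 2
      _ = _ := by simp
  have iD := int_bdR hcs hD2
  have e2 : ∫⁻ x, ENNReal.ofReal (∑ i, D i x ^ 2) ∂(Γ κ) =
      ENNReal.ofReal (∫ x, ∑ i, D i x ^ 2 ∂(Γ κ)) := by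
    rw [ofReal_integral_eq_lintegral_ofReal iD]
    exact Filter.Eventually.of_forall fun x => Finset.sum_nonneg fun _ _ => sq_nonneg _
  have iP : Integrable (fun p : (κ → ℝ) × (κ → ℝ) => (u p.2 - u p.1) ^ 2) ((Γ κ).prod (Γ κ)) := by
    refine Integrable.of_bound (by fun_prop) ((2 * C) ^ 2)
      (Filter.Eventually.of_forall fun p => ?_)
    rw [Real.norm_of_nonneg (sq_nonneg _), ← sq_abs]
    refine pow_le_pow_left₀ (abs_nonneg _) ?_ 2
    refine (abs_sub _ _).trans ?_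
    linarith [hb p.1, hb p.2]
  have e3 : ∫⁻ p, ENNReal.ofReal ((w (Prod.map (WithLp.toLp 2) (WithLp.toLp 2) p).2 -
      w (Prod.map (WithLp.toLp 2) (WithLp.toLp 2) p).1) ^ (2 * 1)) ∂((Γ κ).prod (Γ κ)) =
      ENNReal.ofReal (∫ p, (u p.2 - u p.1) ^ 2 ∂((Γ κ).prod (Γ κ))) := by
    rw [ofReal_integral_eq_lintegral_ofReal iP
      (Filter.Eventually.of_forall fun p => sq_nonneg _)]
    rfl
  have h1 : ENNReal.ofReal (∫ p, (u p.2 - u p.1) ^ 2 ∂((Γ κ).prod (Γ κ))) ≤
      ENNReal.ofReal ((Real.pi / 2) ^ (2 * 1) * (12 * (1 : ℕ)) ^ 1) *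
        ENNReal.ofReal (∫ x, ∑ i, D i x ^ 2 ∂(Γ κ)) := by
    rw [← e3, ← e2]
    refine hrot.trans ?_
    gcongr
  have hint0 : 0 ≤ ∫ x, ∑ i, D i x ^ 2 ∂(Γ κ) :=
    integral_nonneg fun x => Finset.sum_nonneg fun _ _ => sq_nonneg _
  rw [← ENNReal.ofReal_mul (by positivity), ENNReal.ofReal_le_ofReal_iff (by positivity)] at h1
  have h2 : (Real.pi / 2) ^ (2 * 1) * (12 * ((1 : ℕ) : ℝ)) ^ 1 ≤ 30 := by
    have := Real.pi_lt_d2
    have h3 := Real.pi_pos
    norm_num
    nlinarith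
  have iu : Integrable u (Γ κ) := int_bdR hcu hb
  have iu2 : Integrable (fun x => u x ^ 2) (Γ κ) := by
    refine int_bdR (C := C ^ 2) (hcu.pow 2) fun x => ?_
    rw [Real.norm_of_nonneg (sq_nonneg _), ← sq_abs]
    exact pow_le_pow_left₀ (abs_nonneg _) (hb x) 2
  set M := ∫ y, u y ∂(Γ κ) with hM
  have h4 : ∫ x, (u x - M) ^ 2 ∂(Γ κ) = ∫ x, u x ^ 2 ∂(Γ κ) - M ^ 2 := by
    have : ∀ x, (u x - M) ^ 2 = u x ^ 2 - 2 * M * u x + M ^ 2 := fun x => by ring
    simp only [this]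
    rw [lin _ _ iu2 iu, ← hM]
    ring
  have h5 : ∫ p, (u p.2 - u p.1) ^ 2 ∂((Γ κ).prod (Γ κ)) =
      2 * (∫ x, u x ^ 2 ∂(Γ κ) - M ^ 2) := by
    rw [integral_prod _ iP]
    have h6 : ∀ x, ∫ y, (u y - u x) ^ 2 ∂(Γ κ) = ∫ y, u y ^ 2 ∂(Γ κ) - 2 * u x * M + u x ^ 2 := by
      intro x
      have : ∀ y, (u y - u x) ^ 2 = u y ^ 2 - 2 * u x * u y + u x ^ 2 := fun y => by ring
      simp only [this]
      rw [lin _ _ iu2 iu, ← hM]
    simp only [h6]
    have h7 : ∀ x, ∫ y, u y ^ 2 ∂(Γ κ) - 2 * u x * M + u x ^ 2 =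
        u x ^ 2 - (2 * M) * u x + ∫ y, u y ^ 2 ∂(Γ κ) := fun x => by ring
    simp only [h7]
    rw [lin _ _ iu2 iu, ← hM]
    ring
  rw [h4]
  rw [h5] at h1
  nlinarith

/-- the Poincare inequality for complex functions -/
theorem poin {F : (κ → ℝ) → ℂ} {D : κ → (κ → ℝ) → ℂ} {C : ℝ} (h : Reg F D C) :
    ∫ x, ‖F x - ∫ y, F y ∂(Γ κ)‖ ^ 2 ∂(Γ κ) ≤ 15 * ∫ x, ∑ i, ‖D i x‖ ^ 2 ∂(Γ κ) := by
  have hcF : Continuous F := h.diff.continuous
  have iF := int_bd hcF h.bd
  have h1 := poinR (fun x => (F x).re) (fun i x => (D i x).re) C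
    (Complex.reCLM.differentiable.comp h.diff)
    (fun i x => Complex.reCLM.hasFDerivAt.comp_hasDerivAt _ (h.der i x))
    (fun i => Complex.continuous_re.comp (h.cont i))
    (fun x => (Complex.abs_re_le_norm _).trans (h.bd x))
    (fun i x => (Complex.abs_re_le_norm _).trans (h.bdD i x))
  have h2 := poinR (fun x => (F x).im) (fun i x => (D i x).im) C
    (Complex.imCLM.differentiable.comp h.diff)
    (fun i x => Complex.imCLM.hasFDerivAt.comp_hasDerivAt _ (h.der i x))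
    (fun i => Complex.continuous_im.comp (h.cont i))
    (fun x => (Complex.abs_im_le_norm _).trans (h.bd x))
    (fun i x => (Complex.abs_im_le_norm _).trans (h.bdD i x))
  have e1 := integral_re iF
  have e2 := integral_im iF
  simp only [RCLike.re_to_complex] at e1
  simp only [RCLike.im_to_complex] at e2
  rw [e1] at h1
  rw [e2] at h2
  set M := ∫ y, F y ∂(Γ κ) with hM
  have hC : 0 ≤ C := (norm_nonneg _).trans (h.bd 0)
  have cre : Continuous fun x => (F x).re := Complex.continuous_re.comp hcF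
  have cim : Continuous fun x => (F x).im := Complex.continuous_im.comp hcF
  have j1 : Integrable (fun x => ((F x).re - M.re) ^ 2) (Γ κ) := by
    refine int_bdR (C := (C + |M.re|) ^ 2) (by fun_prop) fun x => ?_
    rw [Real.norm_of_nonneg (sq_nonneg _), ← sq_abs]
    refine pow_le_pow_left₀ (abs_nonneg _) ((abs_sub _ _).trans ?_) 2
    gcongr
    exact (Complex.abs_re_le_norm _).trans (h.bd x)
  have j2 : Integrable (fun x => ((F x).im - M.im) ^ 2) (Γ κ) := by
    refine int_bdR (C := (C + |M.im|) ^ 2) (by fun_prop) fun x => ?_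
    rw [Real.norm_of_nonneg (sq_nonneg _), ← sq_abs]
    refine pow_le_pow_left₀ (abs_nonneg _) ((abs_sub _ _).trans ?_) 2
    gcongr
    exact (Complex.abs_im_le_norm _).trans (h.bd x)
  have hn : ∀ z : ℂ, ‖z‖ ^ 2 = z.re ^ 2 + z.im ^ 2 := fun z => by
    rw [← Complex.normSq_eq_norm_sq, Complex.normSq_apply]
    ring
  have k1 : Integrable (fun x => ∑ i, (D i x).re ^ 2) (Γ κ) := by
    refine integrable_finsetSum _ fun i _ => ?_
    refine int_bdR (C := C ^ 2) ((Complex.continuous_re.comp (h.cont i)).pow 2) fun x => ?_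
    rw [Real.norm_of_nonneg (sq_nonneg _), ← sq_abs]
    exact pow_le_pow_left₀ (abs_nonneg _) ((Complex.abs_re_le_norm _).trans (h.bdD i x)) 2
  have k2 : Integrable (fun x => ∑ i, (D i x).im ^ 2) (Γ κ) := by
    refine integrable_finsetSum _ fun i _ => ?_
    refine int_bdR (C := C ^ 2) ((Complex.continuous_im.comp (h.cont i)).pow 2) fun x => ?_
    rw [Real.norm_of_nonneg (sq_nonneg _), ← sq_abs]
    exact pow_le_pow_left₀ (abs_nonneg _) ((Complex.abs_im_le_norm _).trans (h.bdD i x)) 2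
  have a1 : ∫ x, ‖F x - M‖ ^ 2 ∂(Γ κ) =
      ∫ x, ((F x).re - M.re) ^ 2 ∂(Γ κ) + ∫ x, ((F x).im - M.im) ^ 2 ∂(Γ κ) := by
    rw [← integral_add j1 j2]
    refine integral_congr_ae (Filter.Eventually.of_forall fun x => ?_)
    simp only
    rw [hn, Complex.sub_re, Complex.sub_im]
  have a2 : ∫ x, ∑ i, ‖D i x‖ ^ 2 ∂(Γ κ) =
      ∫ x, ∑ i, (D i x).re ^ 2 ∂(Γ κ) + ∫ x, ∑ i, (D i x).im ^ 2 ∂(Γ κ) := by
    rw [← integral_add k1 k2]
    refine integral_congr_ae (Filter.Eventually.of_forall fun x => ?_)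
    simp only
    rw [← Finset.sum_add_distrib]
    exact Finset.sum_congr rfl fun i _ => hn _
  rw [a1, a2]
  linarith

end Pool.Agent.Run7.h47.GC
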