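import Pool.Agent.Run7.h47.Eig

/-! Quantum ergodicity: the energy integral. -/

set_option autoImplicit false
set_option linter.unusedSectionVars false

open scoped BigOperators Matrix Topology
open MeasureTheory ProbabilityTheory

namespace Pool.Agent.Run7.h47.Q

/-- a cutoff in the energy -/
noncomputable def cut (a b E : ℝ) : ℝ := min 1 (max 0 (2 / (b - a) * (b - |E|)))

theorem cut_nonneg (a b E : ℝ) : 0 ≤ cut a b E := le_min zero_le_one (le_max_left _ _)

theorem cut_le (a b E : ℝ) : cut a b E ≤ 1 := min_le_left _ _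

theorem cut_one {a b E : ℝ} (hab : a < b) (h : |E| ≤ (a + b) / 2) : cut a b E = 1 := by
  unfold cut
  have h1 : 1 ≤ 2 / (b - a) * (b - |E|) := by
    have h2 : 0 < b - a := by linarith
    have h3 : (b - a) / 2 ≤ b - |E| := by linarith
    calc (1 : ℝ) = 2 / (b - a) * ((b - a) / 2) := by field_simp
      _ ≤ _ := by gcongr
  rw [max_eq_right (by linarith), min_eq_left h1]

theorem cut_zero {a b E : ℝ} (hab : a < b) (h : b < |E|) : cut a b E = 0 := by
  unfold cut
  have h1 : 2 / (b - a) * (b - |E|) ≤ 0 := by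
    have h2 : 0 < b - a := by linarith
    exact mul_nonpos_of_nonneg_of_nonpos (by positivity) (by linarith)
  rw [max_eq_left h1, min_eq_right zero_le_one]

theorem cut_lip {a b : ℝ} (hab : a < b) (x y : ℝ) :
    |cut a b x - cut a b y| ≤ 2 / (b - a) * |x - y| := by
  unfold cut
  refine (abs_min_sub_min_le_max _ _ _ _).trans ?_
  rw [sub_self, abs_zero, max_eq_right (abs_nonneg _)]
  refine (abs_max_sub_max_le_max _ _ _ _).trans ?_
  rw [sub_self, abs_zero, max_eq_right (abs_nonneg _)]
  have h1 : 2 / (b - a) * (b - |x|) - 2 / (b - a) * (b - |y|) = 2 / (b - a) * (|y| - |x|) := by ring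
  have h2 : 0 < b - a := by linarith
  rw [h1, abs_mul, abs_of_pos (by positivity)]
  refine mul_le_mul_of_nonneg_left ?_ (by positivity)
  rw [abs_sub_comm x y]
  exact abs_abs_sub_abs_le_abs_sub y x

theorem cut_cont (a b : ℝ) : Continuous (cut a b) := by
  unfold cut
  fun_prop

theorem cut_supp {a b : ℝ} (hab : a < b) : HasCompactSupport (cut a b) := by
  refine HasCompactSupport.intro (isCompact_Icc (a := -b) (b := b)) fun x hx => ?_
  refine cut_zero hab ?_
  by_contra h
  push Not at h
  exact hx (abs_le.1 h)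

/-- the kernels -/
noncomputable def kp (t v : ℝ) : ℝ := v / (v ^ 2 + t ^ 2)

noncomputable def kq (t v : ℝ) : ℝ := t / (v ^ 2 + t ^ 2)

theorem kp_cont {t : ℝ} (ht : 0 < t) : Continuous (kp t) := by
  unfold kp
  refine continuous_id.div (by fun_prop) fun v => ?_
  positivity

theorem kq_cont {t : ℝ} (ht : 0 < t) : Continuous (kq t) := by
  unfold kq
  refine continuous_const.div (by fun_prop) fun v => ?_
  positivity

theorem kq_nonneg {t : ℝ} (ht : 0 < t) (v : ℝ) : 0 ≤ kq t v := by
  unfold kq
  positivity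

/-- the product kernel -/
noncomputable def kk (t x y : ℝ) : ℝ := (x * y + t ^ 2) / ((x ^ 2 + t ^ 2) * (y ^ 2 + t ^ 2))

theorem kk_eq {t : ℝ} (ht : 0 < t) (x y : ℝ) : ((x - y) ^ 2 + 4 * t ^ 2) * kk t x y =
    (x - y) * (kp t y - kp t x) + 2 * t * (kq t x + kq t y) := by
  unfold kk kp kq
  have h1 : x ^ 2 + t ^ 2 ≠ 0 := by positivity
  have h2 : y ^ 2 + t ^ 2 ≠ 0 := by positivity
  field_simp
  ring

theorem kp_bd {t : ℝ} (ht : 0 < t) (v : ℝ) :
    |kp t v| ≤ (Real.sqrt t)⁻¹ + (Set.Icc (-Real.sqrt t) (Real.sqrt t)).indicator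
      (fun _ => t⁻¹) v := by
  have hs : 0 < Real.sqrt t := Real.sqrt_pos.2 ht
  unfold kp
  rw [abs_div, abs_of_pos (by positivity : 0 < v ^ 2 + t ^ 2)]
  by_cases h : v ∈ Set.Icc (-Real.sqrt t) (Real.sqrt t)
  · rw [Set.indicator_of_mem h]
    have h1 : |v| / (v ^ 2 + t ^ 2) ≤ t⁻¹ := by
      rw [div_le_iff₀ (by positivity), ← div_eq_inv_mul, le_div_iff₀ ht, ← sq_abs v]
      nlinarith [sq_nonneg (|v| - t), abs_nonneg v]
    have : 0 < (Real.sqrt t)⁻¹ := by positivity
    linarith
  · rw [Set.indicator_of_notMem h, add_zero]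
    have h1 : Real.sqrt t ≤ |v| := by
      by_contra h2
      push Not at h2
      exact h (abs_le.1 h2.le)
    have hv : 0 < |v| := hs.trans_le h1
    calc |v| / (v ^ 2 + t ^ 2) ≤ |v| / (|v| ^ 2) := by
          gcongr
          rw [sq_abs]
          have := sq_nonneg t
          linarith
      _ = |v|⁻¹ := by field_simp
      _ ≤ (Real.sqrt t)⁻¹ := by gcongr

theorem cut_int {a b : ℝ} (hab : a < b) {f : ℝ → ℝ} (hf : Continuous f) :
    Integrable fun E => cut a b E * f E :=
  ((cut_cont a b).mul hf).integrable_of_hasCompactSupport (cut_supp hab).mul_right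

/-- the real part of the Borel transform of the cutoff -/
noncomputable def PP' (a b t m : ℝ) : ℝ := ∫ E, cut a b E * kp t (m - E)

noncomputable def QQ' (a b t m : ℝ) : ℝ := ∫ E, cut a b E * kq t (m - E)

theorem PP_lip {a b t : ℝ} (hab : a < b) (hb : 0 < b) (ht : 0 < t) (l m : ℝ) :
    |PP' a b t m - PP' a b t l| ≤
      2 / (b - a) * (4 * b + 4) * (Real.sqrt t)⁻¹ * |m - l| := by
  have hs : 0 < Real.sqrt t := Real.sqrt_pos.2 ht
  have hba : 0 < b - a := by linarith
  have hP : ∀ m : ℝ, PP' a b t m = ∫ v, cut a b (m - v) * kp t v := by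
    intro m
    unfold PP'
    rw [← integral_sub_left_eq_self (fun v => cut a b v * kp t (m - v)) volume m]
    refine integral_congr_ae (Filter.Eventually.of_forall fun v => ?_)
    simp only [sub_sub_cancel]
  have hi : ∀ m : ℝ, Integrable fun v => cut a b (m - v) * kp t v := by
    intro m
    have h1 := (cut_int hab (f := fun E => kp t (m - E))
      ((kp_cont ht).comp (by fun_prop))).comp_sub_left m
    refine h1.congr (Filter.Eventually.of_forall fun v => ?_)
    simp only [sub_sub_cancel]
  rw [hP, hP, ← integral_sub (hi m) (hi l)]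
  obtain ⟨K, hK⟩ : ∃ K, K = 2 / (b - a) * |m - l| := ⟨_, rfl⟩
  have hK0 : 0 ≤ K := by rw [hK]; positivity
  obtain ⟨g, hg⟩ : ∃ g : ℝ → ℝ, g = fun v => K * ((Real.sqrt t)⁻¹ *
    ((Set.Icc (m - b) (m + b)).indicator (fun _ => (1 : ℝ)) v +
      (Set.Icc (l - b) (l + b)).indicator (fun _ => (1 : ℝ)) v) +
      2 * (Set.Icc (-Real.sqrt t) (Real.sqrt t)).indicator (fun _ => t⁻¹) v) := ⟨_, rfl⟩
  have hgi : Integrable g := by
    rw [hg]
    refine Integrable.const_mul ?_ _
    refine Integrable.add ?_ ?_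
    · refine Integrable.const_mul ?_ _
      exact ((integrable_indicator_iff measurableSet_Icc).2
        (by simp)).add ((integrable_indicator_iff measurableSet_Icc).2 (by simp))
    · refine Integrable.const_mul ?_ _
      exact (integrable_indicator_iff measurableSet_Icc).2 (by simp)
  have hle : ∀ v, ‖cut a b (m - v) * kp t v - cut a b (l - v) * kp t v‖ ≤ g v := by
    intro v
    rw [← sub_mul, norm_mul, Real.norm_eq_abs, Real.norm_eq_abs]
    obtain ⟨I1, hI1⟩ : ∃ I, I = (Set.Icc (m - b) (m + b)).indicator (fun _ => (1 : ℝ)) v :=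
      ⟨_, rfl⟩
    obtain ⟨I2, hI2⟩ : ∃ I, I = (Set.Icc (l - b) (l + b)).indicator (fun _ => (1 : ℝ)) v :=
      ⟨_, rfl⟩
    obtain ⟨I3, hI3⟩ : ∃ I, I = (Set.Icc (-Real.sqrt t) (Real.sqrt t)).indicator
      (fun _ => t⁻¹) v := ⟨_, rfl⟩
    have h10 : 0 ≤ I1 := by rw [hI1]; exact Set.indicator_nonneg (fun _ _ => zero_le_one) _
    have h20 : 0 ≤ I2 := by rw [hI2]; exact Set.indicator_nonneg (fun _ _ => zero_le_one) _
    have h30 : 0 ≤ I3 := by
      rw [hI3]
      exact Set.indicator_nonneg (fun _ _ => by positivity) _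
    have h11 : I1 ≤ 1 := by
      rw [hI1]
      exact Set.indicator_le_self' (fun _ _ => zero_le_one) _
    have h21 : I2 ≤ 1 := by
      rw [hI2]
      exact Set.indicator_le_self' (fun _ _ => zero_le_one) _
    have h1 : |cut a b (m - v) - cut a b (l - v)| ≤ K * (I1 + I2) := by
      by_cases h : b < |m - v| ∧ b < |l - v|
      · rw [cut_zero hab h.1, cut_zero hab h.2, sub_self, abs_zero]
        positivity
      · have h2 : 1 ≤ I1 + I2 := by
          rw [not_and_or, not_lt, not_lt] at h
          rcases h with h | h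
          · have h3 : v ∈ Set.Icc (m - b) (m + b) := by
              have := abs_le.1 h
              constructor <;> linarith [this.1, this.2]
            rw [hI1, Set.indicator_of_mem h3]
            linarith
          · have h3 : v ∈ Set.Icc (l - b) (l + b) := by
              have := abs_le.1 h
              constructor <;> linarith [this.1, this.2]
            rw [hI2, Set.indicator_of_mem h3]
            linarith
        refine (cut_lip hab _ _).trans ?_
        have h4 : m - v - (l - v) = m - l := by ring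
        rw [h4, ← hK]
        exact le_mul_of_one_le_right hK0 h2
    have h2 := kp_bd ht v
    rw [← hI3] at h2
    rw [hg]
    simp only
    rw [← hI1, ← hI2, ← hI3]
    calc |cut a b (m - v) - cut a b (l - v)| * |kp t v| ≤
        (K * (I1 + I2)) * ((Real.sqrt t)⁻¹ + I3) :=
          mul_le_mul h1 h2 (abs_nonneg _) (by positivity)
      _ = K * ((Real.sqrt t)⁻¹ * (I1 + I2) + (I1 + I2) * I3) := by ring
      _ ≤ K * ((Real.sqrt t)⁻¹ * (I1 + I2) + 2 * I3) := by
          gcongr
          linarith
  refine (norm_integral_le_of_norm_le hgi (Filter.Eventually.of_forall hle)).trans ?_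
  have hval : ∫ v, g v = K * ((Real.sqrt t)⁻¹ * (2 * b + 2 * b) + 2 * (t⁻¹ * (2 * Real.sqrt t))) := by
    rw [hg]
    rw [integral_const_mul, integral_add, integral_const_mul, integral_add, integral_const_mul,
      integral_indicator measurableSet_Icc, integral_indicator measurableSet_Icc,
      integral_indicator measurableSet_Icc, setIntegral_const, setIntegral_const,
      setIntegral_const, Real.volume_real_Icc_of_le (by linarith),
      Real.volume_real_Icc_of_le (by linarith), Real.volume_real_Icc_of_le (by linarith)]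
    · simp only [smul_eq_mul]
      ring
    · exact (integrable_indicator_iff measurableSet_Icc).2 (by simp)
    · exact (integrable_indicator_iff measurableSet_Icc).2 (by simp)
    · refine Integrable.const_mul ?_ _
      exact ((integrable_indicator_iff measurableSet_Icc).2
        (by simp)).add ((integrable_indicator_iff measurableSet_Icc).2 (by simp))
    · refine Integrable.const_mul ?_ _
      exact (integrable_indicator_iff measurableSet_Icc).2 (by simp)
  rw [hval]
  have h5 : t⁻¹ * Real.sqrt t = (Real.sqrt t)⁻¹ := by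
    rw [inv_mul_eq_div, div_eq_iff ht.ne', ← div_eq_inv_mul, eq_div_iff hs.ne',
      Real.mul_self_sqrt ht.le]
  have h6 : K * ((Real.sqrt t)⁻¹ * (2 * b + 2 * b) + 2 * (t⁻¹ * (2 * Real.sqrt t))) =
      K * ((Real.sqrt t)⁻¹ * (4 * b) + 4 * (t⁻¹ * Real.sqrt t)) := by ring
  rw [h6, h5, hK]
  apply le_of_eq
  ring

/-- **the integrated kernel is almost nonnegative** -/
theorem kk_int {a b t : ℝ} (hab : a < b) (hb : 0 < b) (ht : 0 < t) (l m : ℝ) :
    -(2 / (b - a) * (4 * b + 4) * (Real.sqrt t)⁻¹) ≤
      ∫ E, cut a b E * kk t (l - E) (m - E) := by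
  obtain ⟨Λ, hΛ⟩ : ∃ Λ, Λ = 2 / (b - a) * (4 * b + 4) * (Real.sqrt t)⁻¹ := ⟨_, rfl⟩
  have hba : 0 < b - a := by linarith
  have hΛ0 : 0 ≤ Λ := by rw [hΛ]; positivity
  obtain ⟨D, hD⟩ : ∃ D, D = l - m := ⟨_, rfl⟩
  obtain ⟨F, hF⟩ : ∃ F, F = ∫ E, cut a b E * kk t (l - E) (m - E) := ⟨_, rfl⟩
  rw [← hΛ, ← hF]
  have hp : ∀ m : ℝ, Integrable fun E => cut a b E * kp t (m - E) := fun m =>
    cut_int hab ((kp_cont ht).comp (by fun_prop))
  have hq : ∀ m : ℝ, Integrable fun E => cut a b E * kq t (m - E) := fun m =>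
    cut_int hab ((kq_cont ht).comp (by fun_prop))
  have h1 : (D ^ 2 + 4 * t ^ 2) * F = D * (PP' a b t m - PP' a b t l) +
      2 * t * (QQ' a b t l + QQ' a b t m) := by
    rw [hF]
    unfold PP' QQ'
    have hp2 : Integrable fun E => D * (cut a b E * kp t (m - E) - cut a b E * kp t (l - E)) :=
      ((hp m).sub (hp l)).const_mul _
    have hq2 : Integrable fun E => 2 * t * (cut a b E * kq t (l - E) + cut a b E * kq t (m - E)) :=
      ((hq l).add (hq m)).const_mul _
    rw [← integral_const_mul, ← integral_sub (hp m) (hp l), ← integral_add (hq l) (hq m),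
      ← integral_const_mul, ← integral_const_mul, ← integral_add hp2 hq2]
    refine integral_congr_ae (Filter.Eventually.of_forall fun E => ?_)
    have h2 := kk_eq ht (l - E) (m - E)
    have h3 : l - E - (m - E) = D := by rw [hD]; ring
    rw [h3] at h2
    linear_combination (cut a b E) * h2
  have hQ : ∀ m : ℝ, 0 ≤ QQ' a b t m := fun m =>
    integral_nonneg fun E => mul_nonneg (cut_nonneg a b E) (kq_nonneg ht _)
  have h2 := PP_lip hab hb ht l m
  rw [← hΛ] at h2
  have h3 : |D * (PP' a b t m - PP' a b t l)| ≤ Λ * D ^ 2 := by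
    rw [abs_mul]
    calc |D| * |PP' a b t m - PP' a b t l| ≤ |D| * (Λ * |m - l|) := by gcongr
      _ = Λ * D ^ 2 := by
          rw [abs_sub_comm m l, ← hD, ← sq_abs D]
          ring
  have h4 := (abs_le.1 h3).1
  have h5 : 0 ≤ 2 * t * (QQ' a b t l + QQ' a b t m) :=
    mul_nonneg (by positivity) (add_nonneg (hQ l) (hQ m))
  have h6 : 0 < D ^ 2 + 4 * t ^ 2 := by positivity
  have h7 : 0 ≤ 4 * t ^ 2 * Λ := by positivity
  by_contra hcon
  push Not at hcon
  have h8 : (D ^ 2 + 4 * t ^ 2) * F < (D ^ 2 + 4 * t ^ 2) * (-Λ) :=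
    mul_lt_mul_of_pos_left hcon h6
  nlinarith

/-- the diagonal -/
theorem kk_diag {a b t : ℝ} (hab : a < b) (ht : 0 < t) (ht2 : t ≤ (b - a) / 2)
    {l : ℝ} (hl : |l| ≤ a) : t⁻¹ ≤ ∫ E, cut a b E * kk t (l - E) (l - E) := by
  have h1 : ∀ E, (Set.Icc (l - t) (l + t)).indicator (fun _ => 1 / (2 * t ^ 2)) E ≤
      cut a b E * kk t (l - E) (l - E) := by
    intro E
    have hkk : kk t (l - E) (l - E) = 1 / ((l - E) ^ 2 + t ^ 2) := by
      unfold kk
      have : (l - E) ^ 2 + t ^ 2 ≠ 0 := by positivity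
      field_simp
    by_cases h : E ∈ Set.Icc (l - t) (l + t)
    · rw [Set.indicator_of_mem h]
      have h2 : |E - l| ≤ t := by
        rw [abs_le]
        constructor <;> linarith [h.1, h.2]
      have h3 : |E| ≤ (a + b) / 2 := by
        have h4 := abs_add_le (E - l) l
        rw [sub_add_cancel] at h4
        linarith
      rw [cut_one hab h3, one_mul, hkk]
      have h4 : (l - E) ^ 2 ≤ t ^ 2 := by
        rw [← sq_abs, abs_sub_comm]
        exact pow_le_pow_left₀ (abs_nonneg _) h2 2
      gcongr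
      linarith
    · rw [Set.indicator_of_notMem h, hkk]
      have := cut_nonneg a b E
      positivity
  have hc : Continuous fun E => kk t (l - E) (l - E) := by
    unfold kk
    refine Continuous.div (by fun_prop) (by fun_prop) fun E => ?_
    positivity
  have h2 := integral_mono ((integrable_indicator_iff measurableSet_Icc).2
    continuousOn_const.integrableOn_Icc) (cut_int hab hc) h1
  rw [integral_indicator measurableSet_Icc, setIntegral_const,
    Real.volume_real_Icc_of_le (by linarith), smul_eq_mul] at h2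
  refine le_trans (le_of_eq ?_) h2
  field_simp
  ring

end Pool.Agent.Run7.h47.Q
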