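import Pool.Agent.Run7.h47.QE1
import Pool.Agent.Run7.h47.Eig2

/-! Quantum ergodicity: the inequality for the eigenvectors. -/

set_option autoImplicit false
set_option linter.unusedSectionVars false

open scoped BigOperators Matrix Topology
open MeasureTheory ProbabilityTheory

namespace Pool.Agent.Run7.h47.Q

open Pool.Agent.W788.MFP.Four Pool.Agent.W788.BK
open Pool.Agent.W788.MFP.Gm (Γ)

variable {d L : ℕ} [NeZero L]

theorem complete {ι : Type} [Fintype ι] (u : OrthonormalBasis ι ℂ (EuclideanSpace ℂ (T d L)))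
    (x y : T d L) : ∑ j, u j x * (starRingEnd ℂ) (u j y) = if x = y then 1 else 0 := by
  have h := u.sum_inner_mul_inner (EuclideanSpace.single x (1 : ℂ)) (EuclideanSpace.single y 1)
  have h1 : ∀ (j : ι) (x : T d L), inner ℂ (EuclideanSpace.single x (1 : ℂ)) (u j) = u j x := by
    intro j x
    rw [EuclideanSpace.inner_single_left, map_one, one_mul]
  have h2 : ∀ (j : ι) (x : T d L), inner ℂ (u j) (EuclideanSpace.single x (1 : ℂ)) =
      (starRingEnd ℂ) (u j x) := by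
    intro j x
    rw [EuclideanSpace.inner_single_right, one_mul]
  simp only [h1, h2] at h
  rw [h, EuclideanSpace.inner_single_left, map_one, one_mul]
  simp

/-- the resolvent in the eigenbasis -/
theorem spec_R {σ E t : ℝ} (ht : 0 < t) (V : T d L → ℝ) {ι : Type} [Fintype ι]
    (u : OrthonormalBasis ι ℂ (EuclideanSpace ℂ (T d L))) {lam : ι → ℝ}
    (h : ∀ j, IsEig σ (lam j) V (u j)) (x y : T d L) :
    R σ E t V x y = ∑ j, ((lam j - E : ℝ) - (t : ℂ) * Complex.I)⁻¹ *
      (u j x * (starRingEnd ℂ) (u j y)) := by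
  have h1 : R σ E t V x y = ∑ z, R σ E t V x z * (if z = y then 1 else 0) := by
    simp
  rw [h1]
  simp only [← complete u]
  simp only [Finset.mul_sum]
  rw [Finset.sum_comm]
  refine Finset.sum_congr rfl fun j _ => ?_
  have h2 := eig_R (E := E) ht (h j) x
  calc ∑ z, R σ E t V x z * (u j z * (starRingEnd ℂ) (u j y)) =
      (∑ z, R σ E t V x z * u j z) * (starRingEnd ℂ) (u j y) := by
        rw [Finset.sum_mul]
        exact Finset.sum_congr rfl fun z _ => by ring
    _ = _ := by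
        rw [h2]
        ring

/-- the matrix elements -/
noncomputable def Bm {ι : Type} (p : T d L) (u : ι → T d L → ℂ) (j k : ι) : ℂ :=
  ∑ x, e p x * ((starRingEnd ℂ) (u j x) * u k x)

theorem Bm_diag {ι : Type} (p : T d L) (u : ι → T d L → ℂ) (j : ι) :
    Bm p u j j = ∑ x, e p x * ((‖u j x‖ ^ 2 : ℝ) : ℂ) := by
  unfold Bm
  refine Finset.sum_congr rfl fun x _ => ?_
  have h0 := Complex.mul_conj (u j x)
  rw [Complex.normSq_eq_norm_sq] at h0
  rw [← h0]
  ring

theorem cc_re {t x y : ℝ} (ht : 0 < t) : (((x : ℝ) - (t : ℂ) * Complex.I)⁻¹ *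
    (starRingEnd ℂ) ((y : ℝ) - (t : ℂ) * Complex.I)⁻¹).re = kk t x y := by
  have h1 : ∀ x : ℝ, ((x : ℂ) - (t : ℂ) * Complex.I)⁻¹ =
      ((x / (x ^ 2 + t ^ 2) : ℝ) : ℂ) + ((t / (x ^ 2 + t ^ 2) : ℝ) : ℂ) * Complex.I := by
    intro x
    have h2 : (x : ℂ) ^ 2 + (t : ℂ) ^ 2 ≠ 0 := by
      have : (x ^ 2 + t ^ 2 : ℝ) ≠ 0 := by positivity
      exact_mod_cast this
    refine inv_eq_of_mul_eq_one_right ?_
    push_cast
    field_simp
    linear_combination (-(t : ℂ) ^ 2) * Complex.I_sq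
  rw [h1, h1]
  simp only [map_add, map_mul, Complex.conj_ofReal, Complex.conj_I, Complex.mul_re, Complex.add_re,
    Complex.ofReal_re, Complex.ofReal_im, Complex.I_re, Complex.I_im, Complex.add_im,
    Complex.mul_im, Complex.neg_re, Complex.neg_im]
  unfold kk
  have h2 : x ^ 2 + t ^ 2 ≠ 0 := by positivity
  have h3 : y ^ 2 + t ^ 2 ≠ 0 := by positivity
  field_simp
  ring

/-- the sum at one momentum in the eigenbasis -/
theorem Hp_spec {σ E t : ℝ} (ht : 0 < t) (V : T d L → ℝ) (p : T d L) {ι : Type} [Fintype ι]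
    (u : OrthonormalBasis ι ℂ (EuclideanSpace ℂ (T d L))) {lam : ι → ℝ}
    (h : ∀ j, IsEig σ (lam j) V (u j)) :
    (Hp p fun x y => ‖R σ E t V x y‖ ^ 2).re = ∑ j, ∑ k, kk t (lam j - E) (lam k - E) *
      ‖Bm p (fun j x => u j x) k j‖ ^ 2 := by
  obtain ⟨c, hc⟩ : ∃ c : ι → ℂ, c = fun j => ((lam j - E : ℝ) - (t : ℂ) * Complex.I)⁻¹ := ⟨_, rfl⟩
  have h0 : ∀ z : ℂ, ((‖z‖ ^ 2 : ℝ) : ℂ) = z * (starRingEnd ℂ) z := fun z => by
    rw [Complex.mul_conj, Complex.normSq_eq_norm_sq]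
  have h1 : Hp p (fun x y => ‖R σ E t V x y‖ ^ 2) = ∑ j, ∑ k, (c j * (starRingEnd ℂ) (c k)) *
      ((‖Bm p (fun j x => u j x) k j‖ ^ 2 : ℝ) : ℂ) := by
    have h2 : ∀ x y, e p (x - y) * ((‖R σ E t V x y‖ ^ 2 : ℝ) : ℂ) = ∑ j, ∑ k,
        (c j * (starRingEnd ℂ) (c k)) * ((e p x * ((starRingEnd ℂ) (u k x) * u j x)) *
          (starRingEnd ℂ) (e p y * ((starRingEnd ℂ) (u k y) * u j y))) := by
      intro x y
      rw [h0, spec_R ht V u h, map_sum, Finset.sum_mul_sum, Finset.mul_sum]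
      refine Finset.sum_congr rfl fun j _ => ?_
      rw [Finset.mul_sum]
      refine Finset.sum_congr rfl fun k _ => ?_
      rw [hc, sub_eq_add_neg, e_add, e_neg]
      simp only [map_mul, Complex.conj_conj]
      ring
    unfold Hp
    simp only [h2]
    have h3 : ∀ j k : ι, (c j * (starRingEnd ℂ) (c k)) *
        ((‖Bm p (fun j x => u j x) k j‖ ^ 2 : ℝ) : ℂ) = ∑ x, ∑ y,
        (c j * (starRingEnd ℂ) (c k)) * ((e p x * ((starRingEnd ℂ) (u k x) * u j x)) *
          (starRingEnd ℂ) (e p y * ((starRingEnd ℂ) (u k y) * u j y))) := by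
      intro j k
      rw [h0]
      unfold Bm
      rw [map_sum, Finset.sum_mul_sum, Finset.mul_sum]
      refine Finset.sum_congr rfl fun x _ => ?_
      rw [Finset.mul_sum]
    simp only [h3]
    rw [Finset.sum_congr rfl fun x _ => Finset.sum_comm, Finset.sum_comm]
    refine Finset.sum_congr rfl fun j _ => ?_
    rw [Finset.sum_congr rfl fun x _ => Finset.sum_comm, Finset.sum_comm]
  rw [h1, Complex.re_sum]
  refine Finset.sum_congr rfl fun j _ => ?_
  rw [Complex.re_sum]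
  refine Finset.sum_congr rfl fun k _ => ?_
  rw [mul_comm, Complex.re_ofReal_mul, hc, cc_re ht, mul_comm]

/-- Parseval -/
theorem Bm_sum (p : T d L) {ι : Type} [Fintype ι]
    (u : OrthonormalBasis ι ℂ (EuclideanSpace ℂ (T d L))) :
    ∑ j, ∑ k, ‖Bm p (fun j x => u j x) k j‖ ^ 2 ≤ NN d L := by
  have h1 : ∀ j, ∑ k, ‖Bm p (fun j x => u j x) k j‖ ^ 2 ≤ 1 := by
    intro j
    have h2 := bessel u.orthonormal (fun x => (starRingEnd ℂ) (e p x * u j x))
    have h3 : ∀ k, ‖∑ x, (starRingEnd ℂ) (e p x * u j x) * u k x‖ =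
        ‖Bm p (fun j x => u j x) k j‖ := by
      intro k
      rw [← RCLike.norm_conj, map_sum]
      congr 1
      unfold Bm
      refine Finset.sum_congr rfl fun x _ => ?_
      rw [map_mul, Complex.conj_conj]
      ring
    simp only [h3] at h2
    refine h2.trans (le_of_eq ?_)
    rw [← on_norm u.orthonormal j]
    refine Finset.sum_congr rfl fun x _ => ?_
    rw [RCLike.norm_conj, norm_mul, norm_e, one_mul]
  refine (Finset.sum_le_sum fun j _ => h1 j).trans (le_of_eq ?_)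
  rw [Finset.sum_const, Finset.card_univ, nsmul_eq_mul, mul_one]
  have h2 := Module.finrank_eq_card_basis u.toBasis
  rw [finrank_euclideanSpace] at h2
  rw [← h2]
  unfold NN
  rw [Fintype.card_pi]
  simp [ZMod.card]

theorem R_energy {σ E t : ℝ} (hσ : σ ≠ 0) (V : T d L → ℝ) :
    R σ E t V = R σ 0 t fun x => V x - E / σ := by
  rw [R_eq, R_eq]
  congr 1
  have h1 : ∀ v, HZ σ E t V *ᵥ v = HZ σ 0 t (fun x => V x - E / σ) *ᵥ v := by
    intro v
    funext x
    rw [HZ_mulVec, HZ_mulVec]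
    push_cast
    have : (σ : ℂ) ≠ 0 := by exact_mod_cast hσ
    field_simp
    ring
  ext x y
  have h2 := congrFun (h1 (Pi.single y 1)) x
  rw [Matrix.mulVec_single_one, Matrix.mulVec_single_one] at h2
  exact h2

/-- joint continuity -/
theorem R_cont2 {σ t : ℝ} (hσ : σ ≠ 0) (ht : 0 < t) (x y : T d L) :
    Continuous fun q : (T d L → ℝ) × ℝ => R σ q.2 t q.1 x y := by
  have h1 : (fun q : (T d L → ℝ) × ℝ => R σ q.2 t q.1 x y) =
      fun q => R σ 0 t (fun z => q.1 z - q.2 / σ) x y := by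
    funext q
    rw [R_energy hσ]
  rw [h1]
  exact (R_cont ht x y).comp (by fun_prop)

/-- the weighted sum -/
noncomputable def YY (σ a b t : ℝ) (p : T d L) (V : T d L → ℝ) : ℝ :=
  ∫ E, cut a b E * (Hp p fun x y => ‖R σ E t V x y‖ ^ 2).re

theorem kk_cont {t : ℝ} (ht : 0 < t) (l m : ℝ) : Continuous fun E => kk t (l - E) (m - E) := by
  unfold kk
  refine Continuous.div (by fun_prop) (by fun_prop) fun E => ?_
  positivity

/-- **the inequality for the eigenvectors** -/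
theorem YY_ge {σ a b t : ℝ} (hab : a < b) (hb : 0 < b) (ht : 0 < t) (ht2 : t ≤ (b - a) / 2)
    (p : T d L) (V : T d L → ℝ) {ι : Type} [Fintype ι]
    (u : OrthonormalBasis ι ℂ (EuclideanSpace ℂ (T d L))) {lam : ι → ℝ}
    (h : ∀ j, IsEig σ (lam j) V (u j)) :
    ∑ j, (if |lam j| ≤ a then ‖∑ x, e p x * ((‖u j x‖ ^ 2 : ℝ) : ℂ)‖ ^ 2 else 0) ≤
      t * (YY σ a b t p V + 2 / (b - a) * (4 * b + 4) * (Real.sqrt t)⁻¹ * NN d L) := by
  classical
  obtain ⟨Λ, hΛ⟩ : ∃ Λ, Λ = 2 / (b - a) * (4 * b + 4) * (Real.sqrt t)⁻¹ := ⟨_, rfl⟩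
  have hba : 0 < b - a := by linarith
  have hΛ0 : 0 ≤ Λ := by rw [hΛ]; positivity
  rw [← hΛ]
  have h1 : YY σ a b t p V = ∑ j, ∑ k, (∫ E, cut a b E * kk t (lam j - E) (lam k - E)) *
      ‖Bm p (fun j x => u j x) k j‖ ^ 2 := by
    unfold YY
    simp only [Hp_spec ht V p u h, Finset.mul_sum]
    have hi : ∀ j k, Integrable fun E => cut a b E * (kk t (lam j - E) (lam k - E) *
        ‖Bm p (fun j x => u j x) k j‖ ^ 2) := by
      intro j k
      exact cut_int hab ((kk_cont ht _ _).mul continuous_const)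
    rw [integral_finsetSum _ fun j _ => integrable_finsetSum _ fun k _ => hi j k]
    refine Finset.sum_congr rfl fun j _ => ?_
    rw [integral_finsetSum _ fun k _ => hi j k]
    refine Finset.sum_congr rfl fun k _ => ?_
    rw [← integral_mul_const]
    refine integral_congr_ae (Filter.Eventually.of_forall fun E => ?_)
    simp only
    ring
  have h2 : ∀ j k, (if j = k then (if |lam j| ≤ a then t⁻¹ * ‖Bm p (fun j x => u j x) k j‖ ^ 2
      else 0) else 0) ≤
      (∫ E, cut a b E * kk t (lam j - E) (lam k - E)) * ‖Bm p (fun j x => u j x) k j‖ ^ 2 +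
        Λ * ‖Bm p (fun j x => u j x) k j‖ ^ 2 := by
    intro j k
    have h3 := kk_int hab hb ht (lam j) (lam k)
    rw [← hΛ] at h3
    obtain ⟨B, hB⟩ : ∃ B, B = ‖Bm p (fun j x => u j x) k j‖ ^ 2 := ⟨_, rfl⟩
    have hB0 : 0 ≤ B := by rw [hB]; positivity
    rw [← hB, ← add_mul]
    have h4 : 0 ≤ ((∫ E, cut a b E * kk t (lam j - E) (lam k - E)) + Λ) * B :=
      mul_nonneg (by linarith) hB0
    by_cases hjk : j = k
    · rw [if_pos hjk]
      by_cases hl : |lam j| ≤ a
      · rw [if_pos hl]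
        subst hjk
        have h5 := kk_diag hab ht ht2 hl
        gcongr
        linarith
      · rw [if_neg hl]
        exact h4
    · rw [if_neg hjk]
      exact h4
  have h3 : ∑ j, ∑ k, (if j = k then (if |lam j| ≤ a then
      t⁻¹ * ‖Bm p (fun j x => u j x) k j‖ ^ 2 else 0) else 0) ≤ YY σ a b t p V + Λ * NN d L := by
    rw [h1]
    refine (Finset.sum_le_sum fun j _ => Finset.sum_le_sum fun k _ => h2 j k).trans ?_
    simp only [Finset.sum_add_distrib, ← Finset.mul_sum]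
    have := mul_le_mul_of_nonneg_left (Bm_sum p u) hΛ0
    linarith
  have h4 : ∀ j, ∑ k, (if j = k then (if |lam j| ≤ a then
      t⁻¹ * ‖Bm p (fun j x => u j x) k j‖ ^ 2 else 0) else 0) =
      t⁻¹ * (if |lam j| ≤ a then ‖∑ x, e p x * ((‖u j x‖ ^ 2 : ℝ) : ℂ)‖ ^ 2 else 0) := by
    intro j
    rw [Finset.sum_ite_eq Finset.univ j, if_pos (Finset.mem_univ j), Bm_diag]
    split_ifs
    · rfl
    · rw [mul_zero]
  simp only [h4] at h3
  rw [← Finset.mul_sum, inv_mul_le_iff₀ ht] at h3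
  exact h3

end Pool.Agent.Run7.h47.Q
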