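import Pool.Agent.Run7.h47.Cal
import Pool.Agent.W788.BK.Basic

/-! The resolvent of the Anderson model on the torus. -/

set_option autoImplicit false
set_option linter.unusedSectionVars false

open scoped BigOperators Matrix
open MeasureTheory

namespace Pool.Agent.Run7.h47

open Pool.Agent.W788.MFP.Four Pool.Agent.W788.BK
open Pool.Agent.W788.MFP.Gm (Γ)

section gen

variable {n : Type} [Fintype n] [DecidableEq n] {E : Type} [NormedAddCommGroup E] [NormedSpace ℝ E]

theorem prod_diff {ι : Type} [DecidableEq ι] (s : Finset ι) (f : ι → E → ℂ)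
    (h : ∀ i, Differentiable ℝ (f i)) : Differentiable ℝ fun x => ∏ i ∈ s, f i x := by
  induction s using Finset.induction_on with
  | empty => simp
  | insert a s ha ih =>
    simp only [Finset.prod_insert ha]
    exact (h a).mul ih

theorem det_diff (M : E → Matrix n n ℂ) (h : ∀ i j, Differentiable ℝ fun x => M x i j) :
    Differentiable ℝ fun x => (M x).det := by
  simp only [Matrix.det_apply']
  refine Differentiable.fun_sum fun s _ => ?_
  refine Differentiable.const_mul ?_ _
  exact prod_diff _ (fun i x => M x (s i) i) fun i => h _ _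

theorem inv_diff (M : E → Matrix n n ℂ) (h : ∀ i j, Differentiable ℝ fun x => M x i j)
    (hu : ∀ x, IsUnit (M x)) (a b : n) : Differentiable ℝ fun x => (M x)⁻¹ a b := by
  have h1 : ∀ x, (M x)⁻¹ a b = ((M x).det)⁻¹ * (M x).adjugate a b := by
    intro x
    rw [Matrix.inv_def, Ring.inverse_eq_inv', Matrix.smul_apply, smul_eq_mul]
  simp only [h1]
  refine Differentiable.mul ?_ ?_
  · refine (det_diff M h).inv fun x => ?_
    exact ((Matrix.isUnit_iff_isUnit_det _).1 (hu x)).ne_zero
  · simp only [Matrix.adjugate_apply]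
    refine det_diff _ fun i j => ?_
    simp only [Matrix.updateRow_apply]
    split_ifs
    · exact differentiable_const _
    · exact h i j

end gen

variable {d L : ℕ} [NeZero L]

/-- the matrix of `Δ - E` -/
noncomputable def X0 (E : ℝ) : Matrix (T d L) (T d L) ℂ :=
  Matrix.of fun x y => ((K (fun k => adj k - E) (x - y) : ℝ) : ℂ)

/-- the potential at one site -/
noncomputable def AS (σ : ℝ) (y : T d L) : Matrix (T d L) (T d L) ℂ :=
  Matrix.diagonal (Pi.single y (σ : ℂ))

/-- the resolvent -/
noncomputable def R (σ E t : ℝ) (V : T d L → ℝ) : Matrix (T d L) (T d L) ℂ :=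
  RR (X0 E) (AS σ) t V

theorem X0_symm (E : ℝ) (x y : T d L) : X0 E x y = X0 E y x := by
  unfold X0
  rw [Matrix.of_apply, Matrix.of_apply, ← neg_sub, K_neg]

theorem X0_herm (E : ℝ) : (X0 E : Matrix (T d L) (T d L) ℂ).IsHermitian := by
  ext x y
  rw [Matrix.conjTranspose_apply, X0_symm]
  unfold X0
  rw [Matrix.of_apply, RCLike.star_def, Complex.conj_ofReal]

theorem AS_herm (σ : ℝ) (y : T d L) : (AS σ y).IsHermitian := by
  unfold AS Matrix.IsHermitian
  rw [Matrix.diagonal_conjTranspose]
  congr 1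
  funext x
  rw [Pi.star_apply]
  by_cases h : x = y
  · subst h
    simp
  · simp [h]

theorem XX_eq (σ E : ℝ) (V : T d L → ℝ) :
    XX (X0 E) (AS σ) V = X0 E + Matrix.diagonal fun x => (σ : ℂ) * V x := by
  unfold XX AS
  congr 1
  ext x y
  rw [Matrix.sum_apply]
  by_cases h : x = y
  · subst h
    simp only [Matrix.smul_apply, Matrix.diagonal_apply_eq, smul_eq_mul]
    rw [Finset.sum_eq_single x]
    · simp [mul_comm]
    · intro b _ hb
      simp [hb.symm]
    · intro h
      exact absurd (Finset.mem_univ _) h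
  · rw [Matrix.diagonal_apply_ne _ h]
    refine Finset.sum_eq_zero fun b _ => ?_
    rw [Matrix.smul_apply, Matrix.diagonal_apply_ne _ h, smul_zero]

/-- the matrix `H - z` -/
noncomputable def HZ (σ E t : ℝ) (V : T d L → ℝ) : Matrix (T d L) (T d L) ℂ :=
  X0 E + Matrix.diagonal (fun x => (σ : ℂ) * V x) - ((t : ℂ) * Complex.I) • 1

theorem HZ_eq (σ E t : ℝ) (V : T d L → ℝ) :
    HZ σ E t V = XX (X0 E) (AS σ) V - ((t : ℂ) * Complex.I) • 1 := by
  rw [XX_eq]
  rfl

theorem HZ_mul {σ E t : ℝ} (ht : 0 < t) (V : T d L → ℝ) : HZ σ E t V * R σ E t V = 1 := by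
  rw [HZ_eq]
  exact mul_RR (X0_herm E) (AS_herm σ) ht V

theorem mul_HZ {σ E t : ℝ} (ht : 0 < t) (V : T d L → ℝ) : R σ E t V * HZ σ E t V = 1 := by
  rw [HZ_eq]
  exact RR_mul (X0_herm E) (AS_herm σ) ht V

theorem R_eq (σ E t : ℝ) (V : T d L → ℝ) : R σ E t V = (HZ σ E t V)⁻¹ := by
  rw [HZ_eq]
  rfl

theorem HZ_symm (σ E t : ℝ) (V : T d L → ℝ) : (HZ σ E t V)ᵀ = HZ σ E t V := by
  unfold HZ
  rw [Matrix.transpose_sub, Matrix.transpose_add, Matrix.diagonal_transpose,
    Matrix.transpose_smul, Matrix.transpose_one]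
  congr 2
  ext x y
  rw [Matrix.transpose_apply, X0_symm]

theorem R_symm (σ E t : ℝ) (V : T d L → ℝ) (x y : T d L) : R σ E t V x y = R σ E t V y x := by
  have h : (R σ E t V)ᵀ = R σ E t V := by
    rw [R_eq, Matrix.transpose_nonsing_inv, HZ_symm]
  exact (congrFun (congrFun h y) x : (R σ E t V)ᵀ y x = _)

/-- covariance -/
theorem R_shift (σ E t : ℝ) (V : T d L → ℝ) (a x y : T d L) :
    R σ E t (fun z => V (z + a)) x y = R σ E t V (x + a) (y + a) := by
  have h : HZ σ E t (fun z => V (z + a)) =
      (HZ σ E t V).submatrix (Equiv.addRight a) (Equiv.addRight a) := by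
    ext x y
    unfold HZ X0
    simp only [Matrix.submatrix_apply, Equiv.coe_addRight, Matrix.sub_apply, Matrix.add_apply,
      Matrix.of_apply, Matrix.smul_apply, smul_eq_mul]
    rw [add_sub_add_right_eq_sub]
    congr 1
    · congr 1
      by_cases hxy : x = y
      · subst hxy
        simp
      · rw [Matrix.diagonal_apply_ne _ hxy, Matrix.diagonal_apply_ne]
        exact fun h => hxy (add_right_cancel h)
    · congr 1
      by_cases hxy : x = y
      · subst hxy
        simp
      · rw [Matrix.one_apply_ne hxy, Matrix.one_apply_ne]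
        exact fun h => hxy (add_right_cancel h)
  rw [R_eq, R_eq, h, Matrix.inv_submatrix_equiv, Matrix.submatrix_apply]
  rfl

theorem R_diff {σ E t : ℝ} (ht : 0 < t) (a b : T d L) :
    Differentiable ℝ fun V : T d L → ℝ => R σ E t V a b := by
  have h : ∀ V : T d L → ℝ, R σ E t V = (HZ σ E t V)⁻¹ := fun V => R_eq σ E t V
  simp only [h]
  refine inv_diff (fun V => HZ σ E t V) (fun i j => ?_) (fun V => ?_) a b
  · unfold HZ
    simp only [Matrix.sub_apply, Matrix.add_apply]
    suffices key : Differentiable ℝ fun V : T d L → ℝ =>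
        (Matrix.diagonal (fun x => (σ : ℂ) * (V x : ℂ)) : Matrix (T d L) (T d L) ℂ) i j from
      (key.const_add _).sub_const _
    by_cases hij : i = j
    · subst hij
      simp only [Matrix.diagonal_apply_eq]
      refine Differentiable.const_mul ?_ _
      have h2 : Differentiable ℝ fun V : T d L → ℝ => V i := by fun_prop
      have h3 : Differentiable ℝ fun V : T d L → ℝ => ((V i : ℝ) : ℂ) :=
        Complex.ofRealCLM.differentiable.comp h2
      exact h3
    · simp only [Matrix.diagonal_apply_ne _ hij]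
      exact differentiable_const _
  · exact IsUnit.of_mul_eq_one _ (HZ_mul ht V)

theorem R_cont {σ E t : ℝ} (ht : 0 < t) (a b : T d L) :
    Continuous fun V : T d L → ℝ => R σ E t V a b := (R_diff ht a b).continuous

/-- the resolvent identity for one coordinate -/
theorem R_res {σ E t : ℝ} (ht : 0 < t) (V : T d L → ℝ) (y : T d L) (s : ℝ) (a b : T d L) :
    R σ E t (Function.update V y s) a b = R σ E t V a b -
      (σ * (s - V y)) * (R σ E t (Function.update V y s) a y * R σ E t V y b) := by
  set U := Function.update V y s with hU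
  have h1 : HZ σ E t U = HZ σ E t V + Matrix.diagonal (Pi.single y ((σ : ℂ) * (s - V y))) := by
    unfold HZ
    have h2 : (Matrix.diagonal fun x => (σ : ℂ) * (U x : ℂ)) =
        (Matrix.diagonal fun x => (σ : ℂ) * (V x : ℂ)) +
          Matrix.diagonal (Pi.single y ((σ : ℂ) * (s - V y))) := by
      rw [Matrix.diagonal_add]
      congr 1
      funext x
      by_cases hx : x = y
      · subst hx
        simp [hU]
        ring
      · simp [hU, hx]
    rw [h2]
    abel
  have h3 : R σ E t U - R σ E t V =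
      -(R σ E t U * Matrix.diagonal (Pi.single y ((σ : ℂ) * (s - V y))) * R σ E t V) := by
    have e1 : Matrix.diagonal (Pi.single y ((σ : ℂ) * (s - V y))) = HZ σ E t U - HZ σ E t V := by
      rw [h1]
      abel
    rw [e1, mul_sub, mul_HZ ht U, sub_mul, one_mul, mul_assoc, HZ_mul ht V, mul_one]
    abel
  have h4 := congrFun (congrFun h3 a) b
  rw [Matrix.sub_apply, Matrix.neg_apply, Matrix.mul_apply] at h4
  simp only [Matrix.mul_diagonal] at h4
  rw [Finset.sum_eq_single y] at h4
  · rw [Pi.single_eq_same] at h4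
    linear_combination h4
  · intro c _ hc
    rw [Pi.single_eq_of_ne hc]
    ring
  · intro h
    exact absurd (Finset.mem_univ _) h

/-- the derivative of the resolvent -/
theorem R_der {σ E t : ℝ} (ht : 0 < t) (V : T d L → ℝ) (y a b : T d L) :
    HasDerivAt (fun s : ℝ => R σ E t (Function.update V y s) a b)
      (-(σ * (R σ E t V a y * R σ E t V y b))) (V y) := by
  have hc : Continuous fun s : ℝ => R σ E t (Function.update V y s) a y :=
    (R_cont ht a y).comp (continuous_const.update y continuous_id)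
  have h1 : HasDerivAt (fun s : ℝ => ((s - V y : ℝ) : ℂ)) 1 (V y) := by
    have := ((hasDerivAt_id (V y)).sub_const (V y)).ofReal_comp
    simpa using this
  -- the product of a function vanishing at the point and a continuous one
  have h2 : HasDerivAt (fun s : ℝ => ((s - V y : ℝ) : ℂ) * R σ E t (Function.update V y s) a y)
      (R σ E t V a y) (V y) := by
    rw [hasDerivAt_iff_tendsto_slope]
    have h3 : Filter.Tendsto (fun s : ℝ => R σ E t (Function.update V y s) a y)
        (nhdsWithin (V y) {V y}ᶜ) (nhds (R σ E t V a y)) := by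
      have h4 := hc.tendsto (V y)
      rw [Function.update_eq_self] at h4
      exact h4.mono_left nhdsWithin_le_nhds
    refine h3.congr' ?_
    filter_upwards [self_mem_nhdsWithin] with s hs
    have hs' : (s : ℝ) - V y ≠ 0 := sub_ne_zero.2 hs
    rw [slope_def_module]
    simp only [sub_self, Complex.ofReal_zero, zero_mul, sub_zero]
    rw [Complex.real_smul]
    push_cast
    have : ((s : ℂ) - V y) ≠ 0 := by exact_mod_cast hs'
    field_simp
  have h5 := ((h2.const_mul (σ * R σ E t V y b)).const_sub (R σ E t V a b))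
  have h6 : (fun s : ℝ => R σ E t (Function.update V y s) a b) = fun s : ℝ =>
      R σ E t V a b - (σ * R σ E t V y b) *
        (((s - V y : ℝ) : ℂ) * R σ E t (Function.update V y s) a y) := by
    funext s
    rw [R_res ht V y s a b]
    push_cast
    ring
  rw [h6]
  refine h5.congr_deriv ?_
  ring

/-- the Ward identity -/
theorem R_ward {σ E t : ℝ} (ht : 0 < t) (V : T d L → ℝ) (a : T d L) :
    ∑ b, ‖R σ E t V a b‖ ^ 2 = (R σ E t V a a).im / t := by
  have h := (ward (X0_herm E) (AS_herm σ) ht V (Pi.single a 1)).1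
  have h1 : star (Pi.single a (1 : ℂ)) ⬝ᵥ (RR (X0 E) (AS σ) t V *ᵥ Pi.single a 1) =
      R σ E t V a a := by
    rw [Matrix.mulVec_single_one]
    have : star (Pi.single a (1 : ℂ)) = (Pi.single a 1 : T d L → ℂ) := by
      funext x
      by_cases hx : x = a
      · subst hx; simp
      · simp [hx]
    rw [this, single_one_dotProduct]
    rfl
  have h2 : nsq (RR (X0 E) (AS σ) t V *ᵥ Pi.single a 1) = ∑ b, ‖R σ E t V a b‖ ^ 2 := by
    rw [Matrix.mulVec_single_one]
    unfold nsq
    refine Finset.sum_congr rfl fun b _ => ?_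
    rw [R_symm]
    rfl
  rw [h1, h2] at h
  rw [h]
  field_simp

theorem R_bd {σ E t : ℝ} (ht : 0 < t) (V : T d L → ℝ) (a b : T d L) :
    ‖R σ E t V a b‖ ≤ t⁻¹ := by
  have h := RR_bd (X0_herm E) (AS_herm σ) ht V (Pi.single b 1)
  have h1 : ‖R σ E t V a b‖ ^ 2 ≤ nsq (RR (X0 E) (AS σ) t V *ᵥ Pi.single b 1) := by
    rw [Matrix.mulVec_single_one]
    unfold nsq
    exact Finset.single_le_sum (f := fun i => ‖(R σ E t V).col b i‖ ^ 2)
      (fun i _ => by positivity) (Finset.mem_univ a)
  have h2 : nsq (Pi.single b 1 : T d L → ℂ) = 1 := by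
    unfold nsq
    rw [Finset.sum_eq_single b]
    · simp
    · intro c _ hc
      simp [hc]
    · intro h
      exact absurd (Finset.mem_univ _) h
  rw [h2, mul_one] at h
  have h3 : ‖R σ E t V a b‖ ^ 2 ≤ (t⁻¹) ^ 2 := by
    rw [inv_pow]
    exact h1.trans h
  exact (sq_le_sq₀ (norm_nonneg _) (by positivity)).1 h3

theorem R_sum_le {σ E t : ℝ} (ht : 0 < t) (V : T d L → ℝ) (a : T d L) :
    ∑ b, ‖R σ E t V a b‖ ^ 2 ≤ (t ^ 2)⁻¹ := by
  rw [R_ward ht]
  have h1 : (R σ E t V a a).im ≤ t⁻¹ :=
    ((le_abs_self _).trans (Complex.abs_im_le_norm _)).trans (R_bd ht V a a)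
  calc (R σ E t V a a).im / t ≤ t⁻¹ / t := by gcongr
    _ = (t ^ 2)⁻¹ := by field_simp

theorem R_im_nonneg {σ E t : ℝ} (ht : 0 < t) (V : T d L → ℝ) (a : T d L) :
    0 ≤ (R σ E t V a a).im := by
  have h1 := R_ward (σ := σ) (E := E) ht V a
  have h2 : 0 ≤ ∑ b, ‖R σ E t V a b‖ ^ 2 := Finset.sum_nonneg fun _ _ => by positivity
  rw [h1] at h2
  by_contra hcon
  push Not at hcon
  have := div_neg_of_neg_of_pos hcon ht
  linarith

/-- invariance of the Gaussian measure under shifts -/
theorem mp_shift (a : T d L) :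
    MeasurePreserving (fun V : T d L → ℝ => fun z => V (z + a)) (Γ (T d L)) (Γ (T d L)) := by
  have h := measurePreserving_piCongrLeft (fun _ : T d L => Pool.Agent.W788.MFP.Gm.γ)
    (Equiv.addRight (-a))
  have h2 : (MeasurableEquiv.piCongrLeft (fun _ : T d L => ℝ) (Equiv.addRight (-a)) :
      (T d L → ℝ) → (T d L → ℝ)) = fun V z => V (z + a) := by
    funext V z
    have h3 : z = Equiv.addRight (-a) (z + a) := by simp
    conv_lhs => rw [h3]
    exact MeasurableEquiv.piCongrLeft_apply_apply _ _ _
  rw [← h2]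
  exact h

end Pool.Agent.Run7.h47
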