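import Pool.Agent.Run7.h47.Free

/-! Riemann sums with exponentially small errors. -/

set_option autoImplicit false
set_option linter.unusedSectionVars false

open scoped BigOperators Matrix
open MeasureTheory Set

namespace Pool.Agent.Run7.h47.Q

open Pool.Agent.W788.MFP.Four Pool.Agent.W788.MFP.Dos
open Pool.Agent.W918.BK.Osc (U U_cont U_norm U_lip U_hasDeriv full)

theorem chi_conj {L : ℕ} [NeZero L] (q : ZMod L) :
    (starRingEnd ℂ) (ZMod.stdAddChar q : ℂ) = (ZMod.stdAddChar (-q) : ℂ) := by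
  rw [AddChar.map_neg_eq_conj]

theorem avP {L : ℕ} [NeZero L] (a b : ℕ) (h : a + b < L) :
    (L : ℂ)⁻¹ * ∑ q : ZMod L, (ZMod.stdAddChar q : ℂ) ^ a *
      (starRingEnd ℂ) (ZMod.stdAddChar q : ℂ) ^ b = if a = b then 1 else 0 := by
  have hL : (L : ℂ) ≠ 0 := by exact_mod_cast NeZero.ne L
  have h1 : ∀ q : ZMod L, (ZMod.stdAddChar q : ℂ) ^ a *
      (starRingEnd ℂ) (ZMod.stdAddChar q : ℂ) ^ b =
      (ZMod.stdAddChar (q * (((a : ℤ) - b : ℤ) : ZMod L)) : ℂ) := by
    intro q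
    rw [chi_conj, ← AddChar.map_nsmul_eq_pow, ← AddChar.map_nsmul_eq_pow,
      ← AddChar.map_add_eq_mul]
    congr 1
    rw [nsmul_eq_mul, nsmul_eq_mul]
    push_cast
    ring
  simp only [h1]
  rw [AddChar.sum_mulShift _ (ZMod.isPrimitive_stdAddChar L), ZMod.card]
  by_cases hab : a = b
  · subst hab
    simp [hL]
  · have h2 : (((a : ℤ) - b : ℤ) : ZMod L) ≠ 0 := by
      intro h0
      rw [ZMod.intCast_zmod_eq_zero_iff_dvd] at h0
      obtain ⟨c, hc⟩ := h0
      have h3 : c = 0 := by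
        by_contra hc0
        have h4 : 1 ≤ |c| := Int.one_le_abs hc0
        have h5 : |(a : ℤ) - b| = L * |c| := by
          rw [hc, abs_mul, Nat.abs_cast]
        have h6 : |(a : ℤ) - b| < L := by
          rw [abs_lt]
          constructor <;> omega
        nlinarith
      rw [h3, mul_zero] at hc
      omega
    rw [if_neg h2, if_neg hab]
    simp

theorem avI (a b : ℕ) :
    ((2 * Real.pi : ℝ) : ℂ)⁻¹ * ∫ t in (0 : ℝ)..(2 * Real.pi), (Complex.exp (Complex.I * t)) ^ a *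
      (starRingEnd ℂ) (Complex.exp (Complex.I * t)) ^ b = if a = b then 1 else 0 := by
  have hpi := Real.pi_pos
  have h1 : ∀ t : ℝ, (Complex.exp (Complex.I * t)) ^ a *
      (starRingEnd ℂ) (Complex.exp (Complex.I * t)) ^ b =
      Complex.exp ((Complex.I * ((a : ℂ) - b)) * t) := by
    intro t
    rw [← Complex.exp_conj, ← Complex.exp_nat_mul, ← Complex.exp_nat_mul, ← Complex.exp_add]
    congr 1
    rw [map_mul, Complex.conj_I, Complex.conj_ofReal]
    ring
  simp only [h1]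
  by_cases hab : a = b
  · subst hab
    simp only [sub_self, mul_zero, zero_mul, Complex.exp_zero, if_true]
    rw [intervalIntegral.integral_const, sub_zero]
    simp only [Complex.real_smul, mul_one]
    rw [inv_mul_cancel₀]
    exact_mod_cast (by positivity : (2 * Real.pi) ≠ 0)
  · have hab' : (a : ℂ) - b ≠ 0 := by
      rw [sub_ne_zero]
      exact_mod_cast hab
    have hc : Complex.I * ((a : ℂ) - b) ≠ 0 := mul_ne_zero Complex.I_ne_zero hab'
    rw [integral_exp_mul_complex hc, if_neg hab]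
    have h2 : Complex.exp (Complex.I * ((a : ℂ) - b) * ((2 * Real.pi : ℝ) : ℂ)) = 1 := by
      have h3 : Complex.I * ((a : ℂ) - b) * ((2 * Real.pi : ℝ) : ℂ) =
          (((a : ℤ) - b : ℤ) : ℂ) * (2 * Real.pi * Complex.I) := by
        push_cast
        ring
      rw [h3, Complex.exp_int_mul_two_pi_mul_I]
    rw [h2]
    simp

/-- the factorial -/
theorem fac_bd (n : ℕ) {x : ℝ} (hx : 0 ≤ x) (h : 8 * x ≤ n) :
    x ^ n / (n.factorial : ℝ) * 2 ≤ 2 * (1 / 2) ^ n := by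
  have h1 := Real.pow_div_factorial_le_exp (n : ℝ) (Nat.cast_nonneg n) n
  have h2 : Real.exp (n : ℝ) ≤ 4 ^ n := by
    rw [← mul_one (n : ℝ), Real.exp_nat_mul]
    exact pow_le_pow_left₀ (Real.exp_pos _).le (by linarith [Real.exp_one_lt_d9]) n
  have h3 : x ^ n ≤ (n / 8 : ℝ) ^ n := pow_le_pow_left₀ hx (by linarith) n
  have hf : (0 : ℝ) < n.factorial := by exact_mod_cast n.factorial_pos
  calc x ^ n / (n.factorial : ℝ) * 2 ≤ (n / 8 : ℝ) ^ n / (n.factorial : ℝ) * 2 := by gcongr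
    _ = (n : ℝ) ^ n / (n.factorial : ℝ) * (1 / 8) ^ n * 2 := by
        rw [div_eq_mul_one_div (n : ℝ) 8, mul_pow]
        ring
    _ ≤ 4 ^ n * (1 / 8) ^ n * 2 := by
        gcongr
        exact h1.trans h2
    _ = 2 * (1 / 2) ^ n := by
        rw [← mul_pow]
        norm_num
        ring

/-- the phase function -/
noncomputable def ph (z χ : ℂ) : ℂ := Complex.I * (z * χ + (starRingEnd ℂ) (z * χ))

theorem ph_eq (z χ : ℂ) : ph z χ = Complex.I * ((2 * (z * χ).re : ℝ) : ℂ) := by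
  unfold ph
  rw [Complex.add_conj]

theorem ph_norm {z χ : ℂ} (hχ : ‖χ‖ = 1) : ‖ph z χ‖ ≤ 2 * ‖z‖ := by
  unfold ph
  rw [norm_mul, Complex.norm_I, one_mul]
  refine (norm_add_le _ _).trans ?_
  rw [RCLike.norm_conj, norm_mul, hχ, mul_one]
  linarith

theorem ph_pow (z χ : ℂ) (n : ℕ) : (ph z χ) ^ n = ∑ m ∈ Finset.range (n + 1),
    (Complex.I ^ n * z ^ m * (starRingEnd ℂ) z ^ (n - m) * (n.choose m : ℂ)) *
      (χ ^ m * (starRingEnd ℂ) χ ^ (n - m)) := by
  unfold ph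
  rw [mul_pow, add_pow, Finset.mul_sum]
  refine Finset.sum_congr rfl fun m _ => ?_
  rw [map_mul, mul_pow, mul_pow]
  ring

/-- the Taylor polynomial -/
noncomputable def ty (n : ℕ) (z χ : ℂ) : ℂ :=
  ∑ k ∈ Finset.range n, (ph z χ) ^ k / (k.factorial : ℂ)

theorem ty_bd {n : ℕ} {z χ : ℂ} (hχ : ‖χ‖ = 1) (h : 16 * ‖z‖ ≤ n) :
    ‖Complex.exp (ph z χ) - ty n z χ‖ ≤ 2 * (1 / 2) ^ n := by
  have h1 := ph_norm (z := z) hχ
  have hn : (0 : ℝ) ≤ n := Nat.cast_nonneg n
  have hz := norm_nonneg z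
  have h2 : ‖ph z χ‖ / (n.succ : ℝ) ≤ 1 / 2 := by
    rw [div_le_iff₀ (by positivity)]
    push_cast
    linarith
  refine (Complex.exp_bound' h2).trans ?_
  exact fac_bd n (norm_nonneg _) (by linarith)

/-- a linear functional which sees the monomials -/
structure Av (F : (ℂ → ℂ) → ℂ) (N : ℕ) : Prop where
  add : ∀ (s : Finset ℕ) (f : ℕ → ℂ → ℂ), (∀ k ∈ s, Continuous (f k)) →
    F (fun χ => ∑ k ∈ s, f k χ) = ∑ k ∈ s, F (f k)
  mul : ∀ (c : ℂ) (f : ℂ → ℂ), F (fun χ => c * f χ) = c * F f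
  mon : ∀ a b : ℕ, a + b < N → F (fun χ => χ ^ a * (starRingEnd ℂ) χ ^ b) = if a = b then 1 else 0
  sub : ∀ f g : ℂ → ℂ, Continuous f → Continuous g → F (fun χ => f χ - g χ) = F f - F g
  bd : ∀ (f : ℂ → ℂ) (B : ℝ), Continuous f → (∀ χ, ‖χ‖ = 1 → ‖f χ‖ ≤ B) → ‖F f‖ ≤ B

/-- the discrete average -/
noncomputable def FD (L : ℕ) [NeZero L] (f : ℂ → ℂ) : ℂ :=
  (L : ℂ)⁻¹ * ∑ q : ZMod L, f (ZMod.stdAddChar q : ℂ)

/-- the average over the circle -/
noncomputable def FI (f : ℂ → ℂ) : ℂ :=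
  ((2 * Real.pi : ℝ) : ℂ)⁻¹ * ∫ t in (0 : ℝ)..(2 * Real.pi), f (Complex.exp (Complex.I * t))

theorem char_norm' {L : ℕ} [NeZero L] (q : ZMod L) : ‖(ZMod.stdAddChar q : ℂ)‖ = 1 := by
  rw [ZMod.stdAddChar_apply]
  exact Circle.norm_coe _

theorem FD_av (L : ℕ) [NeZero L] : Av (FD L) L where
  add s f _ := by
    unfold FD
    rw [Finset.sum_comm, Finset.mul_sum]
  mul c f := by
    unfold FD
    rw [← Finset.mul_sum]
    ring
  mon a b h := avP a b h
  sub f g _ _ := by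
    unfold FD
    rw [Finset.sum_sub_distrib, mul_sub]
  bd f B _ h := by
    unfold FD
    have hLR : (0 : ℝ) < L := by exact_mod_cast Nat.pos_of_ne_zero (NeZero.ne L)
    rw [norm_mul, norm_inv, Complex.norm_natCast]
    have h1 : ‖∑ q : ZMod L, f (ZMod.stdAddChar q : ℂ)‖ ≤ L * B := by
      refine (norm_sum_le _ _).trans ?_
      refine (Finset.sum_le_sum fun q _ => h _ (char_norm' q)).trans ?_
      rw [Finset.sum_const, Finset.card_univ, ZMod.card, nsmul_eq_mul]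
    calc (L : ℝ)⁻¹ * ‖∑ q : ZMod L, f (ZMod.stdAddChar q : ℂ)‖ ≤ (L : ℝ)⁻¹ * (L * B) := by gcongr
      _ = B := by field_simp

theorem FI_av (N : ℕ) : Av FI N where
  add s f hf := by
    unfold FI
    rw [intervalIntegral.integral_finsetSum, Finset.mul_sum]
    intro k hk
    exact ((hf k hk).comp (by fun_prop)).intervalIntegrable _ _
  mul c f := by
    unfold FI
    rw [intervalIntegral.integral_const_mul]
    ring
  mon a b _ := avI a b
  sub f g hf hg := by
    unfold FI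
    rw [intervalIntegral.integral_sub, mul_sub]
    · exact (hf.comp (by fun_prop)).intervalIntegrable _ _
    · exact (hg.comp (by fun_prop)).intervalIntegrable _ _
  bd f B _ h := by
    unfold FI
    have hpi := Real.pi_pos
    rw [norm_mul, norm_inv, Complex.norm_real, Real.norm_of_nonneg (by positivity)]
    have h1 : ‖∫ t in (0 : ℝ)..(2 * Real.pi), f (Complex.exp (Complex.I * t))‖ ≤
        B * |2 * Real.pi - 0| := by
      refine intervalIntegral.norm_integral_le_of_norm_le_const fun t _ => ?_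
      refine h _ ?_
      rw [mul_comm]
      exact Complex.norm_exp_ofReal_mul_I t
    rw [sub_zero, abs_of_pos (by positivity)] at h1
    calc (2 * Real.pi)⁻¹ * ‖∫ t in (0 : ℝ)..(2 * Real.pi), f (Complex.exp (Complex.I * t))‖ ≤
        (2 * Real.pi)⁻¹ * (B * (2 * Real.pi)) := by gcongr
      _ = B := by field_simp

/-- the moments -/
noncomputable def mo (z : ℂ) (k : ℕ) : ℂ := ∑ m ∈ Finset.range (k + 1),
  (Complex.I ^ k * z ^ m * (starRingEnd ℂ) z ^ (k - m) * (k.choose m : ℂ)) *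
    (if m = k - m then 1 else 0)

theorem mo_norm (z : ℂ) (k : ℕ) : mo z k = mo (‖z‖ : ℂ) k := by
  unfold mo
  refine Finset.sum_congr rfl fun m _ => ?_
  by_cases h : m = k - m
  · rw [if_pos h, ← h, mul_one, mul_one, Complex.conj_ofReal]
    have h1 : z ^ m * (starRingEnd ℂ) z ^ m = (‖z‖ : ℂ) ^ m * (‖z‖ : ℂ) ^ m := by
      rw [← mul_pow, ← mul_pow, Complex.mul_conj, Complex.normSq_eq_norm_sq]
      push_cast
      ring
    linear_combination (Complex.I ^ k * (k.choose m : ℂ)) * h1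
  · rw [if_neg h, mul_zero, mul_zero]

theorem ph_cont (z : ℂ) : Continuous (ph z) := by
  unfold ph
  fun_prop

theorem Av.pow {F : (ℂ → ℂ) → ℂ} {N : ℕ} (hF : Av F N) (z : ℂ) (k : ℕ) (hk : k < N) :
    F (fun χ => (ph z χ) ^ k) = mo z k := by
  simp only [ph_pow]
  rw [hF.add _ _ fun m _ => by fun_prop]
  unfold mo
  refine Finset.sum_congr rfl fun m hm => ?_
  rw [hF.mul, hF.mon]
  have := Finset.mem_range.1 hm
  omega

theorem Av.ty {F : (ℂ → ℂ) → ℂ} {N : ℕ} (hF : Av F N) (z : ℂ) :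
    F (fun χ => ty N z χ) = ∑ k ∈ Finset.range N, mo z k / (k.factorial : ℂ) := by
  unfold Q.ty
  have h1 : (fun χ => ∑ k ∈ Finset.range N, ph z χ ^ k / (k.factorial : ℂ)) =
      fun χ => ∑ k ∈ Finset.range N, ((k.factorial : ℂ)⁻¹ * ph z χ ^ k) := by
    funext χ
    exact Finset.sum_congr rfl fun k _ => by rw [div_eq_inv_mul]
  have hc := ph_cont z
  rw [h1, hF.add _ _ fun m _ => by fun_prop]
  refine Finset.sum_congr rfl fun k hk => ?_
  rw [hF.mul, hF.pow z k (Finset.mem_range.1 hk), div_eq_inv_mul]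

theorem ty_cont (n : ℕ) (z : ℂ) : Continuous fun χ => ty n z χ := by
  unfold ty
  have hc := ph_cont z
  fun_prop

theorem Av.exp {F : (ℂ → ℂ) → ℂ} {N : ℕ} (hF : Av F N) (z : ℂ) (hz : 16 * ‖z‖ ≤ N) :
    ‖F (fun χ => Complex.exp (ph z χ)) - ∑ k ∈ Finset.range N, mo z k / (k.factorial : ℂ)‖ ≤
      2 * (1 / 2) ^ N := by
  have hc := ph_cont z
  rw [← hF.ty z, ← hF.sub _ _ (by fun_prop) (ty_cont N z)]
  exact hF.bd _ _ ((by fun_prop : Continuous fun χ => Complex.exp (ph z χ)).sub (ty_cont N z))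
    fun χ hχ => ty_bd hχ hz

/-- **the exponential sums are Bessel functions** -/
theorem S_bes (L : ℕ) [NeZero L] (z : ℂ) (hz : 16 * ‖z‖ ≤ L) :
    ‖FD L (fun χ => Complex.exp (ph z χ)) - WJ ‖z‖‖ ≤ 4 * (1 / 2) ^ L := by
  have h1 := (FD_av L).exp z hz
  have h2 := (FI_av L).exp (‖z‖ : ℂ) (by rw [Complex.norm_real, norm_norm]; exact hz)
  have h3 : FI (fun χ => Complex.exp (ph (‖z‖ : ℂ) χ)) = WJ ‖z‖ := by
    unfold FI WJ
    congr 1
    refine intervalIntegral.integral_congr fun t _ => ?_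
    simp only
    unfold U
    rw [ph_eq]
    congr 4
    rw [Complex.re_ofReal_mul, mul_comm Complex.I, Complex.exp_ofReal_mul_I_re]
  rw [h3] at h2
  have h4 : ∑ k ∈ Finset.range L, mo z k / (k.factorial : ℂ) =
      ∑ k ∈ Finset.range L, mo (‖z‖ : ℂ) k / (k.factorial : ℂ) :=
    Finset.sum_congr rfl fun k _ => by rw [← mo_norm]
  rw [h4] at h1
  have h5 := norm_sub_le (FD L (fun χ => Complex.exp (ph z χ)) -
    ∑ k ∈ Finset.range L, mo (‖z‖ : ℂ) k / (k.factorial : ℂ))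
    (WJ ‖z‖ - ∑ k ∈ Finset.range L, mo (‖z‖ : ℂ) k / (k.factorial : ℂ))
  rw [sub_sub_sub_cancel_right] at h5
  linarith

end Pool.Agent.Run7.h47.Q
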