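import Pool.Agent.Run7.h47.Fou
import Pool.Agent.W918.BK.Osc
import Pool.Agent.W788.MFP.Dos1

/-! One dimensional oscillatory sums and integrals. -/

set_option autoImplicit false
set_option linter.unusedSectionVars false

open scoped BigOperators Matrix
open MeasureTheory Set

namespace Pool.Agent.Run7.h47

open Pool.Agent.W788.MFP.Four Pool.Agent.W788.MFP.Dos
open Pool.Agent.W918.BK.Osc (U U_cont U_norm U_lip U_hasDeriv full)

/-- sums over `ZMod L` -/
theorem sum_zmod {L : ℕ} [NeZero L] (f : ℕ → ℂ) :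
    ∑ q : ZMod L, f q.val = ∑ j ∈ Finset.range L, f j := by
  refine Finset.sum_nbij' (fun k : ZMod L => k.val) (fun j : ℕ => (j : ZMod L)) ?_ ?_ ?_ ?_ ?_
  · intro k _
    exact Finset.mem_range.mpr (ZMod.val_lt k)
  · intro j _
    exact Finset.mem_univ _
  · intro k _
    simp
  · intro j hj
    exact ZMod.val_cast_of_lt (Finset.mem_range.mp hj)
  · intro k _
    simp

/-- Riemann sums -/
theorem riem {L : ℕ} [NeZero L] (φ : ℝ → ℂ) (B : ℝ) (hc : Continuous φ)
    (hB : ∀ x y, ‖φ x - φ y‖ ≤ B * |x - y|) :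
    ‖(L : ℂ)⁻¹ * ∑ q : ZMod L, φ (2 * Real.pi * q.val / L) -
      ((2 * Real.pi : ℝ) : ℂ)⁻¹ * ∫ t in (0 : ℝ)..(2 * Real.pi), φ t‖ ≤ 2 * Real.pi * B / L := by
  have hLR : (0 : ℝ) < L := by exact_mod_cast Nat.pos_of_ne_zero (NeZero.ne L)
  have hpi := Real.pi_pos
  set h : ℝ := 2 * Real.pi / L with hh
  have hh0 : 0 < h := by positivity
  set a : ℕ → ℝ := fun j => h * j with ha
  have haa : ∀ j, a j ≤ a (j + 1) := by
    intro j
    simp only [ha]
    push_cast
    nlinarith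
  have hU : ∀ a b : ℝ, IntervalIntegrable φ volume a b := fun a b => hc.intervalIntegrable a b
  have h1 : ∑ j ∈ Finset.range L, ∫ t in (a j)..(a (j + 1)), φ t =
      ∫ t in (0 : ℝ)..(2 * Real.pi), φ t := by
    rw [intervalIntegral.sum_integral_adjacent_intervals (fun k _ => hU _ _)]
    have h2 : a 0 = 0 := by simp [ha]
    have h3 : a L = 2 * Real.pi := by
      simp only [ha, hh]
      field_simp
    rw [h2, h3]
  have h4 : ∀ j : ℕ, ‖h * φ (a j) - ∫ t in (a j)..(a (j + 1)), φ t‖ ≤ B * h * h := by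
    intro j
    have hd : a (j + 1) - a j = h := by
      simp only [ha]
      push_cast
      ring
    have h5 : (h : ℂ) * φ (a j) = ∫ t in (a j)..(a (j + 1)), φ (a j) := by
      rw [intervalIntegral.integral_const, hd]
      simp
    rw [h5, ← intervalIntegral.integral_sub (by simp) (hU _ _)]
    have h6 : ‖∫ t in (a j)..(a (j + 1)), (φ (a j) - φ t)‖ ≤ (B * h) * |a (j + 1) - a j| := by
      refine intervalIntegral.norm_integral_le_of_norm_le_const fun t ht => ?_
      rw [uIoc_of_le (haa j)] at ht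
      refine (hB _ _).trans ?_
      have hB0 : 0 ≤ B := by
        have := (norm_nonneg _).trans (hB 1 0)
        simpa using this
      refine mul_le_mul_of_nonneg_left ?_ hB0
      rw [abs_le]
      constructor
      · linarith [ht.2]
      · linarith [ht.1]
    rw [hd, abs_of_pos hh0] at h6
    exact h6
  have h8 : ‖h * ∑ j ∈ Finset.range L, φ (a j) - ∫ t in (0 : ℝ)..(2 * Real.pi), φ t‖ ≤
      L * (B * h * h) := by
    rw [← h1, Finset.mul_sum, ← Finset.sum_sub_distrib]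
    refine (norm_sum_le _ _).trans ?_
    refine (Finset.sum_le_sum fun j _ => h4 j).trans ?_
    rw [Finset.sum_const, Finset.card_range, nsmul_eq_mul]
  have h9 : ∑ q : ZMod L, φ (2 * Real.pi * q.val / L) = ∑ j ∈ Finset.range L, φ (a j) := by
    rw [sum_zmod (fun j : ℕ => φ (2 * Real.pi * (j : ℝ) / L))]
    refine Finset.sum_congr rfl fun j _ => ?_
    simp only [ha, hh]
    congr 1
    ring
  rw [h9]
  have hp : (((2 * Real.pi : ℝ) : ℂ)) ≠ 0 := by
    exact_mod_cast (by positivity : (2 * Real.pi : ℝ) ≠ 0)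
  have hL0 : (L : ℂ) ≠ 0 := by exact_mod_cast hLR.ne'
  have h10 : (L : ℂ)⁻¹ * ∑ j ∈ Finset.range L, φ (a j) -
      ((2 * Real.pi : ℝ) : ℂ)⁻¹ * ∫ t in (0 : ℝ)..(2 * Real.pi), φ t =
      ((2 * Real.pi : ℝ) : ℂ)⁻¹ * (h * ∑ j ∈ Finset.range L, φ (a j) -
        ∫ t in (0 : ℝ)..(2 * Real.pi), φ t) := by
    rw [mul_sub, ← mul_assoc]
    congr 2
    rw [hh]
    push_cast
    field_simp
  rw [h10, norm_mul, norm_inv, Complex.norm_real, Real.norm_of_nonneg (by positivity)]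
  calc (2 * Real.pi)⁻¹ * ‖h * ∑ j ∈ Finset.range L, φ (a j) -
        ∫ t in (0 : ℝ)..(2 * Real.pi), φ t‖ ≤ (2 * Real.pi)⁻¹ * (L * (B * h * h)) := by gcongr
    _ = 2 * Real.pi * B / L := by
        rw [hh]
        field_simp

/-- the Bessel function -/
noncomputable def WJ (s : ℝ) : ℂ :=
  ((2 * Real.pi : ℝ) : ℂ)⁻¹ * ∫ t in (0 : ℝ)..(2 * Real.pi), U s t

/-- the weighted Bessel function -/
noncomputable def WS (s : ℝ) : ℂ :=
  ((2 * Real.pi : ℝ) : ℂ)⁻¹ * ∫ t in (0 : ℝ)..(2 * Real.pi), ((2 * Real.sin t) ^ 2 : ℝ) * U s t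

/-- the discrete Bessel function -/
noncomputable def JL (L : ℕ) [NeZero L] (s : ℝ) : ℂ :=
  (L : ℂ)⁻¹ * ∑ q : ZMod L, Complex.exp (Complex.I * ((s * a q : ℝ) : ℂ))

/-- the weighted discrete Bessel function -/
noncomputable def SL (L : ℕ) [NeZero L] (s : ℝ) : ℂ :=
  (L : ℂ)⁻¹ * ∑ q : ZMod L, (((2 * (ZMod.stdAddChar q : ℂ).im) ^ 2 : ℝ) : ℂ) *
    Complex.exp (Complex.I * ((s * a q : ℝ) : ℂ))

theorem im_char {L : ℕ} [NeZero L] (j : ZMod L) :
    (ZMod.stdAddChar j : ℂ).im = Real.sin (2 * Real.pi * j.val / L) := by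
  have h1 : ((j.val : ℤ) : ZMod L) = j := by
    rw [Int.cast_natCast, ZMod.natCast_zmod_val]
  conv_lhs => rw [← h1]
  rw [ZMod.stdAddChar_coe]
  have h2 : (2 * Real.pi * Complex.I * ((j.val : ℤ) : ℂ) / L) =
      ((2 * Real.pi * j.val / L : ℝ) : ℂ) * Complex.I := by
    push_cast
    ring
  rw [h2, Complex.exp_ofReal_mul_I_im]

theorem exp_a {L : ℕ} [NeZero L] (s : ℝ) (q : ZMod L) :
    Complex.exp (Complex.I * ((s * a q : ℝ) : ℂ)) = U s (2 * Real.pi * q.val / L) := by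
  unfold U
  rw [a_eq]
  congr 3
  ring

theorem WJ_le_one (s : ℝ) : ‖WJ s‖ ≤ 1 := by
  unfold WJ
  have hpi := Real.pi_pos
  rw [norm_mul, norm_inv, Complex.norm_real, Real.norm_of_nonneg (by positivity)]
  have h1 : ‖∫ t in (0 : ℝ)..(2 * Real.pi), U s t‖ ≤ 1 * |2 * Real.pi - 0| :=
    intervalIntegral.norm_integral_le_of_norm_le_const fun t _ => (U_norm s t).le
  rw [sub_zero, abs_of_pos (by positivity), one_mul] at h1
  calc (2 * Real.pi)⁻¹ * ‖∫ t in (0 : ℝ)..(2 * Real.pi), U s t‖ ≤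
      (2 * Real.pi)⁻¹ * (2 * Real.pi) := by gcongr
    _ = 1 := by field_simp

theorem WS_le_four (s : ℝ) : ‖WS s‖ ≤ 4 := by
  unfold WS
  have hpi := Real.pi_pos
  rw [norm_mul, norm_inv, Complex.norm_real, Real.norm_of_nonneg (by positivity)]
  have h1 : ‖∫ t in (0 : ℝ)..(2 * Real.pi), ((2 * Real.sin t) ^ 2 : ℝ) * U s t‖ ≤
      4 * |2 * Real.pi - 0| := by
    refine intervalIntegral.norm_integral_le_of_norm_le_const fun t _ => ?_
    rw [norm_mul, U_norm, mul_one, Complex.norm_real, Real.norm_of_nonneg (sq_nonneg _)]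
    nlinarith [Real.sin_sq_add_cos_sq t, sq_nonneg (Real.cos t)]
  rw [sub_zero, abs_of_pos (by positivity)] at h1
  calc (2 * Real.pi)⁻¹ * ‖∫ t in (0 : ℝ)..(2 * Real.pi), ((2 * Real.sin t) ^ 2 : ℝ) * U s t‖ ≤
      (2 * Real.pi)⁻¹ * (4 * (2 * Real.pi)) := by gcongr
    _ = 4 := by field_simp

theorem JL_le_one (L : ℕ) [NeZero L] (s : ℝ) : ‖JL L s‖ ≤ 1 := by
  unfold JL
  have hLR : (0 : ℝ) < L := by exact_mod_cast Nat.pos_of_ne_zero (NeZero.ne L)
  rw [norm_mul, norm_inv, Complex.norm_natCast]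
  have h1 : ‖∑ q : ZMod L, Complex.exp (Complex.I * ((s * a q : ℝ) : ℂ))‖ ≤ L := by
    refine (norm_sum_le _ _).trans ?_
    have : ∀ q : ZMod L, ‖Complex.exp (Complex.I * ((s * a q : ℝ) : ℂ))‖ = 1 := fun q => by
      rw [exp_a, U_norm]
    simp only [this]
    simp [ZMod.card]
  calc (L : ℝ)⁻¹ * ‖∑ q : ZMod L, Complex.exp (Complex.I * ((s * a q : ℝ) : ℂ))‖ ≤
      (L : ℝ)⁻¹ * L := by gcongr
    _ = 1 := by field_simp

theorem JL_sub (L : ℕ) [NeZero L] (s : ℝ) : ‖JL L s - WJ s‖ ≤ 4 * Real.pi * |s| / L := by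
  have h := riem (L := L) (U s) (2 * |s|) (U_cont s) (U_lip s)
  unfold JL WJ
  simp only [exp_a]
  refine h.trans (le_of_eq ?_)
  ring

theorem SL_sub (L : ℕ) [NeZero L] (s : ℝ) :
    ‖SL L s - WS s‖ ≤ 16 * Real.pi * (1 + |s|) / L := by
  have hl : ∀ x y : ℝ, ‖((2 * Real.sin x) ^ 2 : ℝ) * U s x - ((2 * Real.sin y) ^ 2 : ℝ) * U s y‖ ≤
      (8 + 8 * |s|) * |x - y| := by
    intro x y
    have e1 : (((2 * Real.sin x) ^ 2 : ℝ) : ℂ) * U s x - ((2 * Real.sin y) ^ 2 : ℝ) * U s y =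
        (((2 * Real.sin x) ^ 2 - (2 * Real.sin y) ^ 2 : ℝ) : ℂ) * U s x +
          ((2 * Real.sin y) ^ 2 : ℝ) * (U s x - U s y) := by
      push_cast
      ring
    rw [e1]
    refine (norm_add_le _ _).trans ?_
    rw [norm_mul, norm_mul, U_norm, mul_one, Complex.norm_real, Complex.norm_real,
      Real.norm_eq_abs, Real.norm_of_nonneg (sq_nonneg _)]
    have h1 : |(2 * Real.sin x) ^ 2 - (2 * Real.sin y) ^ 2| ≤ 8 * |x - y| := by
      have e2 : (2 * Real.sin x) ^ 2 - (2 * Real.sin y) ^ 2 =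
          (4 * (Real.sin x + Real.sin y)) * (Real.sin x - Real.sin y) := by ring
      rw [e2, abs_mul]
      have h2 : |4 * (Real.sin x + Real.sin y)| ≤ 8 := by
        rw [abs_le]
        constructor <;> linarith [Real.sin_le_one x, Real.sin_le_one y, Real.neg_one_le_sin x,
          Real.neg_one_le_sin y]
      exact mul_le_mul h2 (Real.abs_sin_sub_sin_le x y) (abs_nonneg _) (by norm_num)
    have h3 : (2 * Real.sin y) ^ 2 ≤ 4 := by
      nlinarith [Real.sin_sq_add_cos_sq y, sq_nonneg (Real.cos y)]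
    have h4 := U_lip s x y
    calc |(2 * Real.sin x) ^ 2 - (2 * Real.sin y) ^ 2| + (2 * Real.sin y) ^ 2 * ‖U s x - U s y‖ ≤
        8 * |x - y| + 4 * (2 * |s| * |x - y|) := by gcongr
      _ = _ := by ring
  have h := riem (L := L) (fun t => ((2 * Real.sin t) ^ 2 : ℝ) * U s t) (8 + 8 * |s|)
    (by have := U_cont s; fun_prop) hl
  unfold SL WS
  simp only [exp_a, im_char]
  refine h.trans (le_of_eq ?_)
  ring

theorem WJ_bd (s : ℝ) (hs : 0 ≤ s) : ‖WJ s‖ ≤ 3 / Real.sqrt (1 + s) := by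
  have hs0 : 0 < Real.sqrt (1 + s) := Real.sqrt_pos.2 (by linarith)
  rcases le_or_gt s 1 with h1 | h1
  · refine (WJ_le_one s).trans ?_
    rw [le_div_iff₀ hs0, one_mul]
    have : Real.sqrt (1 + s) ≤ Real.sqrt 9 := Real.sqrt_le_sqrt (by linarith)
    have h9 : Real.sqrt 9 = 3 := by
      rw [show (9 : ℝ) = 3 ^ 2 by norm_num, Real.sqrt_sq (by norm_num)]
    linarith
  · have h2 := full h1.le
    have hpi := Real.pi_pos
    have hs1 : 0 < Real.sqrt s := Real.sqrt_pos.2 (by linarith)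
    unfold WJ
    rw [norm_mul, norm_inv, Complex.norm_real, Real.norm_of_nonneg (by positivity)]
    have h3 : Real.sqrt (1 + s) ≤ 3 / 2 * Real.sqrt s := by
      rw [Real.sqrt_le_left (by positivity), mul_pow, Real.sq_sqrt (by linarith)]
      linarith
    have h4 : (4 + 2 * Real.pi) / (2 * Real.pi) ≤ 2 := by
      rw [div_le_iff₀ (by positivity)]
      nlinarith [Real.pi_gt_three]
    calc (2 * Real.pi)⁻¹ * ‖∫ t in (0 : ℝ)..(2 * Real.pi), U s t‖ ≤
        (2 * Real.pi)⁻¹ * ((4 + 2 * Real.pi) / Real.sqrt s) := by gcongr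
      _ = (4 + 2 * Real.pi) / (2 * Real.pi) / Real.sqrt s := by ring
      _ ≤ 2 / Real.sqrt s := by gcongr
      _ ≤ 3 / Real.sqrt (1 + s) := by
          rw [div_le_div_iff₀ hs1 hs0]
          linarith

/-- integration by parts -/
theorem WS_bd (s : ℝ) (hs : 0 ≤ s) : ‖WS s‖ ≤ 8 / (1 + s) := by
  rcases le_or_gt s 1 with h1 | h1
  · refine (WS_le_four s).trans ?_
    rw [le_div_iff₀ (by linarith)]
    linarith
  · have hpi := Real.pi_pos
    have hs0 : (s : ℂ) ≠ 0 := by exact_mod_cast (by linarith : s ≠ 0)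
    have hd : ∀ t ∈ uIcc (0 : ℝ) (2 * Real.pi), HasDerivAt (U s)
        (U s t * (-(2 * Complex.I * s * (Real.sin t : ℂ)))) t := fun t _ => U_hasDeriv s t
    have hv : ∀ t ∈ uIcc (0 : ℝ) (2 * Real.pi), HasDerivAt
        (fun t : ℝ => (2 * Complex.I / s) * ((Real.sin t : ℝ) : ℂ))
        ((2 * Complex.I / s) * ((Real.cos t : ℝ) : ℂ)) t := fun t _ =>
      (Real.hasDerivAt_sin t).ofReal_comp.const_mul _
    have hU := U_cont s
    have key := intervalIntegral.integral_mul_deriv_eq_deriv_mul hv hd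
      (Continuous.intervalIntegrable (by fun_prop) _ _)
      (Continuous.intervalIntegrable (by fun_prop) _ _)
    have e1 : ∀ t : ℝ, (2 * Complex.I / s) * ((Real.sin t : ℝ) : ℂ) *
        (U s t * (-(2 * Complex.I * s * (Real.sin t : ℂ)))) =
        ((2 * Real.sin t) ^ 2 : ℝ) * U s t := by
      intro t
      have h4 : Complex.I * Complex.I = -1 := Complex.I_mul_I
      push_cast
      field_simp
      linear_combination (-(Complex.sin t) ^ 2 * U s t) * h4
    simp only [e1] at key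
    unfold WS
    rw [key]
    simp only [Real.sin_two_pi, Real.sin_zero, Complex.ofReal_zero, mul_zero, zero_mul, sub_zero,
      zero_sub]
    rw [norm_mul, norm_neg, norm_inv, Complex.norm_real, Real.norm_of_nonneg (by positivity)]
    have h2 : ‖∫ t in (0 : ℝ)..(2 * Real.pi), (2 * Complex.I / s) * ((Real.cos t : ℝ) : ℂ) *
        U s t‖ ≤ 2 / s * |2 * Real.pi - 0| := by
      refine intervalIntegral.norm_integral_le_of_norm_le_const fun t _ => ?_
      rw [norm_mul, norm_mul, U_norm, mul_one, Complex.norm_real, norm_div, norm_mul,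
        Complex.norm_I, Complex.norm_real, Real.norm_of_nonneg hs, Complex.norm_ofNat, mul_one]
      have := Real.abs_cos_le_one t
      rw [Real.norm_eq_abs]
      calc 2 / s * |Real.cos t| ≤ 2 / s * 1 := by gcongr
        _ = 2 / s := mul_one _
    rw [sub_zero, abs_of_pos (by positivity)] at h2
    calc (2 * Real.pi)⁻¹ * ‖∫ t in (0 : ℝ)..(2 * Real.pi), (2 * Complex.I / s) *
          ((Real.cos t : ℝ) : ℂ) * U s t‖ ≤ (2 * Real.pi)⁻¹ * (2 / s * (2 * Real.pi)) := by gcongr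
      _ = 2 / s := by field_simp
      _ ≤ 8 / (1 + s) := by
          rw [div_le_div_iff₀ (by linarith) (by linarith)]
          linarith

end Pool.Agent.Run7.h47
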