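import Pool.Agent.Run7.h47.Tim
import Pool.Agent.W788.MFP.Dos2

/-! The free resolvent on the torus in terms of oscillatory integrals. -/

set_option autoImplicit false
set_option linter.unusedSectionVars false

open scoped BigOperators Matrix
open MeasureTheory Set

namespace Pool.Agent.Run7.h47

open Pool.Agent.W788.MFP.Four Pool.Agent.W788.MFP.Dos
open Pool.Agent.W918.BK.Osc (U U_cont U_norm U_lip U_hasDeriv full)

/-! ### Laplace integrals -/

/-- the kernel -/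
noncomputable def k1 (ζ : ℂ) (s : ℝ) : ℂ := Complex.exp (-(Complex.I * (starRingEnd ℂ) ζ) * s)

theorem k1_norm (ζ : ℂ) (s : ℝ) : ‖k1 ζ s‖ = Real.exp (-(ζ.im * s)) := by
  unfold k1
  rw [Complex.norm_exp]
  congr 1
  simp

theorem k1_cont (ζ : ℂ) : Continuous (k1 ζ) := by
  unfold k1
  fun_prop

/-- the second kernel -/
noncomputable def k2 (ζ : ℂ) (s : ℝ) : ℂ := (1 + ζ.im * s : ℝ) * k1 ζ s

theorem k2_cont (ζ : ℂ) : Continuous (k2 ζ) := by
  unfold k2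
  have := k1_cont ζ
  fun_prop

theorem k1_le {ζ : ℂ} (hζ : 0 ≤ ζ.im) {s : ℝ} (hs : 0 ≤ s) :
    ‖k1 ζ s‖ ≤ 2 * Real.exp (-(ζ.im / 2) * s) := by
  rw [k1_norm]
  have h1 : Real.exp (-(ζ.im * s)) ≤ Real.exp (-(ζ.im / 2) * s) := by
    apply Real.exp_le_exp.2
    nlinarith [mul_nonneg hζ hs]
  linarith [Real.exp_pos (-(ζ.im / 2) * s)]

theorem k2_le {ζ : ℂ} (hζ : 0 ≤ ζ.im) {s : ℝ} (hs : 0 ≤ s) :
    ‖k2 ζ s‖ ≤ 2 * Real.exp (-(ζ.im / 2) * s) := by
  unfold k2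
  have h0 := mul_nonneg hζ hs
  rw [norm_mul, k1_norm, Complex.norm_real, Real.norm_of_nonneg (by linarith)]
  have h1 : 1 + ζ.im * s ≤ 2 * Real.exp (ζ.im / 2 * s) := by
    have := Real.add_one_le_exp (ζ.im / 2 * s)
    linarith
  have h2 : Real.exp (-(ζ.im * s)) = Real.exp (-(ζ.im / 2) * s) * Real.exp (-(ζ.im / 2) * s) := by
    rw [← Real.exp_add]
    congr 1
    ring
  have h3 : Real.exp (ζ.im / 2 * s) * Real.exp (-(ζ.im / 2) * s) = 1 := by
    rw [← Real.exp_add]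
    simp
  have h4 := Real.exp_pos (-(ζ.im / 2) * s)
  calc (1 + ζ.im * s) * Real.exp (-(ζ.im * s)) ≤
      2 * Real.exp (ζ.im / 2 * s) * (Real.exp (-(ζ.im / 2) * s) * Real.exp (-(ζ.im / 2) * s)) := by
        rw [h2]
        gcongr
    _ = 2 * (Real.exp (ζ.im / 2 * s) * Real.exp (-(ζ.im / 2) * s)) *
        Real.exp (-(ζ.im / 2) * s) := by ring
    _ = _ := by rw [h3, mul_one]

/-- an integrability criterion -/
theorem exp_int {r : ℝ} (hr : 0 < r) : IntegrableOn (fun s : ℝ => Real.exp (-r * s)) (Ioi 0) :=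
  exp_neg_integrableOn_Ioi 0 hr

theorem s_exp_le {r : ℝ} (hr : 0 < r) {s : ℝ} (hs : 0 ≤ s) :
    (1 + s) * Real.exp (-r * s) ≤ (1 + 2 / r) * Real.exp (-(r / 2) * s) := by
  have h1 : s ≤ 2 / r * Real.exp (r / 2 * s) := by
    have h2 := Real.add_one_le_exp (r / 2 * s)
    have h3 : s = 2 / r * (r / 2 * s) := by field_simp
    calc s = 2 / r * (r / 2 * s) := h3
      _ ≤ 2 / r * Real.exp (r / 2 * s) := by
          refine mul_le_mul_of_nonneg_left ?_ (by positivity)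
          linarith
  have h2 : Real.exp (-r * s) = Real.exp (-(r / 2) * s) * Real.exp (-(r / 2) * s) := by
    rw [← Real.exp_add]
    congr 1
    ring
  have h3 : Real.exp (r / 2 * s) * Real.exp (-(r / 2) * s) = 1 := by
    rw [← Real.exp_add]
    simp
  have h4 := Real.exp_pos (-(r / 2) * s)
  have h5 : Real.exp (-(r / 2) * s) ≤ 1 := by
    apply Real.exp_le_one_iff.2
    nlinarith
  calc (1 + s) * Real.exp (-r * s) = Real.exp (-(r / 2) * s) * Real.exp (-(r / 2) * s) +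
        s * (Real.exp (-(r / 2) * s) * Real.exp (-(r / 2) * s)) := by rw [h2]; ring
    _ ≤ 1 * Real.exp (-(r / 2) * s) + 2 / r * Real.exp (r / 2 * s) *
        (Real.exp (-(r / 2) * s) * Real.exp (-(r / 2) * s)) := by gcongr
    _ = Real.exp (-(r / 2) * s) + 2 / r * (Real.exp (r / 2 * s) * Real.exp (-(r / 2) * s)) *
        Real.exp (-(r / 2) * s) := by ring
    _ = _ := by rw [h3]; ring

theorem exp_integral {r : ℝ} (hr : 0 < r) : ∫ s in Ioi (0 : ℝ), Real.exp (-r * s) = r⁻¹ := by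
  rw [integral_exp_mul_Ioi (by linarith)]
  rw [mul_zero, Real.exp_zero]
  field_simp

/-- integrability of a kernel times a bounded function -/
theorem kint {r : ℝ} (hr : 0 < r) {K g : ℝ → ℂ} (hK : Continuous K) (hg : Continuous g)
    (hb : ∀ s, 0 ≤ s → ‖K s‖ ≤ 2 * Real.exp (-r * s)) {B : ℝ} (hB : ∀ s, 0 ≤ s → ‖g s‖ ≤ B * (1 + s)) :
    IntegrableOn (fun s => K s * g s) (Ioi 0) := by
  have hB0 : 0 ≤ B := by
    have := (norm_nonneg _).trans (hB 0 le_rfl)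
    simpa using this
  have h1 : IntegrableOn (fun s : ℝ => 2 * B * ((1 + 2 / r) * Real.exp (-(r / 2) * s))) (Ioi 0) :=
    ((exp_int (by positivity)).const_mul _).const_mul _
  refine Integrable.mono' h1 (hK.mul hg).aestronglyMeasurable ?_
  refine (ae_restrict_iff' measurableSet_Ioi).2 (Filter.Eventually.of_forall fun s hs => ?_)
  have hs' : (0 : ℝ) ≤ s := le_of_lt hs
  rw [norm_mul]
  calc ‖K s‖ * ‖g s‖ ≤ 2 * Real.exp (-r * s) * (B * (1 + s)) :=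
        mul_le_mul (hb s hs') (hB s hs') (norm_nonneg _) (by positivity)
    _ = 2 * B * ((1 + s) * Real.exp (-r * s)) := by ring
    _ ≤ _ := by
        refine mul_le_mul_of_nonneg_left (s_exp_le hr hs') (by positivity)

/-- comparison of two functions -/
theorem cmp1 {r : ℝ} (hr : 0 < r) (hr1 : r ≤ 1) {K f g : ℝ → ℂ} (hK : Continuous K)
    (hf : Continuous f) (hg : Continuous g)
    (hb : ∀ s, 0 ≤ s → ‖K s‖ ≤ 2 * Real.exp (-r * s)) {B : ℝ}
    (hB : ∀ s, 0 ≤ s → ‖f s - g s‖ ≤ B * (1 + s)) {Bf Bg : ℝ}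
    (hBf : ∀ s, 0 ≤ s → ‖f s‖ ≤ Bf * (1 + s)) (hBg : ∀ s, 0 ≤ s → ‖g s‖ ≤ Bg * (1 + s)) :
    ‖(∫ s in Ioi (0 : ℝ), K s * f s) - ∫ s in Ioi (0 : ℝ), K s * g s‖ ≤ 12 * B / r ^ 2 := by
  have i1 := kint hr hK hf hb hBf
  have i2 := kint hr hK hg hb hBg
  have hB0 : 0 ≤ B := by
    have := (norm_nonneg _).trans (hB 0 le_rfl)
    simpa using this
  rw [← integral_sub i1 i2]
  have h1 : IntegrableOn (fun s : ℝ => 2 * B * ((1 + 2 / r) * Real.exp (-(r / 2) * s))) (Ioi 0) :=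
    ((exp_int (by positivity)).const_mul _).const_mul _
  refine (norm_integral_le_of_norm_le h1 ?_).trans ?_
  · refine (ae_restrict_iff' measurableSet_Ioi).2 (Filter.Eventually.of_forall fun s hs => ?_)
    have hs' : (0 : ℝ) ≤ s := le_of_lt hs
    rw [← mul_sub, norm_mul]
    calc ‖K s‖ * ‖f s - g s‖ ≤ 2 * Real.exp (-r * s) * (B * (1 + s)) :=
          mul_le_mul (hb s hs') (hB s hs') (norm_nonneg _) (by positivity)
      _ = 2 * B * ((1 + s) * Real.exp (-r * s)) := by ring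
      _ ≤ _ := by
          refine mul_le_mul_of_nonneg_left (s_exp_le hr hs') (by positivity)
  · rw [integral_const_mul, integral_const_mul, exp_integral (by positivity)]
    have h2 : (1 + 2 / r) * (r / 2)⁻¹ ≤ 6 / r ^ 2 := by
      have h3 : (1 + 2 / r) * (r / 2)⁻¹ = (2 * r + 4) / r ^ 2 := by
        field_simp
        ring
      rw [h3]
      gcongr
      linarith
    calc 2 * B * ((1 + 2 / r) * (r / 2)⁻¹) ≤ 2 * B * (6 / r ^ 2) := by gcongr
      _ = _ := by ring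

/-- the first constant -/
noncomputable def C32 : ℝ := ∫ s in Ioi (0 : ℝ), (s + 1) ^ (-(3 / 2) : ℝ)

/-- the second constant -/
noncomputable def C54 : ℝ := ∫ s in Ioi (0 : ℝ), (s + 1) ^ (-(5 / 4) : ℝ)

theorem i32 : IntegrableOn (fun s : ℝ => (s + 1) ^ (-(3 / 2) : ℝ)) (Ioi 0) :=
  integrableOn_add_rpow_Ioi_of_lt (by norm_num) (by norm_num)

theorem i54 : IntegrableOn (fun s : ℝ => (s + 1) ^ (-(5 / 4) : ℝ)) (Ioi 0) :=
  integrableOn_add_rpow_Ioi_of_lt (by norm_num) (by norm_num)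

theorem C54_nonneg : 0 ≤ C54 := by
  unfold C54
  refine setIntegral_nonneg measurableSet_Ioi fun s hs => ?_
  have : (0 : ℝ) < s := hs
  positivity

theorem C32_nonneg : 0 ≤ C32 := by
  unfold C32
  refine setIntegral_nonneg measurableSet_Ioi fun s hs => ?_
  have : (0 : ℝ) < s := hs
  positivity

/-- integrability of decaying functions -/
theorem gint {K g : ℝ → ℂ} (hK : Continuous K) (hg : Continuous g)
    (hb : ∀ s, 0 ≤ s → ‖K s‖ ≤ 2) {B : ℝ}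
    (hB : ∀ s, 0 ≤ s → ‖g s‖ ≤ B * (s + 1) ^ (-(3 / 2) : ℝ)) :
    IntegrableOn (fun s => K s * g s) (Ioi 0) := by
  have hB0 : 0 ≤ B := by
    have := (norm_nonneg _).trans (hB 0 le_rfl)
    simpa using this
  refine Integrable.mono' ((i32.const_mul B).const_mul 2) (hK.mul hg).aestronglyMeasurable ?_
  refine (ae_restrict_iff' measurableSet_Ioi).2 (Filter.Eventually.of_forall fun s hs => ?_)
  have hs' : (0 : ℝ) ≤ s := le_of_lt hs
  rw [norm_mul]
  exact mul_le_mul (hb s hs') (hB s hs') (norm_nonneg _) (by norm_num)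

theorem gbd {K g : ℝ → ℂ} (hb : ∀ s, 0 ≤ s → ‖K s‖ ≤ 2) {B : ℝ}
    (hB : ∀ s, 0 ≤ s → ‖g s‖ ≤ B * (s + 1) ^ (-(3 / 2) : ℝ)) :
    ‖∫ s in Ioi (0 : ℝ), K s * g s‖ ≤ 2 * (B * C32) := by
  have hB0 : 0 ≤ B := by
    have := (norm_nonneg _).trans (hB 0 le_rfl)
    simpa using this
  refine (norm_integral_le_of_norm_le ((i32.const_mul B).const_mul 2) ?_).trans (le_of_eq ?_)
  · refine (ae_restrict_iff' measurableSet_Ioi).2 (Filter.Eventually.of_forall fun s hs => ?_)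
    have hs' : (0 : ℝ) ≤ s := le_of_lt hs
    rw [norm_mul]
    exact mul_le_mul (hb s hs') (hB s hs') (norm_nonneg _) (by norm_num)
  · rw [integral_const_mul, integral_const_mul]
    rfl

/-- comparison of two kernels -/
theorem cmp2 {K K0 g : ℝ → ℂ} (hK : Continuous K) (hK0 : Continuous K0) (hg : Continuous g)
    (hb : ∀ s, 0 ≤ s → ‖K s‖ ≤ 2) (hb0 : ∀ s, 0 ≤ s → ‖K0 s‖ ≤ 2) {B ω : ℝ} (hω : 0 ≤ ω)
    (hB : ∀ s, 0 ≤ s → ‖g s‖ ≤ B * (s + 1) ^ (-(3 / 2) : ℝ))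
    (hd : ∀ s, 0 ≤ s → ‖K s - K0 s‖ ≤ 3 * (s * ω) ^ (1 / 4 : ℝ)) :
    ‖(∫ s in Ioi (0 : ℝ), K s * g s) - ∫ s in Ioi (0 : ℝ), K0 s * g s‖ ≤
      3 * B * C54 * ω ^ (1 / 4 : ℝ) := by
  have hB0 : 0 ≤ B := by
    have := (norm_nonneg _).trans (hB 0 le_rfl)
    simpa using this
  have i1 := gint hK hg hb hB
  have i2 := gint hK0 hg hb0 hB
  rw [← integral_sub i1 i2]
  refine (norm_integral_le_of_norm_le (i54.const_mul (3 * B * ω ^ (1 / 4 : ℝ))) ?_).trans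
    (le_of_eq ?_)
  · refine (ae_restrict_iff' measurableSet_Ioi).2 (Filter.Eventually.of_forall fun s hs => ?_)
    have hs' : (0 : ℝ) ≤ s := le_of_lt hs
    have hs1 : (0 : ℝ) < s + 1 := by linarith
    rw [← sub_mul, norm_mul]
    have h1 : (s * ω) ^ (1 / 4 : ℝ) ≤ (s + 1) ^ (1 / 4 : ℝ) * ω ^ (1 / 4 : ℝ) := by
      rw [Real.mul_rpow hs' hω]
      refine mul_le_mul_of_nonneg_right ?_ (by positivity)
      exact Real.rpow_le_rpow hs' (by linarith) (by norm_num)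
    have h2 : (s + 1) ^ (1 / 4 : ℝ) * (s + 1) ^ (-(3 / 2) : ℝ) = (s + 1) ^ (-(5 / 4) : ℝ) := by
      rw [← Real.rpow_add hs1]
      norm_num
    calc ‖K s - K0 s‖ * ‖g s‖ ≤ (3 * ((s + 1) ^ (1 / 4 : ℝ) * ω ^ (1 / 4 : ℝ))) *
          (B * (s + 1) ^ (-(3 / 2) : ℝ)) :=
          mul_le_mul ((hd s hs').trans (by gcongr)) (hB s hs') (norm_nonneg _) (by positivity)
      _ = 3 * B * ω ^ (1 / 4 : ℝ) * ((s + 1) ^ (1 / 4 : ℝ) * (s + 1) ^ (-(3 / 2) : ℝ)) := by ring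
      _ = _ := by rw [h2]
  · rw [integral_const_mul]
    unfold C54
    ring

theorem min_le {x : ℝ} (hx : 0 ≤ x) (hx1 : x ≤ 1) : x ≤ x ^ (1 / 4 : ℝ) := by
  rcases hx.eq_or_lt with h | h
  · rw [← h]
    simp
  · calc x = x ^ (1 : ℝ) := (Real.rpow_one x).symm
      _ ≤ x ^ (1 / 4 : ℝ) := Real.rpow_le_rpow_of_exponent_ge h hx1 (by norm_num)

theorem one_le_q {x : ℝ} (hx : 1 ≤ x) : 1 ≤ x ^ (1 / 4 : ℝ) :=
  Real.one_le_rpow hx (by norm_num)

theorem k1_diff {ζ : ℂ} (hζ : 0 ≤ ζ.im) (E0 : ℝ) {s : ℝ} (hs : 0 ≤ s) :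
    ‖k1 ζ s - k1 E0 s‖ ≤ 2 * (s * ‖ζ - E0‖) ^ (1 / 4 : ℝ) := by
  set x : ℝ := s * ‖ζ - E0‖ with hx
  have hx0 : 0 ≤ x := by positivity
  have n1 : ‖k1 ζ s‖ ≤ 1 := by
    rw [k1_norm]
    exact Real.exp_le_one_iff.2 (by nlinarith [mul_nonneg hζ hs])
  have n2 : ‖k1 (E0 : ℂ) s‖ = 1 := by
    rw [k1_norm]
    simp
  rcases le_or_gt x 1 with h1 | h1
  · have e1 : k1 ζ s - k1 E0 s =
        k1 E0 s * (Complex.exp (-(Complex.I * (starRingEnd ℂ) (ζ - E0)) * s) - 1) := by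
      unfold k1
      rw [mul_sub, mul_one, ← Complex.exp_add]
      congr 2
      rw [map_sub]
      ring
    have e2 : ‖-(Complex.I * (starRingEnd ℂ) (ζ - E0)) * s‖ = x := by
      rw [norm_mul, norm_neg, norm_mul, Complex.norm_I, RCLike.norm_conj, one_mul,
        Complex.norm_real, Real.norm_of_nonneg hs, hx]
      ring
    rw [e1, norm_mul, n2, one_mul]
    refine (Complex.norm_exp_sub_one_le (by rw [e2]; exact h1)).trans ?_
    rw [e2]
    have := min_le hx0 h1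
    linarith
  · have := one_le_q h1.le
    calc ‖k1 ζ s - k1 E0 s‖ ≤ ‖k1 ζ s‖ + ‖k1 (E0 : ℂ) s‖ := norm_sub_le _ _
      _ ≤ 2 * 1 := by rw [n2]; linarith
      _ ≤ _ := by gcongr

theorem k2_diff {ζ : ℂ} (hζ : 0 ≤ ζ.im) (E0 : ℝ) {s : ℝ} (hs : 0 ≤ s) :
    ‖k2 ζ s - k1 E0 s‖ ≤ 3 * (s * ‖ζ - E0‖) ^ (1 / 4 : ℝ) := by
  set x : ℝ := s * ‖ζ - E0‖ with hx
  have hx0 : 0 ≤ x := by positivity
  have h1 := k1_diff hζ E0 hs
  have e1 : k2 ζ s - k1 E0 s = (k1 ζ s - k1 E0 s) + ((ζ.im * s : ℝ) : ℂ) * k1 ζ s := by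
    unfold k2
    push_cast
    ring
  have h2 : ‖((ζ.im * s : ℝ) : ℂ) * k1 ζ s‖ ≤ x ^ (1 / 4 : ℝ) := by
    have h0 := mul_nonneg hζ hs
    rw [norm_mul, Complex.norm_real, Real.norm_of_nonneg h0, k1_norm]
    have hyx : ζ.im * s ≤ x := by
      rw [hx, mul_comm]
      refine mul_le_mul_of_nonneg_left ?_ hs
      have := Complex.abs_im_le_norm (ζ - E0)
      simp only [Complex.sub_im, Complex.ofReal_im, sub_zero] at this
      exact (le_abs_self _).trans this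
    rcases le_or_gt x 1 with h3 | h3
    · have h4 : Real.exp (-(ζ.im * s)) ≤ 1 := Real.exp_le_one_iff.2 (by linarith)
      calc ζ.im * s * Real.exp (-(ζ.im * s)) ≤ x * 1 := by gcongr
        _ = x := mul_one _
        _ ≤ _ := min_le hx0 h3
    · have h4 := Real.mul_exp_neg_le_exp_neg_one (ζ.im * s)
      have h5 : Real.exp (-1) ≤ 1 := Real.exp_le_one_iff.2 (by norm_num)
      have := one_le_q h3.le
      linarith
  rw [e1]
  refine (norm_add_le _ _).trans ?_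
  linarith

end Pool.Agent.Run7.h47
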