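import Pool.Agent.Run7.h47.Tor

/-! The free resolvent on the torus in terms of oscillatory integrals, second part. -/

set_option autoImplicit false
set_option linter.unusedSectionVars false

open scoped BigOperators Matrix
open MeasureTheory Set

namespace Pool.Agent.Run7.h47

open Pool.Agent.W788.MFP.Four Pool.Agent.W788.MFP.Dos
open Pool.Agent.W918.BK.Osc (U U_cont U_norm U_lip U_hasDeriv full)

/-! ### Time representation of the symbols -/

theorem lap1 {c : ℂ} (hc : 0 < c.re) : ∫ s in Ioi (0 : ℝ), Complex.exp (-c * s) = c⁻¹ := by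
  rw [integral_exp_mul_complex_Ioi (by simpa using hc)]
  simp

theorem lap2 {c : ℂ} (hc : 0 < c.re) :
    IntegrableOn (fun s : ℝ => (s : ℂ) * Complex.exp (-c * s)) (Ioi 0) ∧
    ∫ s in Ioi (0 : ℝ), (s : ℂ) * Complex.exp (-c * s) = (c ^ 2)⁻¹ := by
  have hc0 : c ≠ 0 := by
    intro h
    rw [h] at hc
    simp at hc
  have hint : IntegrableOn (fun s : ℝ => Complex.exp (-c * s) * (s : ℂ)) (Ioi 0) := by
    refine kint (r := c.re) hc (K := fun s : ℝ => Complex.exp (-c * s)) (g := fun s : ℝ => (s : ℂ))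
      (by fun_prop) (by fun_prop) (fun s hs => ?_) (B := 1) (fun s hs => ?_)
    · rw [Complex.norm_exp]
      have : (-c * (s : ℂ)).re = -c.re * s := by simp
      rw [this]
      linarith [Real.exp_pos (-c.re * s)]
    · rw [Complex.norm_real, Real.norm_of_nonneg hs]
      linarith
  have hint' : IntegrableOn (fun s : ℝ => (s : ℂ) * Complex.exp (-c * s)) (Ioi 0) := by
    simpa only [mul_comm] using hint
  refine ⟨hint', ?_⟩
  have hd : ∀ x ∈ Ioi (0 : ℝ), HasDerivAt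
      (fun s : ℝ => -((s : ℂ) / c + 1 / c ^ 2) * Complex.exp (-c * s))
      ((x : ℂ) * Complex.exp (-c * x)) x := by
    intro x _
    have h1 : HasDerivAt (fun s : ℝ => -((s : ℂ) / c + 1 / c ^ 2)) (-(1 / c)) x := by
      have h2 : HasDerivAt (fun s : ℝ => (s : ℂ)) 1 x := Complex.ofRealCLM.hasDerivAt
      exact ((h2.div_const c).add_const (1 / c ^ 2)).neg
    have h3 : HasDerivAt (fun s : ℝ => Complex.exp (-c * s)) (Complex.exp (-c * x) * -c) x := by
      have h2 : HasDerivAt (fun s : ℝ => (s : ℂ)) 1 x := Complex.ofRealCLM.hasDerivAt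
      have h4 := (h2.const_mul (-c)).cexp
      rwa [mul_one] at h4
    have h5 := h1.mul h3
    refine h5.congr_deriv ?_
    field_simp
    ring
  have hl : Filter.Tendsto (fun s : ℝ => -((s : ℂ) / c + 1 / c ^ 2) * Complex.exp (-c * s))
      Filter.atTop (nhds 0) := by
    rw [tendsto_zero_iff_norm_tendsto_zero]
    have h1 : Filter.Tendsto (fun s : ℝ => (‖c‖⁻¹ + ‖1 / c ^ 2‖) *
        ((1 + 2 / c.re) * Real.exp (-(c.re / 2) * s))) Filter.atTop (nhds 0) := by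
      have h2 : Filter.Tendsto (fun s : ℝ => Real.exp (-(c.re / 2) * s)) Filter.atTop (nhds 0) := by
        apply Real.tendsto_exp_atBot.comp
        exact Filter.tendsto_id.const_mul_atTop_of_neg (by linarith)
      have h3 := (h2.const_mul (1 + 2 / c.re)).const_mul (‖c‖⁻¹ + ‖1 / c ^ 2‖)
      simpa using h3
    refine squeeze_zero' (Filter.Eventually.of_forall fun _ => norm_nonneg _) ?_ h1
    filter_upwards [Filter.eventually_ge_atTop (0 : ℝ)] with s hs
    rw [norm_mul, norm_neg, Complex.norm_exp]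
    have e1 : (-c * (s : ℂ)).re = -c.re * s := by simp
    rw [e1]
    have e2 : ‖(s : ℂ) / c + 1 / c ^ 2‖ ≤ (‖c‖⁻¹ + ‖1 / c ^ 2‖) * (1 + s) := by
      refine (norm_add_le _ _).trans ?_
      rw [norm_div, Complex.norm_real, Real.norm_of_nonneg hs, div_eq_mul_inv]
      have := norm_nonneg (1 / c ^ 2)
      have := inv_nonneg.2 (norm_nonneg c)
      nlinarith
    calc ‖(s : ℂ) / c + 1 / c ^ 2‖ * Real.exp (-c.re * s) ≤
        (‖c‖⁻¹ + ‖1 / c ^ 2‖) * (1 + s) * Real.exp (-c.re * s) := by gcongr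
      _ = (‖c‖⁻¹ + ‖1 / c ^ 2‖) * ((1 + s) * Real.exp (-c.re * s)) := by ring
      _ ≤ _ := mul_le_mul_of_nonneg_left (s_exp_le hc hs) (by positivity)
  rw [integral_Ioi_of_hasDerivAt_of_tendsto (by fun_prop) hd hint' hl]
  simp

section
variable {d L : ℕ} [NeZero L]

/-- the real exponent -/
theorem cc_re {ζ : ℂ} (x : ℝ) : (Complex.I * (starRingEnd ℂ) ζ - Complex.I * x).re = ζ.im := by
  simp

theorem cc_eq (ζ : ℂ) (x : ℝ) (s : ℝ) :
    Complex.exp (-(Complex.I * (starRingEnd ℂ) ζ - Complex.I * x) * s) =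
      k1 ζ s * Complex.exp (Complex.I * ((s * x : ℝ) : ℂ)) := by
  unfold k1
  rw [← Complex.exp_add]
  congr 1
  push_cast
  ring

theorem cc_int {ζ : ℂ} (hζ : 0 < ζ.im) (x : ℝ) :
    IntegrableOn (fun s : ℝ => k1 ζ s * Complex.exp (Complex.I * ((s * x : ℝ) : ℂ))) (Ioi 0) := by
  refine kint (r := ζ.im / 2) (by positivity) (k1_cont ζ) (by fun_prop)
    (fun s hs => k1_le hζ.le hs) (B := 1) (fun s hs => ?_)
  rw [mul_comm Complex.I, Complex.norm_exp_ofReal_mul_I]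
  linarith

theorem cc_int2 {ζ : ℂ} (hζ : 0 < ζ.im) (x : ℝ) :
    IntegrableOn (fun s : ℝ => k2 ζ s * Complex.exp (Complex.I * ((s * x : ℝ) : ℂ))) (Ioi 0) := by
  refine kint (r := ζ.im / 2) (by positivity) (k2_cont ζ) (by fun_prop)
    (fun s hs => k2_le hζ.le hs) (B := 1) (fun s hs => ?_)
  rw [mul_comm Complex.I, Complex.norm_exp_ofReal_mul_I]
  linarith

/-- time representation of the resolvent -/
theorem time1 {ζ : ℂ} (hζ : 0 < ζ.im) (k : T d L) :
    (starRingEnd ℂ) (gs ζ k) = -Complex.I *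
      ∫ s in Ioi (0 : ℝ), k1 ζ s * Complex.exp (Complex.I * ((s * adj k : ℝ) : ℂ)) := by
  have hc : 0 < (Complex.I * (starRingEnd ℂ) ζ - Complex.I * adj k).re := by
    rw [cc_re]
    exact hζ
  have h1 := lap1 hc
  simp only [cc_eq] at h1
  rw [h1]
  unfold gs
  rw [map_inv₀, map_sub, Complex.conj_ofReal]
  have h2 : (adj k : ℂ) - (starRingEnd ℂ) ζ ≠ 0 := by
    intro h
    have := congrArg Complex.im h
    simp at this
    linarith
  have h3 : Complex.I * (starRingEnd ℂ) ζ - Complex.I * adj k =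
      -Complex.I * ((adj k : ℂ) - (starRingEnd ℂ) ζ) := by ring
  rw [h3, mul_inv, neg_mul, ← mul_assoc, inv_neg, Complex.inv_I]
  have h4 : Complex.I * Complex.I = -1 := Complex.I_mul_I
  linear_combination (((adj k : ℂ) - (starRingEnd ℂ) ζ)⁻¹) * h4

/-- time representation of the fourth power -/
theorem time2 {ζ : ℂ} (hζ : 0 < ζ.im) (k : T d L) :
    ζ.im ^ 3 * ‖gs ζ k‖ ^ 4 = 1 / 2 *
      (∫ s in Ioi (0 : ℝ), k2 ζ s * Complex.exp (Complex.I * ((s * adj k : ℝ) : ℂ))).re := by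
  set c : ℂ := Complex.I * (starRingEnd ℂ) ζ - Complex.I * adj k with hcd
  have hc : 0 < c.re := by
    rw [hcd, cc_re]
    exact hζ
  have h1 := lap1 hc
  have h2 := (lap2 hc).2
  have h3 : ∫ s in Ioi (0 : ℝ), k2 ζ s * Complex.exp (Complex.I * ((s * adj k : ℝ) : ℂ)) =
      c⁻¹ + ζ.im * (c ^ 2)⁻¹ := by
    rw [← h1, ← h2, ← integral_const_mul, ← integral_add]
    · refine integral_congr_ae (Filter.Eventually.of_forall fun s => ?_)
      simp only
      rw [hcd, cc_eq]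
      unfold k2
      push_cast
      ring
    · exact integrableOn_exp_mul_complex_Ioi (by simpa using hc) 0
    · exact (lap2 hc).1.const_mul _
  rw [h3]
  have hcv : c = ((ζ.im : ℝ) : ℂ) + ((ζ.re - adj k : ℝ) : ℂ) * Complex.I := by
    rw [hcd]
    apply Complex.ext <;> simp
  set η : ℝ := ζ.im with hη
  set x : ℝ := ζ.re - adj k with hx
  have hg : ‖gs ζ k‖ ^ 2 = (x ^ 2 + η ^ 2)⁻¹ := by
    unfold gs
    rw [norm_inv, inv_pow, ← Complex.normSq_eq_norm_sq, Complex.normSq_apply]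
    congr 1
    simp only [Complex.sub_re, Complex.sub_im, Complex.ofReal_re, Complex.ofReal_im]
    rw [hx, hη]
    ring
  have hg4 : ‖gs ζ k‖ ^ 4 = ((x ^ 2 + η ^ 2) ^ 2)⁻¹ := by
    have : ‖gs ζ k‖ ^ 4 = (‖gs ζ k‖ ^ 2) ^ 2 := by ring
    rw [this, hg, inv_pow]
  have hpos : 0 < x ^ 2 + η ^ 2 := by positivity
  have hcn : Complex.normSq c = x ^ 2 + η ^ 2 := by
    rw [hcv, Complex.normSq_apply]
    simp
    ring
  have hinv : c⁻¹ = (((x ^ 2 + η ^ 2)⁻¹ : ℝ) : ℂ) * (η - x * Complex.I) := by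
    rw [Complex.inv_def, hcn, hcv]
    simp only [map_add, map_mul, Complex.conj_ofReal, Complex.conj_I]
    ring
  have hre1 : (c⁻¹).re = (x ^ 2 + η ^ 2)⁻¹ * η := by
    rw [hinv, Complex.re_ofReal_mul]
    simp
  have hre2 : ((c ^ 2)⁻¹).re = ((x ^ 2 + η ^ 2) ^ 2)⁻¹ * (η ^ 2 - x ^ 2) := by
    rw [← inv_pow, hinv, mul_pow, ← Complex.ofReal_pow, Complex.re_ofReal_mul, inv_pow]
    congr 1
    simp [sq]
  rw [hg4, Complex.add_re, Complex.re_ofReal_mul, hre1, hre2]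
  field_simp
  ring

/-! ### Products -/

/-- averages of products -/
theorem prod_avg (f : Fin d → ZMod L → ℂ) :
    (NN d L : ℂ)⁻¹ * ∑ k : T d L, ∏ i, f i (k i) = ∏ i, ((L : ℂ)⁻¹ * ∑ q, f i q) := by
  have h := Finset.prod_univ_sum (fun _ : Fin d => (Finset.univ : Finset (ZMod L))) f
  rw [Fintype.piFinset_univ] at h
  rw [Finset.prod_mul_distrib, h]
  congr 1
  unfold NN
  rw [Finset.prod_const, Finset.card_univ, Fintype.card_fin]
  push_cast
  rw [inv_pow]

theorem exp_adj (s : ℝ) (k : T d L) : Complex.exp (Complex.I * ((s * adj k : ℝ) : ℂ)) =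
    ∏ i, Complex.exp (Complex.I * ((s * a (k i) : ℝ) : ℂ)) := by
  rw [← Complex.exp_sum, adj_eq]
  congr 1
  push_cast
  rw [Finset.mul_sum, Finset.mul_sum]

theorem avg_one (s : ℝ) : (NN d L : ℂ)⁻¹ * ∑ k : T d L,
    Complex.exp (Complex.I * ((s * adj k : ℝ) : ℂ)) = JL L s ^ d := by
  simp only [exp_adj]
  rw [prod_avg (fun _ q => Complex.exp (Complex.I * ((s * a q : ℝ) : ℂ)))]
  rw [Finset.prod_const, Finset.card_univ, Fintype.card_fin]
  rfl

theorem avg_sq (i : Fin d) (s : ℝ) : (NN d L : ℂ)⁻¹ * ∑ k : T d L,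
    (((2 * (ZMod.stdAddChar (k i) : ℂ).im) ^ 2 : ℝ) : ℂ) *
      Complex.exp (Complex.I * ((s * adj k : ℝ) : ℂ)) = JL L s ^ (d - 1) * SL L s := by
  have h1 : ∀ k : T d L, (((2 * (ZMod.stdAddChar (k i) : ℂ).im) ^ 2 : ℝ) : ℂ) *
      Complex.exp (Complex.I * ((s * adj k : ℝ) : ℂ)) =
      ∏ j, (if j = i then (((2 * (ZMod.stdAddChar (k j) : ℂ).im) ^ 2 : ℝ) : ℂ) else 1) *
        Complex.exp (Complex.I * ((s * a (k j) : ℝ) : ℂ)) := by
    intro k
    rw [Finset.prod_mul_distrib, exp_adj]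
    congr 1
    rw [Finset.prod_ite_eq' Finset.univ i
      (fun j => (((2 * (ZMod.stdAddChar (k j) : ℂ).im) ^ 2 : ℝ) : ℂ)), if_pos (Finset.mem_univ i)]
  simp only [h1]
  rw [prod_avg (fun j q => (if j = i then (((2 * (ZMod.stdAddChar q : ℂ).im) ^ 2 : ℝ) : ℂ) else 1) *
    Complex.exp (Complex.I * ((s * a q : ℝ) : ℂ)))]
  rw [← Finset.mul_prod_erase Finset.univ _ (Finset.mem_univ i), mul_comm]
  congr 1
  · have h2 : ∀ j ∈ Finset.univ.erase i, (L : ℂ)⁻¹ * ∑ q : ZMod L,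
        (if j = i then (((2 * (ZMod.stdAddChar q : ℂ).im) ^ 2 : ℝ) : ℂ) else 1) *
          Complex.exp (Complex.I * ((s * a q : ℝ) : ℂ)) = JL L s := by
      intro j hj
      simp only [if_neg (Finset.ne_of_mem_erase hj), one_mul]
      rfl
    rw [Finset.prod_congr rfl h2, Finset.prod_const, Finset.card_erase_of_mem (Finset.mem_univ i),
      Finset.card_univ, Fintype.card_fin]
  · simp only [if_true]
    rfl

/-- odd functions -/
theorem odd_sum (s : ℝ) : ∑ q : ZMod L, (((2 * (ZMod.stdAddChar q : ℂ).im) : ℝ) : ℂ) *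
    Complex.exp (Complex.I * ((s * a q : ℝ) : ℂ)) = 0 := by
  set S := ∑ q : ZMod L, (((2 * (ZMod.stdAddChar q : ℂ).im) : ℝ) : ℂ) *
    Complex.exp (Complex.I * ((s * a q : ℝ) : ℂ)) with hS
  have h1 : S = -S := by
    conv_lhs => rw [hS, ← Equiv.sum_comp (Equiv.neg (ZMod L))]
    rw [hS, ← Finset.sum_neg_distrib]
    refine Finset.sum_congr rfl fun q _ => ?_
    rw [Equiv.neg_apply, a_neg]
    have h2 : (ZMod.stdAddChar (-q) : ℂ).im = -(ZMod.stdAddChar q : ℂ).im := by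
      rw [ZMod.stdAddChar_apply, ZMod.stdAddChar_apply, AddChar.map_neg_eq_inv,
        Circle.coe_inv_eq_conj, Complex.conj_im]
    rw [h2]
    push_cast
    ring
  have h2 : (2 : ℂ) * S = 0 := by linear_combination h1
  exact (mul_eq_zero.1 h2).resolve_left two_ne_zero

theorem avg_cross (i j : Fin d) (hij : i ≠ j) (s : ℝ) : ∑ k : T d L,
    (((2 * (ZMod.stdAddChar (k i) : ℂ).im) * (2 * (ZMod.stdAddChar (k j) : ℂ).im) : ℝ) : ℂ) *
      Complex.exp (Complex.I * ((s * adj k : ℝ) : ℂ)) = 0 := by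
  have h1 : ∀ k : T d L,
      (((2 * (ZMod.stdAddChar (k i) : ℂ).im) * (2 * (ZMod.stdAddChar (k j) : ℂ).im) : ℝ) : ℂ) *
      Complex.exp (Complex.I * ((s * adj k : ℝ) : ℂ)) =
      ∏ l, (if l = i ∨ l = j then (((2 * (ZMod.stdAddChar (k l) : ℂ).im) : ℝ) : ℂ) else 1) *
        Complex.exp (Complex.I * ((s * a (k l) : ℝ) : ℂ)) := by
    intro k
    rw [Finset.prod_mul_distrib, exp_adj]
    congr 1
    have h2 : ∏ l, (if l = i ∨ l = j then (((2 * (ZMod.stdAddChar (k l) : ℂ).im) : ℝ) : ℂ) else 1) =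
        ∏ l ∈ ({i, j} : Finset (Fin d)), (((2 * (ZMod.stdAddChar (k l) : ℂ).im) : ℝ) : ℂ) := by
      rw [← Finset.prod_filter]
      congr 1
      ext l
      simp
    rw [h2, Finset.prod_pair hij]
    push_cast
    ring
  simp only [h1]
  have h3 := prod_avg (d := d) (L := L) (fun l q =>
    (if l = i ∨ l = j then (((2 * (ZMod.stdAddChar q : ℂ).im) : ℝ) : ℂ) else 1) *
    Complex.exp (Complex.I * ((s * a q : ℝ) : ℂ)))
  have h4 : ∏ l, ((L : ℂ)⁻¹ * ∑ q : ZMod L,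
      (if l = i ∨ l = j then (((2 * (ZMod.stdAddChar q : ℂ).im) : ℝ) : ℂ) else 1) *
        Complex.exp (Complex.I * ((s * a q : ℝ) : ℂ))) = 0 := by
    refine Finset.prod_eq_zero (Finset.mem_univ i) ?_
    simp only [true_or, if_true]
    rw [odd_sum, mul_zero]
  rw [h4] at h3
  exact (mul_eq_zero.1 h3).resolve_left (inv_ne_zero NNc_ne)

/-- averages of weighted fourth powers -/
theorem avg_time2 {ζ : ℂ} (hζ : 0 < ζ.im) (Φ : T d L → ℝ) :
    (NN d L)⁻¹ * ∑ k : T d L, Φ k * (ζ.im ^ 3 * ‖gs ζ k‖ ^ 4) = 1 / 2 *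
      (∫ s in Ioi (0 : ℝ), k2 ζ s * ((NN d L : ℂ)⁻¹ * ∑ k : T d L, (Φ k : ℂ) *
        Complex.exp (Complex.I * ((s * adj k : ℝ) : ℂ)))).re := by
  have h1 : ∀ s : ℝ, k2 ζ s * ((NN d L : ℂ)⁻¹ * ∑ k : T d L, (Φ k : ℂ) *
        Complex.exp (Complex.I * ((s * adj k : ℝ) : ℂ))) = ∑ k : T d L,
        ((((NN d L)⁻¹ * Φ k : ℝ)) : ℂ) *
          (k2 ζ s * Complex.exp (Complex.I * ((s * adj k : ℝ) : ℂ))) := by
    intro s
    rw [Finset.mul_sum, Finset.mul_sum]
    refine Finset.sum_congr rfl fun k _ => ?_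
    push_cast
    ring
  simp only [h1]
  rw [integral_finsetSum _ fun k _ => (cc_int2 hζ (adj k)).const_mul _, Complex.re_sum,
    Finset.mul_sum, Finset.mul_sum]
  refine Finset.sum_congr rfl fun k _ => ?_
  rw [integral_const_mul, Complex.re_ofReal_mul, time2 hζ]
  ring

/-- the diagonal of the free resolvent -/
theorem avg_time1 {ζ : ℂ} (hζ : 0 < ζ.im) :
    (starRingEnd ℂ) (GG ζ (0 : T d L) 0) = -Complex.I *
      ∫ s in Ioi (0 : ℝ), k1 ζ s * JL L s ^ d := by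
  have h1 : ∀ s : ℝ, k1 ζ s * JL L s ^ d = ∑ k : T d L, (NN d L : ℂ)⁻¹ *
      (k1 ζ s * Complex.exp (Complex.I * ((s * adj k : ℝ) : ℂ))) := by
    intro s
    rw [← avg_one, Finset.mul_sum, Finset.mul_sum]
    refine Finset.sum_congr rfl fun k _ => ?_
    ring
  simp only [h1]
  rw [integral_finsetSum _ fun k _ => (cc_int hζ (adj k)).const_mul _, GG_00, map_mul, map_inv₀,
    Complex.conj_ofReal, map_sum, Finset.mul_sum, Finset.mul_sum]
  refine Finset.sum_congr rfl fun k _ => ?_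
  rw [integral_const_mul, time1 hζ]
  ring

end

end Pool.Agent.Run7.h47
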