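import Pool.Agent.Run7.h47.Rs2
import Pool.Agent.Run7.h47.Bil

/-! Two energy shells on smaller tori (after `Pool.Agent.W240.BK.Two`). -/

set_option autoImplicit false
set_option linter.unusedSectionVars false

open scoped BigOperators

namespace Pool.Agent.Run7.h47.Q

open Pool.Agent.W788.BK Pool.Agent.W240.BK
open Pool.Agent.W788.MFP.Four (T NN adj)

section phase

variable {d L : ℕ} [NeZero L]

theorem osc2 (z : ℂ) (hz : 16 * ‖z‖ ≤ L) : ‖S1 L z‖ ≤ 10 * L / Real.sqrt (1 + ‖z‖) := by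
  have hLR : (0 : ℝ) < L := by exact_mod_cast Nat.pos_of_ne_zero (NeZero.ne L)
  have hLC : (L : ℂ) ≠ 0 := by exact_mod_cast NeZero.ne L
  have hzn := norm_nonneg z
  have hs : 0 < Real.sqrt (1 + ‖z‖) := Real.sqrt_pos.2 (by linarith)
  have h1 := S_bes L z hz
  have h2 : S1 L z = (L : ℂ) * FD L (fun χ => Complex.exp (ph z χ)) := by
    unfold S1 FD
    rw [← mul_assoc, mul_inv_cancel₀ hLC, one_mul]
    refine Finset.sum_congr rfl fun k _ => ?_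
    simp only [ph_eq]
  have h3 := WJ_bd ‖z‖ hzn
  have h4 : ‖FD L (fun χ => Complex.exp (ph z χ))‖ ≤
      ‖FD L (fun χ => Complex.exp (ph z χ)) - WJ ‖z‖‖ + ‖WJ ‖z‖‖ := by
    have := norm_add_le (FD L (fun χ => Complex.exp (ph z χ)) - WJ ‖z‖) (WJ ‖z‖)
    rwa [sub_add_cancel] at this
  have h5 : (4 : ℝ) * (1 / 2) ^ L ≤ 7 / Real.sqrt (1 + ‖z‖) := by
    rw [le_div_iff₀ hs]
    have h6 : Real.sqrt (1 + ‖z‖) ≤ 1 + ‖z‖ := by
      rw [Real.sqrt_le_left (by linarith)]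
      nlinarith
    have h7 : (L : ℝ) ≤ 2 ^ L := by
      exact_mod_cast (Nat.lt_two_pow_self (n := L)).le
    have h8 : (1 : ℝ) ≤ 2 ^ L := one_le_pow₀ (by norm_num)
    have h9 : (1 / 2 : ℝ) ^ L * 2 ^ L = 1 := by
      rw [← mul_pow]
      norm_num
    have h10 : 0 < (1 / 2 : ℝ) ^ L := by positivity
    calc 4 * (1 / 2 : ℝ) ^ L * Real.sqrt (1 + ‖z‖) ≤ 4 * (1 / 2) ^ L * (2 ^ L + 2 ^ L / 16) := by
          gcongr
          linarith
      _ = 17 / 4 * ((1 / 2 : ℝ) ^ L * 2 ^ L) := by ring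
      _ ≤ 7 := by
          rw [h9]
          norm_num
  rw [h2, norm_mul, Complex.norm_natCast]
  have h6 : 10 * (L : ℝ) / Real.sqrt (1 + ‖z‖) = L * (7 / Real.sqrt (1 + ‖z‖) +
      3 / Real.sqrt (1 + ‖z‖)) := by ring
  rw [h6]
  refine mul_le_mul_of_nonneg_left ?_ hLR.le
  linarith

/-- the decay of one factor -/
theorem S1_dec (M : ℕ) (hL : 32 * (M : ℝ) ≤ L) (z : ℂ)
    (hz : ‖z‖ ≤ 2 * M) (x : ℝ) (hx : 0 ≤ x) (hxz : x ^ 2 / 2 ≤ ‖z‖ ^ 2) :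
    ‖S1 L z‖ ≤ 12 * L * (1 / Real.sqrt (1 + x)) := by
  have h1 := osc2 (L := L) z (by linarith)
  refine (show ‖S1 L z‖ ≤ _ from h1).trans ?_
  have h2 : 7 / 10 * x ≤ ‖z‖ := by
    refine le_of_sq_le_sq ?_ (norm_nonneg z)
    nlinarith [sq_nonneg x]
  have h3 : 10 * Real.sqrt (1 + x) ≤ 12 * Real.sqrt (1 + ‖z‖) := by
    have hzn := norm_nonneg z
    refine le_of_sq_le_sq ?_ (by positivity)
    rw [mul_pow, mul_pow, Real.sq_sqrt (by positivity), Real.sq_sqrt (by positivity)]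
    linarith
  have hzn := norm_nonneg z
  have p1 : 0 < Real.sqrt (1 + x) := Real.sqrt_pos.2 (by positivity)
  have p2 : 0 < Real.sqrt (1 + ‖z‖) := Real.sqrt_pos.2 (by positivity)
  rw [mul_one_div, div_le_div_iff₀ p2 p1]
  have hLn : (0 : ℝ) ≤ L := Nat.cast_nonneg L
  nlinarith

/-- the bound for the phase sum -/
theorem Ph_bd (hd : 3 ≤ d) (θ : ℝ) (hθ : 0 < θ) (hθ1 : θ ≤ 1) (Q : T d L)
    (hQ : ¬ Low θ Q) (M : ℕ) (hL : 32 * (M : ℝ) ≤ L) :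
    (∀ ξ ζ : ℝ, |ξ| ≤ M → |ζ| ≤ M → ‖Ph Q ξ ζ‖ ≤ 1728 * om θ (ξ + ζ) (ξ - ζ) * NN d L) ∨
    (∀ ξ ζ : ℝ, |ξ| ≤ M → |ζ| ≤ M → ‖Ph Q ξ ζ‖ ≤ 1728 * om θ (ξ - ζ) (ξ + ζ) * NN d L) := by
  have hz : ∀ (ξ ζ : ℝ) (q : ZMod L), |ξ| ≤ M → |ζ| ≤ M →
      ‖(ξ : ℂ) + ζ * ZMod.stdAddChar q‖ ≤ 2 * M := by
    intro ξ ζ q h1 h2
    have e1 : ‖(ZMod.stdAddChar q : ℂ)‖ = 1 := by
      rw [ZMod.stdAddChar_apply]
      exact Circle.norm_coe _
    refine (norm_add_le _ _).trans ?_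
    rw [norm_mul, e1, mul_one, Complex.norm_real, Complex.norm_real, Real.norm_eq_abs,
      Real.norm_eq_abs]
    linarith
  have hom : ∀ u v : ℝ, 1 / Real.sqrt (1 + |u|) * (1 / Real.sqrt (1 + |u|)) *
      (1 / Real.sqrt (1 + θ * |v|)) = om θ u v := by
    intro u v
    unfold om
    congr 1
    rw [div_mul_div_comm, one_mul, Real.mul_self_sqrt (by positivity)]
  have hx : ∀ v : ℝ, (θ * |v|) ^ 2 = v ^ 2 * θ ^ 2 := fun v => by
    rw [mul_pow, sq_abs]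
    ring
  rcases three hd θ hθ hθ1 Q hQ with ⟨a, b, c, hab, hac, hbc, h1, h2, h3⟩ |
    ⟨a, b, c, hab, hac, hbc, h1, h2, h3⟩
  · left
    intro ξ ζ hξ hζ
    have t1 : ∀ i, 1 / 2 ≤ (1 + cr (Q i)) / 2 →
        ‖S1 L ((ξ : ℂ) + ζ * ZMod.stdAddChar (Q i))‖ ≤
        12 * L * (1 / Real.sqrt (1 + |ξ + ζ|)) := by
      intro i hi
      refine S1_dec M hL _ (hz ξ ζ (Q i) hξ hζ) _ (abs_nonneg _) ?_
      rw [rho_sq, sq_abs]
      have := abs_le.1 (cr_le (Q i))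
      have e1 : 0 ≤ (ξ - ζ) ^ 2 * ((1 - cr (Q i)) / 2) :=
        mul_nonneg (sq_nonneg _) (by linarith)
      have e2 := mul_le_mul_of_nonneg_left hi (sq_nonneg (ξ + ζ))
      linarith
    have t2 : ‖S1 L ((ξ : ℂ) + ζ * ZMod.stdAddChar (Q c))‖ ≤
        12 * L * (1 / Real.sqrt (1 + θ * |ξ - ζ|)) := by
      refine S1_dec M hL _ (hz ξ ζ (Q c) hξ hζ) _ (by positivity) ?_
      rw [rho_sq, hx]
      have := abs_le.1 (cr_le (Q c))
      have e1 : 0 ≤ (ξ + ζ) ^ 2 * ((1 + cr (Q c)) / 2) :=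
        mul_nonneg (sq_nonneg _) (by linarith)
      have e2 := mul_le_mul_of_nonneg_left h3 (sq_nonneg (ξ - ζ))
      linarith
    have := Ph_three Q ξ ζ _ _ _ a b c hab hac hbc (t1 a h1) (t1 b h2) t2
    rwa [hom] at this
  · right
    intro ξ ζ hξ hζ
    have t1 : ∀ i, 1 / 2 ≤ (1 - cr (Q i)) / 2 →
        ‖S1 L ((ξ : ℂ) + ζ * ZMod.stdAddChar (Q i))‖ ≤
        12 * L * (1 / Real.sqrt (1 + |ξ - ζ|)) := by
      intro i hi
      refine S1_dec M hL _ (hz ξ ζ (Q i) hξ hζ) _ (abs_nonneg _) ?_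
      rw [rho_sq, sq_abs]
      have := abs_le.1 (cr_le (Q i))
      have e1 : 0 ≤ (ξ + ζ) ^ 2 * ((1 + cr (Q i)) / 2) :=
        mul_nonneg (sq_nonneg _) (by linarith)
      have e2 := mul_le_mul_of_nonneg_left hi (sq_nonneg (ξ - ζ))
      linarith
    have t2 : ‖S1 L ((ξ : ℂ) + ζ * ZMod.stdAddChar (Q c))‖ ≤
        12 * L * (1 / Real.sqrt (1 + θ * |ξ + ζ|)) := by
      refine S1_dec M hL _ (hz ξ ζ (Q c) hξ hζ) _ (by positivity) ?_
      rw [rho_sq, hx]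
      have := abs_le.1 (cr_le (Q c))
      have e1 : 0 ≤ (ξ - ζ) ^ 2 * ((1 - cr (Q c)) / 2) :=
        mul_nonneg (sq_nonneg _) (by linarith)
      have e2 := mul_le_mul_of_nonneg_left h3 (sq_nonneg (ξ + ζ))
      linarith
    have := Ph_three Q ξ ζ _ _ _ a b c hab hac hbc (t1 a h1) (t1 b h2) t2
    rwa [hom] at this

end phase

theorem two (d L : ℕ) [NeZero L] (hd : 3 ≤ d) (θ : ℝ) (hθ : 0 < θ) (hθ1 : θ ≤ 1) (Q : T d L)
    (hQ : ¬ Low θ Q) (M M' : ℕ) (hM' : 1 ≤ M') (hMM : M' ≤ M) (hL : 32 * (M : ℝ) ≤ L)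
    (E E' : ℝ) : ∑ k : T d L, Fe M (adj k - E) * Fe M' (adj (k + Q) - E') ≤
    40000 * (1 + Real.log M) / (M * Real.sqrt (θ * M')) * NN d L := by
  refine (expand Q M M' E E').trans ?_
  have hM : 1 ≤ M := hM'.trans hMM
  have hMr : (1 : ℝ) ≤ M := by exact_mod_cast hM
  have hMr' : (1 : ℝ) ≤ M' := by exact_mod_cast hM'
  have hN : 0 < NN d L := Pool.Agent.W788.MFP.Four.NN_pos
  have hlog := Real.log_nonneg hMr
  have rng : ∀ (K : ℕ), K ≤ M → ∀ j ∈ Finset.range K, ∀ j' ∈ Finset.range K,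
      |(j : ℝ) - j'| ≤ M := by
    intro K hK j hj j' hj'
    rw [Finset.mem_range] at hj hj'
    have a1 : (j : ℝ) ≤ M := by exact_mod_cast (by omega : j ≤ M)
    have a2 : (j' : ℝ) ≤ M := by exact_mod_cast (by omega : j' ≤ M)
    have a3 : (0 : ℝ) ≤ j := Nat.cast_nonneg j
    have a4 : (0 : ℝ) ≤ j' := Nat.cast_nonneg j'
    rw [abs_le]
    constructor <;> linarith
  have key : ∑ j ∈ Finset.range M, ∑ j' ∈ Finset.range M,
        ∑ l ∈ Finset.range M', ∑ l' ∈ Finset.range M', ‖Ph Q ((j : ℝ) - j') ((l : ℝ) - l')‖ ≤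
      1728 * (M * M' * (17 / 5 * (1 + Real.log M) * (4 * M' / Real.sqrt (θ * M')))) *
        NN d L := by
    have fin : ∑ j ∈ Finset.range M, ∑ j' ∈ Finset.range M,
        ∑ l ∈ Finset.range M', ∑ l' ∈ Finset.range M',
        1728 * om θ (((j : ℝ) - j') + ((l : ℝ) - l')) (((j : ℝ) - j') - ((l : ℝ) - l')) *
          NN d L ≤
      1728 * (M * M' * (17 / 5 * (1 + Real.log M) * (4 * M' / Real.sqrt (θ * M')))) *
        NN d L := by
      simp only [← Finset.sum_mul, ← Finset.mul_sum]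
      refine mul_le_mul_of_nonneg_right ?_ hN.le
      exact mul_le_mul_of_nonneg_left (sum_om_all θ hθ hθ1 M M' hM' hMM) (by norm_num)
    rcases Ph_bd hd θ hθ hθ1 Q hQ M hL with hp | hp
    · refine le_trans ?_ fin
      refine Finset.sum_le_sum fun j hj => Finset.sum_le_sum fun j' hj' =>
        Finset.sum_le_sum fun l hl => Finset.sum_le_sum fun l' hl' => ?_
      exact hp _ _ (rng M le_rfl j hj j' hj') (rng M' hMM l hl l' hl')
    · refine le_trans ?_ fin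
      refine Finset.sum_le_sum fun j hj => Finset.sum_le_sum fun j' hj' => ?_
      rw [Finset.sum_comm]
      refine Finset.sum_le_sum fun l hl => Finset.sum_le_sum fun l' hl' => ?_
      have := hp _ _ (rng M le_rfl j hj j' hj') (rng M' hMM l' hl' l hl)
      have e1 : ((j : ℝ) - j') - ((l' : ℝ) - l) = ((j : ℝ) - j') + ((l : ℝ) - l') := by ring
      have e2 : ((j : ℝ) - j') + ((l' : ℝ) - l) = ((j : ℝ) - j') - ((l : ℝ) - l') := by ring
      rwa [e1, e2] at this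
  refine (mul_le_mul_of_nonneg_left key (by positivity)).trans ?_
  obtain ⟨r, hr⟩ : ∃ r, r = Real.sqrt (θ * M') := ⟨_, rfl⟩
  have hr0 : 0 < r := by rw [hr]; exact Real.sqrt_pos.2 (by positivity)
  rw [← hr]
  have e1 : ((M : ℝ)⁻¹) ^ 2 * ((M' : ℝ)⁻¹) ^ 2 *
      (1728 * (M * M' * (17 / 5 * (1 + Real.log M) * (4 * M' / r))) * NN d L) =
      (1728 * (17 / 5) * 4) * ((1 + Real.log M) / (M * r) * NN d L) := by
    field_simp
  have e2 : 40000 * (1 + Real.log M) / (M * r) * NN d L =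
      40000 * ((1 + Real.log M) / (M * r) * NN d L) := by ring
  rw [e1, e2]
  refine mul_le_mul_of_nonneg_right (by norm_num) (by positivity)


end Pool.Agent.Run7.h47.Q
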