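import Pool.Agent.Run7.h47.Zt

/-! Cutting off the Green function. -/

set_option autoImplicit false
set_option linter.unusedSectionVars false

open scoped BigOperators Matrix
open MeasureTheory

namespace Pool.Agent.Run7.h47

open Pool.Agent.W788.MFP.Four Pool.Agent.W788.BK Pool.Agent.W788.MFP.Cut
open Pool.Agent.H4R2.LO (Zd)
open Pool.Agent.H695R3.AN (lf lf_inj lf_add lf_sub)

variable {d : ℕ}

theorem abs_lip {ℓ : ℝ} (hℓ : 0 < ℓ) (x : Zd d) (i : Fin d) :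
    |φ ℓ (x + Pi.single i 1) - φ ℓ x| ≤ 1 / ℓ ∧ |φ ℓ (x - Pi.single i 1) - φ ℓ x| ≤ 1 / ℓ := by
  constructor
  · apply φ_lip ℓ hℓ
    rw [add_sub_cancel_left]
    exact norm_single i
  · apply φ_lip ℓ hℓ
    rw [sub_sub_cancel_left, norm_neg]
    exact norm_single i

/-- sums of squares -/
theorem sq_sum_two (A B : Fin d → ℂ) (a b : Fin d → ℝ) (q : ℝ)
    (hA : ∀ i, ‖A i‖ ≤ q * a i) (hB : ∀ i, ‖B i‖ ≤ q * b i) :
    ‖∑ i, (A i + B i)‖ ^ 2 ≤ 2 * d * q ^ 2 * ∑ i, (a i ^ 2 + b i ^ 2) := by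
  have h1 : ‖∑ i, (A i + B i)‖ ≤ ∑ i, (‖A i‖ + ‖B i‖) :=
    (norm_sum_le _ _).trans (Finset.sum_le_sum fun i _ => norm_add_le _ _)
  have h2 : (∑ i, (‖A i‖ + ‖B i‖)) ^ 2 ≤ d * ∑ i, (‖A i‖ + ‖B i‖) ^ 2 := by
    refine sq_sum_le_card_mul_sum_sq.trans ?_
    rw [Finset.card_univ, Fintype.card_fin]
  have h3 : ∀ i, (‖A i‖ + ‖B i‖) ^ 2 ≤ 2 * q ^ 2 * (a i ^ 2 + b i ^ 2) := by
    intro i
    have e1 : ‖A i‖ ^ 2 ≤ (q * a i) ^ 2 := pow_le_pow_left₀ (norm_nonneg _) (hA i) 2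
    have e2 : ‖B i‖ ^ 2 ≤ (q * b i) ^ 2 := pow_le_pow_left₀ (norm_nonneg _) (hB i) 2
    nlinarith [sq_nonneg (‖A i‖ - ‖B i‖)]
  calc ‖∑ i, (A i + B i)‖ ^ 2 ≤ (∑ i, (‖A i‖ + ‖B i‖)) ^ 2 :=
        pow_le_pow_left₀ (norm_nonneg _) h1 2
    _ ≤ d * ∑ i, (‖A i‖ + ‖B i‖) ^ 2 := h2
    _ ≤ d * ∑ i, (2 * q ^ 2 * (a i ^ 2 + b i ^ 2)) := by
        gcongr with i
        exact h3 i
    _ = _ := by
        rw [← Finset.mul_sum]
        ring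

theorem nbr_sum {u : Zd d → ℂ} (hu : Summable fun x => ‖u x‖ ^ 2) :
    (Summable fun x : Zd d =>
      ∑ i : Fin d, (‖u (x + Pi.single i 1)‖ ^ 2 + ‖u (x - Pi.single i 1)‖ ^ 2)) ∧
    ∑' x : Zd d, ∑ i : Fin d, (‖u (x + Pi.single i 1)‖ ^ 2 + ‖u (x - Pi.single i 1)‖ ^ 2) =
      2 * d * ∑' x, ‖u x‖ ^ 2 := by
  have hsp : ∀ i : Fin d, Summable fun x => ‖u (x + Pi.single i 1)‖ ^ 2 := fun i =>
    summ_shift hu (Pi.single i 1)
  have hsm : ∀ i : Fin d, Summable fun x => ‖u (x - Pi.single i 1)‖ ^ 2 := fun i => by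
    have := summ_shift hu (-Pi.single i 1)
    simpa only [← sub_eq_add_neg] using this
  have ep : ∀ i : Fin d, ∑' x, ‖u (x + Pi.single i 1)‖ ^ 2 = ∑' x, ‖u x‖ ^ 2 := fun i =>
    tsum_shift (fun x => ‖u x‖ ^ 2) (Pi.single i 1)
  have em : ∀ i : Fin d, ∑' x, ‖u (x - Pi.single i 1)‖ ^ 2 = ∑' x, ‖u x‖ ^ 2 := fun i => by
    have := tsum_shift (fun x => ‖u x‖ ^ 2) (-Pi.single i 1)
    simpa only [← sub_eq_add_neg] using this
  refine ⟨summable_sum fun i _ => (hsp i).add (hsm i), ?_⟩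
  rw [Summable.tsum_finsetSum fun i _ => (hsp i).add (hsm i)]
  have h1 : ∀ i : Fin d, ∑' x : Zd d, (‖u (x + Pi.single i 1)‖ ^ 2 + ‖u (x - Pi.single i 1)‖ ^ 2) =
      2 * ∑' x, ‖u x‖ ^ 2 := by
    intro i
    rw [(hsp i).tsum_add (hsm i), ep, em]
    ring
  rw [Finset.sum_congr rfl fun i _ => h1 i, Finset.sum_const, Finset.card_univ, Fintype.card_fin,
    nsmul_eq_mul]
  ring

/-- the Green function is small far away -/
theorem far {σ E t ℓ : ℝ} (ht : 0 < t) (hℓ : 0 < ℓ) {ω : Zd d → ℝ} {u : Zd d → ℂ}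
    (h : IsGreen d σ ((E : ℂ) + (t : ℂ) * Complex.I) ω u) :
    (Summable fun x => ‖((1 - φ ℓ x : ℝ) : ℂ) * u x‖ ^ 2) ∧
    ∑' x, ‖((1 - φ ℓ x : ℝ) : ℂ) * u x‖ ^ 2 ≤ (2 * d / ℓ) ^ 2 / t ^ 4 := by
  have hs : Summable fun x => ‖((1 - φ ℓ x : ℝ) : ℂ) * u x‖ ^ 2 := by
    refine Summable.of_nonneg_of_le (fun x => by positivity) (fun x => ?_) h.1
    rw [norm_mul, mul_pow, Complex.norm_real, Real.norm_eq_abs, sq_abs]
    apply mul_le_of_le_one_left (by positivity)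
    have h1 := φ_nonneg ℓ x
    have h2 := φ_le_one ℓ x
    nlinarith
  refine ⟨hs, ?_⟩
  obtain ⟨f, hf⟩ : ∃ f : Zd d → ℂ, f = fun x => ∑ i : Fin d,
    (-((φ ℓ (x + Pi.single i 1) - φ ℓ x : ℝ) : ℂ) * u (x + Pi.single i 1) +
      -((φ ℓ (x - Pi.single i 1) - φ ℓ x : ℝ) : ℂ) * u (x - Pi.single i 1)) := ⟨_, rfl⟩
  have heq : ∀ x, ∑ i : Fin d, (((1 - φ ℓ (x + Pi.single i 1) : ℝ) : ℂ) * u (x + Pi.single i 1) +
      ((1 - φ ℓ (x - Pi.single i 1) : ℝ) : ℂ) * u (x - Pi.single i 1)) +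
      σ * ω x * (((1 - φ ℓ x : ℝ) : ℂ) * u x) -
      ((E : ℂ) + (t : ℂ) * Complex.I) * (((1 - φ ℓ x : ℝ) : ℂ) * u x) = f x := by
    intro x
    have h1 := h.2 x
    have h2 : ((1 - φ ℓ x : ℝ) : ℂ) * (if x = 0 then (1 : ℂ) else 0) = 0 := by
      by_cases hx : x = 0
      · subst hx
        rw [φ_one ℓ hℓ 0 (by rw [norm_zero]; exact hℓ.le)]
        simp
      · simp [hx]
    rw [← h1] at h2
    rw [hf]
    simp only
    have h3 : ∑ i : Fin d, (((1 - φ ℓ (x + Pi.single i 1) : ℝ) : ℂ) * u (x + Pi.single i 1) +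
        ((1 - φ ℓ (x - Pi.single i 1) : ℝ) : ℂ) * u (x - Pi.single i 1)) =
        ((1 - φ ℓ x : ℝ) : ℂ) * ∑ i : Fin d, (u (x + Pi.single i 1) + u (x - Pi.single i 1)) +
        ∑ i : Fin d, (-((φ ℓ (x + Pi.single i 1) - φ ℓ x : ℝ) : ℂ) * u (x + Pi.single i 1) +
        -((φ ℓ (x - Pi.single i 1) - φ ℓ x : ℝ) : ℂ) * u (x - Pi.single i 1)) := by
      rw [Finset.mul_sum, ← Finset.sum_add_distrib]
      refine Finset.sum_congr rfl fun i _ => ?_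
      push_cast
      ring
    rw [h3]
    linear_combination h2
  have hfb : ∀ x, ‖f x‖ ^ 2 ≤ 2 * d * (1 / ℓ) ^ 2 *
      ∑ i : Fin d, (‖u (x + Pi.single i 1)‖ ^ 2 + ‖u (x - Pi.single i 1)‖ ^ 2) := by
    intro x
    rw [hf]
    refine sq_sum_two _ _ _ _ _ (fun i => ?_) fun i => ?_
    · rw [norm_mul, norm_neg, Complex.norm_real, Real.norm_eq_abs]
      gcongr
      exact (abs_lip hℓ x i).1
    · rw [norm_mul, norm_neg, Complex.norm_real, Real.norm_eq_abs]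
      gcongr
      exact (abs_lip hℓ x i).2
  obtain ⟨n1, n2⟩ := nbr_sum h.1
  have hfs : Summable fun x => ‖f x‖ ^ 2 :=
    Summable.of_nonneg_of_le (fun x => by positivity) hfb (n1.mul_left _)
  have h1 := apriori ht ω (σ := σ) (E := E) hs hfs heq
  have h2 : ∑' x, ‖f x‖ ^ 2 ≤ (2 * d / ℓ) ^ 2 * ∑' x, ‖u x‖ ^ 2 := by
    refine (Summable.tsum_le_tsum hfb hfs (n1.mul_left _)).trans (le_of_eq ?_)
    rw [tsum_mul_left, n2]
    ring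
  have h3 := green_norm ht h
  rw [le_div_iff₀ (by positivity)]
  calc (∑' x, ‖((1 - φ ℓ x : ℝ) : ℂ) * u x‖ ^ 2) * t ^ 4 =
      t ^ 2 * (t ^ 2 * ∑' x, ‖((1 - φ ℓ x : ℝ) : ℂ) * u x‖ ^ 2) := by ring
    _ ≤ t ^ 2 * ((2 * d / ℓ) ^ 2 * ∑' x, ‖u x‖ ^ 2) :=
        mul_le_mul_of_nonneg_left (h1.trans h2) (by positivity)
    _ = (2 * d / ℓ) ^ 2 * (t ^ 2 * ∑' x, ‖u x‖ ^ 2) := by ring
    _ ≤ (2 * d / ℓ) ^ 2 * 1 := by gcongr
    _ = _ := mul_one _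

variable {L : ℕ} [NeZero L]

/-- one step for complex functions -/
theorem stepC (ℓ : ℝ) (hℓ : 0 < ℓ) (hL : 4 * ℓ + 4 < L) (u : Zd d → ℂ) (y : T d L) (i : Fin d) :
    ‖((φ ℓ (lf (y + Pi.single i 1)) : ℝ) : ℂ) * u (lf (y + Pi.single i 1)) -
        ((φ ℓ (lf y) : ℝ) : ℂ) * u (lf y + Pi.single i 1)‖ ≤ 1 / ℓ * ‖u (lf y + Pi.single i 1)‖ ∧
    ‖((φ ℓ (lf (y - Pi.single i 1)) : ℝ) : ℂ) * u (lf (y - Pi.single i 1)) -
        ((φ ℓ (lf y) : ℝ) : ℂ) * u (lf y - Pi.single i 1)‖ ≤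
      1 / ℓ * ‖u (lf y - Pi.single i 1)‖ := by
  obtain ⟨a1, a2⟩ := Pool.Agent.W788.MFP.Cut.step ℓ hℓ hL (fun x => (u x).re) y i
  obtain ⟨b1, b2⟩ := Pool.Agent.W788.MFP.Cut.step ℓ hℓ hL (fun x => (u x).im) y i
  have key : ∀ (A B : ℂ) (q : ℝ), 0 ≤ q → |A.re| ≤ q * |B.re| → |A.im| ≤ q * |B.im| →
      ‖A‖ ≤ q * ‖B‖ := by
    intro A B q hq h1 h2
    have h3 : ‖A‖ ^ 2 ≤ (q * ‖B‖) ^ 2 := by
      rw [mul_pow, ← Complex.normSq_eq_norm_sq, ← Complex.normSq_eq_norm_sq,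
        Complex.normSq_apply, Complex.normSq_apply]
      have e1 := pow_le_pow_left₀ (abs_nonneg _) h1 2
      have e2 := pow_le_pow_left₀ (abs_nonneg _) h2 2
      rw [mul_pow, sq_abs, sq_abs] at e1 e2
      nlinarith
    exact (sq_le_sq₀ (norm_nonneg _) (by positivity)).1 h3
  constructor
  · apply key _ _ _ (by positivity)
    · rw [Complex.sub_re, Complex.re_ofReal_mul, Complex.re_ofReal_mul]
      exact a1
    · rw [Complex.sub_im, Complex.im_ofReal_mul, Complex.im_ofReal_mul]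
      exact b1
  · apply key _ _ _ (by positivity)
    · rw [Complex.sub_re, Complex.re_ofReal_mul, Complex.re_ofReal_mul]
      exact a2
    · rw [Complex.sub_im, Complex.im_ofReal_mul, Complex.im_ofReal_mul]
      exact b2

theorem X0_mulVec (E : ℝ) (v : T d L → ℂ) (x : T d L) :
    (X0 E *ᵥ v) x = ∑ i, (v (x + Pi.single i 1) + v (x - Pi.single i 1)) - E * v x := by
  have h : ∀ f : T d L → ℝ, ∑ y, K (fun k : T d L => adj k - E) (x - y) * f y =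
      ∑ i, (f (x + Pi.single i 1) + f (x - Pi.single i 1)) - E * f x := fun f =>
    congrFun (Op_adj E f) x
  unfold Matrix.mulVec dotProduct X0
  simp only [Matrix.of_apply]
  apply Complex.ext
  · rw [Complex.re_sum]
    simp only [Complex.re_ofReal_mul]
    rw [h fun y => (v y).re]
    simp only [Complex.sub_re, Complex.re_sum, Complex.add_re, Complex.re_ofReal_mul]
  · rw [Complex.im_sum]
    simp only [Complex.im_ofReal_mul]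
    rw [h fun y => (v y).im]
    simp only [Complex.sub_im, Complex.im_sum, Complex.add_im, Complex.im_ofReal_mul]

theorem HZ_mulVec (σ E t : ℝ) (V : T d L → ℝ) (v : T d L → ℂ) (x : T d L) :
    (HZ σ E t V *ᵥ v) x = ∑ i, (v (x + Pi.single i 1) + v (x - Pi.single i 1)) +
      σ * V x * v x - ((E : ℂ) + (t : ℂ) * Complex.I) * v x := by
  unfold HZ
  rw [Matrix.sub_mulVec, Matrix.add_mulVec, Pi.sub_apply, Pi.add_apply, X0_mulVec,
    Matrix.mulVec_diagonal, Matrix.smul_mulVec, Matrix.one_mulVec, Pi.smul_apply, smul_eq_mul]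
  ring

/-- comparison with the torus -/
theorem near {σ E t ℓ : ℝ} (ht : 0 < t) (hℓ : 0 < ℓ) (hL : 4 * ℓ + 4 < L) {ω : Zd d → ℝ}
    {u : Zd d → ℂ} (h : IsGreen d σ ((E : ℂ) + (t : ℂ) * Complex.I) ω u) :
    ∑ y : T d L, ‖((φ ℓ (lf y) : ℝ) : ℂ) * u (lf y) - R σ E t (fun y => ω (lf y)) 0 y‖ ^ 2 ≤
      (2 * d / ℓ) ^ 2 / t ^ 4 := by
  obtain ⟨v, hv⟩ : ∃ v : T d L → ℂ, v = fun y => ((φ ℓ (lf y) : ℝ) : ℂ) * u (lf y) := ⟨_, rfl⟩
  obtain ⟨r, hr⟩ : ∃ r : T d L → ℂ, r = fun y => ∑ i : Fin d,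
    ((((φ ℓ (lf (y + Pi.single i 1)) : ℝ) : ℂ) * u (lf (y + Pi.single i 1)) -
        ((φ ℓ (lf y) : ℝ) : ℂ) * u (lf y + Pi.single i 1)) +
     (((φ ℓ (lf (y - Pi.single i 1)) : ℝ) : ℂ) * u (lf (y - Pi.single i 1)) -
        ((φ ℓ (lf y) : ℝ) : ℂ) * u (lf y - Pi.single i 1))) := ⟨_, rfl⟩
  have hlf0 : ∀ y : T d L, lf y = 0 ↔ y = 0 := by
    intro y
    have h0 : lf (0 : T d L) = 0 := by
      funext i
      simp [lf]
    constructor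
    · intro hy
      exact lf_inj (hy.trans h0.symm)
    · intro hy
      rw [hy, h0]
  have hvr : HZ σ E t (fun y => ω (lf y)) *ᵥ v = Pi.single 0 1 + r := by
    funext x
    rw [HZ_mulVec, Pi.add_apply]
    have h1 := h.2 (lf x)
    have h2 : ((φ ℓ (lf x) : ℝ) : ℂ) * (if lf x = 0 then (1 : ℂ) else 0) =
        (Pi.single 0 1 : T d L → ℂ) x := by
      by_cases hx : x = 0
      · subst hx
        rw [if_pos ((hlf0 0).2 rfl), (hlf0 0).2 rfl,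
          φ_one ℓ hℓ 0 (by rw [norm_zero]; exact hℓ.le)]
        simp
      · rw [if_neg (fun hh => hx ((hlf0 x).1 hh)), mul_zero, Pi.single_eq_of_ne hx]
    rw [← h2, ← h1, hr, hv]
    simp only
    have h3 : ∑ i : Fin d,
        ((((φ ℓ (lf (x + Pi.single i 1)) : ℝ) : ℂ) * u (lf (x + Pi.single i 1)) -
            ((φ ℓ (lf x) : ℝ) : ℂ) * u (lf x + Pi.single i 1)) +
         (((φ ℓ (lf (x - Pi.single i 1)) : ℝ) : ℂ) * u (lf (x - Pi.single i 1)) -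
            ((φ ℓ (lf x) : ℝ) : ℂ) * u (lf x - Pi.single i 1))) =
        ∑ i : Fin d, (((φ ℓ (lf (x + Pi.single i 1)) : ℝ) : ℂ) * u (lf (x + Pi.single i 1)) +
          ((φ ℓ (lf (x - Pi.single i 1)) : ℝ) : ℂ) * u (lf (x - Pi.single i 1))) -
        ((φ ℓ (lf x) : ℝ) : ℂ) *
          ∑ i : Fin d, (u (lf x + Pi.single i 1) + u (lf x - Pi.single i 1)) := by
      rw [Finset.mul_sum, ← Finset.sum_sub_distrib]
      exact Finset.sum_congr rfl fun i _ => by ring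
    rw [h3]
    ring
  have h4 : v = (fun y => R σ E t (fun y => ω (lf y)) 0 y) +
      R σ E t (fun y => ω (lf y)) *ᵥ r := by
    have h5 : R σ E t (fun y => ω (lf y)) *ᵥ (HZ σ E t (fun y => ω (lf y)) *ᵥ v) = v := by
      rw [Matrix.mulVec_mulVec, mul_HZ ht, Matrix.one_mulVec]
    rw [← h5, hvr, Matrix.mulVec_add, Matrix.mulVec_single_one]
    congr 1
    funext y
    rw [R_symm]
    rfl
  have h5 : ∑ y : T d L, ‖v y - R σ E t (fun y => ω (lf y)) 0 y‖ ^ 2 ≤ (t ^ 2)⁻¹ * nsq r := by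
    have h6 := RR_bd (X0_herm E) (AS_herm σ) ht (fun y : T d L => ω (lf y)) r
    refine le_trans (le_of_eq ?_) h6
    unfold nsq
    refine Finset.sum_congr rfl fun y _ => ?_
    have h7 := congrFun h4 y
    rw [Pi.add_apply] at h7
    rw [h7, add_sub_cancel_left]
    rfl
  have hrb : ∀ y, ‖r y‖ ^ 2 ≤ 2 * d * (1 / ℓ) ^ 2 *
      ∑ i : Fin d, (‖u (lf y + Pi.single i 1)‖ ^ 2 + ‖u (lf y - Pi.single i 1)‖ ^ 2) := by
    intro y
    rw [hr]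
    exact sq_sum_two _ _ _ _ _ (fun i => (stepC ℓ hℓ hL u y i).1)
      fun i => (stepC ℓ hℓ hL u y i).2
  obtain ⟨n1, n2⟩ := nbr_sum h.1
  have h6 : nsq r ≤ (2 * d / ℓ) ^ 2 * ∑' x, ‖u x‖ ^ 2 := by
    unfold nsq
    refine (Finset.sum_le_sum fun y _ => hrb y).trans ?_
    rw [← Finset.mul_sum]
    have h7 := sum_lf (L := L) (fun x : Zd d =>
      ∑ i : Fin d, (‖u (x + Pi.single i 1)‖ ^ 2 + ‖u (x - Pi.single i 1)‖ ^ 2))
      (fun x => Finset.sum_nonneg fun _ _ => by positivity) n1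
    rw [n2] at h7
    calc 2 * d * (1 / ℓ) ^ 2 * ∑ y : T d L, ∑ i : Fin d, (‖u (lf y + Pi.single i 1)‖ ^ 2 +
          ‖u (lf y - Pi.single i 1)‖ ^ 2) ≤ 2 * d * (1 / ℓ) ^ 2 * (2 * d * ∑' x, ‖u x‖ ^ 2) := by
          gcongr
      _ = _ := by ring
  have h8 := green_norm ht h
  rw [hv] at h5
  refine h5.trans ?_
  rw [le_div_iff₀ (by positivity)]
  calc (t ^ 2)⁻¹ * nsq r * t ^ 4 = t ^ 2 * nsq r := by
        field_simp
    _ ≤ t ^ 2 * ((2 * d / ℓ) ^ 2 * ∑' x, ‖u x‖ ^ 2) := by gcongr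
    _ = (2 * d / ℓ) ^ 2 * (t ^ 2 * ∑' x, ‖u x‖ ^ 2) := by ring
    _ ≤ (2 * d / ℓ) ^ 2 * 1 := by gcongr
    _ = _ := mul_one _

end Pool.Agent.Run7.h47
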