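import Pool.Agent.Run7.h47.Teq
import Pool.Agent.W788.MFP.Site

/-! The resolvent equation on the lattice. -/

set_option autoImplicit false
set_option linter.unusedSectionVars false

open scoped BigOperators
open MeasureTheory

namespace Pool.Agent.Run7.h47

open Pool.Agent.H4R2.LO (Zd)

variable {d : ℕ}

/-- `u` is a square summable solution of `(Δ + σ ω - z) u = δ_0` -/
def IsGreen (d : ℕ) (σ : ℝ) (z : ℂ) (ω : Zd d → ℝ) (u : Zd d → ℂ) : Prop :=
  (Summable fun x => ‖u x‖ ^ 2) ∧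
  ∀ x, ∑ i, (u (x + Pi.single i 1) + u (x - Pi.single i 1)) + σ * ω x * u x - z * u x =
    if x = 0 then 1 else 0

theorem summ_shift {F : Zd d → ℝ} (h : Summable F) (a : Zd d) : Summable fun x => F (x + a) :=
  (Equiv.addRight a).summable_iff.2 h

theorem tsum_shift (F : Zd d → ℝ) (a : Zd d) : ∑' x, F (x + a) = ∑' x, F x :=
  (Equiv.addRight a).tsum_eq F

theorem summ_prod {w v : Zd d → ℂ} (hw : Summable fun x => ‖w x‖ ^ 2)
    (hv : Summable fun x => ‖v x‖ ^ 2) :
    Summable fun x => ((starRingEnd ℂ) (w x) * v x).im := by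
  refine Summable.of_norm_bounded (g := fun x => ‖w x‖ ^ 2 + ‖v x‖ ^ 2) (hw.add hv) fun x => ?_
  rw [Real.norm_eq_abs]
  refine (Complex.abs_im_le_norm _).trans ?_
  rw [norm_mul, RCLike.norm_conj]
  nlinarith [sq_nonneg (‖w x‖ - ‖v x‖), norm_nonneg (w x), norm_nonneg (v x)]

/-- **the a priori bound** -/
theorem apriori {σ E t : ℝ} (ht : 0 < t) (ω : Zd d → ℝ) {w f : Zd d → ℂ}
    (hw : Summable fun x => ‖w x‖ ^ 2) (hf : Summable fun x => ‖f x‖ ^ 2)
    (h : ∀ x, ∑ i, (w (x + Pi.single i 1) + w (x - Pi.single i 1)) + σ * ω x * w x -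
      ((E : ℂ) + (t : ℂ) * Complex.I) * w x = f x) :
    t ^ 2 * ∑' x, ‖w x‖ ^ 2 ≤ ∑' x, ‖f x‖ ^ 2 := by
  have hsp : ∀ i : Fin d, Summable fun x => ‖w (x + Pi.single i 1)‖ ^ 2 := fun i =>
    summ_shift hw (Pi.single i 1)
  have hsm : ∀ i : Fin d, Summable fun x => ‖w (x - Pi.single i 1)‖ ^ 2 := fun i => by
    have := summ_shift hw (-Pi.single i 1)
    simpa only [← sub_eq_add_neg] using this
  have hA : ∀ i : Fin d, Summable fun x => ((starRingEnd ℂ) (w x) * w (x + Pi.single i 1)).im :=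
    fun i => summ_prod hw (hsp i)
  have hB : ∀ i : Fin d, Summable fun x => ((starRingEnd ℂ) (w x) * w (x - Pi.single i 1)).im :=
    fun i => summ_prod hw (hsm i)
  have hAB : ∀ i : Fin d, ∑' x, (((starRingEnd ℂ) (w x) * w (x + Pi.single i 1)).im +
      ((starRingEnd ℂ) (w x) * w (x - Pi.single i 1)).im) = 0 := by
    intro i
    have h1 : ∀ x : Zd d, ((starRingEnd ℂ) (w (x + Pi.single i 1)) *
        w (x + Pi.single i 1 - Pi.single i 1)).im =
        -((starRingEnd ℂ) (w x) * w (x + Pi.single i 1)).im := by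
      intro x
      rw [add_sub_cancel_right]
      have : (starRingEnd ℂ) (w (x + Pi.single i 1)) * w x =
          (starRingEnd ℂ) ((starRingEnd ℂ) (w x) * w (x + Pi.single i 1)) := by
        rw [map_mul, Complex.conj_conj]
        ring
      rw [this, Complex.conj_im]
    have h2 : ∑' x, ((starRingEnd ℂ) (w x) * w (x - Pi.single i 1)).im =
        -∑' x, ((starRingEnd ℂ) (w x) * w (x + Pi.single i 1)).im := by
      refine ((tsum_shift (fun x => ((starRingEnd ℂ) (w x) * w (x - Pi.single i 1)).im)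
        (Pi.single i 1)).symm).trans ?_
      rw [← tsum_neg]
      exact tsum_congr h1
    rw [(hA i).tsum_add (hB i), h2]
    ring
  have hS : Summable fun x => ∑ i : Fin d, (((starRingEnd ℂ) (w x) * w (x + Pi.single i 1)).im +
      ((starRingEnd ℂ) (w x) * w (x - Pi.single i 1)).im) :=
    summable_sum fun i _ => (hA i).add (hB i)
  have hS0 : ∑' x, ∑ i : Fin d, (((starRingEnd ℂ) (w x) * w (x + Pi.single i 1)).im +
      ((starRingEnd ℂ) (w x) * w (x - Pi.single i 1)).im) = 0 := by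
    rw [Summable.tsum_finsetSum fun i _ => (hA i).add (hB i)]
    exact Finset.sum_eq_zero fun i _ => hAB i
  have hpt : ∀ x, t / 2 * ‖w x‖ ^ 2 ≤
      ∑ i : Fin d, (((starRingEnd ℂ) (w x) * w (x + Pi.single i 1)).im +
      ((starRingEnd ℂ) (w x) * w (x - Pi.single i 1)).im) + 1 / (2 * t) * ‖f x‖ ^ 2 := by
    intro x
    have h1 : (starRingEnd ℂ) (w x) * f x =
        ∑ i : Fin d, ((starRingEnd ℂ) (w x) * w (x + Pi.single i 1) +
          (starRingEnd ℂ) (w x) * w (x - Pi.single i 1)) +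
        ((σ * ω x - E : ℝ) : ℂ) * ((‖w x‖ ^ 2 : ℝ) : ℂ) -
          ((t * ‖w x‖ ^ 2 : ℝ) : ℂ) * Complex.I := by
      have e1 : (starRingEnd ℂ) (w x) * w x = ((‖w x‖ ^ 2 : ℝ) : ℂ) := by
        rw [mul_comm, Complex.mul_conj, Complex.normSq_eq_norm_sq]
      rw [← h x, mul_sub, mul_add, Finset.mul_sum]
      simp only [mul_add]
      push_cast at e1 ⊢
      linear_combination (σ * ω x - E - t * Complex.I) * e1
    have h2 := congrArg Complex.im h1
    rw [Complex.sub_im, Complex.add_im, Complex.im_sum, ← Complex.ofReal_mul, Complex.ofReal_im,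
      Complex.im_ofReal_mul, Complex.I_im] at h2
    simp only [Complex.add_im] at h2
    have h3 : ((starRingEnd ℂ) (w x) * f x).im ≥ -(‖w x‖ * ‖f x‖) := by
      have := Complex.abs_im_le_norm ((starRingEnd ℂ) (w x) * f x)
      rw [norm_mul, RCLike.norm_conj] at this
      exact (abs_le.1 this).1
    have h4 : ‖w x‖ * ‖f x‖ ≤ t / 2 * ‖w x‖ ^ 2 + 1 / (2 * t) * ‖f x‖ ^ 2 := by
      have e1 : t / 2 * ‖w x‖ ^ 2 + 1 / (2 * t) * ‖f x‖ ^ 2 - ‖w x‖ * ‖f x‖ =
          1 / (2 * t) * (t * ‖w x‖ - ‖f x‖) ^ 2 := by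
        field_simp
        ring
      have e2 : 0 ≤ 1 / (2 * t) * (t * ‖w x‖ - ‖f x‖) ^ 2 := by positivity
      linarith
    linarith
  have hfin := Summable.tsum_le_tsum hpt (hw.mul_left _) (hS.add (hf.mul_left _))
  rw [hS.tsum_add (hf.mul_left _), hS0, zero_add, tsum_mul_left, tsum_mul_left] at hfin
  have h5 : t ^ 2 * ∑' x, ‖w x‖ ^ 2 = 2 * t * (t / 2 * ∑' x, ‖w x‖ ^ 2) := by ring
  have h6 : ∑' x, ‖f x‖ ^ 2 = 2 * t * (1 / (2 * t) * ∑' x, ‖f x‖ ^ 2) := by
    field_simp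
  rw [h5, h6]
  gcongr

theorem delta_sum : ∑' x : Zd d, ‖(if x = 0 then (1 : ℂ) else 0)‖ ^ 2 = 1 := by
  rw [tsum_eq_single 0]
  · simp
  · intro x hx
    simp [hx]

theorem delta_summ : Summable fun x : Zd d => ‖(if x = 0 then (1 : ℂ) else 0)‖ ^ 2 := by
  refine summable_of_ne_finset_zero (s := {0}) fun x hx => ?_
  have : x ≠ 0 := by simpa using hx
  simp [this]

/-- the norm of the Green function -/
theorem green_norm {σ E t : ℝ} (ht : 0 < t) {ω : Zd d → ℝ} {u : Zd d → ℂ}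
    (h : IsGreen d σ ((E : ℂ) + (t : ℂ) * Complex.I) ω u) :
    t ^ 2 * ∑' x, ‖u x‖ ^ 2 ≤ 1 := by
  rw [← delta_sum (d := d)]
  exact apriori ht ω h.1 delta_summ h.2

/-- uniqueness -/
theorem green_unique {σ E t : ℝ} (ht : 0 < t) {ω : Zd d → ℝ} {u v : Zd d → ℂ}
    (hu : IsGreen d σ ((E : ℂ) + (t : ℂ) * Complex.I) ω u)
    (hv : IsGreen d σ ((E : ℂ) + (t : ℂ) * Complex.I) ω v) : u = v := by
  have hs : Summable fun x => ‖u x - v x‖ ^ 2 := by
    refine Summable.of_nonneg_of_le (fun x => by positivity) (fun x => ?_)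
      ((hu.1.mul_left 2).add (hv.1.mul_left 2))
    have h1 := norm_sub_le (u x) (v x)
    have h2 : ‖u x - v x‖ ^ 2 ≤ (‖u x‖ + ‖v x‖) ^ 2 := pow_le_pow_left₀ (norm_nonneg _) h1 2
    nlinarith [sq_nonneg (‖u x‖ - ‖v x‖)]
  have h1 := apriori ht ω (w := fun x => u x - v x) (f := fun _ => 0) (σ := σ) (E := E) hs
    (by simp [summable_zero]) (by
      intro x
      have h2 := hu.2 x
      have h3 := hv.2 x
      have h4 : ∑ i : Fin d, (u (x + Pi.single i 1) - v (x + Pi.single i 1) +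
          (u (x - Pi.single i 1) - v (x - Pi.single i 1))) =
          ∑ i : Fin d, (u (x + Pi.single i 1) + u (x - Pi.single i 1)) -
          ∑ i : Fin d, (v (x + Pi.single i 1) + v (x - Pi.single i 1)) := by
        rw [← Finset.sum_sub_distrib]
        exact Finset.sum_congr rfl fun i _ => by ring
      rw [h4]
      linear_combination h2 - h3)
  simp only [norm_zero, ne_eq, OfNat.ofNat_ne_zero, not_false_eq_true, zero_pow, tsum_zero] at h1
  have h2 : ∑' x, ‖u x - v x‖ ^ 2 ≤ 0 := by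
    by_contra hcon
    push Not at hcon
    have : 0 < t ^ 2 * ∑' x, ‖u x - v x‖ ^ 2 := by positivity
    linarith
  funext x
  have h3 := hs.le_tsum x fun y _ => by positivity
  have h4 : ‖u x - v x‖ ^ 2 = 0 := le_antisymm (h3.trans h2) (by positivity)
  exact sub_eq_zero.1 (norm_eq_zero.1 (by simpa using h4))

end Pool.Agent.Run7.h47
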